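import Pool.Agent.Run7.h707.TF.FinX

/-! The Fermat hypersurfaces -/

set_option autoImplicit false
set_option linter.unusedVariables false
set_option linter.unusedSectionVars false

open scoped Classical

namespace Run7.h707.TF

open Finset Filter NumberField
open Pool.Agent.N883.DQ (Dt)
open Pool.Agent.N883.FG
open Pool.Agent.Y692.QS (Ei w nr)
open Run7.h707.TE

section
variable {K : Type} [Field K] [NumberField K] {r : ℕ}

theorem dt_one {m : ℕ} (T : Finset (Fin m)) : Dt (fun _ => (1 : 𝓞 K)) T = 1 := by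
  unfold Pool.Agent.N883.DQ.Dt
  simp

theorem bp_nil (d : Fin 0 → 𝓞 K) (μ : Fin 0 → ZMod 3) : bp d μ = 1 := by
  unfold Run7.h707.TE.bp
  simp

/-- the number of the classes for the Fermat hypersurfaces -/
theorem card_sys {J₀ : Type} [Fintype J₀] [Nonempty J₀] {C : J₀ → 𝓞 K} (hC : ∀ t, C t = 1)
    {d : Fin 0 → 𝓞 K} {R : Finset (IX J₀ 0 r)} (hR : ∀ t ∈ R, ∀ t' ∈ R, t ≠ t' → ¬ Rx C d t t')
    (hR' : ∀ t, ∃ t' ∈ R, Rx C d t t') : 2 * R.card = 3 ^ r - 1 := by
  have hrx : ∀ t t' : IX J₀ 0 r, (∃ e : ℕ, (e = 1 ∨ e = 2) ∧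
      ∀ k, t.2.2.1 k + e * t'.2.2.1 k = 0) → Rx C d t t' := by
    rintro t t' ⟨e, he, hk⟩
    exact ⟨e, he, hk, 1, by rw [hC, hC, bp_nil, bp_nil]; ring⟩
  have h1 : (R ×ˢ (univ : Finset (Fin 2))).card =
      (univ.filter fun ν : Fin r → ZMod 3 => ν ≠ 0).card := by
    refine card_bij (fun q _ => if q.2 = 0 then q.1.2.2.1 else -q.1.2.2.1) ?_ ?_ ?_
    · intro q _
      rw [mem_filter]
      refine ⟨mem_univ _, ?_⟩
      split_ifs
      · exact q.1.2.2.2
      · exact neg_ne_zero.2 q.1.2.2.2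
    · intro q hq q' hq' h
      have hqR := (mem_product.1 hq).1
      have hqR' := (mem_product.1 hq').1
      have e1 : ∀ a b : Fin r → ZMod 3, a = b → ∀ k, a k + (2 : ℕ) * b k = 0 := by
        rintro a b rfl k
        have : ∀ x : ZMod 3, x + (2 : ℕ) * x = 0 := by decide
        exact this _
      have e2 : ∀ a b : Fin r → ZMod 3, a = -b → ∀ k, a k + (1 : ℕ) * b k = 0 := by
        rintro a b rfl k
        rw [Pi.neg_apply]
        have : ∀ x : ZMod 3, -x + (1 : ℕ) * x = 0 := by decide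
        exact this _
      have h11 : q.1 = q'.1 := by
        by_contra hne
        refine hR _ hqR _ hqR' hne (hrx _ _ ?_)
        split_ifs at h with h3 h4 h4
        · exact ⟨2, Or.inr rfl, e1 _ _ h⟩
        · exact ⟨1, Or.inl rfl, e2 _ _ h⟩
        · exact ⟨1, Or.inl rfl, e2 _ _ (by rw [← h, neg_neg])⟩
        · exact ⟨2, Or.inr rfl, e1 _ _ (neg_injective h)⟩
      refine Prod.ext h11 ?_
      rw [h11] at h
      have hne2 : q'.1.2.2.1 ≠ -q'.1.2.2.1 := by
        intro h5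
        apply q'.1.2.2.2
        funext k
        have h6 := congrFun h5 k
        rw [Pi.neg_apply] at h6
        have : ∀ x : ZMod 3, x = -x → x = 0 := by decide
        exact this _ h6
      have hf : ∀ x : Fin 2, x ≠ 0 → x = 1 := by decide
      split_ifs at h with h3 h4 h4
      · rw [h3, h4]
      · exact absurd h hne2
      · exact absurd h.symm hne2
      · rw [hf _ h3, hf _ h4]
    · intro ν hν
      rw [mem_filter] at hν
      obtain ⟨t₀⟩ := (inferInstance : Nonempty J₀)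
      obtain ⟨t', ht', e, he, hk, -⟩ := hR' (t₀, default, ⟨ν, hν.2⟩)
      rcases he with rfl | rfl
      · refine ⟨(t', 1), mem_product.2 ⟨ht', mem_univ _⟩, ?_⟩
        have h7 : ¬ ((t', (1 : Fin 2)).2 = 0) := by
          intro h8
          exact absurd (show (1 : Fin 2) = 0 from h8) (by decide)
        rw [if_neg h7]
        funext k
        have := hk k
        rw [Pi.neg_apply]
        have h5 : ∀ x y : ZMod 3, x + (1 : ℕ) * y = 0 → -y = x := by decide
        exact h5 _ _ this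
      · refine ⟨(t', 0), mem_product.2 ⟨ht', mem_univ _⟩, ?_⟩
        rw [if_pos rfl]
        funext k
        have := hk k
        have h5 : ∀ x y : ZMod 3, x + (2 : ℕ) * y = 0 → y = x := by decide
        exact h5 _ _ this
  rw [card_product, card_univ, Fintype.card_fin] at h1
  have h2 : (univ.filter fun ν : Fin r → ZMod 3 => ν ≠ 0).card = 3 ^ r - 1 := by
    rw [filter_ne', card_erase_of_mem (mem_univ _), card_univ, Fintype.card_fun, ZMod.card,
      Fintype.card_fin]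
  rw [h2] at h1
  omega

theorem kapX_ferm (j : Ei ≃+* 𝓞 K) (hj : ∀ z : Ei, Algebra.norm ℤ (j z) = nr z) {J₀ : Type}
    [Fintype J₀] [Nonempty J₀] {C : J₀ → 𝓞 K} (hC : ∀ t, C t = 1) {d : Fin 0 → 𝓞 K} :
    kapX C d r = ({u : Fin r → ZMod 3 × ZMod 3 | ∀ ν : Fin r → ZMod 3, ν ≠ 0 →
      ∑ k, (ν k).val • u k ≠ 0}.ncard : ℝ) / 9 ^ r := by
  have hcl : ∀ ν : {ν : Fin r → ZMod 3 // ν ≠ 0}, IsCl (j w) (1 : 𝓞 K) 0 := fun _ => isCl_one
  have h1 := kapJ_reps j hj (fun (ν : {ν : Fin r → ZMod 3 // ν ≠ 0}) (k : Fin r) =>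
    (ν.1 k).val) (fun _ => 1) _ hcl
  rw [Fintype.card_fin] at h1
  have h2 : kapX C d r = kapJ (fun (ν : {ν : Fin r → ZMod 3 // ν ≠ 0}) (k : Fin r) =>
      (ν.1 k).val) (fun _ => 0) := by
    rw [h1]
    unfold kapX
    congr 3
    ext u
    simp only [← bp_eq_dO, Set.mem_ofPred_eq, Subtype.forall, hC, bp_nil, one_mul, mul_one,
      forall_const]
  rw [h2]
  unfold kapJ
  simp only [add_zero, Subtype.forall, Fintype.card_fin]

theorem c1 : (@Finset.filter (Fin 1 → ZMod 3 × ZMod 3) (fun u => ∀ ν : Fin 1 → ZMod 3, ν ≠ 0 →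
    ∑ k, (ν k).val • u k ≠ 0) (fun _ => inferInstance) univ).card = 8 := by
  decide +kernel

theorem c2 : (@Finset.filter (Fin 2 → ZMod 3 × ZMod 3) (fun u => ∀ ν : Fin 2 → ZMod 3, ν ≠ 0 →
    ∑ k, (ν k).val • u k ≠ 0) (fun _ => inferInstance) univ).card = 48 := by
  decide +kernel

theorem ferm_one (j : Ei ≃+* 𝓞 K) (hj : ∀ z : Ei, Algebra.norm ℤ (j z) = nr z) {J₀ : Type}
    [Fintype J₀] [Nonempty J₀] {C : J₀ → 𝓞 K} (hC : ∀ t, C t = 1) {d : Fin 0 → 𝓞 K} :
    kapX C d 1 = 8 / 9 ∧ kapX C d 2 = 16 / 27 := by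
  constructor
  · rw [kapX_ferm j hj hC]
    have : {u : Fin 1 → ZMod 3 × ZMod 3 | ∀ ν : Fin 1 → ZMod 3, ν ≠ 0 →
        ∑ k, (ν k).val • u k ≠ 0}.ncard = 8 := by
      rw [← c1, ← Set.ncard_coe_finset]
      congr 1
      ext u
      simp only [Set.mem_ofPred_eq, coe_filter, mem_univ, true_and]
    rw [this]
    norm_num
  · rw [kapX_ferm j hj hC]
    have : {u : Fin 2 → ZMod 3 × ZMod 3 | ∀ ν : Fin 2 → ZMod 3, ν ≠ 0 →
        ∑ k, (ν k).val • u k ≠ 0}.ncard = 48 := by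
      rw [← c2, ← Set.ncard_coe_finset]
      congr 1
      ext u
      simp only [Set.mem_ofPred_eq, coe_filter, mem_univ, true_and]
    rw [this]
    norm_num

end

end Run7.h707.TF
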