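import Pool.Agent.Run7.h707.TF.FinS

/-! The final statement: a fixed hypersurface, all the extensions of a fixed field -/

set_option autoImplicit false
set_option linter.unusedVariables false
set_option linter.unusedSectionVars false

open scoped Classical

namespace Run7.h707.TF

open Finset Filter NumberField IsDedekindDomain WeierstrassCurve
open Pool.Agent.N883.FG
open Pool.Agent.N883.DQ (Dt)
open Pool.Agent.Y692.QS (Ei w nr)
open Pool.Agent.Y703.XK (c9)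
open Pool.Agent.Y696.CTK (ED Tri)
open Pool.Agent.TH841.NF.D (Sha)
open Run7.h707.TC (FamO ExO IsLFT mem_SS)
open Run7.h707.TE

section
variable {K : Type} [Field K] [NumberField K] {s r : ℕ}

/-- the proportion is positive as soon as there is one tuple -/
theorem kapX_pos (j : Ei ≃+* 𝓞 K) (hj : ∀ z : Ei, Algebra.norm ℤ (j z) = nr z) {J₀ : Type}
    {C : J₀ → 𝓞 K} (hC : ∀ t, ∃ c, IsCl (j w) (C t) c) {d : Fin s → 𝓞 K} (hd : ∀ i, FamO (d i))
    {a : Fin r → 𝓞 K} (ha : ∀ i, FamO (a i))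
    (h : ∀ (t : J₀) (μ : Fin s → ZMod 3) (ν : Fin r → ZMod 3), ν ≠ 0 →
      ¬ ExO (C t * bp d μ * bp a ν)) : 0 < kapX C d r := by
  choose ca hca using fun i => isCl_ex j hj (ha i)
  choose cd hcd using fun i => isCl_ex j hj (hd i)
  choose cc hcc using hC
  unfold kapX
  refine div_pos ?_ (by positivity)
  rw [Nat.cast_pos]
  have hfin : {u : Fin r → 𝓞 K | (∀ k, u k ∈ reps K) ∧ ∀ (t : J₀) (μ : Fin s → ZMod 3)
      (ν : Fin r → ZMod 3), ν ≠ 0 → ¬ Nm1 (C t * bp d μ * bp u ν)}.Finite := by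
    have h1 : (Set.range fun (c : Fin r → ZMod 3 × ZMod 3) (k : Fin r) => rp j (c k)).Finite :=
      Set.finite_range _
    refine h1.subset fun u hu => ?_
    have h2 : ∀ k, ∃ c, rp j c = u k := fun k => by
      have := hu.1 k
      rw [← rp_range j] at this
      exact this
    choose c hc using h2
    exact ⟨c, funext hc⟩
  rw [Set.ncard_pos hfin]
  refine ⟨fun k => rp j (ca k), fun k => ?_, fun t μ ν hν hp => ?_⟩
  · rw [← rp_range j]
    exact ⟨_, rfl⟩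
  · apply h t μ ν hν
    have h3 : IsCl (j w) (C t * bp d μ * bp (fun k => rp j (ca k)) ν)
        (cc t + ∑ i, (μ i).val • cd i + ∑ k, (ν k).val • ca k) :=
      isCl_mul (w3 j) (isCl_mul (w3 j) (hcc t) (isCl_bp (w3 j) hcd μ))
        (isCl_bp (w3 j) (fun k => rp_cl j hj _) ν)
    have h4 : IsCl (j w) (C t * bp d μ * bp a ν)
        (cc t + ∑ i, (μ i).val • cd i + ∑ k, (ν k).val • ca k) :=
      isCl_mul (w3 j) (isCl_mul (w3 j) (hcc t) (isCl_bp (w3 j) hcd μ))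
        (isCl_bp (w3 j) hca ν)
    unfold Nm1 at hp
    rw [← isCl_zero (ω := j w)] at hp
    rw [exO_cl j hj h4]
    exact Or.inr (isCl_unique j hj h3 hp)

theorem rx_refl {J₀ : Type} [Fintype J₀] {C : J₀ → 𝓞 K} {d : Fin s → 𝓞 K} (t : IX J₀ s r) :
    Rx C d t t := ⟨2, Or.inr rfl, fun k => by
      have : ∀ x : ZMod 3, x + (2 : ℕ) * x = 0 := by decide
      exact this _, C t.1 * bp d t.2.1, by ring⟩

theorem rx_symm {J₀ : Type} [Fintype J₀] {C : J₀ → 𝓞 K} (hC : ∀ t, C t ≠ 0) {d : Fin s → 𝓞 K}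
    (hd : ∀ i, d i ≠ 0) (t t' : IX J₀ s r) (h : Rx C d t t') : Rx C d t' t := by
  obtain ⟨e, he, hk, x, hx⟩ := h
  have h0 : ∀ t : IX J₀ s r, C t.1 * bp d t.2.1 ≠ 0 := fun t =>
    mul_ne_zero (hC _) (Finset.prod_ne_zero_iff.2 fun i _ => pow_ne_zero _ (hd i))
  refine ⟨e, he, fun k => ?_, rel_symm (h0 t') he hx⟩
  have h1 := hk k
  rcases he with rfl | rfl
  · have : ∀ x y : ZMod 3, x + (1 : ℕ) * y = 0 → y + (1 : ℕ) * x = 0 := by decide
    exact this _ _ h1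
  · have : ∀ x y : ZMod 3, x + (2 : ℕ) * y = 0 → y + (2 : ℕ) * x = 0 := by decide
    exact this _ _ h1

/-- the hypersurface over the field of the two families -/
theorem hyp_X (j : Ei ≃+* 𝓞 K) {c : ℕ} (hc : c ≤ 2) {x : Fin (2 * c + 3) → 𝓞 K}
    (hx : ∀ i, x i ≠ 0) {d : Fin s → 𝓞 K} {a : Fin r → 𝓞 K}
    (hd0 : ∀ i, d i ≠ 0) (ha0 : ∀ i, a i ≠ 0)
    (hC : ∀ μ : Fin s → ZMod 3, μ ≠ 0 → ∀ y : 𝓞 K, y ^ 3 ≠ bp d μ)
    (hC' : ∀ (μ : Fin s → ZMod 3) (ν : Fin r → ZMod 3), ν ≠ 0 → ∀ y : 𝓞 K,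
      y ^ 3 ≠ bp d μ * bp a ν)
    (hone : ∀ T : Finset (Fin (2 * c + 3)), T.card = c → ∀ (μ : Fin s → ZMod 3)
      (ν : Fin r → ZMod 3), OneL (Dt x T * bp d μ * bp a ν))
    (F : Type) [Field F] [NumberField F] [Algebra K F] (η : Fin s → F) (θ : Fin r → F)
    (hG : GenF K F d a η θ) :
    Module.finrank K F = 3 ^ (s + r) ∧
    ∃ L : ℂ → ℂ, IsLFT (fun i => algebraMap (𝓞 K) (𝓞 F) (x i)) L ∧
      ((∀ T : Finset (Fin (2 * c + 3)), T.card = c → ∀ (μ : Fin s → ZMod 3) (ν : Fin r → ZMod 3),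
          Tri (Dt x T * bp d μ * bp a ν)) →
        L (c + 1) ≠ 0 ∧ ∀ T : Finset (Fin (2 * c + 3)), T.card = c →
          Finite (ED (algebraMap K F (Dt x T : 𝓞 K))).toAffine.Point ∧
          ∀ (n : ℕ) (y : Sha (ED (algebraMap K F (Dt x T : 𝓞 K)))),
            3 ^ n • y = 0 → 3 ^ (s + r) • y = 0) := by
  obtain ⟨h1, h2, h3⟩ := hG
  have hE : ∀ (T : Finset (Fin (2 * c + 3))) (κ : Fin (s + r) → ZMod 3),
      Dt x T * bp (Fin.append d a) κ =
      Dt x T * bp d (fun i => κ (Fin.castAdd r i)) * bp a fun k => κ (Fin.natAdd s k) :=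
    fun T κ => by rw [bp_append, mul_assoc]
  have hA : ∀ i, Fin.append d a i ≠ 0 := append_all (P := fun x : 𝓞 K => x ≠ 0) hd0 ha0
  obtain ⟨hdim, L, l1, l2⟩ := hyp_G (K := K) j hc hx (d := Fin.append d a) hA (fun κ hκ y => by
      rw [bp_append]
      by_cases h : (fun k => κ (Fin.natAdd s k)) = 0
      · rw [h, bp_zero, mul_one]
        refine hC _ (fun h' => hκ ?_) y
        funext i
        induction i using Fin.addCases with
        | left i => exact congrFun h' i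
        | right i => exact congrFun h i
      · exact hC' _ _ h y) (fun T hT κ => by rw [hE]; exact hone T hT _ _) F (Fin.append η θ)
    (fun i => by
      induction i using Fin.addCases with
      | left i => rw [Fin.append_left, Fin.append_left]; exact h1 i
      | right i => rw [Fin.append_right, Fin.append_right]; exact h2 i)
    (fun S hS hS' => h3 S hS (fun i => by
      have := hS' (Fin.castAdd r i)
      rwa [Fin.append_left] at this) fun i => by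
      have := hS' (Fin.natAdd s i)
      rwa [Fin.append_right] at this)
  refine ⟨hdim, L, l1, fun hT => l2 fun T hTc κ => ?_⟩
  rw [hE]
  exact hT T hTc _ _

/-- **The final statement for a fixed hypersurface.** -/
theorem finX (K : Type) [Field K] [NumberField K] [IsCyclotomicExtension {3} ℚ K] {c : ℕ}
    (hc : c ≤ 2) {x : Fin (2 * c + 3) → 𝓞 K} (hx : ∀ i, FamO (x i)) {s r : ℕ} {d : Fin s → 𝓞 K}
    (hd : ∀ i, FamO (d i)) (hind : ∀ μ : Fin s → ZMod 3, μ ≠ 0 → ∀ y : 𝓞 K, y ^ 3 ≠ bp d μ)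
    (hE : ∀ T : Finset (Fin (2 * c + 3)), T.card = c → ∀ μ : Fin s → ZMod 3,
      ¬ ExO (Dt x T * bp d μ) ∨ ∃ y : 𝓞 K, Dt x T * bp d μ = y ^ 3)
    (R : Finset (IX ↥(SS c) s r))
    (hR : ∀ t ∈ R, ∀ t' ∈ R, t ≠ t' → ¬ Rx (fun T : ↥(SS c) => Dt x T.1) d t t')
    (hR' : ∀ t, ∃ t' ∈ R, Rx (fun T : ↥(SS c) => Dt x T.1) d t t') :
    ((∃ a : Fin r → 𝓞 K, (∀ k, FamO (a k)) ∧ ∀ (T : ↥(SS c)) (μ : Fin s → ZMod 3)
      (ν : Fin r → ZMod 3), ν ≠ 0 → ¬ ExO (Dt x T.1 * bp d μ * bp a ν)) →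
        0 < kapX (fun T : ↥(SS c) => Dt x T.1) d r) ∧
    (∃ C : ℝ, 0 < C ∧ ∃ X₀ : ℕ, ∀ X : ℕ, X₀ ≤ X → C * (X : ℝ) ^ r ≤
      ({a : Fin r → 𝓞 K | AllO X a}.ncard : ℝ)) ∧
    Tendsto (fun X : ℕ => ({a : Fin r → 𝓞 K | AllO X a ∧
      (∀ (T : ↥(SS c)) (μ : Fin s → ZMod 3) (ν : Fin r → ZMod 3), ν ≠ 0 →
        ¬ ExO (Dt x T.1 * bp d μ * bp a ν)) ∧
      ∀ (μ : Fin s → ZMod 3) (ν : Fin r → ZMod 3), ν ≠ 0 → ¬ UO (bp d μ * bp a ν)}.ncard : ℝ)
      / ({a : Fin r → 𝓞 K | AllO X a}.ncard : ℝ)) atTop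
      (nhds (kapX (fun T : ↥(SS c) => Dt x T.1) d r)) ∧
    Tendsto (fun X : ℕ => ({a : Fin r → 𝓞 K | AllO X a ∧
      ((∀ (T : ↥(SS c)) (μ : Fin s → ZMod 3) (ν : Fin r → ZMod 3), ν ≠ 0 →
        ¬ ExO (Dt x T.1 * bp d μ * bp a ν)) ∧
      ∀ (μ : Fin s → ZMod 3) (ν : Fin r → ZMod 3), ν ≠ 0 → ¬ UO (bp d μ * bp a ν)) ∧
      ∀ (T : ↥(SS c)) (μ : Fin s → ZMod 3) (ν : Fin r → ZMod 3), ν ≠ 0 →
        Tri (Dt x T.1 * bp d μ * bp a ν)}.ncard : ℝ)
      / ({a : Fin r → 𝓞 K | AllO X a}.ncard : ℝ)) atTop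
      (nhds (kapX (fun T : ↥(SS c) => Dt x T.1) d r *
        (∏' i : ℕ, (1 - (1 / 3 : ℝ) ^ (2 * i + 1))) ^ R.card)) ∧
    ∀ a : Fin r → 𝓞 K, (∀ k, FamO (a k)) →
      (∀ (T : ↥(SS c)) (μ : Fin s → ZMod 3) (ν : Fin r → ZMod 3), ν ≠ 0 →
        ¬ ExO (Dt x T.1 * bp d μ * bp a ν)) →
      (∀ (μ : Fin s → ZMod 3) (ν : Fin r → ZMod 3), ν ≠ 0 → ¬ UO (bp d μ * bp a ν)) →
      ∀ (F : Type) [Field F] [NumberField F] [Algebra K F] (η : Fin s → F) (θ : Fin r → F),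
      GenF K F d a η θ → Module.finrank K F = 3 ^ (s + r) ∧
      ∃ L : ℂ → ℂ, IsLFT (fun i => algebraMap (𝓞 K) (𝓞 F) (x i)) L ∧
        ((∀ T : Finset (Fin (2 * c + 3)), T.card = c → ∀ (μ : Fin s → ZMod 3)
            (ν : Fin r → ZMod 3), Tri (Dt x T * bp d μ * bp a ν)) →
          L (c + 1) ≠ 0 ∧ ∀ T : Finset (Fin (2 * c + 3)), T.card = c →
            Finite (ED (algebraMap K F (Dt x T : 𝓞 K))).toAffine.Point ∧
            ∀ (n : ℕ) (y : Sha (ED (algebraMap K F (Dt x T : 𝓞 K)))),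
              3 ^ n • y = 0 → 3 ^ (s + r) • y = 0) := by
  obtain ⟨⟨j, hj⟩, -⟩ := Pool.Agent.Y455.CTK.jex K
  have hx0 : ∀ i, x i ≠ 0 := fun i => ne_of_famO (hx i)
  have hd0 : ∀ i, d i ≠ 0 := fun i => ne_of_famO (hd i)
  have e0 : ∀ T : Finset (Fin (2 * c + 3)), dO (eT T) x = Dt x T := fun T => (dt_dO x T).symm
  obtain ⟨h1, h2, h3⟩ := law_X (J₀ := ↥(SS c)) (s := s) (r := r) j hj (fun T => eT T.1)
    (b₀ := x) hx hd R (by simp only [e0]; exact hR) (by simp only [e0]; exact hR')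
  simp only [e0] at h2 h3
  have hcl : ∀ T : ↥(SS c), ∃ c', IsCl (j w) (Dt x T.1) c' := fun T => by
    choose cx hcx using fun i => isCl_ex j hj (hx i)
    exact ⟨_, by rw [← e0]; exact isCl_dO (w3 j) _ hcx⟩
  refine ⟨?_, ?_, h2, h3, ?_⟩
  · rintro ⟨a, ha, h⟩
    exact kapX_pos j hj hcl hd ha h
  · obtain ⟨C, X₀, hC, h⟩ := h1
    exact ⟨C, hC, X₀, h⟩
  · intro a ha hF hU F _ _ _ η θ hG
    refine hyp_X (K := K) j hc hx0 hd0 (fun i => ne_of_famO (ha i)) hind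
      (fun μ ν hν => no_cube (hU μ ν hν)) (fun T hT μ ν => ?_) F η θ hG
    have key : ¬ ExO (Dt x T * bp d μ * bp a ν) → OneL (Dt x T * bp d μ * bp a ν) := by
      intro h5
      have h6 := one_X j hj (eT T) hx hd ha μ ν (by rw [e0]; exact h5)
      rwa [e0] at h6
    by_cases hν : ν = 0
    · rcases hE T hT μ with h | ⟨y, hy⟩
      · refine key ?_
        rw [hν, bp_zero, mul_one]
        exact h
      · rw [hν, bp_zero, mul_one, hy]
        refine one_cube j ?_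
        rintro rfl
        rw [zero_pow three_ne_zero] at hy
        exact mul_ne_zero (dt_ne hx0 T) (bp_ne hd μ) hy
    · exact key (hF ⟨T, mem_SS.2 hT⟩ μ ν hν)

end

end Run7.h707.TF
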