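import Pool.Agent.Run7.h707.TF.LawR
import Pool.Agent.Run7.h707.TE.FinL

/-! The final statement for the elliptic curves `E_a` over a fixed field of cube roots -/

set_option autoImplicit false
set_option linter.unusedVariables false
set_option linter.unusedSectionVars false

open scoped Classical

namespace Run7.h707.TF

open Finset Filter NumberField IsDedekindDomain WeierstrassCurve
open Pool.Agent.Y692.QS (Ei w nr)
open Pool.Agent.Y703.XK (c9)
open Pool.Agent.Y696.CTK (ED Tri)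
open Pool.Agent.TH841.NF.D (Sha)
open Run7.h707.TC (FamO ExO)
open Run7.h707.TE (dO AllO bp n1 dO_n1)

section
variable {K : Type} [Field K] [NumberField K] {r : ℕ}

/-- the number of the `ν` such that `d ^ ν` is `1` modulo `3` with a norm that is `1` modulo `9` -/
noncomputable def nun (d : Fin r → 𝓞 K) : ℕ :=
  {ν : Fin r → ZMod 3 | (3 : 𝓞 K) ∣ bp d ν - 1 ∧ (9 : ℤ) ∣ Algebra.norm ℤ (bp d ν) - 1}.ncard

/-- the homomorphism of the classes -/
noncomputable def phi (cd : Fin r → ZMod 3 × ZMod 3) : (Fin r → ZMod 3) →+ ZMod 3 × ZMod 3 where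
  toFun ν := ∑ i, (ν i).val • cd i
  map_zero' := by
    refine Finset.sum_eq_zero fun i _ => ?_
    rw [Pi.zero_apply, ZMod.val_zero, zero_smul]
  map_add' ν ν' := by
    rw [← sum_add_distrib]
    refine sum_congr rfl fun i _ => ?_
    have : ∀ (a b : ZMod 3) (c : ZMod 3 × ZMod 3), (a + b).val • c = a.val • c + b.val • c := by
      decide
    exact this _ _ _

/-- the number of the images -/
theorem card_phi (cd : Fin r → ZMod 3 × ZMod 3) :
    (Set.range (phi cd)).ncard * {ν : Fin r → ZMod 3 | phi cd ν = 0}.ncard = 3 ^ r := by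
  have h1 := AddSubgroup.card_eq_card_quotient_mul_card_addSubgroup (phi cd).ker
  have h2 : Nat.card ((Fin r → ZMod 3) ⧸ (phi cd).ker) = (Set.range (phi cd)).ncard := by
    rw [Nat.card_congr (QuotientAddGroup.quotientKerEquivRange (phi cd)).toEquiv]
    rw [← Nat.card_coe_set_eq]
    rfl
  have h3 : Nat.card (phi cd).ker = {ν : Fin r → ZMod 3 | phi cd ν = 0}.ncard := by
    rw [← Nat.card_coe_set_eq]
    rfl
  have h4 : Nat.card (Fin r → ZMod 3) = 3 ^ r := by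
    rw [Nat.card_eq_fintype_card, Fintype.card_fun, ZMod.card, Fintype.card_fin]
  rw [h2, h3, h4] at h1
  exact h1.symm

/-- the count of the classes for one curve -/
theorem kapR_one (cd : Fin r → ZMod 3 × ZMod 3) :
    kapR n1 (fun _ => 0) cd =
      1 - 3 ^ r / (9 * ({ν : Fin r → ZMod 3 | phi cd ν = 0}.ncard : ℝ)) := by
  unfold kapR
  have h1 : {u : Unit → ZMod 3 × ZMod 3 | ∀ (t : Unit) (ν : Fin r → ZMod 3),
      ∑ k, n1 t k • u k + (0 + ∑ i, (ν i).val • cd i) ≠ 0} =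
      (fun x : ZMod 3 × ZMod 3 => fun _ : Unit => -x) '' (Set.range (phi cd))ᶜ := by
    ext u
    simp only [Set.mem_ofPred_eq, Set.mem_image, Set.mem_compl_iff, Set.mem_range]
    constructor
    · intro h
      refine ⟨-u (), ?_, ?_⟩
      · rintro ⟨ν, hν⟩
        apply h () ν
        rw [Fintype.sum_unique]
        unfold n1
        rw [one_smul, zero_add]
        have : ∑ i, (ν i).val • cd i = phi cd ν := rfl
        rw [this, hν]
        exact add_neg_cancel _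
      · funext t
        exact neg_neg _
    · rintro ⟨x, hx, rfl⟩ t ν h
      apply hx
      refine ⟨ν, ?_⟩
      rw [Fintype.sum_unique] at h
      unfold n1 at h
      rw [one_smul, zero_add] at h
      have : ∑ i, (ν i).val • cd i = phi cd ν := rfl
      rw [this] at h
      exact (neg_add_eq_zero.1 h).symm
  have hinj : Function.Injective (fun x : ZMod 3 × ZMod 3 => fun _ : Unit => -x) := by
    intro x y h
    exact neg_injective (congrFun h ())
  rw [h1, Set.ncard_image_of_injective _ hinj]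
  have h2 := Set.ncard_add_ncard_compl (Set.range (phi cd))
  have h3 : Nat.card (ZMod 3 × ZMod 3) = 9 := by
    rw [Nat.card_eq_fintype_card, Fintype.card_prod, ZMod.card]
  rw [h3] at h2
  have h4 := card_phi cd
  have h5 : 0 < {ν : Fin r → ZMod 3 | phi cd ν = 0}.ncard := by
    rw [Set.ncard_pos (Set.toFinite _)]
    exact ⟨0, map_zero _⟩
  have h5' : (0 : ℝ) < ({ν : Fin r → ZMod 3 | phi cd ν = 0}.ncard : ℝ) := by exact_mod_cast h5
  have h6 : ((Set.range (phi cd)).ncard : ℝ) + ((Set.range (phi cd))ᶜ.ncard : ℝ) = 9 := by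
    exact_mod_cast h2
  have h7 : ((Set.range (phi cd)).ncard : ℝ) * ({ν : Fin r → ZMod 3 | phi cd ν = 0}.ncard : ℝ) =
      3 ^ r := by exact_mod_cast h4
  rw [← h7, Fintype.card_unit, pow_one]
  field_simp
  linarith

theorem nun_eq (j : Ei ≃+* 𝓞 K) (hj : ∀ z : Ei, Algebra.norm ℤ (j z) = nr z) {d : Fin r → 𝓞 K}
    {cd : Fin r → ZMod 3 × ZMod 3} (hcd : ∀ i, IsCl (j w) (d i) (cd i)) :
    {ν : Fin r → ZMod 3 | phi cd ν = 0}.ncard = nun d := by
  unfold nun
  congr 1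
  ext ν
  have h1 : IsCl (j w) (bp d ν) (phi cd ν) := isCl_bp (w3 j) hcd ν
  simp only [Set.mem_ofPred_eq]
  constructor
  · intro h
    rw [h] at h1
    exact isCl_zero.1 h1
  · intro h
    exact isCl_unique j hj h1 (isCl_zero.2 h)

/-- the degree of the field of the cube roots -/
theorem deg_C (j : Ei ≃+* 𝓞 K) {d : Fin r → 𝓞 K} (hd : ∀ i, FamO (d i))
    (hind : ∀ ν : Fin r → ZMod 3, ν ≠ 0 → ∀ y : 𝓞 K, y ^ 3 ≠ bp d ν)
    (F : Type) [Field F] [NumberField F] [Algebra K F] (θ : Fin r → F)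
    (hθ : ∀ i, θ i ^ 3 = algebraMap K F (d i))
    (hgen : ∀ S : Subfield F, (∀ k : K, algebraMap K F k ∈ S) → (∀ i, θ i ∈ S) → S = ⊤) :
    Module.finrank K F = 3 ^ r := by
  obtain ⟨ω, hω⟩ := Run7.h707.TE.ex_om (K := K) j
  have hint : ∀ i, IsIntegral ℤ (θ i) := fun i => by
    refine IsIntegral.of_pow (n := 3) (by norm_num) ?_
    rw [hθ]
    exact ((d i).isIntegral_coe).map (algebraMap K F).toIntAlgHom
  obtain ⟨θ', hθ'⟩ : ∃ θ' : Fin r → 𝓞 F, ∀ i, (θ' i : F) = θ i :=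
    ⟨fun i => ⟨θ i, hint i⟩, fun i => rfl⟩
  have hθ3 : ∀ i, θ' i ^ 3 = algebraMap (𝓞 K) (𝓞 F) (d i) := fun i => by
    apply RingOfIntegers.ext
    rw [Run7.h707.TE.coe_pw, hθ', hθ]
    rfl
  exact (Run7.h707.TE.tower r K F ω hω d (fun i => Run7.h707.TE.ne_of_famO (hd i))
    (fun ν hν y => by
      rw [← Run7.h707.TE.coe_bp]
      exact not_cubeO (hind ν hν) y) θ' hθ3
    (fun S h1 h2 => hgen S h1 fun i => by rw [← hθ']; exact h2 i)).1

/-- **The final statement for the elliptic curves over a fixed field of cube roots.** -/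
theorem finF (K : Type) [Field K] [NumberField K] [IsCyclotomicExtension {3} ℚ K] {r : ℕ}
    {d : Fin r → 𝓞 K} (hd : ∀ i, FamO (d i))
    (hind : ∀ ν : Fin r → ZMod 3, ν ≠ 0 → ∀ y : 𝓞 K, y ^ 3 ≠ bp d ν) :
    (∃ C : ℝ, 0 < C ∧ ∃ X₀ : ℕ, ∀ X : ℕ, X₀ ≤ X → C * (X : ℝ) ≤
      ({a : 𝓞 K | Algebra.norm ℤ a ≤ X ∧ FamO a}.ncard : ℝ)) ∧
    Tendsto (fun X : ℕ => ({a : 𝓞 K | (Algebra.norm ℤ a ≤ X ∧ FamO a) ∧
      ∀ ν, ¬ ExO (a * bp d ν)}.ncard : ℝ) /
      ({a : 𝓞 K | Algebra.norm ℤ a ≤ X ∧ FamO a}.ncard : ℝ)) atTop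
      (nhds (1 - 3 ^ r / (9 * nun d))) ∧
    Tendsto (fun X : ℕ => ({a : 𝓞 K | (Algebra.norm ℤ a ≤ X ∧ FamO a) ∧
      (∀ ν, ¬ ExO (a * bp d ν)) ∧ ∀ ν, Tri (a * bp d ν)}.ncard : ℝ) /
      ({a : 𝓞 K | Algebra.norm ℤ a ≤ X ∧ FamO a}.ncard : ℝ)) atTop
      (nhds ((1 - 3 ^ r / (9 * nun d)) *
        (∏' i : ℕ, (1 - (1 / 3 : ℝ) ^ (2 * i + 1))) ^ 3 ^ r)) ∧
    ∀ a : 𝓞 K, FamO a → (∀ ν, ¬ ExO (a * bp d ν)) →
      ∀ (F : Type) [Field F] [NumberField F] [Algebra K F] (θ : Fin r → F),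
      (∀ i, θ i ^ 3 = algebraMap K F (d i)) →
      (∀ S : Subfield F, (∀ k : K, algebraMap K F k ∈ S) → (∀ i, θ i ∈ S) → S = ⊤) →
      Module.finrank K F = 3 ^ r ∧
      ∃ Λ : ℂ → ℂ, Differentiable ℂ Λ ∧
        (∀ s : ℂ, 3 / 2 < s.re → Λ s = (ED (algebraMap K F (a : 𝓞 K))).LSeries s) ∧
        ((∀ ν, Tri (a * bp d ν)) → Λ 1 ≠ 0 ∧ Finite (ED (algebraMap K F (a : 𝓞 K))).toAffine.Point ∧
          ∀ (n : ℕ) (x : Sha (ED (algebraMap K F (a : 𝓞 K)))), 3 ^ n • x = 0 → 3 ^ r • x = 0) := by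
  obtain ⟨⟨j, hj⟩, -⟩ := Pool.Agent.Y455.CTK.jex K
  choose cd hcd using fun i => isCl_ex j hj (hd i)
  have e0 : ∀ t : Unit, dO (fun _ : Empty => 0) (fun i : Empty => (i.elim : 𝓞 K)) = 1 := fun t => by
    unfold Run7.h707.TE.dO
    simp
  obtain ⟨h1, h2, h3⟩ := law_R (I₀ := Unit) (J₀ := Unit) (B₀ := Empty) j hj n1 (fun _ _ => 0)
    (b₀ := fun i => i.elim) (fun i => i.elim) hd hind (fun t => ⟨(), by
      unfold Run7.h707.TE.n1
      rw [Nat.cast_one]
      exact one_ne_zero⟩) (fun t t' h => absurd (Subsingleton.elim t t') h)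
    (fun _ => 0) (fun t => by rw [e0 t]; exact isCl_one) cd hcd
  rw [kapR_one, nun_eq j hj hcd] at h2 h3
  simp only [dO_n1, e0 (), mul_one] at h2 h3
  have e2 : Fintype.card Unit * 3 ^ r = 3 ^ r := by rw [Fintype.card_unit, one_mul]
  rw [e2] at h3
  have hinj : Function.Injective (fun (a : Unit → 𝓞 K) => a ()) := by
    intro a a' h
    funext t
    exact h
  have hn : ∀ P : 𝓞 K → Prop, {a : 𝓞 K | P a}.ncard = {a : Unit → 𝓞 K | P (a ())}.ncard := by
    intro P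
    rw [← Set.ncard_image_of_injective _ hinj]
    congr 1
    ext a
    simp only [Set.mem_ofPred_eq, Set.mem_image]
    exact ⟨fun h => ⟨fun _ => a, h, rfl⟩, fun ⟨b, h, e⟩ => e ▸ h⟩
  have hA : ∀ (X : ℕ) (a : Unit → 𝓞 K), AllO X a ↔ Algebra.norm ℤ (a ()) ≤ X ∧ FamO (a ()) :=
    fun X a => ⟨fun h => h (), fun h _ => h⟩
  refine ⟨?_, ?_, ?_, ?_⟩
  · obtain ⟨C, X₀, hC, h⟩ := h1
    refine ⟨C, hC, X₀, fun X hX => ?_⟩
    rw [hn]
    have := h X hX
    rw [Fintype.card_unit, pow_one] at this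
    simpa only [hA] using this
  · refine h2.congr fun X => ?_
    rw [hn, hn]
    simp only [hA, forall_const]
  · refine h3.congr fun X => ?_
    rw [hn, hn]
    simp only [hA, forall_const]
  · intro a hA hF F _ _ _ θ hθ hgen
    obtain ⟨p, hp⟩ : ∃ p : (Unit → 𝓞 K) × (Fin r → 𝓞 K), p = (fun _ => a, d) := ⟨_, rfl⟩
    have hp1 : ∀ t : Unit, dO (n1 t) p.1 = a := fun t => by rw [dO_n1, hp]
    have hp2 : p.2 = d := by rw [hp]
    obtain ⟨hdim, L, hL⟩ := ell_C n1 j hj (p := p) (fun _ => by rw [hp]; exact hA)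
      (fun i => by rw [hp2]; exact hd i) (fun t ν => by rw [hp1, hp2]; exact hF ν)
      (fun ν hν => by rw [hp2]; exact hind ν hν) F θ (by rw [hp2]; exact hθ) hgen
    have hLt := hL ()
    rw [hp1, hp2] at hLt
    exact ⟨hdim, L (), hLt.1, hLt.2.1, hLt.2.2⟩

end

end Run7.h707.TF
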