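import Pool.Agent.Run7.h707.TF.LawM
import Pool.Agent.Run7.h707.TF.FinX
import Pool.Agent.Run7.h707.TF.Ferm
import Pool.Agent.N883.DQ.Bk

/-! The final statement for ALL the families: coefficients and generators of the field, each of them
fixed or free -/

set_option autoImplicit false
set_option linter.unusedVariables false
set_option linter.unusedSectionVars false

open scoped Classical

namespace Run7.h707.TF

open Finset Filter NumberField IsDedekindDomain WeierstrassCurve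
open Pool.Agent.N883.FG
open Pool.Agent.N883.DQ (Dt)
open Pool.Agent.Y692.QS (Ei w nr)
open Pool.Agent.Y703.XK (c9)
open Pool.Agent.Y696.CTK (ED Tri)
open Pool.Agent.TH841.NF.D (Sha)
open Pool.Agent.TH841.SH.D (Gal act Pt)
open Pool.Agent.Y667.BKP (PSeq IsV H1f exists_rat)
open Run7.h707.TC (FamO ExO IsLFT mem_SS)
open Run7.h707.TE

section bk
variable {F : Type} [Field F] [NumberField F] {W : WeierstrassCurve F}

/-- `H⁰(F, V_3 W)` and `H¹_f(F, V_3 W)` are zero -/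
theorem bk_of (hfin : Finite W.toAffine.Point) (m : ℕ)
    (hS : ∀ (k : ℕ) (x : Sha W), (3 ^ k : ℕ) • x = 0 → (3 ^ m : ℕ) • x = 0) :
    (∀ x : PSeq W, IsV 3 W x → (∀ (σ : Gal F) (n : ℕ), act W σ.toAlgHom (x n) = x n) →
      ∀ n, x n = 0) ∧ ∀ x : H1f 3 W, x = 0 := by
  refine ⟨?_, Pool.Agent.Y667.BKP.h1f_zero Nat.prime_three hfin m hS⟩
  intro x hx hfix n
  obtain ⟨j, -, -, hj⟩ := exists_rat W
  obtain ⟨N, hN⟩ : ∃ N : ℕ, N = Nat.card W.toAffine.Point := ⟨_, rfl⟩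
  have hN0 : N ≠ 0 := by
    rw [hN]
    exact Nat.card_pos.ne'
  obtain ⟨v, N', hndvd, hNv⟩ := Nat.exists_eq_pow_mul_and_not_dvd hN0 3 (by norm_num)
  have hpow : ∀ k : ℕ, (3 ^ k : ℕ) • x (n + k) = x n := by
    intro k
    induction k with
    | zero => simp
    | succ k ih => rw [pow_succ, mul_smul, ← add_assoc, (hx (n + k)).1, ih]
  have h1 : N • x (n + v) = 0 := by
    obtain ⟨q, hq⟩ := hj (x (n + v)) (fun σ => hfix σ (n + v))
    rw [← hq, ← map_nsmul, hN, card_nsmul_eq_zero', map_zero]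
  have h2 : N' • x n = 0 := by
    rw [← hpow v, smul_smul, mul_comm, ← hNv, h1]
  obtain ⟨m, hm⟩ := (hx n).2
  have h3 := Nat.dvd_gcd (addOrderOf_dvd_iff_nsmul_eq_zero.2 h2)
    (addOrderOf_dvd_iff_nsmul_eq_zero.2 hm)
  have h4 : Nat.gcd N' (3 ^ m) = 1 :=
    ((Nat.Prime.coprime_iff_not_dvd Nat.prime_three).2 hndvd).symm.pow_right m
  rw [h4, Nat.dvd_one, AddMonoid.addOrderOf_eq_one_iff] at h3
  exact h3

end bk

section
variable {K : Type} [Field K] [NumberField K] {m r : ℕ}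

/-- the twist of the index `(T, ν)` -/
noncomputable def twM (S : Finset (Fin m ⊕ Fin r)) (b : Fin m ⊕ Fin r → 𝓞 K) (T : Finset (Fin m))
    (ν : Fin r → ZMod 3) (a : ↥S → 𝓞 K) : 𝓞 K :=
  Dt (fun i => mx S b a (Sum.inl i)) T * bp (fun i => mx S b a (Sum.inr i)) ν

/-- a free generator occurs -/
def MvN (S : Finset (Fin m ⊕ Fin r)) (ν : Fin r → ZMod 3) : Prop := ∃ i, Sum.inr i ∈ S ∧ ν i ≠ 0

/-- a free element occurs -/
def MvT (S : Finset (Fin m ⊕ Fin r)) (ν : Fin r → ZMod 3) : Prop :=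
  (∃ i, Sum.inl i ∈ S) ∨ ∃ i, Sum.inr i ∈ S ∧ ν i ≠ 0

theorem dt_bp (y : Fin m ⊕ Fin r → 𝓞 K) (T : Finset (Fin m)) (ν : Fin r → ZMod 3) :
    Dt (fun i => y (Sum.inl i)) T * bp (fun i => y (Sum.inr i)) ν =
      dO (Sum.elim (eT T) fun i => (ν i).val) y := by
  rw [dt_dO]
  unfold Run7.h707.TE.dO Run7.h707.TE.bp
  rw [Fintype.prod_sum_type]
  rfl

theorem bp_dO' (y : Fin m ⊕ Fin r → 𝓞 K) (ν : Fin r → ZMod 3) :
    bp (fun i => y (Sum.inr i)) ν = dO (Sum.elim (fun _ => 0) fun i => (ν i).val) y := by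
  unfold Run7.h707.TE.dO Run7.h707.TE.bp
  rw [Fintype.prod_sum_type]
  simp

variable {S : Finset (Fin m ⊕ Fin r)} {b : Fin m ⊕ Fin r → 𝓞 K}

theorem twM_eq (T : Finset (Fin m)) (ν : Fin r → ZMod 3) (a : ↥S → 𝓞 K) :
    twM S b T ν a = dO (Sum.elim (eT T) fun i => (ν i).val) (mx S b a) := dt_bp _ T ν

theorem bp_fix {ν : Fin r → ZMod 3} (h : ¬ MvN S ν) (a : ↥S → 𝓞 K) :
    bp (fun i => mx S b a (Sum.inr i)) ν = bp (fun i => b (Sum.inr i)) ν := by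
  unfold Run7.h707.TE.bp
  refine Finset.prod_congr rfl fun i _ => ?_
  by_cases hi : Sum.inr i ∈ S
  · have h1 : ν i = 0 := by
      by_contra h2
      exact h ⟨i, hi, h2⟩
    rw [h1, ZMod.val_zero, pow_zero, pow_zero]
  · have h2 : mx S b a (Sum.inr i) = b (Sum.inr i) := by
      unfold mx
      rw [dif_neg hi]
    show mx S b a (Sum.inr i) ^ (ν i).val = b (Sum.inr i) ^ (ν i).val
    rw [h2]

theorem twM_fix {T : Finset (Fin m)} {ν : Fin r → ZMod 3} (h : ¬ MvT S ν) (a : ↥S → 𝓞 K) :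
    twM S b T ν a = Dt (fun i => b (Sum.inl i)) T * bp (fun i => b (Sum.inr i)) ν := by
  unfold twM
  rw [bp_fix (fun h1 => h (Or.inr h1))]
  congr 2
  funext i
  unfold mx
  rw [dif_neg fun hi => h (Or.inl ⟨i, hi⟩)]

/-- the indices with a free element -/
abbrev IM (S : Finset (Fin m ⊕ Fin r)) (J₀ : Finset (Finset (Fin m))) : Type :=
  {p : ↥J₀ × (Fin r → ZMod 3) // MvT S p.2}

theorem mvT_ne {T : Finset (Fin m)} {ν : Fin r → ZMod 3} (h : MvT S ν) :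
    ∃ i ∈ S, (((Sum.elim (eT T) fun i => (ν i).val) i : ℕ) : ZMod 3) ≠ 0 := by
  rcases h with ⟨i, hi⟩ | ⟨i, hi, hν⟩
  · exact ⟨_, hi, eT_ne T i⟩
  · refine ⟨_, hi, ?_⟩
    show (((ν i).val : ℕ) : ZMod 3) ≠ 0
    rw [ZMod.natCast_zmod_val]
    exact hν

theorem mvN_ne {ν : Fin r → ZMod 3} (h : MvN S ν) :
    ∃ i ∈ S, (((Sum.elim (fun _ : Fin m => 0) fun i => (ν i).val) i : ℕ) : ZMod 3) ≠ 0 := by
  obtain ⟨i, hi, hν⟩ := h
  refine ⟨_, hi, ?_⟩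
  show (((ν i).val : ℕ) : ZMod 3) ≠ 0
  rw [ZMod.natCast_zmod_val]
  exact hν

/-- related indices -/
def RelT (S : Finset (Fin m ⊕ Fin r)) (J₀ : Finset (Finset (Fin m))) (b : Fin m ⊕ Fin r → 𝓞 K)
    (p p' : IM S J₀) : Prop :=
  ∃ f : ℕ, (f = 1 ∨ f = 2) ∧ ∀ a : ↥S → 𝓞 K, ∃ x : 𝓞 K,
    twM S b p.1.1 p.1.2 a * twM S b p'.1.1 p'.1.2 a ^ f = x ^ 3

theorem relT_iff {J₀ : Finset (Finset (Fin m))} (p p' : IM S J₀) : RelT S J₀ b p p' ↔
    RelM S (fun p : IM S J₀ => Sum.elim (eT p.1.1.1) fun i => (p.1.2 i).val) b p p' := by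
  unfold RelT RelM
  simp only [twM_eq]

/-- the proportion of the classes -/
noncomputable def kapT (S : Finset (Fin m ⊕ Fin r)) (J₀ : Finset (Finset (Fin m)))
    (b : Fin m ⊕ Fin r → 𝓞 K) : ℝ :=
  ({u : ↥S → 𝓞 K | (∀ k, u k ∈ reps K) ∧ ∀ p : IM S J₀, ¬ Nm1 (twM S b p.1.1 p.1.2 u)}.ncard : ℝ) /
    9 ^ S.card

theorem kapT_eq {J₀ : Finset (Finset (Fin m))} : kapT S J₀ b =
    kapM S (fun p : IM S J₀ => Sum.elim (eT p.1.1.1) fun i => (p.1.2 i).val) b := by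
  unfold kapT kapM
  simp only [twM_eq]

theorem ex_relT {J₀ : Finset (Finset (Fin m))} : ∃ R : Finset (IM S J₀),
    (∀ t ∈ R, ∀ t' ∈ R, t ≠ t' → ¬ RelT S J₀ b t t') ∧ ∀ t, ∃ t' ∈ R, RelT S J₀ b t t' := by
  refine ex_sys _ (fun t => ?_) fun t t' h => ?_
  · rw [relT_iff]
    exact relM_refl t
  · rw [relT_iff] at h ⊢
    exact relM_symm _ _ h

/-- **The final statement for all the families.** -/
theorem finM (K : Type) [Field K] [NumberField K] [IsCyclotomicExtension {3} ℚ K] {c : ℕ}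
    (hc : c ≤ 2) {r : ℕ} {S : Finset (Fin (2 * c + 3) ⊕ Fin r)}
    {b : Fin (2 * c + 3) ⊕ Fin r → 𝓞 K} (hb : ∀ i, FamO (b i))
    (hind : ∀ ν : Fin r → ZMod 3, ν ≠ 0 → ¬ MvN S ν → ∀ y : 𝓞 K,
      y ^ 3 ≠ bp (fun i => b (Sum.inr i)) ν)
    (hE : ∀ T : Finset (Fin (2 * c + 3)), T.card = c → ∀ ν : Fin r → ZMod 3, ¬ MvT S ν →
      ¬ ExO (Dt (fun i => b (Sum.inl i)) T * bp (fun i => b (Sum.inr i)) ν) ∨
      ∃ y : 𝓞 K, Dt (fun i => b (Sum.inl i)) T * bp (fun i => b (Sum.inr i)) ν = y ^ 3)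
    (R : Finset (IM S (SS c)))
    (hR : ∀ p ∈ R, ∀ p' ∈ R, p ≠ p' → ¬ RelT S (SS c) b p p')
    (hR' : ∀ p, ∃ p' ∈ R, RelT S (SS c) b p p') :
    ((∃ a : ↥S → 𝓞 K, (∀ k, FamO (a k)) ∧ ∀ p : IM S (SS c), ¬ ExO (twM S b p.1.1 p.1.2 a)) →
      0 < kapT S (SS c) b) ∧
    (∃ C : ℝ, 0 < C ∧ ∃ X₀ : ℕ, ∀ X : ℕ, X₀ ≤ X → C * (X : ℝ) ^ S.card ≤
      ({a : ↥S → 𝓞 K | AllO X a}.ncard : ℝ)) ∧
    Tendsto (fun X : ℕ => ({a : ↥S → 𝓞 K | AllO X a ∧
      (∀ p : IM S (SS c), ¬ ExO (twM S b p.1.1 p.1.2 a)) ∧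
      ∀ ν : {ν : Fin r → ZMod 3 // MvN S ν}, ¬ UO (bp (fun i => mx S b a (Sum.inr i)) ν.1)}.ncard : ℝ)
      / ({a : ↥S → 𝓞 K | AllO X a}.ncard : ℝ)) atTop (nhds (kapT S (SS c) b)) ∧
    Tendsto (fun X : ℕ => ({a : ↥S → 𝓞 K | AllO X a ∧
      ((∀ p : IM S (SS c), ¬ ExO (twM S b p.1.1 p.1.2 a)) ∧
      ∀ ν : {ν : Fin r → ZMod 3 // MvN S ν}, ¬ UO (bp (fun i => mx S b a (Sum.inr i)) ν.1)) ∧
      ∀ p : IM S (SS c), Tri (twM S b p.1.1 p.1.2 a)}.ncard : ℝ)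
      / ({a : ↥S → 𝓞 K | AllO X a}.ncard : ℝ)) atTop
      (nhds (kapT S (SS c) b * (∏' i : ℕ, (1 - (1 / 3 : ℝ) ^ (2 * i + 1))) ^ R.card)) ∧
    ∀ a : ↥S → 𝓞 K, (∀ k, FamO (a k)) →
      (∀ p : IM S (SS c), ¬ ExO (twM S b p.1.1 p.1.2 a)) →
      (∀ ν : {ν : Fin r → ZMod 3 // MvN S ν}, ¬ UO (bp (fun i => mx S b a (Sum.inr i)) ν.1)) →
      ∀ (F : Type) [Field F] [NumberField F] [Algebra K F] (θ : Fin r → F),
      (∀ i, θ i ^ 3 = algebraMap K F (mx S b a (Sum.inr i))) →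
      (∀ T : Subfield F, (∀ k : K, algebraMap K F k ∈ T) → (∀ i, θ i ∈ T) → T = ⊤) →
      Module.finrank K F = 3 ^ r ∧
      ∃ L : ℂ → ℂ, IsLFT (fun k => algebraMap (𝓞 K) (𝓞 F) (mx S b a (Sum.inl k))) L ∧
        ((∀ T : Finset (Fin (2 * c + 3)), T.card = c → ∀ ν : Fin r → ZMod 3,
            Tri (twM S b T ν a)) → L (c + 1) ≠ 0 ∧
          ∀ T : Finset (Fin (2 * c + 3)), T.card = c →
            Finite (ED (algebraMap K F (Dt (fun k => mx S b a (Sum.inl k)) T : 𝓞 K))).toAffine.Point ∧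
            ∀ (n : ℕ) (x : Sha (ED (algebraMap K F
              (Dt (fun k => mx S b a (Sum.inl k)) T : 𝓞 K)))),
              3 ^ n • x = 0 → 3 ^ r • x = 0) := by
  obtain ⟨⟨j, hj⟩, -⟩ := Pool.Agent.Y455.CTK.jex K
  obtain ⟨h1, h2, h3⟩ := law_M (S := S) (J := IM S (SS c)) (J' := {ν : Fin r → ZMod 3 // MvN S ν})
    j hj hb
    (fun p => Sum.elim (eT p.1.1.1) fun i => (p.1.2 i).val) (fun p => mvT_ne p.2)
    (fun ν => Sum.elim (fun _ => 0) fun i => (ν.1 i).val) (fun ν => mvN_ne ν.2) R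
    (fun p hp p' hp' hne => by rw [← relT_iff]; exact hR p hp p' hp' hne)
    (fun p => by
      obtain ⟨p', hp', h⟩ := hR' p
      exact ⟨p', hp', (relT_iff p p').1 h⟩)
  rw [← kapT_eq] at h2 h3
  simp only [← twM_eq, ← bp_dO'] at h2 h3
  refine ⟨?_, ?_, h2, h3, ?_⟩
  · rintro ⟨a, ha, h⟩
    rw [kapT_eq]
    exact kapM_pos j hj hb ha fun p => by rw [← twM_eq]; exact h p
  · obtain ⟨C, X₀, hC, h⟩ := h1
    exact ⟨C, hC, X₀, h⟩
  · intro a ha hF hU F _ _ _ θ hθ hgen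
    have hfam := mx_fam S hb ha
    have hne : ∀ i, mx S b a i ≠ 0 := fun i => ne_of_famO (hfam i)
    refine hyp_G (K := K) j hc (x := fun i => mx S b a (Sum.inl i)) (fun i => hne _)
      (d := fun i => mx S b a (Sum.inr i)) (fun i => hne _) (fun ν hν y => ?_)
      (fun T hT ν => ?_) F θ hθ hgen
    · by_cases h : MvN S ν
      · exact no_cube (hU ⟨ν, h⟩) y
      · rw [bp_fix h]
        exact hind ν hν h y
    · have key : ∀ h4 : ¬ ExO (dO (Sum.elim (eT T) fun i => (ν i).val) (mx S b a)),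
          OneL (Dt (fun i => mx S b a (Sum.inl i)) T * bp (fun i => mx S b a (Sum.inr i)) ν) := by
        intro h4
        rw [dt_bp]
        exact one_mono j hj _ hfam h4
      by_cases h : MvT S ν
      · refine key ?_
        rw [← twM_eq]
        exact hF ⟨(⟨T, mem_SS.2 hT⟩, ν), h⟩
      · rcases hE T hT ν h with h5 | ⟨y, hy⟩
        · refine key ?_
          rw [← twM_eq, twM_fix h]
          exact h5
        · have h6 := twM_fix (b := b) (T := T) h a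
          unfold twM at h6
          rw [h6, hy]
          refine one_cube j ?_
          rintro rfl
          rw [zero_pow three_ne_zero, ← h6] at hy
          exact mul_ne_zero (dt_ne (fun i => hne _) T)
            (bp_ne (fun i => hfam _) ν) hy

end

end Run7.h707.TF
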