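import Pool.Agent.Run7.h707.TE.Kap

/-! The proportion of the classes for a fixed curve and `r` field parameters -/

set_option autoImplicit false

open scoped Classical

namespace Run7.h707.TF.KapC

open Finset
open Run7.h707.TE.Kap (V ad mem_ad ln t1 t2 t3)

/-- the tuples avoiding `-c - S` -/
noncomputable def H (c : V) (S : Finset V) (r : ℕ) : Finset (Fin r → V) :=
  univ.filter fun p => ∀ s ∈ S, ∀ ν : Fin r → ZMod 3, c + s + ∑ i, (ν i).val • p i ≠ 0

theorem card_H (c : V) (S : Finset V) (r : ℕ) :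
    (H c S (r + 1)).card = ∑ x : V, (H c (ad S x) r).card := by
  have h1 : (H c S (r + 1)).card = (univ.filter fun q : V × (Fin r → V) =>
      q.2 ∈ H c (ad S q.1) r).card := by
    refine card_bij' (fun p _ => (p 0, fun i => p i.succ)) (fun q _ => Fin.cons q.1 q.2) ?_ ?_ ?_ ?_
    · intro p hp
      rw [mem_filter]
      refine ⟨mem_univ _, ?_⟩
      unfold H at hp ⊢
      rw [mem_filter] at hp ⊢
      refine ⟨mem_univ _, fun y hy ν => ?_⟩
      obtain ⟨t, s, hs, rfl⟩ := mem_ad.1 hy
      have h := hp.2 s hs (Fin.cons t ν)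
      rw [Fin.sum_univ_succ] at h
      simp only [Fin.cons_zero, Fin.cons_succ] at h
      rw [← add_assoc] at h
      rw [← add_assoc]
      exact h
    · intro q hq
      rw [mem_filter] at hq
      have hq' := hq.2
      unfold H at hq' ⊢
      rw [mem_filter] at hq' ⊢
      refine ⟨mem_univ _, fun s hs ν => ?_⟩
      have h := hq'.2 (s + (ν 0).val • q.1) (mem_ad.2 ⟨ν 0, s, hs, rfl⟩) fun i => ν i.succ
      rw [Fin.sum_univ_succ]
      simp only [Fin.cons_zero, Fin.cons_succ]
      rw [← add_assoc]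
      rw [← add_assoc] at h
      exact h
    · intro p _
      exact Fin.cons_self_tail _
    · intro q _
      rfl
  rw [h1, card_filter, ← univ_product_univ, sum_product]
  refine sum_congr rfl fun x _ => ?_
  rw [← card_filter]
  congr 1
  ext q
  simp

theorem H_univ (c : V) (r : ℕ) : (H c univ r).card = 0 := by
  rw [card_eq_zero, eq_empty_iff_forall_notMem]
  intro p hp
  unfold H at hp
  rw [mem_filter] at hp
  apply hp.2 (-c) (mem_univ _) 0
  simp

theorem H_zero (c : V) (S : Finset V) : (H c S 0).card = if ∀ s ∈ S, c + s ≠ 0 then 1 else 0 := by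
  unfold H
  split_ifs with h
  · rw [filter_true_of_mem, card_univ]
    · rfl
    · intro p _ s hs ν
      simpa using h s hs
  · push Not at h
    obtain ⟨s, hs, h⟩ := h
    rw [filter_false_of_mem]
    · rfl
    · intro p _ h'
      apply h' s hs 0
      simpa using h

theorem neg_ln : ∀ x c : V, (∀ s ∈ ln x, c + s ≠ 0) ↔ c ∉ ln x := by
  decide +kernel

theorem H_ln (c x : V) (hx : x ≠ 0) (r : ℕ) :
    (H c (ln x) r).card = if c ∈ ln x then 0 else 3 ^ r := by
  induction r with
  | zero =>
    rw [H_zero]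
    have h0 := neg_ln x c
    split_ifs with h1 h2 h2
    · exact absurd h2 (h0.1 h1)
    · rfl
    · rfl
    · exact absurd (h0.2 h2) h1
  | succ r ih =>
    rw [card_H]
    have h1 : ∀ y : V, (H c (ad (ln x) y) r).card =
        if y ∈ ln x then (if c ∈ ln x then 0 else 3 ^ r) else 0 := by
      intro y
      rw [t1 x hx y]
      split_ifs with h1
      · rw [ih, if_pos ‹_›]
      · rw [ih, if_neg ‹_›]
      · exact H_univ c r
    simp only [h1]
    rw [← sum_filter, filter_mem_eq_inter, univ_inter, sum_const, t2 x hx, smul_eq_mul]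
    split_ifs
    · rfl
    · rw [pow_succ]
      ring

theorem cnt_ln : ∀ c : V, c ≠ 0 →
    (@Finset.filter V (fun x : V => x ≠ 0 ∧ c ∉ ln x) (fun _ => inferInstance) univ).card = 6 := by
  decide +kernel

theorem H_0 (c : V) (hc : c ≠ 0) (r : ℕ) : (H c {0} r).card + 2 = 3 ^ (r + 1) := by
  induction r with
  | zero =>
    rw [H_zero, if_pos (fun s hs => by rw [mem_singleton.1 hs, add_zero]; exact hc)]
    norm_num
  | succ r ih =>
    rw [card_H, ← add_sum_erase univ _ (mem_univ (0 : V)), t3]
    have h1 : ∑ x ∈ univ.erase (0 : V), (H c (ad {0} x) r).card = 6 * 3 ^ r := by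
      have h2 : ∀ x ∈ univ.erase (0 : V), (H c (ad {0} x) r).card =
          if c ∉ ln x then 3 ^ r else 0 := fun x hx => by
        have h3 := H_ln c x (ne_of_mem_erase hx) r
        have e : ad {0} x = ln x := rfl
        rw [e, h3]
        by_cases h4 : c ∈ ln x
        · rw [if_pos h4, if_neg (not_not.2 h4)]
        · rw [if_neg h4, if_pos h4]
      rw [sum_congr rfl h2, ← sum_filter, sum_const, smul_eq_mul]
      congr 1
      rw [← cnt_ln c hc]
      refine le_antisymm (card_le_card fun x hx => ?_) (card_le_card fun x hx => ?_)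
      · rw [mem_filter, mem_erase] at hx
        exact mem_filter.2 ⟨mem_univ _, hx.1.1, hx.2⟩
      · have hx := (mem_filter.1 hx).2
        rw [mem_filter, mem_erase]
        exact ⟨⟨hx.1, mem_univ _⟩, hx.2⟩
    rw [h1, pow_succ]
    omega

/-- the homomorphism -/
def W {s : ℕ} (d : Fin s → V) : Finset V := (univ : Finset (Fin s → ZMod 3)).image fun μ =>
  ∑ i, (μ i).val • d i

theorem smul_add' : ∀ (a b : ZMod 3) (c : V), (a + b).val • c = a.val • c + b.val • c := by
  decide

theorem W_add {s : ℕ} (d : Fin s → V) {x y : V} (hx : x ∈ W d) (hy : y ∈ W d) : x + y ∈ W d := by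
  unfold W at hx hy ⊢
  rw [mem_image] at hx hy ⊢
  obtain ⟨μ, -, rfl⟩ := hx
  obtain ⟨μ', -, rfl⟩ := hy
  refine ⟨μ + μ', mem_univ _, ?_⟩
  rw [← sum_add_distrib]
  exact sum_congr rfl fun i _ => smul_add' _ _ _

theorem W_zero {s : ℕ} (d : Fin s → V) : (0 : V) ∈ W d := by
  unfold W
  rw [mem_image]
  refine ⟨0, mem_univ _, Finset.sum_eq_zero fun i _ => ?_⟩
  rw [Pi.zero_apply, ZMod.val_zero, zero_smul]

theorem W_smul {s : ℕ} (d : Fin s → V) {x : V} (hx : x ∈ W d) (n : ℕ) : n • x ∈ W d := by
  induction n with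
  | zero => rw [zero_smul]; exact W_zero d
  | succ n ih => rw [succ_nsmul]; exact W_add d ih hx

/-- the subspace generated by the classes is zero, a line or everything -/
theorem W_cases {s : ℕ} (d : Fin s → V) :
    (W d = {0} ∧ ∀ i, d i = 0) ∨ ((∃ x, x ≠ 0 ∧ W d = ln x) ∧ ∃ i, d i ≠ 0) ∨ W d = univ := by
  by_cases h : ∀ i, d i = 0
  · left
    refine ⟨?_, h⟩
    ext y
    unfold W
    rw [mem_image, mem_singleton]
    constructor
    · rintro ⟨μ, -, rfl⟩
      exact Finset.sum_eq_zero fun i _ => by rw [h i, smul_zero]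
    · rintro rfl
      have := W_zero d
      unfold W at this
      rw [mem_image] at this
      exact this
  · push Not at h
    right
    obtain ⟨i, hi⟩ := h
    have hx : d i ∈ W d := by
      unfold W
      rw [mem_image]
      refine ⟨Pi.single i 1, mem_univ _, ?_⟩
      rw [Fintype.sum_eq_single i (fun k hk => by
        rw [Pi.single_eq_of_ne hk, ZMod.val_zero, zero_smul]), Pi.single_eq_same]
      exact one_nsmul _
    have hln : ∀ y ∈ ln (d i), y ∈ W d := by
      intro y hy
      obtain ⟨t, s, hs, rfl⟩ := mem_ad.1 hy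
      rw [mem_singleton.1 hs, zero_add]
      exact W_smul d hx _
    by_cases h2 : ∀ y ∈ W d, y ∈ ln (d i)
    · left
      exact ⟨⟨d i, hi, Finset.Subset.antisymm h2 hln⟩, i, hi⟩
    · right
      push Not at h2
      obtain ⟨y, hy, hy'⟩ := h2
      have h3 := t1 (d i) hi y
      rw [if_neg hy'] at h3
      rw [eq_univ_iff_forall]
      intro z
      have h4 : z ∈ ad (ln (d i)) y := by rw [h3]; exact mem_univ _
      obtain ⟨t, s, hs, rfl⟩ := mem_ad.1 h4
      exact W_add d (hln s hs) (W_smul d hy _)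

/-- **The number of the classes.** -/
theorem card_c {s : ℕ} (c : V) (d : Fin s → V)
    (hc : ∀ μ : Fin s → ZMod 3, c + ∑ i, (μ i).val • d i ≠ 0) (r : ℕ) :
    ({u : Fin r → V | ∀ (μ : Fin s → ZMod 3) (ν : Fin r → ZMod 3), ν ≠ 0 →
      ∑ i, (ν i).val • u i + (c + ∑ i, (μ i).val • d i) ≠ 0}.ncard : ℝ) =
      if ∀ i, d i = 0 then 3 ^ (r + 1) - 2 else 3 ^ r := by
  have h1 : {u : Fin r → V | ∀ (μ : Fin s → ZMod 3) (ν : Fin r → ZMod 3), ν ≠ 0 →
      ∑ i, (ν i).val • u i + (c + ∑ i, (μ i).val • d i) ≠ 0} = (H c (W d) r : Set (Fin r → V)) := by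
    ext u
    unfold H W
    simp only [Set.mem_ofPred_eq, coe_filter, mem_univ, true_and, mem_image, forall_exists_index,
      forall_apply_eq_imp_iff]
    refine forall_congr' fun μ => ⟨fun h ν => ?_, fun h ν hν => ?_⟩
    · by_cases hν : ν = 0
      · subst hν
        simpa using hc μ
      · rw [add_comm]
        exact h ν hν
    · rw [add_comm]
      exact h ν
  rw [h1, Set.ncard_coe_finset]
  rcases W_cases d with ⟨h2, h3⟩ | ⟨⟨x, hx, h2⟩, i, hi⟩ | h2
  · rw [if_pos h3, h2]
    have h4 : c ≠ 0 := by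
      have := hc 0
      simpa using this
    have h5 := H_0 c h4 r
    have h6 : ((H c {0} r).card : ℝ) + 2 = 3 ^ (r + 1) := by exact_mod_cast h5
    linarith
  · rw [if_neg (fun h => hi (h i)), h2, H_ln c x hx r, if_neg]
    · push_cast
      rfl
    · rw [← neg_ln]
      intro s hs
      rw [← h2] at hs
      unfold W at hs
      rw [mem_image] at hs
      obtain ⟨μ, -, rfl⟩ := hs
      exact hc μ
  · exfalso
    have h3 : -c ∈ W d := by rw [h2]; exact mem_univ _
    unfold W at h3
    rw [mem_image] at h3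
    obtain ⟨μ, -, h4⟩ := h3
    apply hc μ
    rw [h4]
    exact add_neg_cancel c

end Run7.h707.TF.KapC
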