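import Pool.Agent.Run7.h707.TF.FixX
import Pool.Agent.Run7.h707.TF.KapC

/-! The final statement for a fixed elliptic curve and the extensions of a fixed field -/

set_option autoImplicit false
set_option linter.unusedVariables false
set_option linter.unusedSectionVars false

open scoped Classical

namespace Run7.h707.TF

open Finset Filter NumberField IsDedekindDomain WeierstrassCurve
open Pool.Agent.Y692.QS (Ei w nr)
open Pool.Agent.Y703.XK (c9)
open Pool.Agent.H921R2.TatePole (nm)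
open Pool.Agent.Y696.CTK (ED Tri)
open Pool.Agent.TH841.NF.D (Sha)
open Run7.h707.TC (FamO ExO)
open Run7.h707.TE (dO UO AllO bp lf ne_of_famO bp_ne dO_ne)

section
variable {K : Type} [Field K] [NumberField K] {s r : ℕ}

/-- the products for the two families of generators -/
theorem bp_append (d : Fin s → 𝓞 K) (a : Fin r → 𝓞 K) (κ : Fin (s + r) → ZMod 3) :
    bp (Fin.append d a) κ = bp d (fun i => κ (Fin.castAdd r i)) * bp a fun k => κ (Fin.natAdd s k) := by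
  unfold Run7.h707.TE.bp
  rw [Fin.prod_univ_add]
  simp only [Fin.append_left, Fin.append_right]

theorem bp_zero (a : Fin r → 𝓞 K) : bp a 0 = 1 := by
  unfold Run7.h707.TE.bp
  refine Finset.prod_eq_one fun i _ => ?_
  rw [Pi.zero_apply, ZMod.val_zero, pow_zero]

/-- the function over `K` of a nonexceptional twist -/
theorem one_X (j : Ei ≃+* 𝓞 K) (hj : ∀ z : Ei, Algebra.norm ℤ (j z) = nr z) {B₀ : Type}
    [Fintype B₀] (l : B₀ → ℕ) {b₀ : B₀ → 𝓞 K} (hb₀ : ∀ i, FamO (b₀ i)) {d : Fin s → 𝓞 K}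
    (hd : ∀ i, FamO (d i)) {a : Fin r → 𝓞 K} (ha : ∀ i, FamO (a i)) (μ : Fin s → ZMod 3)
    (ν : Fin r → ZMod 3) (h : ¬ ExO (dO l b₀ * bp d μ * bp a ν)) :
    OneL (dO l b₀ * bp d μ * bp a ν) := by
  have e : dO (Sum.elim (Sum.elim l fun i => (μ i).val) fun k => (ν k).val)
      (Sum.elim (Sum.elim b₀ d) a) = dO l b₀ * bp d μ * bp a ν := by
    rw [dO_sum, dO_sum]
    rfl
  have h1 := one_mono j hj (Sum.elim (Sum.elim l fun i => (μ i).val) fun k => (ν k).val)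
    (a := Sum.elim (Sum.elim b₀ d) a) (fam_elim (fam_elim hb₀ hd) ha) (by rw [e]; exact h)
  rwa [e] at h1

/-- no unit times a cube: no cube -/
theorem no_cube {x : 𝓞 K} (h : ¬ UO x) (y : 𝓞 K) : y ^ 3 ≠ x := fun hy =>
  h ⟨1, y, isUnit_one, by rw [one_mul, hy]⟩

/-- the system of representatives in the case without relations -/
theorem no_rel {J₀ : Type} [Fintype J₀] {C : J₀ → 𝓞 K} {d : Fin s → 𝓞 K} (hd : ∀ i, d i ≠ 0)
    (hC : ∀ t, C t ≠ 0)
    (h1 : ∀ (t t' : J₀) (μ : Fin s → ZMod 3), (t ≠ t' ∨ μ ≠ 0) → ∀ x : 𝓞 K,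
      x ^ 3 ≠ C t * C t' ^ 2 * bp d μ)
    (h2 : ∀ (t t' : J₀) (μ : Fin s → ZMod 3) (x : 𝓞 K), x ^ 3 ≠ C t * C t' * bp d μ)
    (t t' : IX J₀ s r) (htt : t ≠ t') : ¬ Rx C d t t' := by
  rintro ⟨e, he, hk, x, hx⟩
  obtain ⟨y, hy, hyy⟩ := bp_mul hd t.2.1 t'.2.1 e
  have h4 : x ^ 3 = (C t.1 * C t'.1 ^ e * bp d (fun i => t.2.1 i + e * t'.2.1 i)) * y ^ 3 := by
    rw [← hx]
    linear_combination (C t.1 * C t'.1 ^ e) * hyy
  rcases he with rfl | rfl
  · refine cube_div hy h4 fun u => ?_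
    rw [pow_one]
    exact h2 _ _ _ u
  · have h5 : t.2.2 = t'.2.2 := by
      apply Subtype.ext
      funext k
      have := hk k
      have h6 : ∀ a b : ZMod 3, a + (2 : ℕ) * b = 0 → a = b := by decide
      exact h6 _ _ this
    refine cube_div hy h4 (h1 _ _ _ ?_)
    by_contra hcon
    push Not at hcon
    apply htt
    refine Prod.ext hcon.1 (Prod.ext ?_ h5)
    funext i
    have h7 := congrFun hcon.2 i
    have h6 : ∀ a b : ZMod 3, a + (2 : ℕ) * b = 0 → a = b := by decide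
    exact h6 _ _ h7

theorem card_IX (J₀ : Type) [Fintype J₀] :
    (univ : Finset (IX J₀ s r)).card = Fintype.card J₀ * (3 ^ s * (3 ^ r - 1)) := by
  rw [card_univ, Fintype.card_prod, Fintype.card_prod, Fintype.card_fun, ZMod.card, Fintype.card_fin]
  congr 2
  rw [Fintype.card_subtype_compl, Fintype.card_subtype_eq, Fintype.card_fun, ZMod.card,
    Fintype.card_fin]

/-- the proportion for one curve -/
noncomputable def kapC (d : Fin s → 𝓞 K) (r : ℕ) : ℝ :=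
  if ∀ i, Nm1 (d i) then (3 ^ (r + 1) - 2) / 9 ^ r else 1 / 3 ^ r

theorem kapX_one (j : Ei ≃+* 𝓞 K) (hj : ∀ z : Ei, Algebra.norm ℤ (j z) = nr z) {c : 𝓞 K}
    (hc : FamO c) {d : Fin s → 𝓞 K} (hd : ∀ i, FamO (d i))
    (hE : ∀ μ : Fin s → ZMod 3, ¬ ExO (c * bp d μ)) :
    kapX (fun _ : Unit => c) d r = kapC d r := by
  obtain ⟨c', hc'⟩ := isCl_ex j hj hc
  choose cd hcd using fun i => isCl_ex j hj (hd i)
  have hcl : ∀ t : IX Unit s r, IsCl (j w) (c * bp d t.2.1)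
      (c' + ∑ i, (t.2.1 i).val • cd i) := fun t => isCl_mul (w3 j) hc' (isCl_bp (w3 j) hcd _)
  have h1 := kapJ_reps j hj (fun (t : IX Unit s r) (k : Fin r) => (t.2.2.1 k).val)
    (fun t => c * bp d t.2.1) _ hcl
  have h2 : kapX (fun _ : Unit => c) d r = kapJ (fun (t : IX Unit s r) (k : Fin r) =>
      (t.2.2.1 k).val) (fun t => c' + ∑ i, (t.2.1 i).val • cd i) := by
    rw [h1, Fintype.card_fin]
    unfold kapX
    congr 3
    ext u
    simp only [← bp_eq_dO, Set.mem_ofPred_eq, Prod.forall, Subtype.forall]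
    refine and_congr_right fun _ => forall_congr' fun t => forall_congr' fun μ =>
      forall_congr' fun ν => imp_congr_right fun _ => ?_
    rw [mul_comm (bp u ν)]
  have h3 := KapC.card_c c' cd (fun μ h => by
    apply hE μ
    rw [exO_cl j hj (isCl_mul (w3 j) hc' (isCl_bp (w3 j) hcd μ))]
    exact Or.inr h) r
  have h4 : (∀ i, cd i = 0) ↔ ∀ i, Nm1 (d i) := by
    refine forall_congr' fun i => ?_
    unfold Nm1
    rw [← isCl_zero (ω := j w)]
    constructor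
    · intro h
      rw [← h]
      exact hcd i
    · intro h
      exact isCl_unique j hj (hcd i) h
  rw [h2]
  unfold kapJ kapC
  have h5 : {u : Fin r → ZMod 3 × ZMod 3 | ∀ t : IX Unit s r, ∑ k, (t.2.2.1 k).val • u k +
      (c' + ∑ i, (t.2.1 i).val • cd i) ≠ 0} =
      {u : Fin r → ZMod 3 × ZMod 3 | ∀ (μ : Fin s → ZMod 3) (ν : Fin r → ZMod 3), ν ≠ 0 →
      ∑ i, (ν i).val • u i + (c' + ∑ i, (μ i).val • cd i) ≠ 0} := by
    ext u
    simp only [Set.mem_ofPred_eq, Prod.forall, Subtype.forall, forall_const]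
  rw [h5, h3, Fintype.card_fin]
  by_cases h : ∀ i, cd i = 0
  · rw [if_pos h, if_pos (h4.1 h)]
  · rw [if_neg h, if_neg (fun h' => h (h4.2 h'))]
    have : (9 : ℝ) ^ r = 3 ^ r * 3 ^ r := by rw [← mul_pow]; norm_num
    rw [this]
    field_simp

/-- a square times a product that is a cube -/
theorem sq_cube {d : Fin s → 𝓞 K} (hd : ∀ i, d i ≠ 0) {c x : 𝓞 K} (hc : c ≠ 0)
    (μ : Fin s → ZMod 3) (h : x ^ 3 = c * c * bp d μ) : ∃ u : 𝓞 K, u ^ 3 = c * bp d (-μ) := by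
  obtain ⟨y, hy, hyy⟩ := bp_mul hd μ (-μ) 1
  have e : (fun i => μ i + (1 : ℕ) * (-μ) i) = 0 := by
    funext i
    rw [Nat.cast_one, one_mul, Pi.neg_apply, add_neg_cancel, Pi.zero_apply]
  rw [e, bp_zero, one_mul, pow_one] at hyy
  have hx : x ≠ 0 := by
    rintro rfl
    have h1 : c * c * bp d μ = 0 := by rw [← h]; ring
    have h2 : bp d μ ≠ 0 := Finset.prod_ne_zero_iff.2 fun i _ => pow_ne_zero _ (hd i)
    exact mul_ne_zero (mul_ne_zero hc hc) h2 h1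
  exact ex_cube (x := c * y) (z := c * bp d (-μ)) hx (by
    rw [h]
    linear_combination (-c ^ 3) * hyy)

/-- the field of the cube roots of two families -/
def GenF (K F : Type) [Field K] [NumberField K] [Field F] [Algebra K F] (d : Fin s → 𝓞 K)
    (a : Fin r → 𝓞 K) (η : Fin s → F) (θ : Fin r → F) : Prop :=
  (∀ i, η i ^ 3 = algebraMap K F (d i)) ∧ (∀ k, θ k ^ 3 = algebraMap K F (a k)) ∧
    ∀ S : Subfield F, (∀ x : K, algebraMap K F x ∈ S) → (∀ i, η i ∈ S) → (∀ k, θ k ∈ S) → S = ⊤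

/-- one curve over the field of the two families -/
theorem fld_X (j : Ei ≃+* 𝓞 K) {δ : 𝓞 K} (hδ : δ ≠ 0) {d : Fin s → 𝓞 K} {a : Fin r → 𝓞 K}
    (hd0 : ∀ i, d i ≠ 0) (ha0 : ∀ i, a i ≠ 0)
    (hC : ∀ μ : Fin s → ZMod 3, μ ≠ 0 → ∀ y : 𝓞 K, y ^ 3 ≠ bp d μ)
    (hC' : ∀ (μ : Fin s → ZMod 3) (ν : Fin r → ZMod 3), ν ≠ 0 → ∀ y : 𝓞 K,
      y ^ 3 ≠ bp d μ * bp a ν)
    (hone : ∀ (μ : Fin s → ZMod 3) (ν : Fin r → ZMod 3), OneL (δ * bp d μ * bp a ν))
    (F : Type) [Field F] [NumberField F] [Algebra K F] (η : Fin s → F) (θ : Fin r → F)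
    (hG : GenF K F d a η θ) :
    Module.finrank K F = 3 ^ (s + r) ∧ ∃ L : ℂ → ℂ, Differentiable ℂ L ∧
      (∀ s : ℂ, 3 / 2 < s.re → HasProd (fun v : HeightOneSpectrum (𝓞 F) =>
        lf (algebraMap (𝓞 K) (𝓞 F) δ) v ((nm v : ℂ) ^ (-s))) (L s)) ∧
      (∀ s : ℂ, 3 / 2 < s.re → L s = (ED (algebraMap K F (δ : 𝓞 K))).LSeries s) ∧
      ((∀ (μ : Fin s → ZMod 3) (ν : Fin r → ZMod 3), Tri (δ * bp d μ * bp a ν)) → L 1 ≠ 0 ∧
        Finite (ED (algebraMap K F (δ : 𝓞 K))).toAffine.Point ∧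
        ∀ (k : ℕ) (y : Sha (ED (algebraMap K F (δ : 𝓞 K)))), 3 ^ k • y = 0 →
          3 ^ (s + r) • y = 0) := by
  obtain ⟨h1, h2, h3⟩ := hG
  have hE : ∀ κ : Fin (s + r) → ZMod 3, δ * bp (Fin.append d a) κ =
      δ * bp d (fun i => κ (Fin.castAdd r i)) * bp a fun k => κ (Fin.natAdd s k) := fun κ => by
    rw [bp_append, mul_assoc]
  have hA : ∀ i, Fin.append d a i ≠ 0 := append_all (P := fun x : 𝓞 K => x ≠ 0) hd0 ha0
  obtain ⟨hdim, L, l1, l2, l3, l4⟩ := fld_G (K := K) j hδ (d := Fin.append d a) hA (fun κ hκ y => by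
      rw [bp_append]
      by_cases h : (fun k => κ (Fin.natAdd s k)) = 0
      · rw [h, bp_zero, mul_one]
        refine hC _ (fun h' => hκ ?_) y
        funext i
        induction i using Fin.addCases with
        | left i => exact congrFun h' i
        | right i => exact congrFun h i
      · exact hC' _ _ h y) (fun κ => by rw [hE]; exact hone _ _) F (Fin.append η θ) (fun i => by
      induction i using Fin.addCases with
      | left i => rw [Fin.append_left, Fin.append_left]; exact h1 i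
      | right i => rw [Fin.append_right, Fin.append_right]; exact h2 i)
    (fun S hS hS' => h3 S hS (fun i => by
      have := hS' (Fin.castAdd r i)
      rwa [Fin.append_left] at this) fun i => by
      have := hS' (Fin.natAdd s i)
      rwa [Fin.append_right] at this)
  refine ⟨hdim, L, l1, l2, l3, fun hT => l4 fun κ => ?_⟩
  rw [hE]
  exact hT _ _

/-- **The final statement for a fixed elliptic curve over the extensions of a fixed field.** -/
theorem finC (K : Type) [Field K] [NumberField K] [IsCyclotomicExtension {3} ℚ K] {s : ℕ} (r : ℕ)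
    {c : 𝓞 K} (hc : FamO c) {d : Fin s → 𝓞 K} (hd : ∀ i, FamO (d i))
    (hind : ∀ μ : Fin s → ZMod 3, μ ≠ 0 → ∀ y : 𝓞 K, y ^ 3 ≠ bp d μ)
    (hE : ∀ μ : Fin s → ZMod 3, ¬ ExO (c * bp d μ)) :
    (∃ C : ℝ, 0 < C ∧ ∃ X₀ : ℕ, ∀ X : ℕ, X₀ ≤ X → C * (X : ℝ) ^ r ≤
      ({a : Fin r → 𝓞 K | AllO X a}.ncard : ℝ)) ∧
    Tendsto (fun X : ℕ => ({a : Fin r → 𝓞 K | AllO X a ∧
      (∀ (μ : Fin s → ZMod 3) (ν : Fin r → ZMod 3), ν ≠ 0 → ¬ ExO (c * bp d μ * bp a ν)) ∧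
      ∀ (μ : Fin s → ZMod 3) (ν : Fin r → ZMod 3), ν ≠ 0 → ¬ UO (bp d μ * bp a ν)}.ncard : ℝ)
      / ({a : Fin r → 𝓞 K | AllO X a}.ncard : ℝ)) atTop (nhds (kapC d r)) ∧
    Tendsto (fun X : ℕ => ({a : Fin r → 𝓞 K | AllO X a ∧
      ((∀ (μ : Fin s → ZMod 3) (ν : Fin r → ZMod 3), ν ≠ 0 → ¬ ExO (c * bp d μ * bp a ν)) ∧
      ∀ (μ : Fin s → ZMod 3) (ν : Fin r → ZMod 3), ν ≠ 0 → ¬ UO (bp d μ * bp a ν)) ∧
      ∀ (μ : Fin s → ZMod 3) (ν : Fin r → ZMod 3), ν ≠ 0 → Tri (c * bp d μ * bp a ν)}.ncard : ℝ)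
      / ({a : Fin r → 𝓞 K | AllO X a}.ncard : ℝ)) atTop
      (nhds (kapC d r * (∏' i : ℕ, (1 - (1 / 3 : ℝ) ^ (2 * i + 1))) ^ (3 ^ s * (3 ^ r - 1)))) ∧
    ∀ a : Fin r → 𝓞 K, (∀ k, FamO (a k)) →
      (∀ (μ : Fin s → ZMod 3) (ν : Fin r → ZMod 3), ν ≠ 0 → ¬ ExO (c * bp d μ * bp a ν)) →
      (∀ (μ : Fin s → ZMod 3) (ν : Fin r → ZMod 3), ν ≠ 0 → ¬ UO (bp d μ * bp a ν)) →
      ∀ (F : Type) [Field F] [NumberField F] [Algebra K F] (η : Fin s → F) (θ : Fin r → F),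
      GenF K F d a η θ → Module.finrank K F = 3 ^ (s + r) ∧
      ∃ Λ : ℂ → ℂ, Differentiable ℂ Λ ∧
        (∀ s : ℂ, 3 / 2 < s.re → Λ s = (ED (algebraMap K F (c : 𝓞 K))).LSeries s) ∧
        ((∀ (μ : Fin s → ZMod 3) (ν : Fin r → ZMod 3), Tri (c * bp d μ * bp a ν)) → Λ 1 ≠ 0 ∧
          Finite (ED (algebraMap K F (c : 𝓞 K))).toAffine.Point ∧
          ∀ (n : ℕ) (x : Sha (ED (algebraMap K F (c : 𝓞 K)))), 3 ^ n • x = 0 →
            3 ^ (s + r) • x = 0) := by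
  obtain ⟨⟨j, hj⟩, -⟩ := Pool.Agent.Y455.CTK.jex K
  have hd0 : ∀ i, d i ≠ 0 := fun i => ne_of_famO (hd i)
  have hc0 : c ≠ 0 := ne_of_famO hc
  have e0 : dO (fun _ : Unit => 1) (fun _ : Unit => c) = c := by
    unfold Run7.h707.TE.dO
    simp
  have hrel : ∀ t t' : IX Unit s r, t ≠ t' → ¬ Rx (fun _ : Unit => c) d t t' :=
    no_rel hd0 (fun _ => hc0) (fun t t' μ h x hx => by
      rcases h with h | h
      · exact h (Subsingleton.elim _ _)
      · refine cube_div (x := x) (y := c) hc0 ?_ (hind μ h)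
        rw [hx]
        ring) (fun t t' μ x hx => by
      obtain ⟨u, hu⟩ := sq_cube hd0 hc0 μ hx
      apply hE (-μ)
      exact Or.inl ⟨1, u, isUnit_one, by rw [one_mul, hu]⟩)
  obtain ⟨h1, h2, h3⟩ := law_X (J₀ := Unit) (s := s) (r := r) j hj (fun _ _ => 1)
    (b₀ := fun _ : Unit => c) (fun _ => hc) hd univ
    (fun t _ t' _ htt => by simp only [e0]; exact hrel t t' htt)
    (fun t => ⟨t, mem_univ _, 2, Or.inr rfl, fun k => by
      have : ∀ x : ZMod 3, x + (2 : ℕ) * x = 0 := by decide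
      exact this _, (dO (fun _ : Unit => 1) (fun _ : Unit => c)) * bp d t.2.1, by ring⟩)
  simp only [e0] at h2 h3
  have hk : kapX (fun _ : Unit => c) d r = kapC d r := kapX_one j hj hc hd hE
  have hcard : (univ : Finset (IX Unit s r)).card = 3 ^ s * (3 ^ r - 1) := by
    rw [card_IX, Fintype.card_unit, one_mul]
  rw [hk] at h2 h3
  rw [hcard] at h3
  simp only [forall_const] at h2 h3
  refine ⟨?_, h2, h3, ?_⟩
  · obtain ⟨C, X₀, hC, h⟩ := h1
    exact ⟨C, hC, X₀, h⟩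
  · intro a ha hF hU F _ _ _ η θ hG
    obtain ⟨hdim, L, l1, -, l3, l4⟩ := fld_X (K := K) j hc0 hd0 (fun i => ne_of_famO (ha i)) hind
      (fun μ ν hν => no_cube (hU μ ν hν)) (fun μ ν => by
        have h5 : ¬ ExO (c * bp d μ * bp a ν) := by
          by_cases hν : ν = 0
          · rw [hν, bp_zero, mul_one]
            exact hE μ
          · exact hF μ ν hν
        have h6 := one_X j hj (B₀ := Unit) (fun _ => 1) (b₀ := fun _ => c) (fun _ => hc) hd ha μ ν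
          (by rw [e0]; exact h5)
        rwa [e0] at h6) F η θ hG
    exact ⟨hdim, L, l1, l3, l4⟩

end

end Run7.h707.TF
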