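import Pool.Agent.Run7.h707.TF.LawS
import Pool.Agent.N883.DQ.Bk

/-! The final statement: some coefficients fixed, a fixed field of cube roots -/

set_option autoImplicit false
set_option linter.unusedVariables false
set_option linter.unusedSectionVars false

open scoped Classical

namespace Run7.h707.TF

open Finset Filter NumberField IsDedekindDomain WeierstrassCurve
open Pool.Agent.N883.FG
open Pool.Agent.N883.DQ (Dt)
open Pool.Agent.Y692.QS (Ei w nr)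
open Pool.Agent.Y703.XK (c9)
open Pool.Agent.Y696.CTK (ED Tri)
open Pool.Agent.TH841.NF.D (Sha)
open Run7.h707.TC (FamO ExO IsLFT mem_SS)
open Run7.h707.TE

section
variable {K : Type} [Field K] [NumberField K]

theorem mix_fam {m : ℕ} (S : Finset (Fin m)) {b : Fin m → 𝓞 K} (hb : ∀ i, FamO (b i))
    {a : ↥S → 𝓞 K} (ha : ∀ i, FamO (a i)) (i : Fin m) : FamO (mix S b a i) := by
  unfold mix
  split_ifs with h
  · exact ha _
  · exact hb i

/-- a system of representatives exists -/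
theorem ex_sys {J : Type} [Fintype J] (Rel : J → J → Prop) (hr : ∀ t, Rel t t)
    (hs : ∀ t t', Rel t t' → Rel t' t) : ∃ R : Finset J,
      (∀ t ∈ R, ∀ t' ∈ R, t ≠ t' → ¬ Rel t t') ∧ ∀ t, ∃ t' ∈ R, Rel t t' := by
  obtain ⟨R, hR, hmax⟩ := ((univ : Finset (Finset J)).filter fun R =>
    ∀ t ∈ R, ∀ t' ∈ R, t ≠ t' → ¬ Rel t t').exists_max_image card
    ⟨∅, mem_filter.2 ⟨mem_univ _, fun t ht => absurd ht (notMem_empty t)⟩⟩
  have hR' := (mem_filter.1 hR).2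
  refine ⟨R, hR', fun t => ?_⟩
  by_cases ht : t ∈ R
  · exact ⟨t, ht, hr t⟩
  · by_contra hcon
    push Not at hcon
    have h1 := hmax (insert t R) (mem_filter.2 ⟨mem_univ _, fun x hx y hy hxy => by
      rcases mem_insert.1 hx with hx' | hx'
      · rcases mem_insert.1 hy with hy' | hy'
        · exact absurd (hx'.trans hy'.symm) hxy
        · rw [hx']
          exact hcon y hy'
      · rcases mem_insert.1 hy with hy' | hy'
        · rw [hy']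
          exact fun h => hcon x hx' (hs _ _ h)
        · exact hR' x hx' y hy' hxy⟩)
    rw [card_insert_of_notMem ht] at h1
    omega

theorem relS_symm {m r : ℕ} {S : Finset (Fin m)} {J₀ : Finset (Finset (Fin m))} {b : Fin m → 𝓞 K}
    {d : Fin r → 𝓞 K} (p p' : ↥J₀ × (Fin r → ZMod 3)) (h : RelS S J₀ b d p p') :
    RelS S J₀ b d p' p := by
  obtain ⟨e, he, h⟩ := h
  refine ⟨e, he, fun a => ?_⟩
  obtain ⟨x, hx⟩ := h a
  by_cases hy : tw S J₀ b d p' a = 0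
  · exact ⟨0, by rw [hy, zero_mul, zero_pow three_ne_zero]⟩
  · exact rel_symm hy he hx

theorem relS_refl {m r : ℕ} {S : Finset (Fin m)} {J₀ : Finset (Finset (Fin m))} {b : Fin m → 𝓞 K}
    {d : Fin r → 𝓞 K} (p : ↥J₀ × (Fin r → ZMod 3)) : RelS S J₀ b d p p :=
  ⟨2, Or.inr rfl, fun a => ⟨tw S J₀ b d p a, by ring⟩⟩

/-- **The final statement.** -/
theorem finS (K : Type) [Field K] [NumberField K] [IsCyclotomicExtension {3} ℚ K] {c : ℕ}
    (hc : c ≤ 2) {r : ℕ} {S : Finset (Fin (2 * c + 3))} (hS : S.Nonempty)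
    {b : Fin (2 * c + 3) → 𝓞 K} (hb : ∀ i, FamO (b i)) {d : Fin r → 𝓞 K} (hd : ∀ i, FamO (d i))
    (hind : ∀ ν : Fin r → ZMod 3, ν ≠ 0 → ∀ y : 𝓞 K, y ^ 3 ≠ bp d ν)
    (R : Finset (↥(SS c) × (Fin r → ZMod 3)))
    (hR : ∀ p ∈ R, ∀ p' ∈ R, p ≠ p' → ¬ RelS S (SS c) b d p p')
    (hR' : ∀ p, ∃ p' ∈ R, RelS S (SS c) b d p p') :
    ((∃ a : ↥S → 𝓞 K, (∀ k, FamO (a k)) ∧ ∀ p, ¬ ExO (tw S (SS c) b d p a)) →
      0 < kapS S (SS c) b d) ∧
    (∃ C : ℝ, 0 < C ∧ ∃ X₀ : ℕ, ∀ X : ℕ, X₀ ≤ X → C * (X : ℝ) ^ S.card ≤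
      ({a : ↥S → 𝓞 K | AllO X a}.ncard : ℝ)) ∧
    Tendsto (fun X : ℕ => ({a : ↥S → 𝓞 K | AllO X a ∧ ∀ p, ¬ ExO (tw S (SS c) b d p a)}.ncard : ℝ)
      / ({a : ↥S → 𝓞 K | AllO X a}.ncard : ℝ)) atTop (nhds (kapS S (SS c) b d)) ∧
    Tendsto (fun X : ℕ => ({a : ↥S → 𝓞 K | AllO X a ∧ (∀ p, ¬ ExO (tw S (SS c) b d p a)) ∧
      ∀ p, Tri (tw S (SS c) b d p a)}.ncard : ℝ) / ({a : ↥S → 𝓞 K | AllO X a}.ncard : ℝ)) atTop
      (nhds (kapS S (SS c) b d * (∏' i : ℕ, (1 - (1 / 3 : ℝ) ^ (2 * i + 1))) ^ R.card)) ∧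
    ∀ a : ↥S → 𝓞 K, (∀ k, FamO (a k)) → (∀ p, ¬ ExO (tw S (SS c) b d p a)) →
      ∀ (F : Type) [Field F] [NumberField F] [Algebra K F] (θ : Fin r → F),
      (∀ i, θ i ^ 3 = algebraMap K F (d i)) →
      (∀ T : Subfield F, (∀ k : K, algebraMap K F k ∈ T) → (∀ i, θ i ∈ T) → T = ⊤) →
      Module.finrank K F = 3 ^ r ∧
      ∃ L : ℂ → ℂ, IsLFT (fun k => algebraMap (𝓞 K) (𝓞 F) (mix S b a k)) L ∧
        ((∀ p, Tri (tw S (SS c) b d p a)) → L (c + 1) ≠ 0 ∧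
          ∀ T : Finset (Fin (2 * c + 3)), T.card = c →
            Finite (ED (algebraMap K F (Dt (mix S b a) T : 𝓞 K))).toAffine.Point ∧
            ∀ (n : ℕ) (x : Sha (ED (algebraMap K F (Dt (mix S b a) T : 𝓞 K)))),
              3 ^ n • x = 0 → 3 ^ r • x = 0) := by
  obtain ⟨⟨j, hj⟩, -⟩ := Pool.Agent.Y455.CTK.jex K
  obtain ⟨h1, h2, h3⟩ := law_S j hj hS hb hd R hR hR'
  refine ⟨?_, ?_, h2, h3, ?_⟩
  · rintro ⟨a, ha, h⟩
    exact kapS_pos j hj hb hd ha h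
  · obtain ⟨C, X₀, hC, h⟩ := h1
    exact ⟨C, hC, X₀, h⟩
  · intro a ha hF F _ _ _ θ hθ hgen
    obtain ⟨hdim, L, l1, l2⟩ := hyp_G (K := K) j hc (x := mix S b a)
      (fun i => ne_of_famO (mix_fam S hb ha i)) (fun i => ne_of_famO (hd i)) hind
      (fun T hT ν => by
        have h4 := hF (⟨T, mem_SS.2 hT⟩, ν)
        have h5 : OneL (tw S (SS c) b d (⟨T, mem_SS.2 hT⟩, ν) a) := by
          have e := tw_eq (S := S) (J₀ := SS c) b d (⟨T, mem_SS.2 hT⟩, ν) a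
          rw [e, ← dO_sum] at h4 ⊢
          exact one_mono j hj _ (fam_elim ha (fam_elim hb hd)) h4
        exact h5) F θ hθ hgen
    refine ⟨hdim, L, l1, fun hT => l2 fun T hTc ν => ?_⟩
    exact hT (⟨T, mem_SS.2 hTc⟩, ν)

end

end Run7.h707.TF
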