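import Pool.Agent.Run7.h707.TF.ClO

/-! The inverse of a twist has the same groups; related monomials -/

set_option autoImplicit false
set_option linter.unusedVariables false
set_option linter.unusedSectionVars false

open scoped Classical

namespace Run7.h707.TF

open Finset Filter NumberField
open Pool.Agent.Y692.QS (Ei w nr)
open Pool.Agent.Y699.E (prm prm_mul prm_one)
open Pool.Agent.Y703.CT (Dt pD Ker)
open Pool.Agent.Y715.T.Rec (cs)
open Pool.Agent.Y696.CTK (Tri)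
open Pool.Agent.N883.FF (nq ClP w_pow_inj isUnit_w nr_w_mul pB KerB)
open Run7.h707.TC

theorem ker_neg {J : Type} [Fintype J] {π : J → Ei} {e : J → ZMod 3} :
    Ker π (fun j => -e j) ↔ Ker π e := by
  unfold Ker
  refine forall_congr' fun v => ?_
  have h : ∀ j, ∑ i, (-e i) * cs (π j) (π i) * (v i - v j) =
      -∑ i, e i * cs (π j) (π i) * (v i - v j) := by
    intro j
    rw [← sum_neg_distrib]
    exact sum_congr rfl fun i _ => by ring
  simp only [h, neg_eq_zero]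

theorem kerB_neg {J : Type} [Fintype J] {π : J → Ei} {e : J → ZMod 3} {i : ZMod 3} :
    KerB π (fun j => -e j) (-i) ↔ KerB π e i := by
  unfold KerB
  refine forall_congr' fun v => ?_
  have h : ∀ j, (∑ k, (-e k) * cs (π j) (π k) * (v k - v j) = -i * nq (π j) * v j) ↔
      (∑ k, e k * cs (π j) (π k) * (v k - v j) = i * nq (π j) * v j) := by
    intro j
    have h1 : ∑ k, (-e k) * cs (π j) (π k) * (v k - v j) =
        -∑ k, e k * cs (π j) (π k) * (v k - v j) := by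
      rw [← sum_neg_distrib]
      exact sum_congr rfl fun i _ => by ring
    rw [h1, show -i * nq (π j) * v j = -(i * nq (π j) * v j) by ring, neg_inj]
  simp only [h]

theorem sq_val {M : Type} [CommMonoid M] (x : M) (a : ZMod 3) :
    ∃ k : ℕ, (x ^ a.val) ^ 2 = x ^ (-a).val * (x ^ k) ^ 3 := by
  have : ∀ a : ZMod 3, ∃ k : ℕ, k < 2 ∧ a.val * 2 = (-a).val + k * 3 := by decide
  obtain ⟨k, -, hk⟩ := this a
  exact ⟨k, by rw [← pow_mul, ← pow_mul, ← pow_add, hk]⟩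

theorem pD_sq {J : Type} [Fintype J] {π : J → Ei} {e : J → ZMod 3} (hD : Dt π e) :
    ∃ d : Ei, prm d ∧ d ≠ 0 ∧ pD π e ^ 2 = pD π (fun j => -e j) * d ^ 3 := by
  choose k hk using fun j => sq_val (π j) (e j)
  refine ⟨∏ j, π j ^ k j, ?_, ?_, ?_⟩
  · exact Finset.prod_induction _ prm (fun _ _ => prm_mul) prm_one fun j _ =>
      pow_prm (hD.pq j).three _
  · exact Finset.prod_ne_zero_iff.2 fun j _ => pow_ne_zero _ (hD.pq j).prime.ne_zero
  · unfold pD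
    rw [← prod_pow, ← prod_pow, ← prod_mul_distrib]
    exact prod_congr rfl fun j _ => hk j

theorem pB_sq {J : Type} [Fintype J] {π : J → Ei} {e : J → ZMod 3} (hD : Dt π e) (i : ZMod 3) :
    ∃ d : Ei, prm d ∧ d ≠ 0 ∧ pB π e i ^ 2 = pB π (fun j => -e j) (-i) * d ^ 3 := by
  obtain ⟨d, h1, h2, h3⟩ := pD_sq hD
  refine ⟨d, h1, h2, ?_⟩
  unfold pB
  have h4 : ((w : Ei) ^ i.val) ^ 2 = w ^ (-i).val := by
    have : ∀ i : ZMod 3, ((w : Ei) ^ i.val) ^ 2 = w ^ (-i).val := by decide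
    exact this i
  rw [mul_pow, h3, h4]
  ring

theorem dt_neg {J : Type} {π : J → Ei} {e : J → ZMod 3} (hD : Dt π e) : Dt π (fun j => -e j) :=
  ⟨hD.pq, hD.nd, fun j => neg_ne_zero.2 (hD.e0 j)⟩

section
variable {K : Type} [Field K] [NumberField K] (j : Ei ≃+* 𝓞 K)

/-- the canonical form of a nonexceptional monomial -/
theorem canon {m : ℕ} (n : Fin m → ℕ) {a : Fin m → Ei} (ha : ∀ k, FamU (a k))
    (hn : NEc (dlt n a)) : ∃ (J : Type) (_ : Fintype J) (_ : Nonempty J) (π : J → Ei)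
      (e : J → ZMod 3) (i : ZMod 3) (c : Ei), Dt π e ∧ c ≠ 0 ∧ dlt n a = pB π e i * c ^ 3 ∧
      (i = 0 → ¬ (9 : ℤ) ∣ nr (pD π e) - 1) := by
  choose i M S hS hM haa using fun k => famU_ex (ha k)
  have hae : a = fun k => elw (i k) (M k) (S k) := funext haa
  rw [hae] at hn
  obtain ⟨z, hz, hzp, hd⟩ := dlt_eq n i hM hS
  have h0 := (nec_iff hM hS).1 hn
  have hTt := tt_pq hS
  have hD := dt_U hTt (eT n M S)
  have hnE : Nonempty ↥(Uu (Tt S) (eT n M S)) := h0.1.to_subtype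
  refine ⟨_, inferInstance, hnE, _, _, ∑ k, (n k : ZMod 3) * i k, z, hD, hz, ?_, fun hy h9 => ?_⟩
  · rw [hae]
    exact hd
  · have h2 := (nx_iff hD (∑ k, (n k : ZMod 3) * i k) hzp).2 ⟨hy, h9⟩
    have h3 := hn.2
    rw [hd] at h3
    exact h3 h2

theorem tri_pB {J : Type} [Fintype J] [Nonempty J] {π : J → Ei} {e : J → ZMod 3} {i : ZMod 3}
    (hD : Dt π e) (h9 : i = 0 → ¬ (9 : ℤ) ∣ nr (pD π e) - 1) {c : Ei} (hc : c ≠ 0) :
    Tri (j (pB π e i * c ^ 3)) ↔ (if i = 0 then Ker π e else KerB π e i) := by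
  by_cases hi : i = 0
  · rw [if_pos hi]
    have := tri_A3 j hD (h9 hi) hc
    rw [← this, hi]
    unfold pB
    rw [ZMod.val_zero, pow_zero, one_mul]
  · rw [if_neg hi]
    exact tri_B3 j hD hi hc

theorem nine_sq {x y z : ℤ} (hx : (3 : ℤ) ∣ x - 1) (hz : (9 : ℤ) ∣ z - 1) (h : x ^ 2 = y * z)
    (h9 : ¬ (9 : ℤ) ∣ x - 1) : ¬ (9 : ℤ) ∣ y - 1 := by
  intro hy
  obtain ⟨t, ht⟩ := hx
  obtain ⟨s, hs⟩ := hz
  obtain ⟨r, hr⟩ := hy
  apply h9
  have e1 : x = 1 + 3 * t := by linarith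
  have e2 : z = 1 + 9 * s := by linarith
  have e3 : y = 1 + 9 * r := by linarith
  rw [e1, e2, e3] at h
  have h3 : (3 : ℤ) ∣ t := by
    have : (3 : ℤ) ∣ 2 * t := ⟨(r + s + 9 * r * s) - t ^ 2, by linarith⟩
    omega
  obtain ⟨u, hu⟩ := h3
  exact ⟨u, by rw [e1, hu]; ring⟩

/-- a twist by a cube has the same groups -/
theorem tri_mulE {m : ℕ} (n : Fin m → ℕ) {a : Fin m → Ei} (ha : ∀ k, FamU (a k))
    (hn : NEc (dlt n a)) {z : Ei} (hz : z ≠ 0) :
    Tri (j (dlt n a * z ^ 3)) ↔ Tri (j (dlt n a)) := by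
  obtain ⟨J, _, _, π, e, i, c, hD, hc, hd, h9⟩ := canon n ha hn
  rw [hd, tri_pB j hD h9 hc]
  have h1 : pB π e i * c ^ 3 * z ^ 3 = pB π e i * (c * z) ^ 3 := by ring
  rw [h1, tri_pB j hD h9 (mul_ne_zero hc hz)]

/-- the inverse of a twist has the same groups -/
theorem tri_sqE {m : ℕ} (n : Fin m → ℕ) {a : Fin m → Ei} (ha : ∀ k, FamU (a k))
    (hn : NEc (dlt n a)) {z : Ei} (hz : z ≠ 0) :
    Tri (j (dlt n a ^ 2 * z ^ 3)) ↔ Tri (j (dlt n a)) := by
  obtain ⟨J, _, _, π, e, i, c, hD, hc, hd, h9⟩ := canon n ha hn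
  obtain ⟨d, h2, h3, h4⟩ := pB_sq hD i
  rw [hd, tri_pB j hD h9 hc]
  have h1 : (pB π e i * c ^ 3) ^ 2 * z ^ 3 = pB π (fun j => -e j) (-i) * (d * c ^ 2 * z) ^ 3 := by
    rw [mul_pow, h4]
    ring
  rw [h1, tri_pB j (dt_neg hD) (fun hi => ?_) (mul_ne_zero (mul_ne_zero h3 (pow_ne_zero 2 hc)) hz)]
  · by_cases hi : i = 0
    · rw [if_pos hi, if_pos (neg_eq_zero.2 hi), ker_neg]
    · rw [if_neg hi, if_neg (fun h => hi (neg_eq_zero.1 h)), kerB_neg]
  · obtain ⟨d', k2, k3, k4⟩ := pD_sq hD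
    refine nine_sq (x := nr (pD π e)) (z := nr (d' ^ 3)) (nr_prm
      (Pool.Agent.R419.CE.three_pD hD)) (nr_cube k2) ?_ (h9 (neg_eq_zero.1 hi))
    rw [← Pool.Agent.Y692.QS.nr_mul, ← k4, pow_two, pow_two, Pool.Agent.Y692.QS.nr_mul]

end

end Run7.h707.TF
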