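import Pool.Agent.Run7.h707.TF.Law
import Pool.Agent.Run7.h707.TE.LawA

/-! The law with fixed factors, general finite index types, over the ring of integers -/

set_option autoImplicit false
set_option linter.unusedVariables false
set_option linter.unusedSectionVars false

open scoped Classical

namespace Run7.h707.TF

open Finset Filter NumberField
open Pool.Agent.Y692.QS (Ei w nr)
open Pool.Agent.Y699.E (prm)
open Pool.Agent.Y703.XK (c9)
open Pool.Agent.Y696.CTK (Tri)
open Pool.Agent.XLK (fcc)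
open Pool.Agent.N883.FF (nq ClP w_pow_inj isUnit_w nr_w_mul)
open Pool.Agent.N883.FF.Den3 (nr_prm)
open Run7.h707.TC (dlt UC NEc FamU FamO ExO famO_iff exO_iff)
open Run7.h707.TD
open Run7.h707.TE (dO UO eqI eqI_apply ncard_eqI dO_eqI AllO)

/-! ### the classes -/

section
variable {K : Type} [Field K] [NumberField K]

/-- the class of an element: `x = ω ^ i * p`, `p = 1` modulo `3`, `N p = 1 + 3 k` modulo `9` -/
def IsCl (ω x : 𝓞 K) (c : ZMod 3 × ZMod 3) : Prop :=
  ∃ p : 𝓞 K, x = ω ^ c.1.val * p ∧ (3 : 𝓞 K) ∣ p - 1 ∧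
    (9 : ℤ) ∣ Algebra.norm ℤ p - (1 + 3 * (c.2.val : ℤ))

theorem nq_of {p : Ei} (c : ZMod 3) (h : (9 : ℤ) ∣ nr p - (1 + 3 * (c.val : ℤ))) :
    nq p = c := by
  unfold nq
  obtain ⟨k, hk⟩ := h
  have h1 : nr p - 1 = 3 * (3 * k + c.val) := by linarith
  rw [h1, Int.mul_ediv_cancel_left _ (by norm_num)]
  push_cast
  rw [ZMod.natCast_zmod_val]
  have : (3 : ZMod 3) = 0 := by decide
  rw [this, zero_mul, zero_add]

theorem nq_spec {p : Ei} (hp : prm p) : (9 : ℤ) ∣ nr p - (1 + 3 * ((nq p).val : ℤ)) := by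
  obtain ⟨y, hy⟩ := nr_prm hp
  unfold nq
  rw [hy, Int.mul_ediv_cancel_left _ (by norm_num)]
  have h4 : ((((y : ℤ) : ZMod 3).val : ℤ)) = y % 3 := ZMod.val_intCast y
  rw [h4]
  have e : nr p = 1 + 3 * y := by linarith
  rw [e]
  have := Int.emod_add_mul_ediv y 3
  exact ⟨y / 3, by linarith⟩

/-- the class is unique -/
theorem isCl_iff (j : Ei ≃+* 𝓞 K) (hj : ∀ z : Ei, Algebra.norm ℤ (j z) = nr z)
    (i : ZMod 3) {p : Ei} (hp : prm p) (c : ZMod 3 × ZMod 3) :
    IsCl (j w) (j (w ^ i.val * p)) c ↔ c = (i, nq p) := by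
  constructor
  · rintro ⟨q, h1, h2, h3⟩
    obtain ⟨q, rfl⟩ := j.surjective q
    rw [← map_pow, ← map_mul] at h1
    have h4 := j.injective h1
    have h5 : (3 : Ei) ∣ q - 1 := by
      rw [← map_one j, ← map_sub, ← map_ofNat j 3, map_dvd_iff j] at h2
      exact h2
    rw [hj] at h3
    have h6 : (3 : Ei) ∣ w ^ i.val - w ^ c.1.val := by
      have e : (w : Ei) ^ i.val - w ^ c.1.val =
          w ^ c.1.val * (q - 1) - w ^ i.val * (p - 1) := by
        linear_combination h4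
      rw [e]
      exact dvd_sub (Dvd.dvd.mul_left h5 _) (Dvd.dvd.mul_left hp _)
    have h7 : i = c.1 := w_pow_inj h6
    rw [← h7] at h4
    have h8 : p = q := by
      have hw : (w : Ei) ^ i.val ≠ 0 := (isUnit_w.pow _).ne_zero
      exact mul_left_cancel₀ hw h4
    rw [← h8] at h3
    exact Prod.ext h7.symm (nq_of c.2 h3).symm
  · rintro rfl
    refine ⟨j p, ?_, ?_, ?_⟩
    · rw [map_mul, map_pow]
    · rw [← map_one j, ← map_sub, ← map_ofNat j 3, map_dvd_iff j]
      exact hp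
    · rw [hj]
      exact nq_spec hp

end

/-! ### the law -/

section
variable {K : Type} [Field K] [NumberField K] {I J B : Type} [Fintype I] [Fintype J] [Fintype B]

/-- the proportion of the classes -/
noncomputable def kapJ (n : J → I → ℕ) (c : J → ZMod 3 × ZMod 3) : ℝ :=
  ({u : I → ZMod 3 × ZMod 3 | ∀ t, ∑ k, n t k • u k + c t ≠ 0}.ncard : ℝ) / 9 ^ Fintype.card I

theorem kapJ_eq (n : J → I → ℕ) (l : J → B → ℕ) (cb : B → ZMod 3 × ZMod 3) {m q Mt : ℕ}
    (eI : I ≃ Fin m) (eB : B ≃ Fin q) (eJ : J ≃ Fin Mt) :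
    kapJ n (fun t => ∑ i, l t i • cb i) =
      kapF (fun t => Fin.append (fun k => n (eJ.symm t) (eI.symm k))
        (fun i => l (eJ.symm t) (eB.symm i))) (fun i => cb (eB.symm i)) := by
  unfold kapJ kapF
  have h1 : Fintype.card I = m := by
    rw [Fintype.card_congr eI, Fintype.card_fin]
  rw [h1]
  congr 2
  have hinj : Function.Injective (fun b : Fin m → ZMod 3 × ZMod 3 => fun k : I => b (eI k)) := by
    intro b b' h
    funext k
    have := congrFun h (eI.symm k)
    simpa using this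
  have h2 : {u : I → ZMod 3 × ZMod 3 | ∀ t, ∑ k, n t k • u k + ∑ i, l t i • cb i ≠ 0} =
      (fun b : Fin m → ZMod 3 × ZMod 3 => fun k : I => b (eI k)) ''
        {b : Fin m → ZMod 3 × ZMod 3 | ∀ t, ∑ k, n (eJ.symm t) (eI.symm k) • b k +
          ∑ i, l (eJ.symm t) (eB.symm i) • cb (eB.symm i) ≠ 0} := by
    ext u
    simp only [Set.mem_ofPred_eq, Set.mem_image]
    constructor
    · intro h
      refine ⟨fun k => u (eI.symm k), fun t => ?_, by simp⟩
      rw [Equiv.sum_comp eI.symm (fun k => n (eJ.symm t) k • u k),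
        Equiv.sum_comp eB.symm (fun i => l (eJ.symm t) i • cb i)]
      exact h _
    · rintro ⟨b, hb, rfl⟩ t
      have h := hb (eJ t)
      rw [← Equiv.sum_comp eI, Equiv.sum_comp eB.symm (fun i => l (eJ.symm (eJ t)) i • cb i)] at h
      simpa using h
  rw [h2, Set.ncard_image_of_injective _ hinj, ← Set.ncard_coe_finset]
  congr 1
  ext b
  simp

theorem dlt_append {m q : ℕ} (n : Fin m → ℕ) (l : Fin q → ℕ) (a : Fin m → Ei) (b : Fin q → Ei) :
    dlt (Fin.append n l) (Fin.append a b) = dlt n a * dlt l b := by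
  unfold dlt
  rw [Fin.prod_univ_add]
  simp only [Fin.append_left, Fin.append_right]

/-- **The law with fixed factors over the ring of integers, general index types.** -/
theorem lawFI (j : Ei ≃+* 𝓞 K) (hj : ∀ z : Ei, Algebra.norm ℤ (j z) = nr z) (n : J → I → ℕ)
    (l : J → B → ℕ) {b : B → 𝓞 K} (hb : ∀ i, FamO (b i)) (hn : ∀ t, ∃ k, (n t k : ZMod 3) ≠ 0)
    (hsep : ∀ t t', t ≠ t' → ∀ e : ℕ, (e = 1 ∨ e = 2) →
      (∀ k, (n t k : ZMod 3) + e * n t' k = 0) →
      ¬ ∃ x : 𝓞 K, dO (l t) b * dO (l t') b ^ e = x ^ 3)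
    (c : J → ZMod 3 × ZMod 3) (hc : ∀ t, IsCl (j w) (dO (l t) b) (c t)) :
    (∃ (c : ℝ) (X₀ : ℕ), 0 < c ∧ ∀ X : ℕ, X₀ ≤ X → c * (X : ℝ) ^ Fintype.card I ≤
      ({a : I → 𝓞 K | AllO X a}.ncard : ℝ)) ∧
    Tendsto (fun X : ℕ => ({a : I → 𝓞 K | AllO X a ∧ ∀ t, ¬ ExO (dO (n t) a * dO (l t) b)}.ncard : ℝ)
      / ({a : I → 𝓞 K | AllO X a}.ncard : ℝ)) atTop (nhds (kapJ n c)) ∧
    Tendsto (fun X : ℕ => ({a : I → 𝓞 K | AllO X a ∧ (∀ t, ¬ ExO (dO (n t) a * dO (l t) b)) ∧
      ∀ t, Tri (dO (n t) a * dO (l t) b)}.ncard : ℝ) /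
      ({a : I → 𝓞 K | AllO X a}.ncard : ℝ)) atTop
      (nhds (kapJ n c * c9 ^ Fintype.card J)) := by
  set eI := Fintype.equivFin I with heI
  set eJ := Fintype.equivFin J with heJ
  set eB := Fintype.equivFin B with heB
  set m := Fintype.card I with hm
  set q := Fintype.card B with hq
  -- the fixed elements
  have hb' : ∀ i : Fin q, ∃ p : ZMod 3 × Ei, ClP p.2 ∧ j (ew p) = b (eB.symm i) := by
    intro i
    obtain ⟨z, hz⟩ := j.surjective (b (eB.symm i))
    have h1 : FamU z := (famO_iff j z).1 (by rw [hz]; exact hb _)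
    obtain ⟨p, hp, hpz⟩ := (famU_ew (X := (nr z).toNat)).1 ⟨Int.self_le_toNat _, h1⟩
    exact ⟨p, (mem_CF'.1 (mem_product.1 hp).2).2, by rw [hpz, hz]⟩
  choose pb hpb hpj using hb'
  obtain ⟨N, hN⟩ : ∃ N : Fin (Fintype.card J) → Fin (m + q) → ℕ,
    N = fun t => Fin.append (fun k => n (eJ.symm t) (eI.symm k))
      (fun i => l (eJ.symm t) (eB.symm i)) := ⟨_, rfl⟩
  have hNl : ∀ t k, N t (Fin.castAdd q k) = n (eJ.symm t) (eI.symm k) := fun t k => by
    rw [hN]; exact Fin.append_left _ _ _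
  have hNr : ∀ t i, N t (Fin.natAdd m i) = l (eJ.symm t) (eB.symm i) := fun t i => by
    rw [hN]; exact Fin.append_right _ _ _
  have h1 : ∀ t, ∃ k : Fin m, (N t (Fin.castAdd q k) : ZMod 3) ≠ 0 := fun t => by
    obtain ⟨k, hk⟩ := hn (eJ.symm t)
    exact ⟨eI k, by rw [hNl]; simpa using hk⟩
  -- the products of the fixed elements
  have hfix : ∀ t : J, j (dlt (fun i => l t (eB.symm i)) fun i => ew (pb i)) = dO (l t) b := by
    intro t
    unfold dO dlt
    rw [map_prod, ← Equiv.prod_comp eB.symm]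
    refine prod_congr rfl fun i _ => ?_
    rw [map_pow, hpj]
  have hs : ∀ t t', t ≠ t' → ∀ e : ℕ, (e = 1 ∨ e = 2) →
      (∀ k : Fin m, (N t (Fin.castAdd q k) : ZMod 3) + e * N t' (Fin.castAdd q k) = 0) →
      ¬ ∃ x, dlt (fun i => N t (Fin.natAdd m i) + e * N t' (Fin.natAdd m i))
        (fun i => ew (pb i)) = x ^ 3 := by
    rintro t t' htt e he hk ⟨x, hx⟩
    refine hsep (eJ.symm t) (eJ.symm t') (fun h => htt (eJ.symm.injective h)) e he
      (fun k => ?_) ⟨j x, ?_⟩
    · have := hk (eI k)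
      rw [hNl, hNl] at this
      simpa using this
    · rw [← map_pow, ← hx, ← hfix, ← hfix, ← map_pow, ← map_mul]
      congr 1
      simp only [hNr]
      unfold dlt
      rw [← prod_pow, ← prod_mul_distrib]
      refine prod_congr rfl fun i _ => ?_
      rw [pow_add, mul_comm e, pow_mul]
  have e0 : ∀ X : ℕ, {a : I → 𝓞 K | AllO X a}.ncard = AT m X := by
    intro X
    rw [ncard_eqI j eI]
    unfold AT
    congr 1
    ext b
    simp only [Set.mem_ofPred_eq, AllO, eqI_apply, hj, famO_iff]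
    constructor
    · intro h k
      have := h (eI.symm k)
      rwa [Equiv.apply_symm_apply] at this
    · intro h k
      exact h (eI k)
  have hd : ∀ (t : J) (a : Fin m → Ei), dO (n t) (eqI j eI a) * dO (l t) b =
      j (dlt (N (eJ t)) (Fin.append a fun i => ew (pb i))) := by
    intro t a
    rw [hN, dlt_append, map_mul, dO_eqI]
    simp only [Equiv.symm_apply_apply]
    rw [hfix]
  have hA : ∀ (X : ℕ) (b : Fin m → Ei), AllO X (eqI j eI b) ↔ ∀ k, nr (b k) ≤ X ∧ FamU (b k) := by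
    intro X b
    simp only [AllO, eqI_apply, hj, famO_iff]
    constructor
    · intro h k
      have := h (eI.symm k)
      rwa [Equiv.apply_symm_apply] at this
    · intro h k
      exact h (eI k)
  have hE : ∀ a : Fin m → Ei, (∀ t, ¬ ExO (dO (n t) (eqI j eI a) * dO (l t) b)) ↔
      ∀ t, NEc (dlt (N t) (Fin.append a fun i => ew (pb i))) := by
    intro a
    simp only [hd, exO_iff j hj]
    exact ⟨fun h t => by simpa using h (eJ.symm t), fun h t => h _⟩
  have hT : ∀ a : Fin m → Ei, (∀ t, Tri (dO (n t) (eqI j eI a) * dO (l t) b)) ↔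
      ∀ t, Tri (j (dlt (N t) (Fin.append a fun i => ew (pb i)))) := by
    intro a
    simp only [hd]
    exact ⟨fun h t => by simpa using h (eJ.symm t), fun h t => h _⟩
  -- the classes
  have hcl : ∀ t, c t = ∑ i, l t i • cls (pb (eB i)) := by
    intro t
    have h2 := hc t
    rw [← hfix, dlt_ew, isCl_iff j hj _ (prm_dlt _ fun i => (hpb i).1)] at h2
    rw [h2, nq_dlt _ fun i => (hpb i).1]
    rw [← Equiv.sum_comp eB.symm (fun i => l t i • cls (pb (eB i)))]
    simp only [Equiv.apply_symm_apply]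
    rw [smul_cls (fun i => l t (eB.symm i)) pb]
  have ek : kapJ n c = kapF N fun i => cls (pb i) := by
    have e1 : c = fun t => ∑ i, l t i • cls (pb (eB i)) := funext hcl
    rw [e1, kapJ_eq n l (fun i => cls (pb (eB i))) eI eB eJ, hN]
    simp only [Equiv.apply_symm_apply]
  refine ⟨?_, ?_, ?_⟩
  · obtain ⟨c, X₀, hc, h⟩ := AT_low (m := m)
    exact ⟨c, X₀, hc, fun X hX => by rw [e0]; exact h X hX⟩
  · have h2 := NF_lim N pb hpb h1
    rw [ek]
    refine h2.congr fun X => ?_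
    rw [e0, ncard_eqI j eI]
    unfold NF
    congr 3
    ext b
    exact and_congr (hA X b).symm (hE b).symm
  · have h2 := lawF N pb j hpb h1 hs
    rw [ek]
    refine h2.congr fun X => ?_
    rw [e0, ncard_eqI j eI]
    congr 3
    ext b
    exact and_congr (hA X b).symm (and_congr (hE b).symm (hT b).symm)

end

end Run7.h707.TF
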