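import Pool.Agent.Run7.h707.TC.Gen

/-! The exceptional tuples: the general estimate with another exponent -/

set_option autoImplicit false
set_option linter.unusedSectionVars false

open scoped Classical

namespace Run7.h707.TF

open Finset Filter
open Pool.Agent.Y692.QS (Ei)
open Pool.Agent.Y715.T.RecG (Pq)
open Pool.Agent.Y699.E
open Pool.Agent.Y703.CX (eL zz kk)
open Pool.Agent.Y703.XK (sm la bl Nd)
open Pool.Agent.R419.KF (SG mem_SG)
open Pool.Agent.Y433.XK (pN pN_pos eulerE M_le small_sum)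
open Pool.Agent.Y495.CX.Few (PN mert eL_tendsto log_small zz_ge loglog_zz rpow_eq)
open Pool.Agent.R419.KF.Few (fiber_le)
open Run7.h707.TC (PrX prX_ev kk_11 zz_log lg_pN_le small_mean sm_card_Tt Tt mem_Tt)

/-- the general estimate for one coordinate -/
theorem gen1Q {C : ℝ} {X : ℕ} (hX : PrX C X) (a b : ℝ) (ha : 0 ≤ a) (hb : 0 ≤ b)
    (Q : Finset Ei → Prop)
    (hcount : ∀ (S₀ : Finset Ei), (∀ u ∈ S₀, Pq u ∧ nrm u ≤ zz X) → S₀.card ≤ kk X →
      ∀ F : Finset (Finset Ei),
      (∀ S ∈ F, S ∈ SG X ∧ (S.card ≤ kk X ∧ Q S) ∧ sm (zz X) S = S₀) → (F.card : ℝ) ≤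
        b * a ^ S₀.card * lg (pN S₀) * (((X / pN S₀ : ℕ) : ℝ) *
          (lg (X / pN S₀)) ^ (-(1 / 4) : ℝ))) (F : Finset (Finset Ei))
      (hF : ∀ S ∈ F, S ∈ SG X ∧ S.card ≤ kk X ∧ Q S) :
      (F.card : ℝ) ≤ b * (297 * Real.exp (a * C) *
        Real.exp ((4 + 6 * a) * Real.log (eL X) - 1 / 4 * eL X)) * X := by
  have k2 := hX.two
  have k4 := hX.big
  have hX3 := hX.X3
  have hkk := kk_11 hX
  obtain ⟨hzl0, hzl1⟩ := zz_log hX
  have hsz := hX.sumz
  set ℓ : ℝ := eL X with hℓ
  set z : ℕ := zz X with hz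
  set k : ℕ := kk X with hk
  have hl0 : 0 < ℓ := by linarith
  have hlX : Real.log X = Real.exp ℓ := by
    have := rpow_eq (X := X) k2 1
    rwa [Real.rpow_one, one_mul] at this
  have hX0 : (0 : ℝ) < X := by exact_mod_cast (by omega : 0 < X)
  have hl4 : (1 : ℝ) ≤ ℓ ^ 4 := one_le_pow₀ (by linarith)
  set W : Finset (Finset Ei) := (QB z).powerset.filter fun S => S.card ≤ k with hW
  have hmaps : ∀ S ∈ F, sm z S ∈ W := by
    intro S hS
    replace hS := hF S hS
    rw [hW, mem_filter, mem_powerset]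
    refine ⟨?_, (card_le_card (filter_subset _ _)).trans hS.2.1⟩
    intro π hπ
    unfold sm at hπ
    rw [mem_filter] at hπ
    unfold SG at hS
    rw [mem_filter] at hS
    rw [mem_QB]
    exact ⟨hπ.2, hS.1.2.1.1 π hπ.1⟩
  have hcard : (F.card : ℝ) = ∑ S₀ ∈ W, ((F.filter fun S => sm z S = S₀).card : ℝ) := by
    have := card_eq_sum_card_fiberwise hmaps
    exact_mod_cast this
  have hone : ∀ S₀ ∈ W, ((F.filter fun S => sm z S = S₀).card : ℝ) ≤
      (a ^ S₀.card * (1 / (pN S₀ : ℝ))) * (297 * b * ℓ ^ 4 * X * Real.exp (-(1 / 4) * ℓ)) := by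
    intro S₀ hS₀
    rw [hW, mem_filter, mem_powerset] at hS₀
    have hpq : ∀ u ∈ S₀, Pq u ∧ nrm u ≤ z := fun u hu => by
      have := hS₀.1 hu
      rw [mem_QB] at this
      exact ⟨this.2, this.1⟩
    have h1 := hcount S₀ hpq hS₀.2 (F.filter fun S => sm z S = S₀) (fun S hS => by
      rw [mem_filter] at hS
      have h := hF S hS.1
      exact ⟨h.1, h.2, hS.2⟩)
    refine h1.trans ?_
    set N := pN S₀ with hN
    have hN0 : 0 < N := pN_pos fun u hu => (hpq u hu).1
    have hN0' : (0 : ℝ) < N := by exact_mod_cast hN0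
    have hlN : Real.log N ≤ 11 * ℓ ^ 4 := by
      have := (lg_pN_le hX (n := 1) hpq (by rw [one_mul]; exact hS₀.2)).1
      rw [← hN, Nat.cast_one] at this
      linarith
    have hlgN : lg N ≤ 33 * ℓ ^ 4 := by
      rcases Nat.lt_or_ge N 2 with h | h
      · have : N = 1 := by omega
        rw [this]
        have : lg 1 = 1 := by unfold lg; simp
        rw [this]
        linarith
      · have := lg_le_log h
        linarith
    have hYle : ((X / N : ℕ) : ℝ) ≤ (X : ℝ) / N := Nat.cast_div_le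
    have hYge : Real.exp (Real.log X / 3) ≤ ((X / N : ℕ) : ℝ) := by
      have e1 : (X : ℝ) / N < ((X / N : ℕ) : ℝ) + 1 := by
        rw [div_lt_iff₀ hN0']
        have := Nat.lt_mul_div_succ X hN0
        have h' : ((X : ℕ) : ℝ) < ((N * (X / N + 1) : ℕ) : ℝ) := by exact_mod_cast this
        rw [Nat.cast_mul, Nat.cast_add, Nat.cast_one] at h'
        linarith
      have e2 : Real.exp (Real.log X - Real.log N) = (X : ℝ) / N := by
        rw [Real.exp_sub, Real.exp_log hX0, Real.exp_log hN0']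
      have e3 : Real.exp (Real.log X / 3 + 1) ≤ (X : ℝ) / N := by
        rw [← e2]
        apply Real.exp_le_exp.2
        rw [← hlX] at k4
        linarith
      rw [Real.exp_add] at e3
      have e4 : (2 : ℝ) ≤ Real.exp 1 := by have := Real.exp_one_gt_d9; linarith
      have e5 : (1 : ℝ) ≤ Real.exp (Real.log X / 3) := by
        apply Real.one_le_exp
        rw [hlX]
        positivity
      nlinarith
    have hY1 : 1 ≤ X / N := by
      have : (0:ℝ) < ((X / N : ℕ) : ℝ) := lt_of_lt_of_le (Real.exp_pos _) hYge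
      exact_mod_cast this
    have hlgY : Real.exp ℓ / 3 ≤ lg (X / N) := by
      refine le_trans ?_ (log_le_lg hY1)
      rw [← hlX, Real.le_log_iff_exp_le (by exact_mod_cast hY1)]
      exact hYge
    have hrp : (lg (X / N)) ^ (-(1 / 4) : ℝ) ≤ 3 * Real.exp (-(1 / 4) * ℓ) := by
      have e1 : (lg (X / N)) ^ (-(1 / 4) : ℝ) ≤ (Real.exp ℓ / 3) ^ (-(1 / 4) : ℝ) :=
        Real.rpow_le_rpow_of_nonpos (by positivity) hlgY (by norm_num)
      refine e1.trans ?_
      rw [Real.div_rpow (Real.exp_pos _).le (by norm_num), ← Real.exp_mul, div_eq_mul_inv,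
        ← Real.rpow_neg (by norm_num), neg_neg, mul_comm ℓ, mul_comm]
      refine mul_le_mul_of_nonneg_right ?_ (Real.exp_pos _).le
      calc (3:ℝ) ^ (1 / 4 : ℝ) ≤ 3 ^ (1:ℝ) :=
            Real.rpow_le_rpow_of_exponent_le (by norm_num) (by norm_num)
        _ = 3 := Real.rpow_one _
    have hlg0 : 0 ≤ lg N := (zero_le_one.trans (one_le_lg N))
    have hrp0 : 0 ≤ (lg (X / N)) ^ (-(1 / 4) : ℝ) :=
      Real.rpow_nonneg (zero_le_one.trans (one_le_lg _)) _
    calc b * a ^ S₀.card * lg N * (((X / N : ℕ) : ℝ) * (lg (X / N)) ^ (-(1 / 4) : ℝ))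
        ≤ b * a ^ S₀.card * (33 * ℓ ^ 4) * (((X : ℝ) / N) * (3 * Real.exp (-(1 / 4) * ℓ))) := by
          gcongr
      _ ≤ _ := by
          have : b * a ^ S₀.card * (33 * ℓ ^ 4) * (((X : ℝ) / N) * (3 * Real.exp (-(1 / 4) * ℓ))) =
            (a ^ S₀.card * (1 / (N : ℝ))) * (99 * b * ℓ ^ 4 * X * Real.exp (-(1 / 4) * ℓ)) := by
            ring
          rw [this]
          gcongr
          norm_num
  have hsum : (F.card : ℝ) ≤ Real.exp (a * ∑ π ∈ QB z, (1 : ℝ) / nrm π) *
      (297 * b * ℓ ^ 4 * X * Real.exp (-(1 / 4) * ℓ)) := by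
    rw [hcard]
    refine (sum_le_sum hone).trans ?_
    rw [← sum_mul]
    refine mul_le_mul_of_nonneg_right ?_ (by positivity)
    refine le_trans ?_ (small_sum a ha z)
    refine sum_le_sum_of_subset_of_nonneg (filter_subset _ _) fun S _ _ => by positivity
  have hM : a * ∑ π ∈ QB z, (1 : ℝ) / nrm π ≤ a * C + 6 * a * Real.log ℓ := by
    have := mul_le_mul_of_nonneg_left hsz ha
    linarith
  have hl4' : ℓ ^ 4 = Real.exp (4 * Real.log ℓ) := by
    rw [show (4:ℝ) * Real.log ℓ = Real.log (ℓ ^ 4) by rw [Real.log_pow]; push_cast; ring]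
    exact (Real.exp_log (by positivity)).symm
  calc (F.card : ℝ) ≤ Real.exp (a * C + 6 * a * Real.log ℓ) *
        (297 * b * ℓ ^ 4 * X * Real.exp (-(1 / 4) * ℓ)) := by
        refine hsum.trans ?_
        gcongr
    _ = b * (297 * Real.exp (a * C) * Real.exp ((4 + 6 * a) * Real.log ℓ - 1 / 4 * ℓ)) * X := by
        rw [hl4', Real.exp_add, show (4 + 6 * a) * Real.log ℓ - 1 / 4 * ℓ =
          6 * a * Real.log ℓ + 4 * Real.log ℓ + -(1 / 4) * ℓ by ring, Real.exp_add, Real.exp_add]
        ring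

/-- the final comparison -/
theorem lim_cmpQ (A B ε : ℝ) (hε : 0 < ε) :
    ∀ᶠ X : ℕ in atTop, B * Real.exp (A * Real.log (eL X) - 1 / 4 * eL X) ≤ ε := by
  have hlim : Tendsto (fun l : ℝ => |B| * Real.exp (-(1 / 8) * l)) atTop (nhds 0) := by
    have h1 : Tendsto (fun l : ℝ => Real.exp (-(1 / 8) * l)) atTop (nhds 0) := by
      refine Real.tendsto_exp_atBot.comp ?_
      exact tendsto_id.const_mul_atTop_of_neg (by norm_num)
    have := h1.const_mul |B|
    rwa [mul_zero] at this
  filter_upwards [eL_tendsto.eventually (log_small A (1 / 8) (by norm_num)),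
    eL_tendsto.eventually (hlim.eventually (gt_mem_nhds hε))] with X h1 h2
  calc B * Real.exp (A * Real.log (eL X) - 1 / 4 * eL X)
      ≤ |B| * Real.exp (A * Real.log (eL X) - 1 / 4 * eL X) :=
        mul_le_mul_of_nonneg_right (le_abs_self B) (Real.exp_pos _).le
    _ ≤ |B| * Real.exp (-(1 / 8) * eL X) := by
        apply mul_le_mul_of_nonneg_left _ (abs_nonneg B)
        apply Real.exp_le_exp.2
        linarith
    _ ≤ ε := h2.le

/-- **The general estimate for tuples.** -/
theorem genQ (X₁ m : ℕ) (k₀ : Fin m) (a b : ℝ) (ha : 1 ≤ a) (hb : 0 ≤ b)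
    (Q : ℕ → Finset Ei → Finset Ei → Prop)
    (hcount : ∀ (X : ℕ) (W : Finset Ei), X₁ ≤ X → (∀ u ∈ W, Pq u ∧ nrm u ≤ zz X) →
      ∀ (S₀ : Finset Ei), (∀ u ∈ S₀, Pq u ∧ nrm u ≤ zz X) → S₀.card ≤ kk X →
      ∀ F : Finset (Finset Ei),
      (∀ S ∈ F, S ∈ SG X ∧ (S.card ≤ kk X ∧ Q X W S) ∧ sm (zz X) S = S₀) → (F.card : ℝ) ≤
        (b * a ^ W.card * lg (pN W)) * a ^ S₀.card * lg (pN S₀) * (((X / pN S₀ : ℕ) : ℝ) *
          (lg (X / pN S₀)) ^ (-(1 / 4) : ℝ))) :
    ∀ ε : ℝ, 0 < ε → ∀ᶠ X : ℕ in atTop, ∀ F : Finset (Fin m → Finset Ei),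
      (∀ S ∈ F, (∀ k, S k ∈ SG X ∧ (S k).card ≤ kk X) ∧
        Q X (Tt fun k => sm (zz X) (Function.update S k₀ ∅ k)) (S k₀)) →
      (F.card : ℝ) ≤ ε * (X : ℝ) ^ m := by
  intro ε hε
  obtain ⟨C, hC0, hC⟩ := prX_ev
  have ha0 : 0 ≤ a := by linarith
  obtain ⟨n, rfl⟩ : ∃ n, m = n + 1 := ⟨m - 1, by have := k₀.2; omega⟩
  set B₀ : ℝ := b * (33 * ((n + 1 : ℕ) + 1)) * (297 * Real.exp (a * C)) *
    (16 * Real.exp (a * C)) ^ n with hB₀
  filter_upwards [hC, lim_cmpQ (8 + 6 * a + 6 * a * n) B₀ ε hε, eventually_ge_atTop X₁]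
    with X hX hcmp hX₁
  intro F hF
  have hl2 := hX.two
  have hl0 : 0 < eL X := by linarith
  have hX0 : (0 : ℝ) < X := by exact_mod_cast (by have := hX.X3; omega : 0 < X)
  set z := zz X with hz
  set up : (Fin (n + 1) → Finset Ei) → (Fin (n + 1) → Finset Ei) :=
    fun S => Function.update S k₀ ∅ with hup
  set G : Finset (Fin (n + 1) → Finset Ei) :=
    F.image up with hG
  have hGm : ∀ g ∈ G, (g k₀ = ∅) ∧ ∀ k, k ≠ k₀ → g k ∈ SG X ∧ (g k).card ≤ kk X := by
    intro g hg
    rw [hG, mem_image] at hg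
    obtain ⟨S, hS, rfl⟩ := hg
    refine ⟨by rw [hup]; simp, fun k hk => ?_⟩
    have : up S k = S k := by rw [hup]; simp [Function.update_of_ne hk]
    rw [this]
    exact (hF S hS).1 k
  have hcard : (F.card : ℝ) = ∑ g ∈ G, ((F.filter fun S => up S = g).card : ℝ) := by
    have := card_eq_sum_card_fiberwise (f := up) (s := F) (t := G)
      (fun S hS => mem_coe.2 (mem_image_of_mem _ hS))
    exact_mod_cast this
  set D : ℝ := 297 * Real.exp (a * C) * Real.exp ((4 + 6 * a) * Real.log (eL X) - 1 / 4 * eL X)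
    with hD
  have hD0 : 0 ≤ D := by rw [hD]; positivity
  have hone : ∀ g ∈ G, ((F.filter fun S => up S = g).card : ℝ) ≤
      (∏ k, a ^ (sm z (g k)).card) * (b * (33 * ((n + 1 : ℕ) + 1) * eL X ^ 4) * D * X) := by
    intro g hg
    obtain ⟨hg0, hg1⟩ := hGm g hg
    set W : Finset Ei := Tt fun k => sm z (g k) with hW
    have hgk : ∀ k, (∀ u ∈ g k, Pq u) ∧ (g k).card ≤ kk X := by
      intro k
      by_cases hk : k = k₀
      · rw [hk, hg0]
        exact ⟨fun u hu => absurd hu (notMem_empty u), by simp⟩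
      · exact ⟨(mem_SG.1 (hg1 k hk).1).1, (hg1 k hk).2⟩
    have hWp : ∀ u ∈ W, Pq u ∧ nrm u ≤ zz X := by
      intro u hu
      obtain ⟨k, hk⟩ := mem_Tt.1 hu
      obtain ⟨h1, h2⟩ := mem_filter.1 hk
      exact ⟨(hgk k).1 u h1, h2⟩
    have hWc : W.card ≤ (n + 1) * kk X := by
      refine (sm_card_Tt z g).trans ?_
      refine (sum_le_sum fun k _ => (card_le_card (filter_subset _ _)).trans (hgk k).2).trans ?_
      rw [sum_const, card_univ, Fintype.card_fin, smul_eq_mul]
    have hlg := (lg_pN_le hX hWp hWc).2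
    have hlg0 : 0 ≤ lg (pN W) := zero_le_one.trans (one_le_lg _)
    -- the image at the coordinate
    have hinj : ((F.filter fun S => up S = g).card) =
        ((F.filter fun S => up S = g).image fun S => S k₀).card := by
      rw [card_image_of_injOn]
      intro S hS T hT hST
      rw [mem_coe, mem_filter] at hS hT
      funext k
      by_cases hk : k = k₀
      · rw [hk]; exact hST
      · have h1 : up S k = S k := by rw [hup]; simp [Function.update_of_ne hk]
        have h2 : up T k = T k := by rw [hup]; simp [Function.update_of_ne hk]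
        rw [← h1, ← h2, hS.2, hT.2]
    rw [hinj]
    have h1 := gen1Q hX a (b * a ^ W.card * lg (pN W)) ha0 (by positivity) (fun S => Q X W S)
      (fun S₀ hS₀ hc F' hF' => hcount X W hX₁ hWp S₀ hS₀ hc F' hF')
      ((F.filter fun S => up S = g).image fun S => S k₀) (by
        intro S' hS'
        rw [mem_image] at hS'
        obtain ⟨S, hS, rfl⟩ := hS'
        rw [mem_filter] at hS
        obtain ⟨hS1, hS2⟩ := hS
        have h := hF S hS1
        refine ⟨(h.1 k₀).1, (h.1 k₀).2, ?_⟩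
        have h2 := h.2
        rw [hW, ← hS2]
        exact h2)
    refine h1.trans ?_
    have h3 : a ^ W.card ≤ ∏ k, a ^ (sm z (g k)).card := by
      rw [prod_pow_eq_pow_sum]
      exact pow_le_pow_right₀ ha (sm_card_Tt z g)
    rw [← hD]
    have h4 : b * a ^ W.card * lg (pN W) ≤
        b * (∏ k, a ^ (sm z (g k)).card) * (33 * ((n + 1 : ℕ) + 1) * eL X ^ 4) := by
      gcongr
    calc b * a ^ W.card * lg (pN W) * D * X ≤
        b * (∏ k, a ^ (sm z (g k)).card) * (33 * ((n + 1 : ℕ) + 1) * eL X ^ 4) * D * X := by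
          gcongr
      _ = _ := by ring
  have hprod : ∑ g ∈ G, ∏ k, a ^ (sm z (g k)).card ≤
      (16 * X * Real.exp (a * C + 6 * a * Real.log (eL X))) ^ n := by
    have hsub : G ⊆ Fintype.piFinset fun k => if k = k₀ then {∅} else SG X := by
      intro g hg
      obtain ⟨hg0, hg1⟩ := hGm g hg
      rw [Fintype.mem_piFinset]
      intro k
      by_cases hk : k = k₀
      · rw [if_pos hk, hk, hg0]
        exact mem_singleton_self _
      · rw [if_neg hk]
        exact (hg1 k hk).1
    refine (sum_le_sum_of_subset_of_nonneg hsub fun g _ _ => by positivity).trans ?_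
    rw [← prod_univ_sum (fun k => if k = k₀ then {∅} else SG X) (fun k S => a ^ (sm z S).card)]
    set B : ℝ := 16 * X * Real.exp (a * C + 6 * a * Real.log (eL X)) with hB
    have hB0 : 0 ≤ B := by rw [hB]; positivity
    calc ∏ k, ∑ S ∈ (if k = k₀ then {∅} else SG X), a ^ (sm z S).card
        ≤ ∏ k, (if k = k₀ then 1 else B) := by
          refine prod_le_prod (fun k _ => sum_nonneg fun _ _ => by positivity) fun k _ => ?_
          by_cases hk : k = k₀
          · rw [if_pos hk, if_pos hk, sum_singleton]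
            have : sm z (∅ : Finset Ei) = ∅ := by unfold sm; simp
            rw [this, card_empty, pow_zero]
          · rw [if_neg hk, if_neg hk]
            exact small_mean hX a ha0
      _ = B ^ n := by
          rw [prod_ite, prod_const_one, one_mul, prod_const]
          congr 1
          have : (univ.filter fun k => ¬ k = k₀) = univ.erase k₀ := by
            ext k; simp
          rw [this, card_erase_of_mem (mem_univ _), card_univ, Fintype.card_fin]
          simp
  rw [hcard]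
  refine (sum_le_sum hone).trans ?_
  rw [← sum_mul]
  have hl4' : eL X ^ 4 = Real.exp (4 * Real.log (eL X)) := by
    rw [show (4:ℝ) * Real.log (eL X) = Real.log (eL X ^ 4) by rw [Real.log_pow]; push_cast; ring]
    exact (Real.exp_log (by positivity)).symm
  calc (∑ g ∈ G, ∏ k, a ^ (sm z (g k)).card) *
        (b * (33 * ((n + 1 : ℕ) + 1) * eL X ^ 4) * D * X)
      ≤ (16 * X * Real.exp (a * C + 6 * a * Real.log (eL X))) ^ n *
        (b * (33 * ((n + 1 : ℕ) + 1) * eL X ^ 4) * D * X) := by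
        gcongr
    _ = B₀ * Real.exp ((8 + 6 * a + 6 * a * n) * Real.log (eL X) - 1 / 4 * eL X) *
        (X : ℝ) ^ (n + 1) := by
        have e1 : Real.exp ((8 + 6 * a + 6 * a * n) * Real.log (eL X) - 1 / 4 * eL X) =
            Real.exp (4 * Real.log (eL X)) *
            Real.exp ((4 + 6 * a) * Real.log (eL X) - 1 / 4 * eL X) *
            Real.exp (6 * a * Real.log (eL X)) ^ n := by
          rw [← Real.exp_nat_mul, ← Real.exp_add, ← Real.exp_add]
          congr 1
          ring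
        rw [e1, hB₀, hD, hl4', Real.exp_add]
        ring
    _ ≤ ε * (X : ℝ) ^ (n + 1) := by
        gcongr

end Run7.h707.TF
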