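import Pool.Agent.Run7.h707.TF.Hal
import Pool.Agent.Run7.h707.TF.Gen
import Pool.Agent.Run7.h707.TC.Exc

/-! The exceptional tuples: few separating primes, with fixed primes -/

set_option autoImplicit false
set_option linter.unusedSectionVars false

open scoped Classical

namespace Run7.h707.TF

open Finset Filter
open Pool.Agent.Y692.QS (Ei)
open Pool.Agent.Y715.T.Rec (cs)
open Pool.Agent.Y715.T.RecG (Pq)
open Pool.Agent.Y699.E
open Pool.Agent.Y703.CX (eL zz kk jj XX HH)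
open Pool.Agent.Y703.XK (sm la bl)
open Pool.Agent.R419.KF (SG mem_SG)
open Pool.Agent.Y433.XK (pN pN_pos)
open Pool.Agent.N883.FF (nq NdB)
open Pool.Agent.N883.FF.HalA (ps ps_prm)
open Pool.Agent.R419.KF.Few (fiber_le)
open Q283.T3 (lg_mul zz_ev)
open Run7.h707.TC (Tt mem_Tt sm_update)

/-- the labels of the primes separate the functions on `T` and `ω` -/
def NdS (R : ℕ) (T Λ : Finset Ei) : Prop :=
  ∀ (v : Ei → ZMod 3) (t : ZMod 3), ((∃ u ∈ T, v u ≠ 0) ∨ t ≠ 0) →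
    2 * (T.card + 1) + R ≤ (Λ.filter fun π => ∑ u ∈ T, v u * cs u π + t * nq π ≠ 0).card

theorem NdS.ndB {R : ℕ} {T Λ : Finset Ei} (h : NdS R T Λ) : NdB T Λ := by
  intro v t hvt
  have h1 := h v t hvt
  have h2 : 0 < (Λ.filter fun π => ∑ u ∈ T, v u * cs u π + t * nq π ≠ 0).card := by omega
  obtain ⟨π, hπ⟩ := card_pos.1 h2
  exact ⟨π, (mem_filter.1 hπ).1, (mem_filter.1 hπ).2⟩

/-- the separating primes of two sets -/
noncomputable def spB (A B : Finset Ei) (t : ZMod 3) (T : Finset Ei) : Finset Ei :=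
  T.filter fun π => ∑ u ∈ A, cs u π - ∑ u ∈ B, cs u π + t * nq π ≠ 0

theorem notNdS {R : ℕ} {U T : Finset Ei} (h : ¬ NdS R U T) :
    ∃ (A B : Finset Ei) (t : ZMod 3), A ⊆ U ∧ B ⊆ U ∧ Disjoint A B ∧ (A ≠ B ∨ t ≠ 0) ∧
      (spB A B t T).card ≤ 2 * (U.card + 1) + R := by
  unfold NdS at h
  push Not at h
  obtain ⟨v, t, hvt, h2⟩ := h
  refine ⟨U.filter fun u => v u = 1, U.filter fun u => v u = 2, t, filter_subset _ _,
    filter_subset _ _, ?_, ?_, ?_⟩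
  · rw [Finset.disjoint_left]
    intro x hx hx2
    rw [mem_filter] at hx hx2
    rw [hx.2] at hx2
    exact absurd hx2.2 (by decide)
  · rcases hvt with ⟨u, hu, hu0⟩ | ht
    · left
      intro heq
      have key : ∀ c : ZMod 3, c ≠ 0 → c = 1 ∨ c = 2 := by decide
      rcases key (v u) hu0 with h1 | h1
      · have : u ∈ U.filter fun u => v u = 2 := by
          rw [← heq, mem_filter]
          exact ⟨hu, h1⟩
        rw [mem_filter, h1] at this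
        exact absurd this.2 (by decide)
      · have : u ∈ U.filter fun u => v u = 1 := by
          rw [heq, mem_filter]
          exact ⟨hu, h1⟩
        rw [mem_filter, h1] at this
        exact absurd this.2 (by decide)
    · exact Or.inr ht
  · refine le_trans (card_le_card ?_) h2.le
    intro π hπ
    unfold spB at hπ
    rw [mem_filter] at hπ ⊢
    refine ⟨hπ.1, fun h0 => hπ.2 ?_⟩
    rw [← h0, sum_filter, sum_filter, ← sum_sub_distrib]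
    congr 1
    refine sum_congr rfl fun u _ => ?_
    have key : ∀ a b : ZMod 3, (if a = 1 then b else 0) - (if a = 2 then b else 0) = a * b := by
      decide
    exact key (v u) (cs u π)

theorem pair3 {K : ℝ} (hK1 : 1 ≤ K) (hK : ∀ (A B : Ei) (t : ZMod 3), PS A → PS B →
      (A ≠ B ∨ t ≠ 0) → ∀ T : ℕ,
      ∑ n ∈ SB T, mf (wtB A B t) n ≤ K * lg (nrm A * nrm B) * (T * (lg T) ^ (-(1 / 4) : ℝ)))
    (X z : ℕ) (W S₀ : Finset Ei) (hS₀ : ∀ u ∈ S₀, Pq u ∧ nrm u ≤ z)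
    (hW : ∀ u ∈ W, Pq u ∧ nrm u ≤ z) (A B : Finset Ei) (t : ZMod 3) (hA : A ⊆ W ∪ S₀)
    (hB : B ⊆ W ∪ S₀) (hd : Disjoint A B) (hAB : A ≠ B ∨ t ≠ 0) (c : ℕ)
    (F : Finset (Finset Ei))
    (hF : ∀ S ∈ F, (S ∈ SG X ∧ sm z S = S₀) ∧ (spB A B t (la z S)).card ≤ c) :
    (F.card : ℝ) ≤ 32 ^ c * (2 * K * lg (pN W)) * lg (pN S₀) * (((X / pN S₀ : ℕ) : ℝ) *
          (lg (X / pN S₀)) ^ (-(1 / 4) : ℝ)) := by
  have hU : ∀ u ∈ W ∪ S₀, Pq u ∧ nrm u ≤ z := fun u hu =>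
    (mem_union.1 hu).elim (hW u) (hS₀ u)
  obtain ⟨a1, a2⟩ := PS_prod (S := A) fun π hπ => (hU π (hA hπ)).1
  obtain ⟨b1, b2⟩ := PS_prod (S := B) fun π hπ => (hU π (hB hπ)).1
  set a := ∏ π ∈ A, π with ha
  set b := ∏ π ∈ B, π with hb
  have hab : a ≠ b ∨ t ≠ 0 := by
    rcases hAB with h | h
    · left
      intro h'
      apply h
      rw [← a2, ← b2, h']
    · exact Or.inr h
  have hval : ∀ S ∈ F, ∀ π ∈ la z S, ps a b t π =
      ez (∑ u ∈ A, cs u π - ∑ u ∈ B, cs u π + t * nq π) := by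
    intro S hS π hπ
    obtain ⟨⟨h1, h2⟩, h3⟩ := hF S hS
    have hπq : Pq π ∧ ¬ nrm π ≤ z := by
      unfold la at hπ
      rw [mem_filter] at hπ
      unfold SG at h1
      rw [mem_filter] at h1
      exact ⟨h1.2.1.1 π hπ.1, hπ.2⟩
    have hchi : ∀ u ∈ W ∪ S₀, chi u π = ez (cs u π) := by
      intro u hu
      refine chi_of fun hdv => ?_
      have := eq_of_dvd (hU u hu).1 hπq.1 hdv
      subst this
      exact hπq.2 (hU u hu).2
    rw [ps_prm (pq_prm hπq.1)]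
    unfold xab jac
    rw [a2, b2, prod_congr rfl fun u hu => hchi u (hA hu), prod_congr rfl fun u hu => hchi u (hB hu),
      ← Pool.Agent.Y433.XK.ez_sum, ← Pool.Agent.Y433.XK.ez_sum, conj_ez, ← ez_add, ← sub_eq_add_neg,
      ← ez_add]
  have hwt1 : ∀ x : ZMod 3, (31 / 32) * ((1 + 2 * (ez x).re) / 3) + 1 / 32 =
      if x ≠ 0 then (1 / 32 : ℝ) else 1 := by
    intro x
    by_cases hx : x = 0
    · rw [if_neg (not_not.2 hx), hx, ez_zero]
      norm_num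
    · rw [if_pos hx, CH.root_re (ez_root hx)]
      norm_num
  have h := fiber_le X z S₀ (fun u hu => (hS₀ u hu).1) F (fun S hS => (hF S hS).1)
    (wtB a b t) (wtB_nonneg a1 b1 t) ((1 / 32) ^ c) (fun S hS => by
      have e1 : ∏ π ∈ la z S, wtB a b t π = ∏ π ∈ la z S,
          if ∑ u ∈ A, cs u π - ∑ u ∈ B, cs u π + t * nq π ≠ 0 then (1 / 32 : ℝ) else 1 := by
        refine prod_congr rfl fun π hπ => ?_
        unfold wtB
        rw [hval S hS π hπ, hwt1]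
      rw [e1, prod_ite, prod_const, prod_const_one, mul_one]
      exact pow_le_pow_of_le_one (by norm_num) (by norm_num) (hF S hS).2)
  have h2 := h.trans (hK a b t a1 b1 hab (X / pN S₀))
  have hnn : nrm a * nrm b ≤ pN W * pN S₀ := by
    rw [ha, hb, nrm_prod, nrm_prod, ← prod_union hd]
    unfold pN
    have g1 : ∏ π ∈ A ∪ B, nrm π ≤ ∏ π ∈ W ∪ S₀, nrm π :=
      prod_le_prod_of_subset_of_one_le' (union_subset hA hB) fun u hu _ =>
        nrm_pos' (pq_ne (hU u hu).1)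
    refine g1.trans ?_
    rw [← prod_union_inter]
    exact Nat.le_mul_of_pos_right _ (prod_pos fun u hu =>
      nrm_pos' (pq_ne (hS₀ u (mem_inter.1 hu).2).1))
  have h4 : lg (nrm a * nrm b) ≤ 2 * lg (pN W) * lg (pN S₀) :=
    (lg_mono hnn).trans (lg_mul _ _)
  have hTl : 0 ≤ ((X / pN S₀ : ℕ) : ℝ) * (lg (X / pN S₀)) ^ (-(1 / 4) : ℝ) :=
    mul_nonneg (Nat.cast_nonneg _) (Real.rpow_nonneg (zero_le_one.trans (one_le_lg _)) _)
  have h5 : (F.card : ℝ) = 32 ^ c * (F.card * (1 / 32) ^ c) := by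
    rw [mul_left_comm, ← mul_pow]
    norm_num
  rw [h5]
  calc (32 : ℝ) ^ c * (F.card * (1 / 32) ^ c) ≤ 32 ^ c * (K * lg (nrm a * nrm b) *
        (((X / pN S₀ : ℕ) : ℝ) * (lg (X / pN S₀)) ^ (-(1 / 4) : ℝ))) := by gcongr
    _ ≤ 32 ^ c * (K * (2 * lg (pN W) * lg (pN S₀)) *
        (((X / pN S₀ : ℕ) : ℝ) * (lg (X / pN S₀)) ^ (-(1 / 4) : ℝ))) := by gcongr
    _ = _ := by ring

theorem bad3 {K : ℝ} (hK1 : 1 ≤ K) (hK : ∀ (A B : Ei) (t : ZMod 3), PS A → PS B →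
      (A ≠ B ∨ t ≠ 0) → ∀ T : ℕ,
      ∑ n ∈ SB T, mf (wtB A B t) n ≤ K * lg (nrm A * nrm B) * (T * (lg T) ^ (-(1 / 4) : ℝ)))
    (R X : ℕ) (W S₀ : Finset Ei) (hS₀ : ∀ u ∈ S₀, Pq u ∧ nrm u ≤ zz X)
    (hW : ∀ u ∈ W, Pq u ∧ nrm u ≤ zz X) (G : Finset (Finset Ei))
    (hG : ∀ S ∈ G, S ∈ SG X ∧ (S.card ≤ kk X ∧ ¬ NdS R (W ∪ sm (zz X) S) (la (zz X) S)) ∧
      sm (zz X) S = S₀) : (G.card : ℝ) ≤
        (3 * 32 ^ (2 + R) * (2 * K) * 4096 ^ W.card * lg (pN W)) * 4096 ^ S₀.card *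
          lg (pN S₀) * (((X / pN S₀ : ℕ) : ℝ) * (lg (X / pN S₀)) ^ (-(1 / 4) : ℝ)) := by
  set U := W ∪ S₀ with hU
  set P : Finset ((Finset Ei × Finset Ei) × ZMod 3) :=
    ((U.powerset ×ˢ U.powerset) ×ˢ univ).filter fun p => Disjoint p.1.1 p.1.2 ∧
      (p.1.1 ≠ p.1.2 ∨ p.2 ≠ 0) with hP
  have hUc : U.card ≤ W.card + S₀.card := card_union_le _ _
  have hsub : G ⊆ P.biUnion fun p => G.filter fun S =>
      (spB p.1.1 p.1.2 p.2 (la (zz X) S)).card ≤ 2 * (U.card + 1) + R := by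
    intro S hS
    obtain ⟨h1, ⟨h2, h3⟩, h4⟩ := hG S hS
    rw [h4, ← hU] at h3
    obtain ⟨A, B, t, hA, hB, hd, hAB, hDg⟩ := notNdS h3
    rw [mem_biUnion]
    refine ⟨((A, B), t), ?_, ?_⟩
    · rw [hP, mem_filter, mem_product, mem_product, mem_powerset, mem_powerset]
      exact ⟨⟨⟨hA, hB⟩, mem_univ _⟩, hd, hAB⟩
    · rw [mem_filter]
      exact ⟨hS, hDg⟩
  have h1 : (G.card : ℝ) ≤ ∑ p ∈ P, ((G.filter fun S =>
      (spB p.1.1 p.1.2 p.2 (la (zz X) S)).card ≤ 2 * (U.card + 1) + R).card : ℝ) := by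
    exact_mod_cast (card_le_card hsub).trans card_biUnion_le
  have h2 : ∀ p ∈ P, ((G.filter fun S =>
      (spB p.1.1 p.1.2 p.2 (la (zz X) S)).card ≤ 2 * (U.card + 1) + R).card : ℝ) ≤
      32 ^ (2 * (U.card + 1) + R) * (2 * K * lg (pN W)) * lg (pN S₀) * (((X / pN S₀ : ℕ) : ℝ) *
        (lg (X / pN S₀)) ^ (-(1 / 4) : ℝ)) := by
    intro p hp
    rw [hP, mem_filter, mem_product, mem_product, mem_powerset, mem_powerset] at hp
    refine pair3 hK1 hK X (zz X) W S₀ hS₀ hW p.1.1 p.1.2 p.2 hp.1.1.1 hp.1.1.2 hp.2.1 hp.2.2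
      _ _ ?_
    intro S hS
    rw [mem_filter] at hS
    have h := hG S hS.1
    exact ⟨⟨h.1, h.2.2⟩, hS.2⟩
  have h3 : (P.card : ℝ) ≤ 3 * 4 ^ U.card := by
    have : P.card ≤ 3 * 4 ^ U.card := by
      refine (card_filter_le _ _).trans (le_of_eq ?_)
      rw [card_product, card_product, card_powerset, ← mul_pow, card_univ, ZMod.card]
      norm_num
      ring
    exact_mod_cast this
  have hTl : 0 ≤ ((X / pN S₀ : ℕ) : ℝ) * (lg (X / pN S₀)) ^ (-(1 / 4) : ℝ) :=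
    mul_nonneg (Nat.cast_nonneg _) (Real.rpow_nonneg (zero_le_one.trans (one_le_lg _)) _)
  have hlg := lg_pos (pN S₀)
  have hlgW := lg_pos (pN W)
  have h4 : (3 : ℝ) * 4 ^ U.card ≤ 3 * (4 ^ W.card * 4 ^ S₀.card) := by
    apply mul_le_mul_of_nonneg_left _ (by norm_num)
    rw [← pow_add]
    exact pow_le_pow_right₀ (by norm_num) hUc
  have h5 : (32 : ℝ) ^ (2 * (U.card + 1) + R) ≤
      32 ^ (2 + R) * (1024 ^ W.card * 1024 ^ S₀.card) := by
    have : (1024 : ℝ) ^ W.card * 1024 ^ S₀.card = 32 ^ (2 * (W.card + S₀.card)) := by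
      rw [← pow_add, pow_mul]; norm_num
    rw [this, ← pow_add]
    exact pow_le_pow_right₀ (by norm_num) (by omega)
  calc (G.card : ℝ) ≤ ∑ p ∈ P, 32 ^ (2 * (U.card + 1) + R) * (2 * K * lg (pN W)) *
        lg (pN S₀) * (((X / pN S₀ : ℕ) : ℝ) * (lg (X / pN S₀)) ^ (-(1 / 4) : ℝ)) :=
        h1.trans (sum_le_sum h2)
    _ = P.card * (32 ^ (2 * (U.card + 1) + R) * (2 * K * lg (pN W)) * lg (pN S₀) *
        (((X / pN S₀ : ℕ) : ℝ) * (lg (X / pN S₀)) ^ (-(1 / 4) : ℝ))) := by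
          rw [sum_const, nsmul_eq_mul]
    _ ≤ (3 * (4 ^ W.card * 4 ^ S₀.card)) * ((32 ^ (2 + R) * (1024 ^ W.card * 1024 ^ S₀.card)) *
        (2 * K * lg (pN W)) * lg (pN S₀) *
        (((X / pN S₀ : ℕ) : ℝ) * (lg (X / pN S₀)) ^ (-(1 / 4) : ℝ))) := by
          have := h3.trans h4
          gcongr
    _ = _ := by
        have e1 : ∀ n : ℕ, (4096 : ℝ) ^ n = 4 ^ n * 1024 ^ n := fun n => by
          rw [← mul_pow]; norm_num
        rw [e1, e1]; ring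

theorem pN_union (W P₀ : Finset Ei) (hP : ∀ u ∈ P₀, Pq u) : pN (W ∪ P₀) ≤ pN W * pN P₀ := by
  unfold pN
  rw [← prod_union_inter]
  exact Nat.le_mul_of_pos_right _ (prod_pos fun u hu => nrm_pos' (pq_ne (hP u (mem_inter.1 hu).2)))

/-- the labels with respect to all the small primes and the fixed primes separate -/
def NdW {m : ℕ} (R : ℕ) (P₀ : Finset Ei) (z : ℕ) (S : Fin m → Finset Ei) : Prop :=
  ∀ l, NdS R ((Tt fun k => sm z (S k)) ∪ P₀) (la z (S l))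

/-- few tuples have labels that do not separate, one color -/
theorem badF1 (m : ℕ) (k₀ : Fin m) (R : ℕ) (P₀ : Finset Ei) (hP : ∀ u ∈ P₀, Pq u) :
    ∀ ε : ℝ, 0 < ε → ∀ᶠ X : ℕ in atTop,
    ∀ F : Finset (Fin m → Finset Ei), (∀ S ∈ F, (∀ k, S k ∈ SG X ∧ (S k).card ≤ kk X) ∧
      ¬ NdS R ((Tt fun k => sm (zz X) (S k)) ∪ P₀) (la (zz X) (S k₀))) →
      (F.card : ℝ) ≤ ε * (X : ℝ) ^ m := by
  intro ε hε
  obtain ⟨K, hK1, hK⟩ := hallWB
  obtain ⟨X₁, hX₁⟩ := zz_ev (P₀.sup nrm)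
  have hlP := lg_pos (pN P₀)
  have h := genQ X₁ m k₀ 4096 (3 * 32 ^ (2 + R) * (2 * K) * 4096 ^ P₀.card * (2 * lg (pN P₀)))
    (by norm_num) (by positivity)
    (fun X W S => ¬ NdS R (W ∪ P₀ ∪ sm (zz X) S) (la (zz X) S))
    (by
      intro X W hX hW S₀ hS₀ _ F hF
      have hWP : ∀ u ∈ W ∪ P₀, Pq u ∧ nrm u ≤ zz X := fun u hu =>
        (mem_union.1 hu).elim (hW u) fun h =>
          ⟨hP u h, (le_sup (f := nrm) h).trans (hX₁ X hX)⟩
      refine (bad3 hK1 hK R X (W ∪ P₀) S₀ hS₀ hWP F hF).trans ?_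
      have hTl : 0 ≤ ((X / pN S₀ : ℕ) : ℝ) * (lg (X / pN S₀)) ^ (-(1 / 4) : ℝ) :=
        mul_nonneg (Nat.cast_nonneg _) (Real.rpow_nonneg (zero_le_one.trans (one_le_lg _)) _)
      have hlg := lg_pos (pN S₀)
      have hlgW := lg_pos (pN W)
      have e1 : (4096 : ℝ) ^ (W ∪ P₀).card ≤ 4096 ^ W.card * 4096 ^ P₀.card := by
        rw [← pow_add]
        exact pow_le_pow_right₀ (by norm_num) (card_union_le _ _)
      have e2 : lg (pN (W ∪ P₀)) ≤ 2 * lg (pN W) * lg (pN P₀) :=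
        (lg_mono (pN_union W P₀ hP)).trans (lg_mul _ _)
      have e3 := lg_pos (pN (W ∪ P₀))
      calc 3 * 32 ^ (2 + R) * (2 * K) * 4096 ^ (W ∪ P₀).card * lg (pN (W ∪ P₀)) *
            4096 ^ S₀.card * lg (pN S₀) * (((X / pN S₀ : ℕ) : ℝ) *
              (lg (X / pN S₀)) ^ (-(1 / 4) : ℝ))
          ≤ 3 * 32 ^ (2 + R) * (2 * K) * (4096 ^ W.card * 4096 ^ P₀.card) *
            (2 * lg (pN W) * lg (pN P₀)) * 4096 ^ S₀.card * lg (pN S₀) *
            (((X / pN S₀ : ℕ) : ℝ) * (lg (X / pN S₀)) ^ (-(1 / 4) : ℝ)) := by gcongr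
        _ = _ := by ring) ε hε
  filter_upwards [h] with X hX
  intro F hF
  refine hX F fun S hS => ?_
  obtain ⟨h1, h2⟩ := hF S hS
  refine ⟨h1, ?_⟩
  show ¬ NdS _ _ _
  rw [union_right_comm, ← sm_update]
  exact h2

end Run7.h707.TF
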