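import Pool.Agent.Run7.h707.TD.Bd2

/-! The outer part of the random matrix: the exceptional matrices for two systems of weights that agree
on the large vertices and differ on the small ones -/

set_option autoImplicit false
set_option linter.unusedSectionVars false

open scoped Classical

namespace Run7.h707.TF

open Finset Module
open Q283.T3 hiding est thmR
open Pool.Agent.Y703.XK (prs)
open Run7.h707.TC
open Run7.h707.TD

noncomputable local instance instQ {ι : Type} [Fintype ι] (κ : ι → Prop) :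
    Fintype ({i // ¬ κ i} → ZMod 3) := inferInstance

theorem card_fq {ι : Type} [Fintype ι] (κ : ι → Prop) :
    Fintype.card ({i // ¬ κ i} → ZMod 3) = 3 ^ Fintype.card {i // ¬ κ i} := by
  rw [Fintype.card_fun, ZMod.card]

section c4
variable {U ι : Type} [Fintype U] [Fintype ι] [LinearOrder ι] {κ : ι → Prop}
  {e e' : U → ZMod 3} {s : ι → ZMod 3} {A : U → U → ZMod 3} {B : U → ι → ZMod 3}
  {j₀ : {i // κ i}}

/-- the difference on the large vertices of `κ` -/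
def kd (j₀ : {i // κ i}) (x y : (U ⊕ {i // ¬ κ i}) ⊕ {i // κ i} → ZMod 3) : ZMod 3 :=
  x (Sum.inr j₀) - y (Sum.inr j₀)

theorem three1 {a a' b b' σ : ZMod 3} (hσ : σ ≠ 0) (h : a ≠ a') :
    (univ.filter fun p : ZMod 3 × ZMod 3 => σ * ((p.1 - a) * (b - p.2)) +
      σ * ((p.1 - a') * (b' + p.2)) = 0).card ≤ 3 := by
  have h1 : (univ.filter fun p : ZMod 3 × ZMod 3 => σ * ((p.1 - a) * (b - p.2)) +
      σ * ((p.1 - a') * (b' + p.2)) = 0).card ≤ (univ : Finset (ZMod 3)).card := by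
    refine card_le_card_of_injOn Prod.fst (fun _ _ => mem_coe.2 (mem_univ _)) ?_
    intro p hp q hq hpq
    have hp' := (mem_filter.1 (mem_coe.1 hp)).2
    have hq' := (mem_filter.1 (mem_coe.1 hq)).2
    refine Prod.ext hpq ?_
    rw [hpq] at hp'
    have h2 : σ * ((a - a') * (p.2 - q.2)) = 0 := by linear_combination hp' - hq'
    have h3 := (mul_eq_zero.1 h2).resolve_left hσ
    have h4 := (mul_eq_zero.1 h3).resolve_left (sub_ne_zero.2 h)
    exact sub_eq_zero.1 h4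
  rwa [card_univ, ZMod.card] at h1

/-- the triples of the first kind -/
noncomputable def TS1 (U : Type) [Fintype U] (s : ι → ZMod 3) (j₀ : {i // κ i}) :
    Finset (((U ⊕ {i // ¬ κ i}) ⊕ {i // κ i} → ZMod 3) ×
      (((U ⊕ {i // ¬ κ i}) ⊕ {i // κ i} → ZMod 3) × ({i // ¬ κ i} ⊕ ι → ZMod 3))) :=
  univ.filter fun t => t.1 - t.2.1 ∈ W0 (U ⊕ {i // ¬ κ i}) {i // κ i} ∧ Zf U κ s t.1 ∧
    Zf U κ s t.2.1 ∧ (∃ q : {i // ¬ κ i}, s q ≠ 0 ∧
      t.2.1 (Sum.inl (Sum.inr q)) ≠ t.1 (Sum.inl (Sum.inr q)) - kd j₀ t.1 t.2.1) ∧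
    ∀ α, ∑ i, t.2.2 i * LJ κ s s (rs t.1) (rs t.2.1) α i = 0

theorem card_TS1 (hs1 : ∀ j, κ j → s j = 1) (j₀ : {i // κ i}) :
    (TS1 U s j₀).card ≤ 3 ^ Fintype.card {i // κ i} *
      (9 ^ Fintype.card U * 3 * (KC * 9 ^ Fintype.card {i // ¬ κ i})) := by
  set 𝒜 : Finset (((U → ZMod 3) × (U → ZMod 3) × ZMod 3) × ({i // ¬ κ i} → Fin 4 → ZMod 3)) :=
    (univ : Finset ((U → ZMod 3) × (U → ZMod 3) × ZMod 3)) ×ˢ
      (univ.filter fun f : {i // ¬ κ i} → Fin 4 → ZMod 3 =>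
        ∀ q q' : {i // ¬ κ i}, ((s q, s q) : ZMod 3 × ZMod 3) = (s q', s q') →
          Rq (s q, s q) (f q) (f q')) with h𝒜
  have h1 : 𝒜.card ≤ 9 ^ Fintype.card U * 3 * (KC * 9 ^ Fintype.card {i // ¬ κ i}) := by
    rw [h𝒜, card_product]
    refine Nat.mul_le_mul (le_of_eq ?_) (card_clG fun q : {i // ¬ κ i} => (s q, s q))
    rw [card_univ, Fintype.card_prod, Fintype.card_prod, Fintype.card_fun, ZMod.card, ← mul_assoc,
      ← mul_pow]
    norm_num
  refine (card_le_mul_card_image_of_maps_to (t := 𝒜)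
    (f := fun t => (((fun u => t.1 (Sum.inl (Sum.inl u))), (fun u => t.2.1 (Sum.inl (Sum.inl u))),
      t.1 (Sum.inr j₀) - t.2.1 (Sum.inr j₀)), ty κ (rs t.1) (rs t.2.1) t.2.2)) ?_
    (3 ^ Fintype.card {i // κ i}) ?_).trans (Nat.mul_le_mul_left _ h1)
  · intro t ht
    unfold TS1 at ht
    rw [mem_filter] at ht
    rw [h𝒜, mem_product]
    refine ⟨mem_univ _, mem_filter.2 ⟨mem_univ _, fun q q' hc => ?_⟩⟩
    exact Rq_ty (fun p hp => by rw [rs_q]; exact ht.2.2.1 p hp)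
      (fun p hp => by rw [rs_q]; exact ht.2.2.2.1 p hp) ht.2.2.2.2.2 q q' hc
  · intro a _
    -- a vertex where the functions differ
    rcases Finset.eq_empty_or_nonempty ((TS1 U s j₀).filter fun t =>
      (((fun u => t.1 (Sum.inl (Sum.inl u))), (fun u => t.2.1 (Sum.inl (Sum.inl u))),
      t.1 (Sum.inr j₀) - t.2.1 (Sum.inr j₀)), ty κ (rs t.1) (rs t.2.1) t.2.2) = a) with h0 | ⟨t₀, ht₀⟩
    · rw [h0, card_empty]
      exact Nat.zero_le _
    obtain ⟨ht₀', ha₀⟩ := mem_filter.1 ht₀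
    unfold TS1 at ht₀'
    obtain ⟨-, -, -, -, ⟨q, hq, hne⟩, -⟩ := mem_filter.1 ht₀'
    have hx₀ : a.2 q 0 = t₀.1 (Sum.inl (Sum.inr q)) := by
      rw [← ha₀, ← rs_q t₀.1 q]
      rfl
    have hy₀ : a.2 q 2 = t₀.2.1 (Sum.inl (Sum.inr q)) := by
      rw [← ha₀, ← rs_q t₀.2.1 q]
      rfl
    have hk₀ : a.1.2.2 = kd j₀ t₀.1 t₀.2.1 := by
      rw [← ha₀]
      rfl
    have hne' : a.2 q 0 ≠ a.1.2.2 + a.2 q 2 := by
      rw [hx₀, hy₀, hk₀]
      intro h
      exact hne (eq_sub_of_add_eq' h.symm)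
    set Fv : Finset (ZMod 3 × ZMod 3) := univ.filter fun p : ZMod 3 × ZMod 3 =>
      s q * ((p.1 - a.2 q 0) * (a.2 q 1 - p.2)) +
        s q * ((p.1 - (a.1.2.2 + a.2 q 2)) * (-a.2 q 3 + p.2)) = 0
      with hFv
    have h2 : Fv.card ≤ 3 := three1 hq hne'
    have h3 : (Fintype.piFinset fun _ : {i // κ i} => Fv).card ≤ 3 ^ Fintype.card {i // κ i} := by
      rw [Fintype.card_piFinset, prod_const, card_univ]
      exact Nat.pow_le_pow_left h2 _
    refine le_trans (card_le_card_of_injOn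
      (fun t j => (t.1 (Sum.inr j), z1 κ t.2.2 j)) ?_ ?_) h3
    · intro t ht
      rw [mem_coe, mem_filter] at ht
      obtain ⟨ht, ha⟩ := ht
      unfold TS1 at ht
      rw [mem_filter] at ht
      rw [mem_coe, Fintype.mem_piFinset]
      intro j
      rw [hFv, mem_filter]
      refine ⟨mem_univ _, ?_⟩
      rw [← ha]
      show s q * ((t.1 (Sum.inr j) - rs t.1 q) * (z1 κ t.2.2 q - z1 κ t.2.2 j)) +
        s q * ((t.1 (Sum.inr j) - ((t.1 (Sum.inr j₀) - t.2.1 (Sum.inr j₀)) + rs t.2.1 q)) *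
          (- -z2 κ t.2.2 q + z1 κ t.2.2 j)) = 0
      rw [neg_neg, ← rs_j t.1 j]
      refine ty_jG hs1 hs1 ht.2.2.2.2.2 q j ?_
      rw [rs_j, rs_j]
      have h4 : (t.1 - t.2.1) (Sum.inr j) = (t.1 - t.2.1) (Sum.inr j₀) := ht.2.1 j j₀
      rw [Pi.sub_apply, Pi.sub_apply] at h4
      rw [← h4]
      ring
    · intro t ht t' ht' h
      rw [mem_coe, mem_filter] at ht ht'
      obtain ⟨ht, ha⟩ := ht
      obtain ⟨ht', ha'⟩ := ht'
      unfold TS1 at ht ht'
      rw [mem_filter] at ht ht'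
      rw [← ha'] at ha
      have a1 : ∀ u, t.1 (Sum.inl (Sum.inl u)) = t'.1 (Sum.inl (Sum.inl u)) := fun u =>
        congrFun (congrArg (fun z => z.1.1) ha) u
      have a2 : ∀ u, t.2.1 (Sum.inl (Sum.inl u)) = t'.2.1 (Sum.inl (Sum.inl u)) := fun u =>
        congrFun (congrArg (fun z => z.1.2.1) ha) u
      have a3 : t.1 (Sum.inr j₀) - t.2.1 (Sum.inr j₀) =
        t'.1 (Sum.inr j₀) - t'.2.1 (Sum.inr j₀) := congrArg (fun z => z.1.2.2) ha
      have a4 : ∀ q, ty κ (rs t.1) (rs t.2.1) t.2.2 q = ty κ (rs t'.1) (rs t'.2.1) t'.2.2 q :=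
        fun q => congrFun (congrArg (fun z => z.2) ha) q
      have a5 : ∀ q : {i // ¬ κ i}, t.1 (Sum.inl (Sum.inr q)) = t'.1 (Sum.inl (Sum.inr q)) := by
        intro q
        rw [← rs_q t.1 q, ← rs_q t'.1 q]
        exact congrFun (a4 q) 0
      have a6 : ∀ q : {i // ¬ κ i}, z1 κ t.2.2 q = z1 κ t'.2.2 q := fun q => congrFun (a4 q) 1
      have a7 : ∀ q : {i // ¬ κ i}, t.2.1 (Sum.inl (Sum.inr q)) = t'.2.1 (Sum.inl (Sum.inr q)) := by
        intro q
        rw [← rs_q t.2.1 q, ← rs_q t'.2.1 q]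
        exact congrFun (a4 q) 2
      have a8 : ∀ q : {i // ¬ κ i}, z2 κ t.2.2 q = z2 κ t'.2.2 q := fun q =>
        neg_inj.1 (congrFun (a4 q) 3)
      have a9 : ∀ j : {i // κ i}, t.1 (Sum.inr j) = t'.1 (Sum.inr j) := fun j =>
        congrArg Prod.fst (congrFun h j)
      have a10 : ∀ j : {i // κ i}, z1 κ t.2.2 j = z1 κ t'.2.2 j := fun j =>
        congrArg Prod.snd (congrFun h j)
      have b1 : t.1 = t'.1 := by
        funext i
        rcases i with (u | q) | j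
        · exact a1 u
        · exact a5 q
        · exact a9 j
      have b2 : t.2.1 = t'.2.1 := by
        funext i
        rcases i with (u | q) | j
        · exact a2 u
        · exact a7 q
        · have c1 : (t.1 - t.2.1) (Sum.inr j) = (t.1 - t.2.1) (Sum.inr j₀) := ht.2.1 j j₀
          have c2 : (t'.1 - t'.2.1) (Sum.inr j) = (t'.1 - t'.2.1) (Sum.inr j₀) := ht'.2.1 j j₀
          rw [Pi.sub_apply, Pi.sub_apply] at c1 c2
          have c3 := a9 j
          have c4 : t.2.1 (Sum.inr j) = t.1 (Sum.inr j) -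
              (t.1 (Sum.inr j₀) - t.2.1 (Sum.inr j₀)) := by rw [← c1]; ring
          have c5 : t'.2.1 (Sum.inr j) = t'.1 (Sum.inr j) -
              (t'.1 (Sum.inr j₀) - t'.2.1 (Sum.inr j₀)) := by rw [← c2]; ring
          rw [c4, c5, c3, a3]
      have b3 : t.2.2 = t'.2.2 := by
        funext i
        rcases i with q | i
        · have c1 := a8 q
          unfold z2 at c1
          rw [dif_neg q.2, dif_neg q.2] at c1
          exact c1
        · by_cases hi : κ i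
          · exact a10 ⟨i, hi⟩
          · exact a6 ⟨i, hi⟩
      exact Prod.ext b1 (Prod.ext b2 b3)

/-- the equations at the vertices of `κ`, when the functions differ by a constant on the large vertices -/
def Dj (e e' : U → ZMod 3) (B : U → ι → ZMod 3) (j₀ : {i // κ i})
    (x y : (U ⊕ {i // ¬ κ i}) ⊕ {i // κ i} → ZMod 3) : Prop :=
  ∀ j : {i // κ i}, ∑ u, e u * B u j * (x (Sum.inl (Sum.inl u)) - x (Sum.inr j)) +
      (if j = j₀ then 1 else 0) * x (Sum.inr j) =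
    ∑ u, e' u * B u j * (y (Sum.inl (Sum.inl u)) - y (Sum.inr j)) +
      (if j = j₀ then 1 else 0) * y (Sum.inr j)

/-- the triples of the second kind -/
noncomputable def TS2 {U : Type} [Fintype U] (e e' : U → ZMod 3) (s : ι → ZMod 3)
    (B : U → ι → ZMod 3) (j₀ : {i // κ i}) :
    Finset (((U ⊕ {i // ¬ κ i}) ⊕ {i // κ i} → ZMod 3) ×
      (((U ⊕ {i // ¬ κ i}) ⊕ {i // κ i} → ZMod 3) × ({i // ¬ κ i} → ZMod 3))) :=
  univ.filter fun t => t.1 - t.2.1 ∈ W0 (U ⊕ {i // ¬ κ i}) {i // κ i} ∧ Zf U κ s t.1 ∧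
    Zf U κ s t.2.1 ∧ (∀ q : {i // ¬ κ i}, s q ≠ 0 →
      t.2.1 (Sum.inl (Sum.inr q)) = t.1 (Sum.inl (Sum.inr q)) - kd j₀ t.1 t.2.1) ∧
    Dj e e' B j₀ t.1 t.2.1 ∧ ∀ α, ∑ q : {i // ¬ κ i}, t.2.2 q * rl κ s (rs t.1) q α = 0

/-- a relation that is not zero forces the function to be constant -/
theorem rel_cst {x : (U ⊕ {i // ¬ κ i}) ⊕ {i // κ i} → ZMod 3} {ζ : {i // ¬ κ i} → ZMod 3}
    (hs1 : ∀ j, κ j → s j = 1) (j₀ : {i // κ i})
    (h : ∀ α, ∑ q : {i // ¬ κ i}, ζ q * rl κ s (rs x) q α = 0)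
    (h1 : ∃ q : {i // ¬ κ i}, s q ≠ 0 ∧ ζ q ≠ 0) (q : {i // ¬ κ i}) (hq : s q ≠ 0) :
    x (Sum.inl (Sum.inr q)) = x (Sum.inr j₀) := by
  obtain ⟨ζ', hζ'⟩ : ∃ ζ' : ι → ZMod 3, ∀ i, ζ' i = if hi : κ i then 0 else ζ ⟨i, hi⟩ :=
    ⟨_, fun _ => rfl⟩
  have h2 : ∀ α, ∑ i, ζ' i * rl κ s (rs x) i α = 0 := by
    intro α
    rw [← Fintype.sum_subtype_add_sum_subtype κ, sum_eq_zero, zero_add]
    · rw [← h α]
      refine sum_congr rfl fun p _ => ?_
      rw [hζ', dif_neg p.2]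
    · intro p _
      rw [hζ', dif_pos p.2, zero_mul]
  have hzq : ∀ p : {i // ¬ κ i}, ζ' p = ζ p := fun p => by rw [hζ', dif_neg p.2]
  have hzj : ∀ p : {i // κ i}, ζ' p = 0 := fun p => by rw [hζ', dif_pos p.2]
  -- a vertex with a nonzero coefficient
  have h3 : ∀ p : {i // ¬ κ i}, s p ≠ 0 → ζ p ≠ 0 →
      x (Sum.inl (Sum.inr p)) = x (Sum.inr j₀) := by
    intro p hp hp2
    have h4 := rel_pt1 h2 (a := (p : ι)) (b := j₀) (fun e => p.2 (by rw [e]; exact j₀.2))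
      (fun e => p.2 e.1)
    unfold pt at h4
    rw [hzq, hzj, hs1 j₀ j₀.2, rs_q, rs_j, sub_zero, mul_one] at h4
    have h5 := (mul_eq_zero.1 h4).resolve_right hp2
    have h6 := (mul_eq_zero.1 h5).resolve_left hp
    exact (sub_eq_zero.1 h6).symm
  obtain ⟨p, hp, hp2⟩ := h1
  by_cases hq2 : ζ q = 0
  · have hpq : p ≠ q := fun e => hp2 (by rw [e]; exact hq2)
    have h4 := rel_pt1 h2 (a := (p : ι)) (b := q) (fun e => hpq (Subtype.ext e))
      (fun e => p.2 e.1)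
    unfold pt at h4
    rw [hzq, hzq, hq2, rs_q, rs_q, sub_zero] at h4
    have h5 := (mul_eq_zero.1 h4).resolve_right hp2
    have h6 := (mul_eq_zero.1 h5).resolve_left (mul_ne_zero hp hq)
    rw [sub_eq_zero.1 h6]
    exact h3 p hp hp2
  · exact h3 q hq hq2

theorem card_TS2 (hs1 : ∀ j, κ j → s j = 1) (j₀ : {i // κ i}) :
    (TS2 e e' s B j₀).card ≤
      3 ^ (univ.filter fun j : {i // κ i} => ∑ u, (e u - e' u) * B u j = 0).card *
      (9 ^ Fintype.card U * 3 * (2 * 3 ^ Fintype.card {i // ¬ κ i})) := by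
  set N₀ := (univ.filter fun j : {i // κ i} => ∑ u, (e u - e' u) * B u j = 0).card with hN₀
  set f : (((U ⊕ {i // ¬ κ i}) ⊕ {i // κ i} → ZMod 3) ×
      (((U ⊕ {i // ¬ κ i}) ⊕ {i // κ i} → ZMod 3) × ({i // ¬ κ i} → ZMod 3))) →
      ((U → ZMod 3) × (U → ZMod 3) × ZMod 3) × (Bool × ({i // ¬ κ i} → ZMod 3)) := fun t =>
    (((fun u => t.1 (Sum.inl (Sum.inl u))), (fun u => t.2.1 (Sum.inl (Sum.inl u))),
      kd j₀ t.1 t.2.1), (decide (∃ q : {i // ¬ κ i}, s q ≠ 0 ∧ t.2.2 q ≠ 0), fun q =>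
        if (∃ q : {i // ¬ κ i}, s q ≠ 0 ∧ t.2.2 q ≠ 0) then t.2.2 q else
          if s q ≠ 0 then t.1 (Sum.inl (Sum.inr q)) else t.2.2 q)) with hf
  have h1 : (univ : Finset (((U → ZMod 3) × (U → ZMod 3) × ZMod 3) ×
      (Bool × ({i // ¬ κ i} → ZMod 3)))).card =
      9 ^ Fintype.card U * 3 * (2 * 3 ^ Fintype.card {i // ¬ κ i}) := by
    rw [card_univ, Fintype.card_prod, Fintype.card_prod, Fintype.card_prod, Fintype.card_prod,
      card_fq, Fintype.card_fun, ZMod.card, Fintype.card_bool, ← mul_assoc (3 ^ _),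
      ← mul_pow]
    norm_num
  rw [← h1]
  refine card_le_mul_card_image_of_maps_to (t := univ) (f := f) (fun _ _ => mem_univ _)
    (3 ^ N₀) ?_
  intro a _
  set Fv : {i // κ i} → Finset (ZMod 3) := fun j => univ.filter fun X : ZMod 3 =>
    ∑ u, e u * B u j * (a.1.1 u - X) + (if j = j₀ then 1 else 0) * X =
    ∑ u, e' u * B u j * (a.1.2.1 u - (X - a.1.2.2)) + (if j = j₀ then 1 else 0) * (X - a.1.2.2)
    with hFv
  have h2 : ∀ j, (Fv j).card ≤ if ∑ u, (e u - e' u) * B u j = 0 then 3 else 1 := by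
    intro j
    split_ifs with hj
    · exact (card_filter_le _ _).trans (le_of_eq (by rw [card_univ, ZMod.card]))
    · rw [card_le_one]
      intro X hX Y hY
      have hX' := (mem_filter.1 hX).2
      have hY' := (mem_filter.1 hY).2
      have e1 : ∀ X : ZMod 3, ∑ u, e u * B u j * (a.1.1 u - X) =
          ∑ u, e u * B u j * a.1.1 u - X * ∑ u, e u * B u j := by
        intro X
        rw [mul_sum, ← sum_sub_distrib]
        exact sum_congr rfl fun u _ => by ring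
      have e2 : ∀ X : ZMod 3, ∑ u, e' u * B u j * (a.1.2.1 u - (X - a.1.2.2)) =
          ∑ u, e' u * B u j * (a.1.2.1 u + a.1.2.2) - X * ∑ u, e' u * B u j := by
        intro X
        rw [mul_sum, ← sum_sub_distrib]
        exact sum_congr rfl fun u _ => by ring
      have e3 : ∑ u, (e u - e' u) * B u j = ∑ u, e u * B u j - ∑ u, e' u * B u j := by
        rw [← sum_sub_distrib]
        exact sum_congr rfl fun u _ => by ring
      rw [e3] at hj
      rw [e1, e2] at hX' hY'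
      have h3 : (X - Y) * (∑ u, e u * B u j - ∑ u, e' u * B u j) = 0 := by
        linear_combination hY' - hX'
      exact sub_eq_zero.1 ((mul_eq_zero.1 h3).resolve_right hj)
  have h3 : (Fintype.piFinset Fv).card ≤ 3 ^ N₀ := by
    rw [Fintype.card_piFinset]
    refine (prod_le_prod' fun j _ => h2 j).trans (le_of_eq ?_)
    rw [prod_ite, prod_const, prod_const_one, mul_one]
  refine le_trans (card_le_card_of_injOn (fun t j => t.1 (Sum.inr j)) ?_ ?_) h3
  · intro t ht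
    rw [mem_coe, mem_filter] at ht
    obtain ⟨ht, ha⟩ := ht
    unfold TS2 at ht
    obtain ⟨-, b1, b2, b3, b4, b5, b6⟩ := mem_filter.1 ht
    rw [mem_coe, Fintype.mem_piFinset]
    intro j
    rw [hFv, mem_filter]
    refine ⟨mem_univ _, ?_⟩
    have h4 : (t.1 - t.2.1) (Sum.inr j) = (t.1 - t.2.1) (Sum.inr j₀) := b1 j j₀
    rw [Pi.sub_apply, Pi.sub_apply] at h4
    have h5 : t.2.1 (Sum.inr j) = t.1 (Sum.inr j) - kd j₀ t.1 t.2.1 := by
      unfold kd
      rw [← h4]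
      ring
    rw [← ha]
    have h6 := b5 j
    rw [h5] at h6
    exact h6
  · intro t ht t' ht' h
    rw [mem_coe, mem_filter] at ht ht'
    obtain ⟨ht, ha⟩ := ht
    obtain ⟨ht', ha'⟩ := ht'
    rw [← ha'] at ha
    unfold TS2 at ht ht'
    obtain ⟨-, b1, b2, b3, b4, b5, b6⟩ := mem_filter.1 ht
    obtain ⟨-, b1', b2', b3', b4', b5', b6'⟩ := mem_filter.1 ht'
    have a1 : ∀ u, t.1 (Sum.inl (Sum.inl u)) = t'.1 (Sum.inl (Sum.inl u)) := fun u =>
      congrFun (congrArg (fun z => z.1.1) ha) u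
    have a2 : ∀ u, t.2.1 (Sum.inl (Sum.inl u)) = t'.2.1 (Sum.inl (Sum.inl u)) := fun u =>
      congrFun (congrArg (fun z => z.1.2.1) ha) u
    have a3 : kd j₀ t.1 t.2.1 = kd j₀ t'.1 t'.2.1 := congrArg (fun z => z.1.2.2) ha
    have a4 : (∃ q : {i // ¬ κ i}, s q ≠ 0 ∧ t.2.2 q ≠ 0) ↔
        ∃ q : {i // ¬ κ i}, s q ≠ 0 ∧ t'.2.2 q ≠ 0 :=
      decide_eq_decide.1 (congrArg (fun z => z.2.1) ha)
    have a5 : ∀ q : {i // ¬ κ i}, (if (∃ q : {i // ¬ κ i}, s q ≠ 0 ∧ t.2.2 q ≠ 0) then t.2.2 q else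
          if s q ≠ 0 then t.1 (Sum.inl (Sum.inr q)) else t.2.2 q) =
        (if (∃ q : {i // ¬ κ i}, s q ≠ 0 ∧ t'.2.2 q ≠ 0) then t'.2.2 q else
          if s q ≠ 0 then t'.1 (Sum.inl (Sum.inr q)) else t'.2.2 q) :=
      fun q => congrFun (congrArg (fun z => z.2.2) ha) q
    have a6 : ∀ j : {i // κ i}, t.1 (Sum.inr j) = t'.1 (Sum.inr j) := fun j => congrFun h j
    have a7 : ∀ q : {i // ¬ κ i}, t.1 (Sum.inl (Sum.inr q)) = t'.1 (Sum.inl (Sum.inr q)) := by
      intro q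
      by_cases hq : s q = 0
      · rw [b2 q hq, b2' q hq]
      · by_cases hfl : ∃ q : {i // ¬ κ i}, s q ≠ 0 ∧ t.2.2 q ≠ 0
        · rw [rel_cst hs1 j₀ b6 hfl q hq, rel_cst hs1 j₀ b6' (a4.1 hfl) q hq, a6]
        · have h5 := a5 q
          rw [if_neg hfl, if_neg (fun h => hfl (a4.2 h)), if_pos hq, if_pos hq] at h5
          exact h5
    have a8 : t.2.2 = t'.2.2 := by
      funext q
      by_cases hfl : ∃ q : {i // ¬ κ i}, s q ≠ 0 ∧ t.2.2 q ≠ 0
      · have h5 := a5 q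
        rw [if_pos hfl, if_pos (a4.1 hfl)] at h5
        exact h5
      · by_cases hq : s q = 0
        · have h5 := a5 q
          rw [if_neg hfl, if_neg (fun h => hfl (a4.2 h)), if_neg (not_not.2 hq),
            if_neg (not_not.2 hq)] at h5
          exact h5
        · have h6 : t.2.2 q = 0 := by
            by_contra h7
            exact hfl ⟨q, hq, h7⟩
          have h7 : t'.2.2 q = 0 := by
            by_contra h8
            exact hfl (a4.2 ⟨q, hq, h8⟩)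
          rw [h6, h7]
    have c1 : t.1 = t'.1 := by
      funext i
      rcases i with (u | q) | j
      · exact a1 u
      · exact a7 q
      · exact a6 j
    have c2 : t.2.1 = t'.2.1 := by
      funext i
      rcases i with (u | q) | j
      · exact a2 u
      · by_cases hq : s q = 0
        · rw [b3 q hq, b3' q hq]
        · rw [b4 q hq, b4' q hq, a7, a3]
      · have d1 : (t.1 - t.2.1) (Sum.inr j) = (t.1 - t.2.1) (Sum.inr j₀) := b1 j j₀
        have d2 : (t'.1 - t'.2.1) (Sum.inr j) = (t'.1 - t'.2.1) (Sum.inr j₀) := b1' j j₀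
        rw [Pi.sub_apply, Pi.sub_apply] at d1 d2
        have d4 : t.2.1 (Sum.inr j) = t.1 (Sum.inr j) - kd j₀ t.1 t.2.1 := by
          unfold kd
          rw [← d1]
          ring
        have d5 : t'.2.1 (Sum.inr j) = t'.1 (Sum.inr j) - kd j₀ t'.1 t'.2.1 := by
          unfold kd
          rw [← d2]
          ring
        rw [d4, d5, a6, a3]
    exact Prod.ext c1 (Prod.ext c2 a8)

/-- the exceptional matrices for two systems of weights that agree on the outer vertices -/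
theorem c4 (hs1 : ∀ j, κ j → s j = 1) (d : ℕ) :
    (univ.filter fun α : prs ι → ZMod 3 =>
      ¬ finrank (ZMod 3) (JJ (BO κ e s A B j₀ α) (BO κ e' s A B j₀ α)
        (W0 (U ⊕ {i // ¬ κ i}) {i // κ i})) ≤ d).card * 3 ^ (d + 1) ≤
      Fintype.card (prs ι → ZMod 3) * (3 * KC * 9 ^ Fintype.card U +
        6 * 9 ^ Fintype.card U *
          3 ^ (univ.filter fun j : {i // κ i} => ∑ u, (e u - e' u) * B u j = 0).card) := by
  set N₀ := (univ.filter fun j : {i // κ i} => ∑ u, (e u - e' u) * B u j = 0).card with hN₀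
  set V := (U ⊕ {i // ¬ κ i}) ⊕ {i // κ i} → ZMod 3 with hV
  set 𝒲 := (univ.filter fun w : V × V => w.1 - w.2 ∈ W0 (U ⊕ {i // ¬ κ i}) {i // κ i} ∧
    Zf U κ s w.1 ∧ Zf U κ s w.2) with h𝒲
  set P : (prs ι → ZMod 3) → V × V → Prop := fun α w =>
    w ∈ JJ (BO κ e s A B j₀ α) (BO κ e' s A B j₀ α) (W0 (U ⊕ {i // ¬ κ i}) {i // κ i}) with hP
  have hsqW : ∀ q : {i // ¬ κ i}, (Pi.single (Sum.inl (Sum.inr q)) 1 : V) ∈
      W0 (U ⊕ {i // ¬ κ i}) {i // κ i} := by
    intro q i l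
    rw [Pi.single_eq_of_ne (by simp), Pi.single_eq_of_ne (by simp)]
  have h1 : (univ.filter fun α : prs ι → ZMod 3 =>
      ¬ finrank (ZMod 3) (JJ (BO κ e s A B j₀ α) (BO κ e' s A B j₀ α)
        (W0 (U ⊕ {i // ¬ κ i}) {i // κ i})) ≤ d).card * 3 ^ (d + 1) ≤
      ∑ α : prs ι → ZMod 3, (𝒲.filter fun w => P α w).card := by
    have h2 : ∀ α ∈ (univ.filter fun α : prs ι → ZMod 3 =>
      ¬ finrank (ZMod 3) (JJ (BO κ e s A B j₀ α) (BO κ e' s A B j₀ α)
        (W0 (U ⊕ {i // ¬ κ i}) {i // κ i})) ≤ d),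
        3 ^ (d + 1) ≤ (𝒲.filter fun w => P α w).card := by
      intro α hα
      rw [mem_filter, not_le] at hα
      have h3 : (𝒲.filter fun w => P α w) = (univ.filter fun w : V × V =>
          w ∈ JJ (BO κ e s A B j₀ α) (BO κ e' s A B j₀ α)
            (W0 (U ⊕ {i // ¬ κ i}) {i // κ i})) := by
        ext w
        rw [h𝒲, mem_filter, mem_filter, mem_filter]
        refine ⟨fun h => ⟨h.1.1, h.2⟩, fun h => ⟨⟨h.1, h.2.1, ?_, ?_⟩, h.2⟩⟩
        · obtain ⟨hw1, hw2, hw3⟩ := mem_JJ.1 h.2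
          intro p hp
          rw [← BO_z e A B α j₀ hs1 w.1 p hp]
          exact hw3 _ (hsqW p)
        · obtain ⟨hw1, hw2, hw3⟩ := mem_JJ.1 h.2
          intro p hp
          rw [← BO_z e' A B α j₀ hs1 w.2 p hp, ← hw2]
          exact hw3 _ (hsqW p)
      rw [h3, card_sub]
      exact Nat.pow_le_pow_right (by norm_num) hα.2
    refine (le_of_eq ?_).trans ((sum_le_sum h2).trans
      (sum_le_sum_of_subset (filter_subset _ _)))
    rw [sum_const, smul_eq_mul]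
  refine h1.trans ?_
  have h2 : ∑ α : prs ι → ZMod 3, (𝒲.filter fun w => P α w).card =
      ∑ w ∈ 𝒲, (univ.filter fun α : prs ι → ZMod 3 => P α w).card :=
    sum_card_bipartiteAbove_eq_sum_card_bipartiteBelow (s := univ) (t := 𝒲) P
  rw [h2]
  obtain ⟨Q, hQ⟩ : ∃ Q : V × V → Prop, ∀ w, Q w ↔ ∃ q : {i // ¬ κ i}, s q ≠ 0 ∧
      w.2 (Sum.inl (Sum.inr q)) ≠ w.1 (Sum.inl (Sum.inr q)) - kd j₀ w.1 w.2 :=
    ⟨_, fun _ => Iff.rfl⟩
  set 𝒲₁ := 𝒲.filter fun w => Q w with h𝒲₁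
  set 𝒲₂ := 𝒲.filter fun w => ¬ Q w with h𝒲₂
  have h3 : ∑ w ∈ 𝒲, (univ.filter fun α : prs ι → ZMod 3 => P α w).card =
      ∑ w ∈ 𝒲₁, (univ.filter fun α : prs ι → ZMod 3 => P α w).card +
      ∑ w ∈ 𝒲₂, (univ.filter fun α : prs ι → ZMod 3 => P α w).card :=
    (sum_filter_add_sum_filter_not _ _ _).symm
  -- the first part
  have h4 : ∑ w ∈ 𝒲₁, (univ.filter fun α : prs ι → ZMod 3 => P α w).card ≤
      Fintype.card (prs ι → ZMod 3) * (3 * KC * 9 ^ Fintype.card U) := by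
    set c : V × V → {i // ¬ κ i} ⊕ ι → ZMod 3 := fun w i => match i with
      | Sum.inl q => -∑ u, s q * e' u * B u q *
          (w.2 (Sum.inl (Sum.inl u)) - w.2 (Sum.inl (Sum.inr q)))
      | Sum.inr i => if h : κ i then
          (∑ u, e' u * B u i * (w.2 (Sum.inl (Sum.inl u)) - w.2 (Sum.inr ⟨i, h⟩)) +
            (if (⟨i, h⟩ : {i // κ i}) = j₀ then 1 else 0) * w.2 (Sum.inr ⟨i, h⟩)) -
          (∑ u, e u * B u i * (w.1 (Sum.inl (Sum.inl u)) - w.1 (Sum.inr ⟨i, h⟩)) +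
            (if (⟨i, h⟩ : {i // κ i}) = j₀ then 1 else 0) * w.1 (Sum.inr ⟨i, h⟩))
        else -∑ u, s i * e u * B u i *
          (w.1 (Sum.inl (Sum.inl u)) - w.1 (Sum.inl (Sum.inr ⟨i, h⟩))) with hc
    have h5 : ∀ w ∈ 𝒲₁, (univ.filter fun α : prs ι → ZMod 3 => P α w).card *
        3 ^ (Fintype.card {i // ¬ κ i} + Fintype.card ι) ≤ Fintype.card (prs ι → ZMod 3) *
          (univ.filter fun ζ : {i // ¬ κ i} ⊕ ι → ZMod 3 =>
            ∀ α, ∑ i, ζ i * LJ κ s s (rs w.1) (rs w.2) α i = 0).card := by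
      intro w hw
      have h4 : (univ.filter fun α : prs ι → ZMod 3 => P α w) ⊆
          univ.filter fun α => LJ κ s s (rs w.1) (rs w.2) α = c w := by
        intro α hα
        rw [mem_filter] at hα ⊢
        obtain ⟨hw1, hw2, hw3⟩ := mem_JJ.1 hα.2
        refine ⟨mem_univ _, funext fun i => ?_⟩
        rcases i with q | i
        · show rl κ s (rs w.2) q α = -∑ u, s q * e' u * B u q *
            (w.2 (Sum.inl (Sum.inl u)) - w.2 (Sum.inl (Sum.inr q)))
          exact row_q e' A B α j₀ hs1 w.2 q (by rw [← hw2]; exact hw3 _ (hsqW q))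
        · show rl κ s (rs w.1) i α - (if κ i then (1 : ZMod 3) else 0) * rl κ s (rs w.2) i α = _
          by_cases hi : κ i
          · have h5 := LinearMap.congr_fun hw2 (Pi.single (Sum.inr (⟨i, hi⟩ : {i // κ i})) 1)
            rw [BO_j e A B α j₀ hs1, BO_j e' A B α j₀ hs1] at h5
            rw [if_pos hi, one_mul, hc]
            simp only [dif_pos hi]
            have h6 : ∀ a b c d : ZMod 3, a + b = c + d → b - d = c - a := by decide
            exact h6 _ _ _ _ h5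
          · rw [if_neg hi, zero_mul, sub_zero, hc]
            simp only [dif_neg hi]
            exact row_q e A B α j₀ hs1 w.1 ⟨i, hi⟩ (hw3 _ (hsqW ⟨i, hi⟩))
      refine (Nat.mul_le_mul_right _ (card_le_card h4)).trans ?_
      have h5 := fm (LJ κ s s (rs w.1) (rs w.2)) (c w)
      rw [Fintype.card_sum] at h5
      exact h5
    have h6 : (∑ w ∈ 𝒲₁, (univ.filter fun α : prs ι → ZMod 3 => P α w).card) *
        3 ^ (Fintype.card {i // ¬ κ i} + Fintype.card ι) ≤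
        Fintype.card (prs ι → ZMod 3) * (TS1 U s j₀).card := by
      rw [sum_mul]
      refine (sum_le_sum h5).trans ?_
      rw [← mul_sum]
      apply Nat.mul_le_mul_left
      rw [← card_sigma]
      refine card_le_card_of_injOn (fun t => (t.1.1, (t.1.2, t.2))) ?_ ?_
      · intro t ht
        rw [mem_coe, mem_sigma, h𝒲₁, mem_filter, h𝒲, mem_filter, mem_filter] at ht
        unfold TS1
        rw [mem_coe, mem_filter]
        exact ⟨mem_univ _, ht.1.1.2.1, ht.1.1.2.2.1, ht.1.1.2.2.2, (hQ _).1 ht.1.2, ht.2.2⟩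
      · rintro ⟨⟨x, y⟩, ζ⟩ _ ⟨⟨x', y'⟩, ζ'⟩ _ h
        simp only [Prod.mk.injEq] at h
        obtain ⟨rfl, rfl, rfl⟩ := h
        rfl
    have h7 := card_TS1 (U := U) hs1 j₀
    have h8 : (0 : ℕ) < 3 ^ (Fintype.card {i // ¬ κ i} + Fintype.card ι) := by positivity
    refine Nat.le_of_mul_le_mul_right ?_ h8
    calc _ ≤ _ := h6
      _ ≤ _ := Nat.mul_le_mul_left _ h7
      _ = _ := by
        rw [← card_QJ (κ := κ), show (9 : ℕ) = 3 * 3 by norm_num, mul_pow, mul_pow, pow_add, pow_add]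
        ring
  -- the second part
  have h5 : ∑ w ∈ 𝒲₂, (univ.filter fun α : prs ι → ZMod 3 => P α w).card ≤
      Fintype.card (prs ι → ZMod 3) * (6 * 9 ^ Fintype.card U * 3 ^ N₀) := by
    set 𝒲₃ := 𝒲₂.filter fun w => Dj e e' B j₀ w.1 w.2 with h𝒲₃
    have h6 : ∑ w ∈ 𝒲₂, (univ.filter fun α : prs ι → ZMod 3 => P α w).card =
        ∑ w ∈ 𝒲₃, (univ.filter fun α : prs ι → ZMod 3 => P α w).card := by
      rw [h𝒲₃, ← sum_filter_add_sum_filter_not 𝒲₂ (fun w => Dj e e' B j₀ w.1 w.2)]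
      refine Nat.add_eq_left.2 (sum_eq_zero fun w hw => ?_)
      rw [mem_filter, h𝒲₂, mem_filter, h𝒲, mem_filter] at hw
      obtain ⟨⟨⟨-, hw1, hw2, hw3⟩, hw4⟩, hw5⟩ := hw
      rw [hQ] at hw4
      push Not at hw4
      rw [card_eq_zero]
      refine filter_false_of_mem fun α _ hα => hw5 ?_
      obtain ⟨-, ha2, -⟩ := mem_JJ.1 hα
      intro j
      have h7 := LinearMap.congr_fun ha2 (Pi.single (Sum.inr j) 1)
      rw [BO_j e A B α j₀ hs1, BO_j e' A B α j₀ hs1] at h7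
      have h8 : rl κ s (rs w.2) j α = rl κ s (rs w.1) j α := by
        rw [rl_j s hs1, rl_j s hs1]
        refine sum_congr rfl fun q _ => ?_
        by_cases hq : s q = 0
        · simp only [hq, zero_mul]
        · have e1 : (w.1 - w.2) (Sum.inr j) = (w.1 - w.2) (Sum.inr j₀) := hw1 j j₀
          rw [Pi.sub_apply, Pi.sub_apply] at e1
          have e2 := hw4 q hq
          have e3 : w.2 (Sum.inr j) = w.1 (Sum.inr j) - kd j₀ w.1 w.2 := by
            unfold kd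
            rw [← e1]
            ring
          rw [e2, e3]
          ring
      rw [h8] at h7
      have h9 : ∀ a b c d : ZMod 3, a + b + c = d + b + c → a = d := by decide
      have h10 : ∀ a b c d f : ZMod 3, a + b + c = d + b + f → a + c = d + f := by decide
      first
        | exact h10 _ _ _ _ _ h7
        | linear_combination h7
    rw [h6]
    set c : V × V → {i // ¬ κ i} → ZMod 3 := fun w q =>
      -∑ u, s q * e u * B u q * (w.1 (Sum.inl (Sum.inl u)) - w.1 (Sum.inl (Sum.inr q))) with hc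
    set L : V × V → (prs ι → ZMod 3) →ₗ[ZMod 3] ({i // ¬ κ i} → ZMod 3) :=
      fun w => LinearMap.pi fun q => rl κ s (rs w.1) q with hL
    have h7 : ∀ w ∈ 𝒲₃, (univ.filter fun α : prs ι → ZMod 3 => P α w).card *
        3 ^ Fintype.card {i // ¬ κ i} ≤ Fintype.card (prs ι → ZMod 3) *
          (univ.filter fun ζ : {i // ¬ κ i} → ZMod 3 =>
            ∀ α, ∑ q : {i // ¬ κ i}, ζ q * rl κ s (rs w.1) q α = 0).card := by
      intro w hw
      have h7 : (univ.filter fun α : prs ι → ZMod 3 => P α w) ⊆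
          univ.filter fun α => L w α = c w := by
        intro α hα
        rw [mem_filter] at hα ⊢
        obtain ⟨-, -, ha3⟩ := mem_JJ.1 hα.2
        refine ⟨mem_univ _, funext fun q => ?_⟩
        exact row_q e A B α j₀ hs1 w.1 q (ha3 _ (hsqW q))
      refine ((Nat.mul_le_mul_right _ (card_le_card h7)).trans (fm (L w) (c w))).trans
        (Nat.mul_le_mul_left _ (card_le_card fun ζ hζ => ?_))
      rw [mem_filter] at hζ ⊢
      exact ⟨mem_univ _, fun α => hζ.2 α⟩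
    have h8 : (∑ w ∈ 𝒲₃, (univ.filter fun α : prs ι → ZMod 3 => P α w).card) *
        3 ^ Fintype.card {i // ¬ κ i} ≤
        Fintype.card (prs ι → ZMod 3) * (TS2 e e' s B j₀).card := by
      rw [sum_mul]
      refine (sum_le_sum h7).trans ?_
      rw [← mul_sum]
      apply Nat.mul_le_mul_left
      rw [← card_sigma]
      refine card_le_card_of_injOn (fun t => (t.1.1, (t.1.2, t.2))) ?_ ?_
      · intro t ht
        rw [mem_coe, mem_sigma, h𝒲₃, mem_filter, h𝒲₂, mem_filter, h𝒲, mem_filter, mem_filter] at ht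
        obtain ⟨⟨⟨⟨-, hw1, hw2, hw3⟩, hw4⟩, hw5⟩, -, hw6⟩ := ht
        rw [hQ] at hw4
        push Not at hw4
        unfold TS2
        rw [mem_coe, mem_filter]
        exact ⟨mem_univ _, hw1, hw2, hw3, hw4, hw5, hw6⟩
      · rintro ⟨⟨x, y⟩, ζ⟩ _ ⟨⟨x', y'⟩, ζ'⟩ _ h
        simp only [Prod.mk.injEq] at h
        obtain ⟨rfl, rfl, rfl⟩ := h
        rfl
    have h9 := card_TS2 (e := e) (e' := e') (B := B) hs1 j₀
    have h10 : (0 : ℕ) < 3 ^ Fintype.card {i // ¬ κ i} := by positivity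
    refine Nat.le_of_mul_le_mul_right ?_ h10
    calc _ ≤ _ := h8
      _ ≤ _ := Nat.mul_le_mul_left _ h9
      _ = _ := by ring
  rw [h3]
  calc _ ≤ _ := add_le_add h4 h5
    _ = _ := by ring

end c4

theorem c4K : ∃ K : ℕ, ∀ (U ι : Type) [Fintype U] [Fintype ι] [LinearOrder ι] (κ : ι → Prop)
    (e e' : U → ZMod 3) (s : ι → ZMod 3) (A : U → U → ZMod 3) (B : U → ι → ZMod 3)
    (j₀ : {i // κ i}), (∀ j, κ j → s j = 1) → ∀ d : ℕ,
    (univ.filter fun α : prs ι → ZMod 3 =>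
      ¬ finrank (ZMod 3) (JJ (BO κ e s A B j₀ α) (BO κ e' s A B j₀ α)
        (W0 (U ⊕ {i // ¬ κ i}) {i // κ i})) ≤ d).card * 3 ^ (d + 1) ≤
      Fintype.card (prs ι → ZMod 3) * (3 * K * 9 ^ Fintype.card U +
        6 * 9 ^ Fintype.card U *
          3 ^ (univ.filter fun j : {i // κ i} => ∑ u, (e u - e' u) * B u j = 0).card) :=
  ⟨KC, fun _ _ _ _ _ _ _ _ _ _ _ _ h1 d => c4 h1 d⟩

end Run7.h707.TF
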