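import Pool.Agent.Run7.h707.TF.LAC
import Pool.Agent.Run7.h707.TF.Bad
import Pool.Agent.Run7.h707.TD.Box

/-! The count in a box for tuples of sets of primes, with fixed sets of primes -/

set_option autoImplicit false
set_option linter.unusedSectionVars false

open scoped Classical

namespace Run7.h707.TF

open Finset Module
open Pool.Agent.Y692.QS (Ei)
open Pool.Agent.Y715.T.Rec (cs)
open Pool.Agent.Y715.T.RecG (Pq)
open Pool.Agent.Y699.E (ez)
open Pool.Agent.Y703.XK (prs HB S_EQ)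
open Pool.Agent.Y688.XK (lb cs_symm HB_sub ez0 ez0_coe)
open Pool.Agent.R419.KF (wt wt_one wt_ne)
open Pool.Agent.N883.FF (nq NdB)
open Q283.T3 (KS Sk mem_Sk_inl mem_Sk_inr mem_prs ext_symm fcc2 gi cf)
open Run7.h707.TC
open Run7.h707.TD (Sw finrank_co' mem_Sw_inl mem_Sw_inr)

section ap
variable {m q : ℕ}

theorem tt_append (S : Fin m → Finset Ei) (Sb : Fin q → Finset Ei) :
    Tt (Fin.append S Sb) = Tt S ∪ Tt Sb := by
  ext π
  rw [mem_union, mem_Tt, mem_Tt, mem_Tt]
  constructor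
  · rintro ⟨k, hk⟩
    induction k using Fin.addCases with
    | left k => exact Or.inl ⟨k, by rwa [Fin.append_left] at hk⟩
    | right k => exact Or.inr ⟨k, by rwa [Fin.append_right] at hk⟩
  · rintro (⟨k, hk⟩ | ⟨k, hk⟩)
    · exact ⟨Fin.castAdd q k, by rwa [Fin.append_left]⟩
    · exact ⟨Fin.natAdd m k, by rwa [Fin.append_right]⟩

theorem fill_append {ι : Type} [Fintype ι] (col : ι → Fin m) (S₀ : Fin m → Finset Ei)
    (Sb : Fin q → Finset Ei) (p : ι → Ei) :
    fill (fun i => Fin.castAdd q (col i)) (Fin.append S₀ Sb) p = Fin.append (fill col S₀ p) Sb := by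
  funext k
  induction k using Fin.addCases with
  | left k =>
    rw [Fin.append_left]
    unfold fill
    rw [Fin.append_left]
    congr 2
    ext i
    simp only [mem_filter, mem_univ, true_and]
    exact (Fin.castAdd_injective m q).eq_iff
  | right k =>
    rw [Fin.append_right]
    unfold fill
    rw [Fin.append_right]
    have : (univ.filter fun i => Fin.castAdd q (col i) = Fin.natAdd m k) = ∅ := by
      refine filter_false_of_mem fun i _ h => ?_
      have h1 := congrArg Fin.val h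
      have h2 := (col i).2
      simp only [Fin.val_castAdd, Fin.val_natAdd] at h1
      omega
    rw [this, image_empty, union_empty]

theorem ee_append (M : Fin m → Finset Ei) (Mb : Fin q → Finset Ei) (S : Fin m → Finset Ei)
    (Sb : Fin q → Finset Ei) (σ : Fin (m + q) → ZMod 3) (u : Ei) :
    ee (Fin.append M Mb) σ (Fin.append S Sb) u = ee M (fun k => σ (Fin.castAdd q k)) S u +
      ee Mb (fun j => σ (Fin.natAdd m j)) Sb u := by
  unfold ee
  rw [Fin.sum_univ_add]
  simp only [Fin.append_left, Fin.append_right]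

end ap

/-- the good labels -/
def LNS {m : ℕ} {ι : Type} [Fintype ι] (col : ι → Fin m) (k₀ : Fin m) (R : ℕ) (T : Finset Ei)
    (β : ι → T → ZMod 3) (γ : ι → ZMod 3) : Prop :=
  ∀ w : Option T → ZMod 3, w ≠ 0 → 2 * (T.card + 1) + R ≤
    (univ.filter fun i => col i = k₀ ∧ ∑ u, w u * BO' T β γ u i ≠ 0).card

theorem sum_BO {ι : Type} {T : Finset Ei} (p : ι → Ei) (w : Option T → ZMod 3) (v : Ei → ZMod 3)
    (hv : ∀ u : T, v u = w (some u)) (i : ι) :
    ∑ u ∈ T, v u * cs u (p i) + w none * nq (p i) =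
      ∑ a, w a * BO' T (fun i => lb T (p i)) (fun i => nq (p i)) a i := by
  rw [Fintype.sum_option, add_comm, ← Finset.sum_coe_sort T]
  congr 1
  refine Finset.sum_congr rfl fun u _ => ?_
  rw [hv]
  rfl

theorem card_im {ι : Type} [Fintype ι] {p : ι → Ei} (hp : Function.Injective p)
    (P : ι → Prop) (Q : Ei → Prop) [DecidablePred P] [DecidablePred Q] [DecidableEq Ei]
    [DecidablePred fun i => P i ∧ Q (p i)] :
    (((univ.filter fun i => P i).image p).filter Q).card =
      (univ.filter fun i => P i ∧ Q (p i)).card := by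
  have h : ((univ.filter fun i => P i).image p).filter Q =
      (univ.filter fun i => P i ∧ Q (p i)).image p := by
    ext x
    simp only [mem_filter, mem_image, mem_univ, true_and]
    constructor
    · rintro ⟨⟨i, hi, rfl⟩, h⟩
      exact ⟨i, ⟨hi, h⟩, rfl⟩
    · rintro ⟨i, ⟨hi, h⟩, rfl⟩
      exact ⟨⟨i, hi, rfl⟩, h⟩
  rw [h, card_image_of_injective _ hp]

theorem ndS_iff {m : ℕ} {ι : Type} [Fintype ι] {col : ι → Fin m} {k₀ : Fin m} {R : ℕ}
    {T : Finset Ei} {p : ι → Ei} (hp : Function.Injective p) :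
    NdS R T ((univ.filter fun i => col i = k₀).image p) ↔
    LNS col k₀ R T (fun i => lb T (p i)) (fun i => nq (p i)) := by
  unfold NdS LNS
  constructor
  · intro h w hw
    have h1 := h (ez0 fun u => w (some u)) (w none) (by
      obtain ⟨a, ha⟩ := Function.ne_iff.1 hw
      cases a with
      | none => exact Or.inr ha
      | some u => exact Or.inl ⟨u, u.2, by rw [ez0_coe]; exact ha⟩)
    rw [card_im hp (fun i => col i = k₀) (fun π => ∑ u ∈ T, ez0 (fun u => w (some u)) u * cs u π +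
      w none * nq π ≠ 0)] at h1
    refine h1.trans (card_le_card fun i hi => ?_)
    rw [mem_filter] at hi ⊢
    refine ⟨hi.1, hi.2.1, ?_⟩
    rw [← sum_BO p w (ez0 fun u => w (some u)) (fun u => ez0_coe _ u)]
    exact hi.2.2
  · intro h v t hvt
    obtain ⟨w, hw1, hw2⟩ : ∃ w : Option T → ZMod 3, w none = t ∧ ∀ u : T, w (some u) = v u :=
      ⟨fun a => match a with
        | none => t
        | some u => v u, rfl, fun _ => rfl⟩
    have h1 := h w (by
      rcases hvt with ⟨u, hu0, hu⟩ | ht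
      · exact Function.ne_iff.2 ⟨some ⟨u, hu0⟩, by rw [hw2]; exact hu⟩
      · exact Function.ne_iff.2 ⟨none, by rw [hw1]; exact ht⟩)
    rw [card_im hp (fun i => col i = k₀) (fun π => ∑ u ∈ T, v u * cs u π + t * nq π ≠ 0)]
    refine h1.trans (card_le_card fun i hi => ?_)
    rw [mem_filter] at hi ⊢
    refine ⟨hi.1, hi.2.1, ?_⟩
    have h2 := sum_BO p w v (fun u => (hw2 u).symm) i
    rw [hw1] at h2
    rw [h2]
    exact hi.2.2

/-- the statement for the boxes, with fixed primes and a general property -/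
def BXN {m : ℕ} (P₀ : Finset Ei) (Nc : Finset Ei → Finset Ei → Prop)
    (G : (Fin m → Finset Ei) → Prop) (M : Fin m → Finset Ei) (R : ℕ) (c δ : ℝ) : Prop :=
  ∀ (ι : Type) [Fintype ι] [LinearOrder ι] (col : ι → Fin m) (C : ι → Finset Ei) (X : ι → ℕ)
  (κ : ℝ) (S₀ : Fin m → Finset Ei), 0 ≤ κ → (∀ i, (C i).card ≤ X i) → HB C X κ →
  (∀ k, ∀ u ∈ S₀ k, Pq u) → (∀ k, M k ⊆ S₀ k) →
  (∀ i, ∀ π ∈ C i, Pq π ∧ (∀ k, π ∉ S₀ k) ∧ π ∉ P₀) →
  (∀ i l, i ≠ l → Disjoint (C i) (C l)) → (∀ i, ∀ π ∈ C i, ∀ ρ ∈ C i, nq π = nq ρ) →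
  (∀ k, 4 * ((Tt S₀).card + 1) + R + 1 ≤ (univ.filter fun i => col i = k).card) →
  |(((Fintype.piFinset C).filter fun p =>
      (∀ k, Nc (Tt S₀ ∪ P₀) ((univ.filter fun i => col i = k).image p)) ∧
        G (fill col S₀ p)).card : ℝ) -
      c * (((Fintype.piFinset C).filter fun p =>
        (∀ k, Nc (Tt S₀ ∪ P₀) ((univ.filter fun i => col i = k).image p))).card : ℝ)| ≤
    δ * (((Fintype.piFinset C).filter fun p =>
        (∀ k, Nc (Tt S₀ ∪ P₀) ((univ.filter fun i => col i = k).image p))).card : ℝ) +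
    3 ^ (((Tt S₀).card + P₀.card) * Fintype.card ι + (prs ι).card) * (κ * ∏ j, (X j : ℝ))

/-- **The count in a box.** -/
theorem t_BXF (hEQ : S_EQ) {m q Mt : ℕ} (s : Fin Mt → Fin (m + q) → ZMod 3) (ld : Fin Mt → Fin m)
    (hs : ∀ t, s t (Fin.castAdd q (ld t)) ≠ 0) (hs0 : ∀ t k, k < ld t → s t (Fin.castAdd q k) = 0)
    (Mb Sb : Fin q → Finset Ei) (hMb : ∀ j, Mb j ⊆ Sb j) (hSb : ∀ j, ∀ u ∈ Sb j, Pq u)
    (y : Fin Mt → ZMod 3)
    (hsep : ∀ t t', t ≠ t' → ld t = ld t' →
      (∃ k, s t (Fin.castAdd q k) * s t (Fin.castAdd q (ld t)) ≠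
        s t' (Fin.castAdd q k) * s t' (Fin.castAdd q (ld t'))) ∨
      (∃ u ∈ Tt Sb, ee Mb (fun j => s t (Fin.natAdd m j)) Sb u * s t (Fin.castAdd q (ld t)) ≠
        ee Mb (fun j => s t' (Fin.natAdd m j)) Sb u * s t' (Fin.castAdd q (ld t'))) ∨
      y t * s t (Fin.castAdd q (ld t)) ≠ y t' * s t' (Fin.castAdd q (ld t')))
    (r : Fin Mt → ℕ) (δ : ℝ) (hδ : 0 < δ) : ∃ R : ℕ,
    ∀ (M : Fin m → Finset Ei), BXN (Tt Sb) (NdS R)
      (fun S => GT (Fin.append M Mb) s y r (Fin.append S Sb)) M (R + 4 * (Tt Sb).card)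
      (∏ t, gi * cf (r t)) δ := by
  obtain ⟨R, hR⟩ := t_LACV m Mt r δ hδ
  refine ⟨R, ?_⟩
  intro M ι _ _ col C X κ S₁ hκ hCX hHB hS₁ hM₁ hC₁ hdis hnq hcard
  have hcol : ∀ k, ∃ i, col i = k := by
    intro k
    have h1 := hcard k
    have h2 : 0 < (univ.filter fun i => col i = k).card := by omega
    obtain ⟨i, hi⟩ := card_pos.1 h2
    exact ⟨i, (mem_filter.1 hi).2⟩
  -- all the colors
  obtain ⟨S₀, hS₀e⟩ : ∃ S₀ : Fin (m + q) → Finset Ei, S₀ = Fin.append S₁ Sb := ⟨_, rfl⟩
  obtain ⟨M', hM'e⟩ : ∃ M' : Fin (m + q) → Finset Ei, M' = Fin.append M Mb := ⟨_, rfl⟩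
  have hTe : Tt S₀ = Tt S₁ ∪ Tt Sb := by rw [hS₀e, tt_append]
  have hTc : (Tt S₀).card ≤ (Tt S₁).card + (Tt Sb).card := by
    rw [hTe]
    exact card_union_le _ _
  have hS₀ : ∀ k, ∀ u ∈ S₀ k, Pq u := by
    intro k
    rw [hS₀e]
    induction k using Fin.addCases with
    | left k => rw [Fin.append_left]; exact hS₁ k
    | right k => rw [Fin.append_right]; exact hSb k
  have hM : ∀ k, M' k ⊆ S₀ k := by
    intro k
    rw [hS₀e, hM'e]
    induction k using Fin.addCases with
    | left k => rw [Fin.append_left, Fin.append_left]; exact hM₁ k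
    | right k => rw [Fin.append_right, Fin.append_right]; exact hMb k
  have hC : ∀ i, ∀ π ∈ C i, Pq π ∧ ∀ k, π ∉ S₀ k := by
    intro i π hπ
    obtain ⟨h1, h2, h3⟩ := hC₁ i π hπ
    refine ⟨h1, fun k hk => ?_⟩
    have h4 : π ∈ Tt S₀ := mem_Tt.2 ⟨k, hk⟩
    rw [hTe, mem_union] at h4
    rcases h4 with h4 | h4
    · obtain ⟨l, hl⟩ := mem_Tt.1 h4
      exact h2 l hl
    · exact h3 h4
  have hfill : ∀ p : ι → Ei, Fin.append (fill col S₁ p) Sb =
      fill (fun i => Fin.castAdd q (col i)) S₀ p := fun p => by rw [hS₀e, fill_append]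
  rw [← hTe, ← hM'e]
  simp only [hfill]
  obtain ⟨c, hc⟩ : ∃ c : ℝ, c = ∏ k, gi * cf (r k) := ⟨_, rfl⟩
  obtain ⟨E, hE⟩ : ∃ E : ℝ, E = 3 ^ (prs ι).card * (κ * ∏ j, (X j : ℝ)) := ⟨_, rfl⟩
  have hE0 : 0 ≤ E := by
    rw [hE]
    exact mul_nonneg (by positivity)
      (mul_nonneg hκ (Finset.prod_nonneg fun j _ => by positivity))
  have hU : ∀ u ∈ Tt S₀, Pq u := fun u hu => by
    obtain ⟨k, hk⟩ := mem_Tt.1 hu
    exact hS₀ k u hk
  -- the labels at `ω`
  obtain ⟨γ, hγ⟩ : ∃ γ : ι → ZMod 3, ∀ k, ∀ π ∈ C k, nq π = γ k :=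
    ⟨fun k => if h : (C k).Nonempty then nq h.choose else 0, fun k π hπ => by
      have h : (C k).Nonempty := ⟨π, hπ⟩
      show nq π = if h : (C k).Nonempty then nq h.choose else 0
      rw [dif_pos h]
      exact hnq k π hπ _ h.choose_spec⟩
  have hγp : ∀ p ∈ Fintype.piFinset C, (fun k => nq (p k)) = γ := by
    intro p hp
    rw [Fintype.mem_piFinset] at hp
    exact funext fun k => hγ k _ (hp k)
  -- facts on tuples
  have hinj : ∀ p ∈ Fintype.piFinset C, Function.Injective p := by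
    intro p hp i j hij
    rw [Fintype.mem_piFinset] at hp
    by_contra hne
    have h1 := Finset.disjoint_left.1 (hdis i j hne) (hp i)
    rw [hij] at h1
    exact h1 (hp j)
  have hd : ∀ p ∈ Fintype.piFinset C, ∀ i k, p i ∉ S₀ k := by
    intro p hp i
    rw [Fintype.mem_piFinset] at hp
    exact (hC i _ (hp i)).2
  have hpr : ∀ p ∈ Fintype.piFinset C, ∀ i, Pq (p i) := by
    intro p hp i
    rw [Fintype.mem_piFinset] at hp
    exact (hC i _ (hp i)).1
  have hs1 : ∀ t, s t (Fin.castAdd q (ld t)) * s t (Fin.castAdd q (ld t)) = 1 :=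
    fun t => eq_one_of_ne (hs t)
  -- the part with given labels
  have h1 : ∀ β : ι → ↥(Tt S₀) → ZMod 3, (∀ k, LNS col k R (Tt S₀) β γ) →
      |(((Fintype.piFinset C).filter fun p => (fun i => lb (Tt S₀) (p i)) = β ∧
          GT M' s y r (fill (fun i => Fin.castAdd q (col i)) S₀ p)).card : ℝ) -
        c * (((Fintype.piFinset C).filter fun p => (fun i => lb (Tt S₀) (p i)) = β).card : ℝ)| ≤
      δ * (((Fintype.piFinset C).filter fun p => (fun i => lb (Tt S₀) (p i)) = β).card : ℝ) +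
        E := by
    intro β hβ
    obtain ⟨C', hC'⟩ : ∃ C' : ι → Finset Ei, C' = fun i => (C i).filter fun q =>
      lb (Tt S₀) q = β i := ⟨_, rfl⟩
    have hpi : (Fintype.piFinset C).filter (fun p => (fun i => lb (Tt S₀) (p i)) = β) =
        Fintype.piFinset C' := by
      ext p
      simp only [Finset.mem_filter, Fintype.mem_piFinset, hC']
      constructor
      · rintro ⟨h2, h3⟩ i
        exact ⟨h2 i, congrFun h3 i⟩
      · intro h2
        exact ⟨fun i => (h2 i).1, funext fun i => (h2 i).2⟩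
    have h2 := hR (Option ↥(Tt S₀)) ι col ld
      (fun t a => wO (Tt S₀) (ee M' (s t) S₀) (y t) a * s t (Fin.castAdd q (ld t)))
      (fun t i => s t (Fin.castAdd q (col i)) * s t (Fin.castAdd q (ld t))) (AO (Tt S₀))
      (BO' (Tt S₀) β γ) (AO_symm hU)
      (fun t j hj => by rw [hj]; exact hs1 t) (fun t j hj => by rw [hs0 t _ hj, zero_mul])
      (fun k w hw => by
        have h5 := hβ k w hw
        have h6 : 0 < (univ.filter fun i => col i = k ∧
            ∑ u, w u * BO' (Tt S₀) β γ u i ≠ 0).card := by omega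
        obtain ⟨i, hi⟩ := card_pos.1 h6
        exact ⟨i, (mem_filter.1 hi).2⟩)
      (fun k => by
        rw [Fintype.card_option, Fintype.card_coe, Fintype.card_subtype]
        refine le_trans ?_ (hcard k)
        omega)
      (fun t t' htt hl => by
        by_cases hk : ∃ k, s t (Fin.castAdd q k) * s t (Fin.castAdd q (ld t)) ≠
            s t' (Fin.castAdd q k) * s t' (Fin.castAdd q (ld t'))
        · left
          obtain ⟨k, hk⟩ := hk
          obtain ⟨i, hi⟩ := hcol k
          refine ⟨i, fun h => hk ?_, ?_⟩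
          · rw [← hi, h, hs1, hl, hs1]
          · show s t (Fin.castAdd q (col i)) * s t (Fin.castAdd q (ld t)) ≠
              s t' (Fin.castAdd q (col i)) * s t' (Fin.castAdd q (ld t'))
            rw [hi]
            exact hk
        · right
          have h5 := (hsep t t' htt hl).resolve_left hk
          push Not at hk
          refine ⟨funext fun i => hk _, ?_⟩
          rw [Fintype.card_option, Fintype.card_coe]
          refine hβ (ld t) (fun a => wO (Tt S₀) (ee M' (s t) S₀) (y t) a *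
            s t (Fin.castAdd q (ld t)) - wO (Tt S₀) (ee M' (s t') S₀) (y t') a *
            s t' (Fin.castAdd q (ld t'))) ?_
          rcases h5 with ⟨u, hu, h5⟩ | h5
          · have hu' : u ∈ Tt S₀ := by
              rw [hTe]
              exact mem_union_right _ hu
            refine Function.ne_iff.2 ⟨some ⟨u, hu'⟩, fun h0 => h5 ?_⟩
            have h6 : ee M' (s t) S₀ u * s t (Fin.castAdd q (ld t)) -
                ee M' (s t') S₀ u * s t' (Fin.castAdd q (ld t')) = 0 := h0
            rw [hM'e, hS₀e, ee_append, ee_append] at h6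
            have h7 : ee M (fun k => s t (Fin.castAdd q k)) S₁ u * s t (Fin.castAdd q (ld t)) =
                ee M (fun k => s t' (Fin.castAdd q k)) S₁ u * s t' (Fin.castAdd q (ld t')) := by
              unfold ee
              rw [sum_mul, sum_mul]
              refine sum_congr rfl fun k _ => ?_
              linear_combination (if u ∈ S₁ k then wt (M k) u else 0) * hk k
            linear_combination h6 - h7
          · refine Function.ne_iff.2 ⟨none, fun h0 => h5 (sub_eq_zero.1 h0)⟩)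
    obtain ⟨Q, hQ⟩ : ∃ Q : (prs ι → ZMod 3) → Prop, Q = fun α =>
        ∀ t, finrank (ZMod 3) (KS (cw (fun a => wO (Tt S₀) (ee M' (s t) S₀) (y t) a *
            s t (Fin.castAdd q (ld t)))
          (fun i => s t (Fin.castAdd q (col i)) * s t (Fin.castAdd q (ld t))) (AO (Tt S₀))
          (BO' (Tt S₀) β γ) (Pool.Agent.Y703.XK.ext α))
          (Sw (fun a => wO (Tt S₀) (ee M' (s t) S₀) (y t) a * s t (Fin.castAdd q (ld t)))
            (fun i => s t (Fin.castAdd q (col i)) * s t (Fin.castAdd q (ld t))))) = r t + 1 :=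
      ⟨_, rfl⟩
    have h3 := hEQ ι C' X κ hκ
      (fun i => (Finset.card_le_card (by rw [hC']; exact Finset.filter_subset _ _)).trans (hCX i))
      (by rw [hC']; exact HB_sub hHB fun i q => lb (Tt S₀) q = β i) Q
    have h4 : ((Fintype.piFinset C).filter fun p => (fun i => lb (Tt S₀) (p i)) = β ∧
        GT M' s y r (fill (fun i => Fin.castAdd q (col i)) S₀ p)) =
        ((Fintype.piFinset C').filter fun p => Q fun e => cs (p e.1.1) (p e.1.2)) := by
      rw [← hpi, Finset.filter_filter]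
      refine Finset.filter_congr fun p hp => ?_
      refine and_congr_right fun hl => ?_
      have hl2 := hγp p hp
      subst hl
      rw [hQ]
      unfold GT
      refine forall_congr' fun t => ?_
      rw [finrank_co' (col := fun i => Fin.castAdd q (col i)) (hinj p hp) (hd p hp) (hpr p hp) hS₀
        hM (Fin.castAdd q (ld t)) (hs t) (y t), hl2]
    have h5 : (((Fintype.piFinset C').card : ℕ) : ℝ) = ∏ j, ((C' j).card : ℝ) := by
      rw [Fintype.card_piFinset]
      push_cast
      rfl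
    rw [h4, hpi, h5]
    rw [← hE] at h3
    obtain ⟨n, hn⟩ : ∃ n : ℝ, n = (((Fintype.piFinset C').filter fun p =>
          Q fun e => cs (p e.1.1) (p e.1.2)).card : ℝ) := ⟨_, rfl⟩
    obtain ⟨q', hq⟩ : ∃ q : ℝ, q = ((univ.filter Q).card : ℝ) / 3 ^ (prs ι).card := ⟨_, rfl⟩
    obtain ⟨P, hP⟩ : ∃ P : ℝ, P = ∏ j, ((C' j).card : ℝ) := ⟨_, rfl⟩
    have hP0 : 0 ≤ P := by
      rw [hP]
      exact Finset.prod_nonneg fun j _ => by positivity
    have h2' : |q' - c| ≤ δ := by
      rw [hq, hQ, hc]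
      refine le_trans (le_of_eq ?_) h2
      rw [fcc2]
    rw [← hn, ← hq, ← hP] at h3
    rw [← hn, ← hP]
    have h6 : |n - c * P| ≤ |n - q' * P| + |q' - c| * P := by
      have h7 : n - c * P = (n - q' * P) + (q' - c) * P := by ring
      have h8 : |(q' - c) * P| = |q' - c| * P := by rw [abs_mul, abs_of_nonneg hP0]
      rw [h7, ← h8]
      exact abs_add_le _ _
    have h7 : |q' - c| * P ≤ δ * P := mul_le_mul_of_nonneg_right h2' hP0
    linarith
  -- sum over the labels
  obtain ⟨LL, hLL⟩ : ∃ LL : Finset (ι → ↥(Tt S₀) → ZMod 3),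
    LL = univ.filter (fun β => ∀ k, LNS col k R (Tt S₀) β γ) := ⟨_, rfl⟩
  have hnd : ∀ p ∈ Fintype.piFinset C,
      ((∀ k, NdS R (Tt S₀) ((univ.filter fun i => col i = k).image p)) ↔
        ∀ k, LNS col k R (Tt S₀) (fun i => lb (Tt S₀) (p i)) γ) := by
    intro p hp
    refine forall_congr' fun k => ?_
    rw [ndS_iff (hinj p hp), hγp p hp]
  have hfib : ∀ T : (ι → Ei) → Prop,
      (((Fintype.piFinset C).filter fun p =>
        (∀ k, NdS R (Tt S₀) ((univ.filter fun i => col i = k).image p)) ∧ T p).card : ℝ) =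
      ∑ β ∈ LL, (((Fintype.piFinset C).filter fun p =>
        (fun i => lb (Tt S₀) (p i)) = β ∧ T p).card : ℝ) := by
    intro T
    rw [Finset.card_eq_sum_card_fiberwise (f := fun (p : ι → Ei) (i : ι) => lb (Tt S₀) (p i))
      (t := LL) (by
        intro p hp
        rw [Finset.mem_coe, Finset.mem_filter] at hp
        rw [Finset.mem_coe, hLL, Finset.mem_filter]
        exact ⟨Finset.mem_univ _, (hnd p hp.1).1 hp.2.1⟩)]
    push_cast
    refine Finset.sum_congr rfl fun β hβ => ?_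
    rw [hLL, Finset.mem_filter] at hβ
    congr 2
    ext p
    simp only [Finset.mem_filter]
    constructor
    · rintro ⟨⟨h3, h4, h4'⟩, h5⟩
      exact ⟨h3, h5, h4'⟩
    · rintro ⟨h3, h4, h5⟩
      refine ⟨⟨h3, ?_, h5⟩, h4⟩
      rw [hnd p h3, h4]
      exact hβ.2
  have hf1 := hfib fun p => GT M' s y r (fill (fun i => Fin.castAdd q (col i)) S₀ p)
  have hf2 := hfib fun _ => True
  simp only [and_true] at hf2
  rw [hf1, hf2, Finset.mul_sum, ← Finset.sum_sub_distrib, ← hc]
  refine (Finset.abs_sum_le_sum_abs _ _).trans ?_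
  refine (Finset.sum_le_sum fun β hβ => h1 β (by
    rw [hLL] at hβ
    exact (Finset.mem_filter.1 hβ).2)).trans ?_
  rw [Finset.sum_add_distrib, ← Finset.mul_sum, Finset.sum_const, nsmul_eq_mul]
  have h5 : ((LL.card : ℕ) : ℝ) ≤ 3 ^ (((Tt S₁).card + (Tt Sb).card) * Fintype.card ι) := by
    have h6 : LL.card ≤ Fintype.card (ι → ↥(Tt S₀) → ZMod 3) :=
      Finset.card_le_univ _
    rw [Fintype.card_fun, Fintype.card_fun, ZMod.card, Fintype.card_coe, ← pow_mul] at h6
    have h7 : (LL.card : ℝ) ≤ 3 ^ ((Tt S₀).card * Fintype.card ι) := by exact_mod_cast h6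
    refine h7.trans (pow_le_pow_right₀ (by norm_num) (Nat.mul_le_mul_right _ hTc))
  have h6 := mul_le_mul_of_nonneg_right h5 hE0
  rw [pow_add, mul_assoc, ← hE]
  linarith

end Run7.h707.TF
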