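import Pool.Agent.Run7.h707.TF.LawA
import Pool.Agent.Run7.h707.TE.Gen

/-! The classes over the ring of integers -/

set_option autoImplicit false
set_option linter.unusedVariables false
set_option linter.unusedSectionVars false

open scoped Classical

namespace Run7.h707.TF

open Finset Filter NumberField
open Pool.Agent.Y692.QS (Ei w nr)
open Pool.Agent.Y699.E (prm)
open Pool.Agent.Y703.XK (c9)
open Pool.Agent.Y696.CTK (Tri)
open Pool.Agent.N883.FF (nq ClP w_pow_inj isUnit_w nr_w_mul)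
open Run7.h707.TC (dlt UC NEc FamU FamO ExO famO_iff exO_iff)
open Run7.h707.TD
open Run7.h707.TE (dO UO AllO bp)

section
variable {K : Type} [Field K] [NumberField K]

theorem isCl_ex (j : Ei ≃+* 𝓞 K) (hj : ∀ z : Ei, Algebra.norm ℤ (j z) = nr z) {x : 𝓞 K}
    (hx : FamO x) : ∃ c, IsCl (j w) x c := by
  obtain ⟨z, rfl⟩ := j.surjective x
  have h1 : FamU z := (famO_iff j z).1 hx
  obtain ⟨p, hp, hpz⟩ := (famU_ew (X := (nr z).toNat)).1 ⟨Int.self_le_toNat _, h1⟩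
  have h2 : prm p.2 := ((mem_CF'.1 (mem_product.1 hp).2).2).1
  refine ⟨cls p, ?_⟩
  rw [← hpz]
  exact (isCl_iff j hj p.1 h2 _).2 rfl

theorem isCl_unique (j : Ei ≃+* 𝓞 K) (hj : ∀ z : Ei, Algebra.norm ℤ (j z) = nr z) {x : 𝓞 K}
    {c d : ZMod 3 × ZMod 3} (hc : IsCl (j w) x c) (hd : IsCl (j w) x d) : c = d := by
  obtain ⟨q, h1, h2, h3⟩ := hc
  obtain ⟨q, rfl⟩ := j.surjective q
  have h5 : prm q := by
    rw [← map_one j, ← map_sub, ← map_ofNat j 3, map_dvd_iff j] at h2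
    exact h2
  rw [← map_pow, ← map_mul] at h1
  have h4 : IsCl (j w) x c := ⟨j q, by rw [h1, map_mul, map_pow], h2, h3⟩
  rw [h1] at hd h4
  rw [(isCl_iff j hj _ h5 _).1 h4, (isCl_iff j hj _ h5 _).1 hd]

theorem z3v (a b : ZMod 3) : ∃ k : ℤ, ((a + b).val : ℤ) = a.val + b.val + 3 * k := by
  have : ∀ a b : ZMod 3, (a + b).val = a.val + b.val ∨ (a + b).val + 3 = a.val + b.val := by
    decide
  rcases this a b with h | h
  · exact ⟨0, by rw [h]; push_cast; ring⟩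
  · refine ⟨-1, ?_⟩
    have h2 : (((a + b).val + 3 : ℕ) : ℤ) = ((a.val + b.val : ℕ) : ℤ) := congrArg _ h
    push_cast at h2
    linarith

theorem isCl_mul {ω : 𝓞 K} (hω : ω ^ 3 = 1) {x y : 𝓞 K} {c d : ZMod 3 × ZMod 3}
    (hx : IsCl ω x c) (hy : IsCl ω y d) : IsCl ω (x * y) (c + d) := by
  obtain ⟨p, h1, h2, h3⟩ := hx
  obtain ⟨q, k1, k2, k3⟩ := hy
  refine ⟨p * q, ?_, ?_, ?_⟩
  · have h4 : ω ^ (c.1 + d.1).val = ω ^ c.1.val * ω ^ d.1.val := by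
      rw [← pow_add]
      have : ∀ a b : ZMod 3, (a + b).val = (a.val + b.val) % 3 := by decide
      rw [this]
      conv_rhs => rw [← Nat.mod_add_div (c.1.val + d.1.val) 3, pow_add, pow_mul, hω, one_pow, mul_one]
    rw [h1, k1, Prod.fst_add, h4]
    ring
  · have e : p * q - 1 = (p - 1) * q + (q - 1) := by ring
    rw [e]
    exact dvd_add (h2.mul_right _) k2
  · rw [map_mul]
    obtain ⟨a, ha⟩ := h3
    obtain ⟨b, hb⟩ := k3
    obtain ⟨k, hk⟩ := z3v c.2 d.2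
    have ea : Algebra.norm ℤ p = 1 + 3 * c.2.val + 9 * a := by linarith
    have eb : Algebra.norm ℤ q = 1 + 3 * d.2.val + 9 * b := by linarith
    rw [Prod.snd_add, hk, ea, eb]
    exact ⟨a + b + c.2.val * d.2.val + 3 * a * d.2.val + 3 * b * c.2.val + 9 * a * b - k, by ring⟩

theorem isCl_one {ω : 𝓞 K} : IsCl ω 1 0 := by
  refine ⟨1, ?_, ?_, ?_⟩
  · simp
  · simp
  · simp

theorem isCl_pow {ω : 𝓞 K} (hω : ω ^ 3 = 1) {x : 𝓞 K} {c : ZMod 3 × ZMod 3}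
    (hx : IsCl ω x c) (n : ℕ) : IsCl ω (x ^ n) (n • c) := by
  induction n with
  | zero => rw [pow_zero, zero_smul]; exact isCl_one
  | succ n ih => rw [pow_succ, succ_nsmul]; exact isCl_mul hω ih hx

theorem isCl_prod {ω : 𝓞 K} (hω : ω ^ 3 = 1) {B : Type} (s : Finset B) {x : B → 𝓞 K}
    {c : B → ZMod 3 × ZMod 3} (hx : ∀ i, IsCl ω (x i) (c i)) : IsCl ω (∏ i ∈ s, x i) (∑ i ∈ s, c i) := by
  induction s using Finset.cons_induction with
  | empty => rw [prod_empty, sum_empty]; exact isCl_one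
  | cons a s ha ih => rw [prod_cons, sum_cons]; exact isCl_mul hω (hx a) ih

theorem isCl_dO {ω : 𝓞 K} (hω : ω ^ 3 = 1) {B : Type} [Fintype B] (l : B → ℕ) {x : B → 𝓞 K}
    {c : B → ZMod 3 × ZMod 3} (hx : ∀ i, IsCl ω (x i) (c i)) :
    IsCl ω (dO l x) (∑ i, l i • c i) :=
  isCl_prod hω _ fun i => isCl_pow hω (hx i) _

theorem isCl_bp {ω : 𝓞 K} (hω : ω ^ 3 = 1) {r : ℕ} {x : Fin r → 𝓞 K}
    {c : Fin r → ZMod 3 × ZMod 3} (hx : ∀ i, IsCl ω (x i) (c i)) (ν : Fin r → ZMod 3) :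
    IsCl ω (bp x ν) (∑ i, (ν i).val • c i) :=
  isCl_prod hω _ fun i => isCl_pow hω (hx i) _

theorem isCl_zero {ω x : 𝓞 K} : IsCl ω x 0 ↔ (3 : 𝓞 K) ∣ x - 1 ∧ (9 : ℤ) ∣ Algebra.norm ℤ x - 1 := by
  unfold IsCl
  simp only [Prod.fst_zero, Prod.snd_zero, ZMod.val_zero, pow_zero, one_mul, Nat.cast_zero,
    mul_zero, add_zero]
  constructor
  · rintro ⟨p, rfl, h⟩
    exact h
  · intro h
    exact ⟨x, rfl, h⟩

theorem w3 (j : Ei ≃+* 𝓞 K) : (j w) ^ 3 = 1 := by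
  rw [← map_pow]
  have : (w : Ei) ^ 3 = 1 := by decide
  rw [this, map_one]

end

end Run7.h707.TF
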