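import Pool.Agent.Run7.h707.TE.Ell
import Pool.Agent.Run7.h707.TE.Fin

/-! The curves over a fixed field of cube roots -/

set_option autoImplicit false
set_option linter.unusedVariables false
set_option linter.unusedSectionVars false

open scoped Classical

namespace Run7.h707.TF

open Finset Filter NumberField IsDedekindDomain WeierstrassCurve
open Pool.Agent.N883.FG
open Pool.Agent.Y692.QS (Ei w nr)
open Pool.Agent.H921R2.TatePole (nm)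
open Pool.Agent.Y696.CTK (ED Tri)
open Pool.Agent.TH841.NF.D (Sha)
open Pool.Agent.R432.C (gal3 cubic pts)
open Run7.h707.TC (FamO ExO)
open Run7.h707.TE

section
variable {K : Type} [Field K] [NumberField K]

theorem not_cubeO {x : 𝓞 K} (h : ∀ y : 𝓞 K, y ^ 3 ≠ x) (y : K) : y ^ 3 ≠ (x : K) := by
  intro hy
  have hint : IsIntegral ℤ y := by
    refine IsIntegral.of_pow (n := 3) (by norm_num) ?_
    rw [hy]
    exact x.isIntegral_coe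
  apply h ⟨y, hint⟩
  apply RingOfIntegers.ext
  exact hy

variable {I₀ J₀ : Type} [Fintype I₀] [Fintype J₀] (n₀ : J₀ → I₀ → ℕ) {r : ℕ}

/-- **The curves over the field of the cube roots.** -/
theorem fld_C (j : Ei ≃+* 𝓞 K) (hj : ∀ z : Ei, Algebra.norm ℤ (j z) = nr z)
    {p : (I₀ → 𝓞 K) × (Fin r → 𝓞 K)} (hA : ∀ k, FamO (p.1 k)) (hB : ∀ i, FamO (p.2 i))
    (hF : ∀ (t : J₀) (ν : Fin r → ZMod 3), ¬ ExO (dO (n₀ t) p.1 * bp p.2 ν))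
    (hC : ∀ ν : Fin r → ZMod 3, ν ≠ 0 → ∀ y : 𝓞 K, y ^ 3 ≠ bp p.2 ν) (F : Type) [Field F] [NumberField F] [Algebra K F] (θ : Fin r → F)
    (hθ : ∀ i, θ i ^ 3 = algebraMap K F (p.2 i))
    (hgen : ∀ S : Subfield F, (∀ k : K, algebraMap K F k ∈ S) → (∀ i, θ i ∈ S) → S = ⊤) :
    Module.finrank K F = 3 ^ r ∧ ∃ L : J₀ → ℂ → ℂ, ∀ t, Differentiable ℂ (L t) ∧
      (∀ s : ℂ, 3 / 2 < s.re → HasProd (fun v : HeightOneSpectrum (𝓞 F) =>
        lf (algebraMap (𝓞 K) (𝓞 F) (dO (n₀ t) p.1)) v ((nm v : ℂ) ^ (-s))) (L t s)) ∧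
      ((∀ ν : Fin r → ZMod 3, Tri (dO (n₀ t) p.1 * bp p.2 ν)) → L t 1 ≠ 0 ∧
        Finite (ED (algebraMap K F (dO (n₀ t) p.1 : 𝓞 K))).toAffine.Point ∧
        ∀ (k : ℕ) (y : Sha (ED (algebraMap K F (dO (n₀ t) p.1 : 𝓞 K)))),
          3 ^ k • y = 0 → 3 ^ r • y = 0) := by
  obtain ⟨ω, hω⟩ := ex_om (K := K) j
  have hωK : (ω : K) ^ 2 + (ω : K) + 1 = 0 := by
    exact_mod_cast congrArg (fun x : 𝓞 K => (x : K)) hω
  -- integral cube roots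
  have hint : ∀ i, IsIntegral ℤ (θ i) := fun i => by
    refine IsIntegral.of_pow (n := 3) (by norm_num) ?_
    rw [hθ]
    exact ((p.2 i).isIntegral_coe).map (algebraMap K F).toIntAlgHom
  obtain ⟨θ', hθ'⟩ : ∃ θ' : Fin r → 𝓞 F, ∀ i, (θ' i : F) = θ i :=
    ⟨fun i => ⟨θ i, hint i⟩, fun i => rfl⟩
  have hθ3 : ∀ i, θ' i ^ 3 = algebraMap (𝓞 K) (𝓞 F) (p.2 i) := fun i => by
    apply RingOfIntegers.ext
    rw [coe_pw, hθ', hθ]
    rfl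
  have hind : ∀ ν : Fin r → ZMod 3, ν ≠ 0 → ∀ y : K, y ^ 3 ≠ ∏ i, (p.2 i : K) ^ (ν i).val := by
    intro ν hν y
    rw [← coe_bp]
    exact not_cubeO (hC ν hν) y
  obtain ⟨hd, hE⟩ := tower r K F ω hω p.2 (fun i => ne_of_famO (hB i)) hind θ' hθ3
    (fun S h1 h2 => hgen S h1 fun i => by rw [← hθ']; exact h2 i)
  refine ⟨hd, ?_⟩
  -- the functions over `K`
  have hAB : ∀ k, FamO ((Sum.elim p.1 p.2 : I₀ ⊕ Fin r → 𝓞 K) k) := by
    rintro (k | k)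
    · exact hA k
    · exact hB k
  have hone : ∀ (t : J₀) (ν : Fin r → ZMod 3), ∃ Lf : ℂ → ℂ, Differentiable ℂ Lf ∧
      (∀ s : ℂ, 3 / 2 < s.re → HasProd (fun v : HeightOneSpectrum (𝓞 K) =>
        lf (dO (n₀ t) p.1 * bp p.2 ν) v ((nm v : ℂ) ^ (-s))) (Lf s)) ∧
      (Tri (dO (n₀ t) p.1 * bp p.2 ν) → Lf 1 ≠ 0) := by
    intro t ν
    have h1 := one_lf (K := K) j hj (I := I₀ ⊕ Fin r) (Sum.elim (n₀ t) fun i => (ν i).val)
      (a := Sum.elim p.1 p.2) hAB (by rw [dO_elim]; exact hF t ν)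
    rw [dO_elim] at h1
    exact h1
  choose Lf h1 h2 h3 using hone
  refine ⟨fun t s => ∏ ν, Lf t ν s, fun t => ⟨Differentiable.fun_finsetProd fun ν _ => h1 t ν,
    fun s hs => ?_, fun hT => ⟨?_, ?_⟩⟩⟩
  · exact hE (dO (n₀ t) p.1) (dO_ne hA _) s hs (fun ν => Lf t ν s) fun ν => h2 t ν s hs
  · exact Finset.prod_ne_zero_iff.2 fun ν _ => h3 t ν (hT ν)
  · obtain ⟨hfd, hgal⟩ := gal3 (K := K) (F := F) hωK (fun i => (p.2 i : K)) θ hθ hgen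
    have hD : ((dO (n₀ t) p.1 : 𝓞 K) : K) ≠ 0 := fun h => dO_ne hA (n₀ t) (RingOfIntegers.ext h)
    have hd0 : ∀ i, (p.2 i : K) ≠ 0 := fun i h => ne_of_famO (hB i) (RingOfIntegers.ext h)
    have hco : ∀ ν : Fin r → ZMod 3, ((dO (n₀ t) p.1 : 𝓞 K) : K) * ∏ i, (p.2 i : K) ^ (ν i).val =
        ((dO (n₀ t) p.1 * bp p.2 ν : 𝓞 K) : K) := fun ν => by
      rw [coe_ml, coe_bp]
    refine ⟨?_, ?_⟩
    · refine pts (K := K) (F := F) hωK (fun i => (p.2 i : K)) θ hd0 hθ hgen hD fun ν => ?_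
      rw [hco]
      exact (hT ν).1
    · intro k y hy
      have h5 := cubic (K := K) (F := F) hωK (fun i => (p.2 i : K)) θ hd0 hθ hgen hD
        (fun ν => by
          rw [hco]
          exact (hT ν).2) k y hy
      rwa [Fintype.card_fin] at h5


/-- **The elliptic curves over the field of the cube roots.** -/
theorem ell_C (j : Ei ≃+* 𝓞 K) (hj : ∀ z : Ei, Algebra.norm ℤ (j z) = nr z)
    {p : (I₀ → 𝓞 K) × (Fin r → 𝓞 K)} (hA : ∀ k, FamO (p.1 k)) (hB : ∀ i, FamO (p.2 i))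
    (hF : ∀ (t : J₀) (ν : Fin r → ZMod 3), ¬ ExO (dO (n₀ t) p.1 * bp p.2 ν))
    (hC : ∀ ν : Fin r → ZMod 3, ν ≠ 0 → ∀ y : 𝓞 K, y ^ 3 ≠ bp p.2 ν) (F : Type) [Field F] [NumberField F] [Algebra K F] (θ : Fin r → F)
    (hθ : ∀ i, θ i ^ 3 = algebraMap K F (p.2 i))
    (hgen : ∀ S : Subfield F, (∀ k : K, algebraMap K F k ∈ S) → (∀ i, θ i ∈ S) → S = ⊤) :
    Module.finrank K F = 3 ^ r ∧ ∃ L : J₀ → ℂ → ℂ, ∀ t, Differentiable ℂ (L t) ∧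
      (∀ s : ℂ, 3 / 2 < s.re →
        L t s = (ED (algebraMap K F (dO (n₀ t) p.1 : 𝓞 K))).LSeries s) ∧
      ((∀ ν : Fin r → ZMod 3, Tri (dO (n₀ t) p.1 * bp p.2 ν)) → L t 1 ≠ 0 ∧
        Finite (ED (algebraMap K F (dO (n₀ t) p.1 : 𝓞 K))).toAffine.Point ∧
        ∀ (k : ℕ) (y : Sha (ED (algebraMap K F (dO (n₀ t) p.1 : 𝓞 K)))),
          3 ^ k • y = 0 → 3 ^ r • y = 0) := by
  obtain ⟨ω, hω⟩ := ex_om (K := K) j
  obtain ⟨hd, L, hL⟩ := fld_C n₀ j hj hA hB hF hC F θ hθ hgen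
  have hωK : (ω : K) ^ 2 + (ω : K) + 1 = 0 := by
    exact_mod_cast congrArg (fun x : 𝓞 K => (x : K)) hω
  obtain ⟨hfd, hgal⟩ := gal3 (K := K) (F := F) hωK (fun i => (p.2 i : K)) θ hθ hgen
  refine ⟨hd, L, fun t => ⟨(hL t).1, fun s hs => ?_, (hL t).2.2⟩⟩
  have h1 := ser_F (N := F) (δ := algebraMap (𝓞 K) (𝓞 F) (dO (n₀ t) p.1)) (alg_ne (dO_ne hA _))
    (om_K (om_N (N := F) hω)) (fun w hw => three_F (K := K) (N := F) j (by
      rw [hd]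
      exact Odd.pow (by decide)) hw) hs ((hL t).2.1 s hs)
  rw [← h1]
  rfl

end

end Run7.h707.TF
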