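import Pool.Agent.Run7.h707.TF.ClO
import Pool.Agent.Run7.h707.TF.Fld

/-! The law over a fixed field of cube roots -/

set_option autoImplicit false
set_option linter.unusedVariables false
set_option linter.unusedSectionVars false

open scoped Classical

namespace Run7.h707.TF

open Finset Filter NumberField
open Pool.Agent.Y692.QS (Ei w nr)
open Pool.Agent.Y703.XK (c9)
open Pool.Agent.Y696.CTK (Tri)
open Run7.h707.TC (FamO ExO)
open Run7.h707.TE (dO AllO bp ne_of_famO bp_ne dO_ne)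

section
variable {K : Type} [Field K] [NumberField K]

theorem cube_div {x y z : 𝓞 K} (hy : y ≠ 0) (h : x ^ 3 = z * y ^ 3)
    (hz : ∀ u : 𝓞 K, u ^ 3 ≠ z) : False := by
  refine not_cubeO hz ((x : K) / (y : K)) ?_
  have hy' : (y : K) ≠ 0 := fun h' => hy (RingOfIntegers.ext h')
  have h1 : ((x : 𝓞 K) : K) ^ 3 = (z : K) * (y : K) ^ 3 := by
    have := congrArg (algebraMap (𝓞 K) K) h
    rwa [map_pow, map_mul, map_pow] at this
  rw [div_pow, h1]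
  field_simp

theorem bp_mul {r : ℕ} {d : Fin r → 𝓞 K} (hd : ∀ i, d i ≠ 0) (ν ν' : Fin r → ZMod 3) (e : ℕ) :
    ∃ y : 𝓞 K, y ≠ 0 ∧ bp d ν * bp d ν' ^ e = bp d (fun i => ν i + e * ν' i) * y ^ 3 := by
  have key : ∀ x y : ZMod 3, ∃ k : ℕ, x.val + e * y.val = (x + e * y).val + 3 * k := by
    intro x y
    refine ⟨(x.val + e * y.val) / 3, ?_⟩
    have h1 : (x + e * y).val = (x.val + e * y.val) % 3 := by
      have h2 : x + e * y = ((x.val + e * y.val : ℕ) : ZMod 3) := by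
        push_cast
        rw [ZMod.natCast_zmod_val, ZMod.natCast_zmod_val]
      conv_lhs => rw [h2]
      exact ZMod.val_natCast 3 _
    rw [h1]
    exact (Nat.mod_add_div _ _).symm
  choose k hk using fun i => key (ν i) (ν' i)
  refine ⟨∏ i, d i ^ k i, Finset.prod_ne_zero_iff.2 fun i _ => pow_ne_zero _ (hd i), ?_⟩
  unfold bp
  rw [← prod_pow, ← prod_pow, ← prod_mul_distrib, ← prod_mul_distrib]
  refine prod_congr rfl fun i _ => ?_
  rw [← pow_mul, ← pow_mul, ← pow_add, ← pow_add, mul_comm _ e, hk, mul_comm 3]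

variable {I₀ J₀ B₀ : Type} [Fintype I₀] [Fintype J₀] [Fintype B₀] {r : ℕ}

/-- the proportion of the classes -/
noncomputable def kapR (n₀ : J₀ → I₀ → ℕ) (c₀ : J₀ → ZMod 3 × ZMod 3)
    (cd : Fin r → ZMod 3 × ZMod 3) : ℝ :=
  ({u : I₀ → ZMod 3 × ZMod 3 | ∀ (t : J₀) (ν : Fin r → ZMod 3),
    ∑ k, n₀ t k • u k + (c₀ t + ∑ i, (ν i).val • cd i) ≠ 0}.ncard : ℝ) / 9 ^ Fintype.card I₀

/-- **The law over a fixed field of cube roots.** -/
theorem law_R (j : Ei ≃+* 𝓞 K) (hj : ∀ z : Ei, Algebra.norm ℤ (j z) = nr z) (n₀ : J₀ → I₀ → ℕ)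
    (l₀ : J₀ → B₀ → ℕ) {b₀ : B₀ → 𝓞 K} (hb₀ : ∀ i, FamO (b₀ i)) {d : Fin r → 𝓞 K}
    (hd : ∀ i, FamO (d i)) (hind : ∀ ν : Fin r → ZMod 3, ν ≠ 0 → ∀ y : 𝓞 K, y ^ 3 ≠ bp d ν)
    (hn : ∀ t, ∃ k, (n₀ t k : ZMod 3) ≠ 0)
    (hsep : ∀ t t', t ≠ t' → ∀ e : ℕ, (e = 1 ∨ e = 2) →
      (∀ k, (n₀ t k : ZMod 3) + e * n₀ t' k = 0) → ∀ (ν : Fin r → ZMod 3) (x : 𝓞 K),
      x ^ 3 ≠ dO (l₀ t) b₀ * dO (l₀ t') b₀ ^ e * bp d ν)
    (c₀ : J₀ → ZMod 3 × ZMod 3) (hc₀ : ∀ t, IsCl (j w) (dO (l₀ t) b₀) (c₀ t))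
    (cd : Fin r → ZMod 3 × ZMod 3) (hcd : ∀ i, IsCl (j w) (d i) (cd i)) :
    (∃ (c : ℝ) (X₀ : ℕ), 0 < c ∧ ∀ X : ℕ, X₀ ≤ X → c * (X : ℝ) ^ Fintype.card I₀ ≤
      ({a : I₀ → 𝓞 K | AllO X a}.ncard : ℝ)) ∧
    Tendsto (fun X : ℕ => ({a : I₀ → 𝓞 K | AllO X a ∧ ∀ (t : J₀) (ν : Fin r → ZMod 3),
      ¬ ExO (dO (n₀ t) a * dO (l₀ t) b₀ * bp d ν)}.ncard : ℝ)
      / ({a : I₀ → 𝓞 K | AllO X a}.ncard : ℝ)) atTop (nhds (kapR n₀ c₀ cd)) ∧
    Tendsto (fun X : ℕ => ({a : I₀ → 𝓞 K | AllO X a ∧ (∀ (t : J₀) (ν : Fin r → ZMod 3),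
      ¬ ExO (dO (n₀ t) a * dO (l₀ t) b₀ * bp d ν)) ∧ ∀ (t : J₀) (ν : Fin r → ZMod 3),
      Tri (dO (n₀ t) a * dO (l₀ t) b₀ * bp d ν)}.ncard : ℝ) /
      ({a : I₀ → 𝓞 K | AllO X a}.ncard : ℝ)) atTop
      (nhds (kapR n₀ c₀ cd * c9 ^ (Fintype.card J₀ * 3 ^ r))) := by
  have hd0 : ∀ i, d i ≠ 0 := fun i => ne_of_famO (hd i)
  have hval : ∀ x : ZMod 3, ((x.val : ℕ) : ZMod 3) = x := fun x => ZMod.natCast_zmod_val x
  have hdO : ∀ (t : J₀) (ν : Fin r → ZMod 3),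
      dO (Sum.elim (l₀ t) fun i => (ν i).val) (Sum.elim b₀ d) = dO (l₀ t) b₀ * bp d ν :=
    fun t ν => Run7.h707.TE.dO_elim (l₀ t) ν b₀ d
  have hfam : ∀ i, FamO ((Sum.elim b₀ d : B₀ ⊕ Fin r → 𝓞 K) i) := by
    rintro (i | i)
    · exact hb₀ i
    · exact hd i
  obtain ⟨h1, h2, h3⟩ := lawFI (J := J₀ × (Fin r → ZMod 3)) j hj (fun p => n₀ p.1)
    (fun p => Sum.elim (l₀ p.1) fun i => (p.2 i).val) hfam (fun p => hn p.1)
    (fun p p' hpp e he hk => by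
      rintro ⟨x, hx⟩
      rw [hdO, hdO, mul_pow] at hx
      obtain ⟨y, hy, hyy⟩ := bp_mul hd0 p.2 p'.2 e
      have h4 : x ^ 3 = (dO (l₀ p.1) b₀ * dO (l₀ p'.1) b₀ ^ e *
          bp d (fun i => p.2 i + e * p'.2 i)) * y ^ 3 := by
        rw [← hx]
        linear_combination (dO (l₀ p.1) b₀ * dO (l₀ p'.1) b₀ ^ e) * hyy
      by_cases h : p.1 = p'.1
      · have h5 : p.2 ≠ p'.2 := fun h' => hpp (Prod.ext h h')
        obtain ⟨k, hk0⟩ := hn p.1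
        have h6 := hk k
        rw [← h] at h6
        have h7 : (e : ZMod 3) = 2 := by
          have : ∀ a e : ZMod 3, a ≠ 0 → a + e * a = 0 → e = 2 := by decide
          exact this _ _ hk0 h6
        have h8 : e = 2 := by
          rcases he with rfl | rfl
          · exact absurd h7 (by decide)
          · rfl
        subst h8
        have h9 : (fun i => p.2 i + (2 : ℕ) * p'.2 i) ≠ 0 := by
          intro h0
          apply h5
          funext i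
          have h10 := congrFun h0 i
          have : ∀ a b : ZMod 3, a + (2 : ℕ) * b = 0 → a = b := by decide
          exact this _ _ h10
        have hb0 : dO (l₀ p.1) b₀ ≠ 0 := dO_ne hb₀ _
        refine cube_div (x := x) (y := dO (l₀ p.1) b₀ * y) (mul_ne_zero hb0 hy) ?_ (hind _ h9)
        rw [h4, ← h]
        ring
      · exact cube_div hy h4 (hsep _ _ h e he hk _))
    (fun p => c₀ p.1 + ∑ i, (p.2 i).val • cd i) (fun p => by
      rw [hdO]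
      exact isCl_mul (w3 j) (hc₀ p.1) (isCl_bp (w3 j) hcd p.2))
  have ek : kapJ (fun p : J₀ × (Fin r → ZMod 3) => n₀ p.1)
      (fun p => c₀ p.1 + ∑ i, (p.2 i).val • cd i) = kapR n₀ c₀ cd := by
    unfold kapJ kapR
    simp only [Prod.forall]
  have ec : Fintype.card (J₀ × (Fin r → ZMod 3)) = Fintype.card J₀ * 3 ^ r := by
    rw [Fintype.card_prod, Fintype.card_fun, ZMod.card, Fintype.card_fin]
  rw [ek] at h2 h3
  rw [ec] at h3
  simp only [hdO, Prod.forall, ← mul_assoc] at h2 h3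
  exact ⟨h1, h2, h3⟩

end

end Run7.h707.TF
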