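import Pool.Agent.Run7.h707.TF.Inv
import Pool.Agent.Run7.h707.TF.LawR

/-! Related monomials -/

set_option autoImplicit false
set_option linter.unusedVariables false
set_option linter.unusedSectionVars false

open scoped Classical

namespace Run7.h707.TF

open Finset Filter NumberField
open Pool.Agent.Y692.QS (Ei w nr)
open Pool.Agent.Y699.E (prm prm_mul prm_one)
open Pool.Agent.Y696.CTK (Tri)
open Pool.Agent.N883.FF (nq ClP w_pow_inj isUnit_w nr_w_mul)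
open Pool.Agent.N883.FF.Den3 (nq_zero)
open Run7.h707.TC (dlt UC NEc FamU FamO ExO famO_iff exO_iff pow_prm nr_cube)
open Run7.h707.TE (dO UO eqI eqI_apply dO_eqI dO_ne ne_of_famO)

section
variable {K : Type} [Field K] [NumberField K]

/-- the class of a cube is zero -/
theorem cl_cube (j : Ei ≃+* 𝓞 K) (hj : ∀ z : Ei, Algebra.norm ℤ (j z) = nr z) {z : 𝓞 K}
    {c : ZMod 3 × ZMod 3} (h : IsCl (j w) (z ^ 3) c) : c = 0 := by
  obtain ⟨p, h1, h2, h3⟩ := h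
  obtain ⟨p, rfl⟩ := j.surjective p
  obtain ⟨z, rfl⟩ := j.surjective z
  rw [← map_pow, ← map_pow, ← map_mul] at h1
  have h4 : z ^ 3 = w ^ c.1.val * p := j.injective h1
  have hp : prm p := by
    rw [← map_one j, ← map_sub, ← map_ofNat j 3, map_dvd_iff j] at h2
    exact h2
  rw [hj] at h3
  -- the norm of `z` is prime to three
  have h5 : nr z ^ 3 = nr p := by
    have := congrArg nr h4
    rw [nr_w_mul] at this
    rw [← this, pow_succ, pow_succ, pow_one, pow_succ, pow_succ, pow_one,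
      Pool.Agent.Y692.QS.nr_mul, Pool.Agent.Y692.QS.nr_mul]
  have h6 : ¬ (3 : ℤ) ∣ nr z := by
    intro hd
    have h7 : (3 : ℤ) ∣ nr p := by
      rw [← h5]
      exact dvd_pow hd three_ne_zero
    have h8 := Run7.h707.TC.nr_prm hp
    omega
  obtain ⟨h9, h10⟩ := Pool.Agent.Y692.QS.ep_cases z h6
  obtain ⟨u, hu⟩ : ∃ u : Ei, u = star (Pool.Agent.Y692.QS.ep z) := ⟨_, rfl⟩
  have hU : IsUnit u := by
    rw [hu]
    exact IsUnit.of_mul_eq_one _ h10
  have hq : prm (u * z) := by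
    have e : u * z - 1 = u * (z - Pool.Agent.Y692.QS.ep z) := by rw [mul_sub, hu, h10]
    show (3 : Ei) ∣ u * z - 1
    rw [e]
    exact Dvd.dvd.mul_left (Pool.Agent.Y692.QS.ep_congr z h6) _
  have hq3 : prm ((u * z) ^ 3) := pow_prm hq 3
  have h11 : (u * z) ^ 3 = u ^ 3 * (w ^ c.1.val * p) := by rw [mul_pow, h4]
  obtain ⟨l, hl⟩ := Pool.Agent.Y715.T.RecC.unit_form hU
  have hw3 : ∀ l : ZMod 3, ((w : Ei) ^ l.val) ^ 3 = 1 := by decide
  have hsgn : u ^ 3 = 1 ∨ u ^ 3 = -1 := by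
    rcases hl with hl | hl
    · left
      rw [hl, hw3]
    · right
      rw [hl, neg_pow, hw3]
      norm_num
  rcases hsgn with hs | hs
  · rw [hs, one_mul] at h11
    have h12 : (3 : Ei) ∣ w ^ c.1.val - w ^ (0 : ZMod 3).val := by
      have e : (w : Ei) ^ c.1.val - w ^ (0 : ZMod 3).val =
          ((u * z) ^ 3 - 1) - w ^ c.1.val * (p - 1) := by
        rw [h11, ZMod.val_zero, pow_zero]
        ring
      rw [e]
      exact dvd_sub hq3 (Dvd.dvd.mul_left hp _)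
    have h13 : c.1 = 0 := w_pow_inj h12
    rw [h13, ZMod.val_zero, pow_zero, one_mul] at h11
    have h14 : nq p = 0 := by
      rw [nq_zero hp, ← h11]
      exact nr_cube hq
    exact Prod.ext h13 (by rw [← nq_of c.2 h3, h14]; rfl)
  · exfalso
    rw [hs] at h11
    have h12 : (3 : Ei) ∣ w ^ c.1.val + 1 := by
      have e : (w : Ei) ^ c.1.val + 1 = -((u * z) ^ 3 - 1) - w ^ c.1.val * (p - 1) := by
        rw [h11]
        ring
      rw [e]
      exact dvd_sub ((dvd_neg).2 hq3) (Dvd.dvd.mul_left hp _)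
    have h13 : ∀ l : ZMod 3, ¬ (3 : Ei) ∣ w ^ l.val + 1 := by
      intro l ⟨t, ht⟩
      have h14 := congrArg Pool.Agent.Y692.QS.nr ht
      rw [Pool.Agent.Y692.QS.nr_mul] at h14
      have h15 : nr (3 : Ei) = 9 := by decide
      have h16 : ∀ l : ZMod 3, nr ((w : Ei) ^ l.val + 1) = 4 ∨ nr ((w : Ei) ^ l.val + 1) = 1 := by
        decide
      rw [h15] at h14
      rcases h16 l with h | h <;> rw [h] at h14 <;> omega
    exact h13 _ h12

theorem ex_cube {x y z : 𝓞 K} (hy : y ≠ 0) (h : x ^ 3 = z * y ^ 3) : ∃ u : 𝓞 K, u ^ 3 = z := by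
  by_contra hn
  push Not at hn
  exact cube_div hy h hn

theorem rel_symm {x y z : 𝓞 K} (hy : y ≠ 0) {e : ℕ} (he : e = 1 ∨ e = 2) (h : x * y ^ e = z ^ 3) :
    ∃ z' : 𝓞 K, y * x ^ e = z' ^ 3 := by
  rcases he with rfl | rfl
  · exact ⟨z, by rw [← h]; ring⟩
  · obtain ⟨u, hu⟩ := ex_cube (x := z ^ 2) (z := y * x ^ 2) hy (by
      rw [← pow_mul, mul_comm 2 3, pow_mul, ← h]; ring)
    exact ⟨u, hu.symm⟩

theorem rel_uo {x y z : 𝓞 K} (hx : x ≠ 0) (hy : y ≠ 0) {e : ℕ} (he : e = 1 ∨ e = 2)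
    (h : x * y ^ e = z ^ 3) (hu : UO x) : UO y := by
  obtain ⟨u, v, hu, hv⟩ := hu
  obtain ⟨u', hu'⟩ := hu.exists_right_inv
  have hv0 : v ≠ 0 := by
    rintro rfl
    apply hx
    rw [hv]
    ring
  have hU : IsUnit u' := IsUnit.of_mul_eq_one _ (by rw [mul_comm]; exact hu')
  rcases he with rfl | rfl
  · obtain ⟨t, ht⟩ := ex_cube (x := z) (z := u * y) hv0 (by rw [← h, hv]; ring)
    refine ⟨u', t, hU, ?_⟩
    rw [ht]
    linear_combination (-y) * hu'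
  · obtain ⟨t, ht⟩ := ex_cube (x := z) (z := u * y ^ 2) hv0 (by rw [← h, hv]; ring)
    have ht0 : t ≠ 0 := by
      rintro rfl
      have h1 : u * y ^ 2 = 0 := by rw [← ht]; ring
      rcases mul_eq_zero.1 h1 with h2 | h2
      · exact hu.ne_zero h2
      · exact pow_ne_zero 2 hy h2
    obtain ⟨s, hs⟩ := ex_cube (x := y) (z := y * u') ht0 (by
      rw [ht]
      linear_combination (-y ^ 3) * hu')
    refine ⟨u, s, hu, ?_⟩
    rw [hs]
    linear_combination (-y) * hu'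

theorem rel_cls (j : Ei ≃+* 𝓞 K) (hj : ∀ z : Ei, Algebra.norm ℤ (j z) = nr z) {x y z : 𝓞 K}
    {e : ℕ} (h : x * y ^ e = z ^ 3) {c c' : ZMod 3 × ZMod 3} (hc : IsCl (j w) x c)
    (hc' : IsCl (j w) y c') : c + e • c' = 0 := by
  have h1 := isCl_mul (w3 j) hc (isCl_pow (w3 j) hc' e)
  rw [h] at h1
  exact cl_cube j hj h1

theorem exO_cl (j : Ei ≃+* 𝓞 K) (hj : ∀ z : Ei, Algebra.norm ℤ (j z) = nr z) {x : 𝓞 K}
    {c : ZMod 3 × ZMod 3} (hc : IsCl (j w) x c) : ExO x ↔ UO x ∨ c = 0 := by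
  unfold Run7.h707.TC.ExO
  refine or_congr Iff.rfl ?_
  rw [← isCl_zero (ω := j w)]
  constructor
  · intro h
    exact isCl_unique j hj hc h
  · rintro rfl
    exact hc

theorem cl_iff {e : ℕ} (he : e = 1 ∨ e = 2) {c c' : ZMod 3 × ZMod 3} (h : c + e • c' = 0) :
    c = 0 ↔ c' = 0 := by
  rcases he with rfl | rfl
  · have : ∀ c c' : ZMod 3 × ZMod 3, c + 1 • c' = 0 → (c = 0 ↔ c' = 0) := by decide
    exact this _ _ h
  · have : ∀ c c' : ZMod 3 × ZMod 3, c + 2 • c' = 0 → (c = 0 ↔ c' = 0) := by decide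
    exact this _ _ h

theorem rel_ex (j : Ei ≃+* 𝓞 K) (hj : ∀ z : Ei, Algebra.norm ℤ (j z) = nr z) {x y z : 𝓞 K}
    (hx : x ≠ 0) (hy : y ≠ 0) {e : ℕ} (he : e = 1 ∨ e = 2) (h : x * y ^ e = z ^ 3)
    {c c' : ZMod 3 × ZMod 3} (hc : IsCl (j w) x c) (hc' : IsCl (j w) y c') : ExO x ↔ ExO y := by
  rw [exO_cl j hj hc, exO_cl j hj hc', cl_iff he (rel_cls j hj h hc hc')]
  obtain ⟨z', h'⟩ := rel_symm hy he h
  exact or_congr ⟨rel_uo hx hy he h, rel_uo hy hx he h'⟩ Iff.rfl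

theorem rel_tri (j : Ei ≃+* 𝓞 K) (hj : ∀ z : Ei, Algebra.norm ℤ (j z) = nr z) {I : Type}
    [Fintype I] (n n' : I → ℕ) {a : I → 𝓞 K} (ha : ∀ k, FamO (a k)) {z : 𝓞 K} {e : ℕ}
    (he : e = 1 ∨ e = 2) (h : dO n a * dO n' a ^ e = z ^ 3) (hx : ¬ ExO (dO n a))
    (hy : ¬ ExO (dO n' a)) : Tri (dO n a) ↔ Tri (dO n' a) := by
  have hx0 := dO_ne ha n
  have hy0 := dO_ne ha n'
  obtain ⟨b, rfl⟩ := (eqI j (Fintype.equivFin I)).surjective a
  obtain ⟨z, rfl⟩ := j.surjective z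
  rw [dO_eqI] at hx hy hx0 hy0 h ⊢
  rw [dO_eqI] at h ⊢
  rw [exO_iff j hj] at hx hy
  have hb : ∀ k, FamU (b k) := fun k => by
    have h1 := ha ((Fintype.equivFin I).symm k)
    rw [eqI_apply, Equiv.apply_symm_apply] at h1
    exact (famO_iff j _).1 h1
  obtain ⟨x, hxe⟩ : ∃ x, x = dlt (fun k => n ((Fintype.equivFin I).symm k)) b := ⟨_, rfl⟩
  obtain ⟨y, hye⟩ : ∃ y, y = dlt (fun k => n' ((Fintype.equivFin I).symm k)) b := ⟨_, rfl⟩
  rw [← map_pow, ← map_mul, ← map_pow] at h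
  have h1 := j.injective h
  have hx1 : dlt (fun k => n ((Fintype.equivFin I).symm k)) b ≠ 0 := fun h => hx0 (by
    rw [h, map_zero])
  have hy1 : dlt (fun k => n' ((Fintype.equivFin I).symm k)) b ≠ 0 := fun h => hy0 (by
    rw [h, map_zero])
  have hz1 : z ≠ 0 := by
    rintro rfl
    rw [zero_pow three_ne_zero] at h1
    exact mul_ne_zero hx1 (pow_ne_zero _ hy1) h1
  rw [← tri_mulE j _ hb hx hy1]
  rcases he with rfl | rfl
  · rw [← tri_sqE j _ hb hy hz1, ← h1]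
    congr! 2
    ring
  · rw [← tri_mulE j _ hb hy hz1, ← h1]
    congr! 2
    ring

end

end Run7.h707.TF
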