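import Pool.Agent.Run7.h707.TF.Fld
import Pool.Agent.Run7.h707.TF.Rel
import Pool.Agent.N883.FG.Lf2

/-! The curves over a field of cube roots, from the functions over `K` -/

set_option autoImplicit false
set_option linter.unusedVariables false
set_option linter.unusedSectionVars false

open scoped Classical

namespace Run7.h707.TF

open Finset Filter NumberField IsDedekindDomain WeierstrassCurve
open Pool.Agent.N883.FG
open Pool.Agent.W189.NF (aV eV)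
open Pool.Agent.Y692.QS (Ei w nr)
open Pool.Agent.H921R2.TatePole (nm)
open Pool.Agent.Y696 (HBd LSeries_hasProd')
open Pool.Agent.Y696.CTK (ED Tri)
open Pool.Agent.Y696.CTE
open Pool.Agent.TH841.NF.D (Sha)
open Pool.Agent.R432.C (gal3 cubic pts)
open Run7.h707.TC (FamO ExO)
open Run7.h707.TE

section
variable {K : Type} [Field K] [NumberField K]

/-- the function of a monomial over `K` -/
def OneL (δ : 𝓞 K) : Prop :=
  ∃ Lf : ℂ → ℂ, Differentiable ℂ Lf ∧ (∀ s : ℂ, 3 / 2 < s.re →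
    HasProd (fun v : HeightOneSpectrum (𝓞 K) => lf δ v ((nm v : ℂ) ^ (-s))) (Lf s)) ∧
    (Tri δ → Lf 1 ≠ 0)

/-- the function of `x³` over `K` -/
theorem one_cube [IsCyclotomicExtension {3} ℚ K] (j : Ei ≃+* 𝓞 K) {x : 𝓞 K} (hx : x ≠ 0) :
    OneL (x ^ 3) := by
  obtain ⟨L0, h1, h2, h3⟩ := L0_ex (K := K) j
  refine ⟨L0, h1, fun s hs => ?_, fun _ => h3⟩
  obtain ⟨ω, hω⟩ := ex_om (K := K) j
  have hωK : ∃ z : K, z ^ 2 + z + 1 = 0 := ⟨ω, by
    exact_mod_cast congrArg (fun x : 𝓞 K => (x : K)) hω⟩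
  have hav := fun v : HeightOneSpectrum (𝓞 K) => av_tr (v := v) (δ := (1 : 𝓞 K)) one_ne_zero
    (fun h => three_F (K := K) (N := K) j (by rw [Module.finrank_self]; exact odd_one) h)
  obtain ⟨-, h4⟩ := LSeries_hasProd' (ED ((1 : 𝓞 K) : K)) (fun v => by
    rw [(hav v).1, (hav v).2]
    exact hbd_lf hωK 1 one_ne_zero v) hs
  have h5 : (ED ((1 : 𝓞 K) : K)).LSeries s = L0 s := by
    rw [(h2 s hs).2]
    have : ((1 : 𝓞 K) : K) = 1 := rfl
    rw [this]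
    rfl
  rw [h5] at h4
  refine h4.congr_fun fun v => ?_
  have hx3 : x ^ 3 ≠ 0 := pow_ne_zero 3 hx
  have hb : 3 * (1 : 𝓞 K) ∈ v.asIdeal → aV (ED ((1 : 𝓞 K) : K)) v = 0 ∧
      eV (ED ((1 : 𝓞 K) : K)) v = 0 := fun h => bad_one j v h
  have hn : ∀ δ : 𝓞 K, (1 : 𝓞 K) ∈ v.asIdeal → ¬ Run7.h707.TC.GoodAt δ v := fun δ h =>
    absurd ((Ideal.eq_top_iff_one _).2 h) v.isPrime.ne_top
  rw [lf_fac (δ := x ^ 3) (R := 1) (Z := x) hx3 (by rw [one_mul]) hb (hn _)]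
  unfold fac
  rfl

/-- the groups of `x³` are trivial for `x = 1` -/
theorem tri_one [IsCyclotomicExtension {3} ℚ K] (j : Ei ≃+* 𝓞 K) : Tri (1 : 𝓞 K) := by
  have e : ((1 : 𝓞 K) : K) = 1 := rfl
  refine ⟨?_, ?_⟩
  · rw [e]
    exact fin_one
  · rw [e]
    exact partsE.sh1 K j

/-- the function of a nonexceptional monomial -/
theorem one_mono (j : Ei ≃+* 𝓞 K) (hj : ∀ z : Ei, Algebra.norm ℤ (j z) = nr z) {I : Type}
    [Fintype I] (n : I → ℕ) {a : I → 𝓞 K} (ha : ∀ k, FamO (a k)) (hn : ¬ ExO (dO n a)) :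
    OneL (dO n a) := one_lf j hj n ha hn

/-- **One curve over the field of the cube roots.** -/
theorem fld_G (j : Ei ≃+* 𝓞 K) {r : ℕ} {δ : 𝓞 K} (hδ : δ ≠ 0) {d : Fin r → 𝓞 K}
    (hd0 : ∀ i, d i ≠ 0) (hC : ∀ ν : Fin r → ZMod 3, ν ≠ 0 → ∀ y : 𝓞 K, y ^ 3 ≠ bp d ν)
    (hone : ∀ ν : Fin r → ZMod 3, OneL (δ * bp d ν))
    (F : Type) [Field F] [NumberField F] [Algebra K F] (θ : Fin r → F)
    (hθ : ∀ i, θ i ^ 3 = algebraMap K F (d i))
    (hgen : ∀ S : Subfield F, (∀ k : K, algebraMap K F k ∈ S) → (∀ i, θ i ∈ S) → S = ⊤) :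
    Module.finrank K F = 3 ^ r ∧ ∃ L : ℂ → ℂ, Differentiable ℂ L ∧
      (∀ s : ℂ, 3 / 2 < s.re → HasProd (fun v : HeightOneSpectrum (𝓞 F) =>
        lf (algebraMap (𝓞 K) (𝓞 F) δ) v ((nm v : ℂ) ^ (-s))) (L s)) ∧
      (∀ s : ℂ, 3 / 2 < s.re → L s = (ED (algebraMap K F (δ : 𝓞 K))).LSeries s) ∧
      ((∀ ν : Fin r → ZMod 3, Tri (δ * bp d ν)) → L 1 ≠ 0 ∧
        Finite (ED (algebraMap K F (δ : 𝓞 K))).toAffine.Point ∧
        ∀ (k : ℕ) (y : Sha (ED (algebraMap K F (δ : 𝓞 K)))), 3 ^ k • y = 0 → 3 ^ r • y = 0) := by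
  obtain ⟨ω, hω⟩ := ex_om (K := K) j
  have hωK : (ω : K) ^ 2 + (ω : K) + 1 = 0 := by
    exact_mod_cast congrArg (fun x : 𝓞 K => (x : K)) hω
  -- integral cube roots
  have hint : ∀ i, IsIntegral ℤ (θ i) := fun i => by
    refine IsIntegral.of_pow (n := 3) (by norm_num) ?_
    rw [hθ]
    exact ((d i).isIntegral_coe).map (algebraMap K F).toIntAlgHom
  obtain ⟨θ', hθ'⟩ : ∃ θ' : Fin r → 𝓞 F, ∀ i, (θ' i : F) = θ i :=
    ⟨fun i => ⟨θ i, hint i⟩, fun i => rfl⟩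
  have hθ3 : ∀ i, θ' i ^ 3 = algebraMap (𝓞 K) (𝓞 F) (d i) := fun i => by
    apply RingOfIntegers.ext
    rw [coe_pw, hθ', hθ]
    rfl
  have hind : ∀ ν : Fin r → ZMod 3, ν ≠ 0 → ∀ y : K, y ^ 3 ≠ ∏ i, (d i : K) ^ (ν i).val := by
    intro ν hν y
    rw [← coe_bp]
    exact not_cubeO (hC ν hν) y
  obtain ⟨hd, hE⟩ := tower r K F ω hω d hd0 hind θ' hθ3
    (fun S h1 h2 => hgen S h1 fun i => by rw [← hθ']; exact h2 i)
  obtain ⟨hfd, hgal⟩ := gal3 (K := K) (F := F) hωK (fun i => (d i : K)) θ hθ hgen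
  refine ⟨hd, ?_⟩
  choose Lf h1 h2 h3 using hone
  have hprod : ∀ s : ℂ, 3 / 2 < s.re → HasProd (fun v : HeightOneSpectrum (𝓞 F) =>
      lf (algebraMap (𝓞 K) (𝓞 F) δ) v ((nm v : ℂ) ^ (-s))) (∏ ν, Lf ν s) := fun s hs =>
    hE δ hδ s hs (fun ν => Lf ν s) fun ν => h2 ν s hs
  refine ⟨fun s => ∏ ν, Lf ν s, Differentiable.fun_finsetProd fun ν _ => h1 ν, hprod,
    fun s hs => ?_, fun hT => ⟨?_, ?_⟩⟩
  · have h4 := ser_F (N := F) (δ := algebraMap (𝓞 K) (𝓞 F) δ) (alg_ne hδ)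
      (om_K (om_N (N := F) hω)) (fun w hw => three_F (K := K) (N := F) j (by
        rw [hd]
        exact Odd.pow (by decide)) hw) hs (hprod s hs)
    exact h4.symm
  · exact Finset.prod_ne_zero_iff.2 fun ν _ => h3 ν (hT ν)
  · have hD : ((δ : 𝓞 K) : K) ≠ 0 := fun h => hδ (RingOfIntegers.ext h)
    have hd0' : ∀ i, (d i : K) ≠ 0 := fun i h => hd0 i (RingOfIntegers.ext h)
    have hco : ∀ ν : Fin r → ZMod 3, ((δ : 𝓞 K) : K) * ∏ i, (d i : K) ^ (ν i).val =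
        ((δ * bp d ν : 𝓞 K) : K) := fun ν => by
      rw [coe_ml, coe_bp]
    refine ⟨?_, ?_⟩
    · refine pts (K := K) (F := F) hωK (fun i => (d i : K)) θ hd0' hθ hgen hD fun ν => ?_
      rw [hco]
      exact (hT ν).1
    · intro k y hy
      have h5 := cubic (K := K) (F := F) hωK (fun i => (d i : K)) θ hd0' hθ hgen hD
        (fun ν => by
          rw [hco]
          exact (hT ν).2) k y hy
      rwa [Fintype.card_fin] at h5

end

end Run7.h707.TF
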