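import Pool.Agent.Run7.h707.TF.ClO

/-! The proportion of the classes in terms of nine representatives -/

set_option autoImplicit false
set_option linter.unusedVariables false
set_option linter.unusedSectionVars false

open scoped Classical

namespace Run7.h707.TF

open Finset Filter NumberField
open Pool.Agent.Y692.QS (Ei w nr)
open Pool.Agent.Y699.E (prm)
open Pool.Agent.N883.FF (cube_one)
open Run7.h707.TE (dO)

section
variable {K : Type} [Field K] [NumberField K]

/-- `1` modulo `3` with a norm that is `1` modulo `9` -/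
def Nm1 (δ : 𝓞 K) : Prop := (3 : 𝓞 K) ∣ δ - 1 ∧ (9 : ℤ) ∣ Algebra.norm ℤ δ - 1

/-- the nine representatives -/
def reps (K : Type) [Field K] : Set (𝓞 K) :=
  {x | ∃ (ω : 𝓞 K) (k : ℕ), ω ^ 3 = 1 ∧ k < 3 ∧ x = ω * (1 + 3 * k)}

/-- the representative of a class -/
noncomputable def rp (j : Ei ≃+* 𝓞 K) (c : ZMod 3 × ZMod 3) : 𝓞 K :=
  (j w) ^ c.1.val * (1 + 3 * ((2 * c.2).val : ℕ))

theorem rp_cl (j : Ei ≃+* 𝓞 K) (hj : ∀ z : Ei, Algebra.norm ℤ (j z) = nr z)
    (c : ZMod 3 × ZMod 3) : IsCl (j w) (rp j c) c := by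
  refine ⟨1 + 3 * ((2 * c.2).val : ℕ), rfl, ?_, ?_⟩
  · rw [add_sub_cancel_left]
    exact dvd_mul_right _ _
  · have e : (1 + 3 * ((2 * c.2).val : ℕ) : 𝓞 K) = j (1 + 3 * ((2 * c.2).val : ℕ)) := by
      rw [map_add, map_one, map_mul, map_ofNat, map_natCast]
    rw [e, hj]
    have : ∀ x : ZMod 3, (9 : ℤ) ∣ nr (1 + 3 * ((2 * x).val : ℕ)) - (1 + 3 * (x.val : ℤ)) := by
      decide
    exact this c.2

theorem rp_inj (j : Ei ≃+* 𝓞 K) (hj : ∀ z : Ei, Algebra.norm ℤ (j z) = nr z) :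
    Function.Injective (rp j) := by
  intro c c' h
  have h1 := rp_cl j hj c
  rw [h] at h1
  exact isCl_unique j hj h1 (rp_cl j hj c')

theorem rp_range (j : Ei ≃+* 𝓞 K) : Set.range (rp j) = reps K := by
  ext x
  constructor
  · rintro ⟨c, rfl⟩
    refine ⟨(j w) ^ c.1.val, (2 * c.2).val, ?_, ZMod.val_lt _, rfl⟩
    rw [← pow_mul, mul_comm, pow_mul, w3, one_pow]
  · rintro ⟨ω, k, hω, hk, rfl⟩
    obtain ⟨y, rfl⟩ := j.surjective ω
    have h3 : y ^ 3 = 1 := by
      apply j.injective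
      rw [map_pow, hω, map_one]
    obtain ⟨i, rfl⟩ := cube_one h3
    refine ⟨(i, 2 * (k : ZMod 3)), ?_⟩
    unfold rp
    have : (2 * (2 * (k : ZMod 3))).val = k := by
      interval_cases k <;> rfl
    rw [map_pow]
    simp only [this]

theorem kapJ_reps (j : Ei ≃+* 𝓞 K) (hj : ∀ z : Ei, Algebra.norm ℤ (j z) = nr z) {I J : Type}
    [Fintype I] (n : J → I → ℕ) (C : J → 𝓞 K) (c : J → ZMod 3 × ZMod 3)
    (hc : ∀ t, IsCl (j w) (C t) (c t)) :
    kapJ n c = ({u : I → 𝓞 K | (∀ k, u k ∈ reps K) ∧ ∀ t, ¬ Nm1 (dO (n t) u * C t)}.ncard : ℝ) /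
      9 ^ Fintype.card I := by
  unfold kapJ
  congr 2
  have hinj : Function.Injective (fun (u : I → ZMod 3 × ZMod 3) (k : I) => rp j (u k)) := by
    intro u u' h
    funext k
    exact rp_inj j hj (congrFun h k)
  rw [← Set.ncard_image_of_injective _ hinj]
  congr 1
  have hcl : ∀ (u : I → ZMod 3 × ZMod 3) (t : J),
      IsCl (j w) (dO (n t) (fun k => rp j (u k)) * C t) (∑ k, n t k • u k + c t) := fun u t =>
    isCl_mul (w3 j) (isCl_dO (w3 j) (n t) fun k => rp_cl j hj (u k)) (hc t)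
  have hiff : ∀ (u : I → ZMod 3 × ZMod 3) (t : J),
      Nm1 (dO (n t) (fun k => rp j (u k)) * C t) ↔ ∑ k, n t k • u k + c t = 0 := by
    intro u t
    unfold Nm1
    rw [← isCl_zero (ω := j w)]
    constructor
    · intro h
      exact isCl_unique j hj (hcl u t) h
    · intro h
      rw [← h]
      exact hcl u t
  ext v
  simp only [Set.mem_image, Set.mem_ofPred_eq]
  constructor
  · rintro ⟨u, hu, rfl⟩
    refine ⟨fun k => ?_, fun t => ?_⟩
    · rw [← rp_range j]
      exact ⟨_, rfl⟩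
    · rw [hiff]
      exact hu t
  · rintro ⟨h1, h2⟩
    have h3 : ∀ k, ∃ c, rp j c = v k := fun k => by
      have := h1 k
      rw [← rp_range j] at this
      exact this
    choose u hu using h3
    have hv : v = fun k => rp j (u k) := funext fun k => (hu k).symm
    refine ⟨u, fun t => ?_, hv.symm⟩
    have := h2 t
    rw [hv, hiff] at this
    exact this

end

end Run7.h707.TF
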