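import Pool.Agent.Run7.h707.TF.LawD
import Pool.Agent.Run7.h707.TF.FldG
import Pool.Agent.Run7.h707.TF.Kp

/-! Fixed curves over a fixed field `F₀`, all the extensions `F₀(∛a_1, …, ∛a_r)` -/

set_option autoImplicit false
set_option linter.unusedVariables false
set_option linter.unusedSectionVars false

open scoped Classical

namespace Run7.h707.TF

open Finset Filter NumberField IsDedekindDomain WeierstrassCurve
open Pool.Agent.Y692.QS (Ei w nr)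
open Pool.Agent.Y703.XK (c9)
open Pool.Agent.H921R2.TatePole (nm)
open Pool.Agent.Y696.CTK (ED Tri)
open Pool.Agent.TH841.NF.D (Sha)
open Run7.h707.TC (FamO ExO)
open Run7.h707.TE (dO UO AllO bp lf ne_of_famO bp_ne dO_ne)

section
variable {K : Type} [Field K] [NumberField K] {J₀ : Type} [Fintype J₀] {s r : ℕ}

/-- the indices: the curve, the fixed exponents, the nonzero exponents of the parameters -/
abbrev IX (J₀ : Type) (s r : ℕ) : Type := J₀ × (Fin s → ZMod 3) × {ν : Fin r → ZMod 3 // ν ≠ 0}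

noncomputable instance : Fintype {ν : Fin r → ZMod 3 // ν ≠ 0} := inferInstance

/-- related indices, in terms of the twists: `δ δ'` or `δ δ'²` is identically a cube -/
def Rx (C : J₀ → 𝓞 K) (d : Fin s → 𝓞 K) (t t' : IX J₀ s r) : Prop :=
  ∃ e : ℕ, (e = 1 ∨ e = 2) ∧ (∀ k, t.2.2.1 k + e * t'.2.2.1 k = 0) ∧
    ∃ x : 𝓞 K, (C t.1 * bp d t.2.1) * (C t'.1 * bp d t'.2.1) ^ e = x ^ 3

/-- the proportion of the classes -/
noncomputable def kapX (C : J₀ → 𝓞 K) (d : Fin s → 𝓞 K) (r : ℕ) : ℝ :=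
  ({u : Fin r → 𝓞 K | (∀ k, u k ∈ reps K) ∧ ∀ (t : J₀) (μ : Fin s → ZMod 3) (ν : Fin r → ZMod 3),
    ν ≠ 0 → ¬ Nm1 (C t * bp d μ * bp u ν)}.ncard : ℝ) / 9 ^ r

theorem bp_eq_dO (u : Fin r → 𝓞 K) (ν : Fin r → ZMod 3) : bp u ν = dO (fun k => (ν k).val) u := rfl

/-- **The law for the extensions of a fixed field.** -/
theorem law_X (j : Ei ≃+* 𝓞 K) (hj : ∀ z : Ei, Algebra.norm ℤ (j z) = nr z) {B₀ : Type}
    [Fintype B₀] (l₀ : J₀ → B₀ → ℕ) {b₀ : B₀ → 𝓞 K} (hb₀ : ∀ i, FamO (b₀ i)) {d : Fin s → 𝓞 K}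
    (hd : ∀ i, FamO (d i)) (R : Finset (IX J₀ s r))
    (hR : ∀ t ∈ R, ∀ t' ∈ R, t ≠ t' → ¬ Rx (fun t => dO (l₀ t) b₀) d t t')
    (hR' : ∀ t, ∃ t' ∈ R, Rx (fun t => dO (l₀ t) b₀) d t t') :
    (∃ (c : ℝ) (X₀ : ℕ), 0 < c ∧ ∀ X : ℕ, X₀ ≤ X → c * (X : ℝ) ^ r ≤
      ({a : Fin r → 𝓞 K | AllO X a}.ncard : ℝ)) ∧
    Tendsto (fun X : ℕ => ({a : Fin r → 𝓞 K | AllO X a ∧
      (∀ (t : J₀) (μ : Fin s → ZMod 3) (ν : Fin r → ZMod 3), ν ≠ 0 →
        ¬ ExO (dO (l₀ t) b₀ * bp d μ * bp a ν)) ∧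
      ∀ (μ : Fin s → ZMod 3) (ν : Fin r → ZMod 3), ν ≠ 0 → ¬ UO (bp d μ * bp a ν)}.ncard : ℝ)
      / ({a : Fin r → 𝓞 K | AllO X a}.ncard : ℝ)) atTop
      (nhds (kapX (fun t => dO (l₀ t) b₀) d r)) ∧
    Tendsto (fun X : ℕ => ({a : Fin r → 𝓞 K | AllO X a ∧
      ((∀ (t : J₀) (μ : Fin s → ZMod 3) (ν : Fin r → ZMod 3), ν ≠ 0 →
        ¬ ExO (dO (l₀ t) b₀ * bp d μ * bp a ν)) ∧
      ∀ (μ : Fin s → ZMod 3) (ν : Fin r → ZMod 3), ν ≠ 0 → ¬ UO (bp d μ * bp a ν)) ∧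
      ∀ (t : J₀) (μ : Fin s → ZMod 3) (ν : Fin r → ZMod 3), ν ≠ 0 →
        Tri (dO (l₀ t) b₀ * bp d μ * bp a ν)}.ncard : ℝ)
      / ({a : Fin r → 𝓞 K | AllO X a}.ncard : ℝ)) atTop
      (nhds (kapX (fun t => dO (l₀ t) b₀) d r * c9 ^ R.card)) := by
  have hval : ∀ x : ZMod 3, ((x.val : ℕ) : ZMod 3) = x := fun x => ZMod.natCast_zmod_val x
  have hnz : ∀ ν : {ν : Fin r → ZMod 3 // ν ≠ 0}, ∃ k, (((ν.1 k).val : ℕ) : ZMod 3) ≠ 0 := by
    intro ν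
    obtain ⟨k, hk⟩ := Function.ne_iff.1 ν.2
    exact ⟨k, by rw [hval]; exact hk⟩
  have hdO : ∀ (t : J₀) (μ : Fin s → ZMod 3),
      dO (Sum.elim (l₀ t) fun i => (μ i).val) (Sum.elim b₀ d) = dO (l₀ t) b₀ * bp d μ :=
    fun t μ => Run7.h707.TE.dO_elim (l₀ t) μ b₀ d
  have hdO' : ∀ (μ : Fin s → ZMod 3),
      dO (Sum.elim (fun _ => 0) fun i => (μ i).val) (Sum.elim b₀ d) = bp d μ := fun μ => by
    rw [Run7.h707.TE.dO_elim]
    unfold Run7.h707.TE.dO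
    simp
  choose cb hcb using fun i => isCl_ex j hj (hb₀ i)
  choose cd hcd using fun i => isCl_ex j hj (hd i)
  have hcl : ∀ t : IX J₀ s r, IsCl (j w) (dO (Sum.elim (l₀ t.1) fun i => (t.2.1 i).val)
      (Sum.elim b₀ d)) (∑ i, l₀ t.1 i • cb i + ∑ i, (t.2.1 i).val • cd i) := fun t => by
    rw [hdO]
    exact isCl_mul (w3 j) (isCl_dO (w3 j) _ hcb) (isCl_bp (w3 j) hcd _)
  have hRl : ∀ t t' : IX J₀ s r, Rl (fun (t : IX J₀ s r) (k : Fin r) => (t.2.2.1 k).val)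
      (fun t => Sum.elim (l₀ t.1) fun i => (t.2.1 i).val) (Sum.elim b₀ d) t t' ↔
      Rx (fun t => dO (l₀ t) b₀) d t t' := by
    intro t t'
    unfold Rl Rx
    simp only [hdO, hval]
  obtain ⟨h1, h2, h3⟩ := lawD (J := IX J₀ s r)
    (J' := (Fin s → ZMod 3) × {ν : Fin r → ZMod 3 // ν ≠ 0}) j hj
    (fun t k => (t.2.2.1 k).val) (fun t => Sum.elim (l₀ t.1) fun i => (t.2.1 i).val)
    (b := Sum.elim b₀ d) (fam_elim hb₀ hd) (fun t => hnz t.2.2) R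
    (fun t ht t' ht' hne => by rw [hRl]; exact hR t ht t' ht' hne)
    (fun t => by
      obtain ⟨t', ht', h⟩ := hR' t
      exact ⟨t', ht', (hRl t t').2 h⟩)
    (fun t k => (t.2.1 k).val) (fun t => Sum.elim (fun _ => 0) fun i => (t.1 i).val)
    (fun t => hnz t.2) _ hcl
  rw [kapJ_reps j hj _ _ _ hcl, Fintype.card_fin] at h2 h3
  have hk : ({u : Fin r → 𝓞 K | (∀ k, u k ∈ reps K) ∧ ∀ t : IX J₀ s r,
      ¬ Nm1 (dO (fun k => (t.2.2.1 k).val) u * dO (Sum.elim (l₀ t.1) fun i => (t.2.1 i).val)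
        (Sum.elim b₀ d))}.ncard : ℝ) / 9 ^ r = kapX (fun t => dO (l₀ t) b₀) d r := by
    unfold kapX
    congr 3
    ext u
    simp only [hdO, ← bp_eq_dO, Set.mem_ofPred_eq, Prod.forall, Subtype.forall]
    refine and_congr_right fun _ => forall_congr' fun t => forall_congr' fun μ =>
      forall_congr' fun ν => imp_congr_right fun _ => ?_
    rw [mul_comm (bp u ν)]
  rw [hk] at h2 h3
  have hfam : ∀ a : Fin r → 𝓞 K, (∀ t : IX J₀ s r, ¬ ExO (dO (fun k => (t.2.2.1 k).val) a *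
      dO (Sum.elim (l₀ t.1) fun i => (t.2.1 i).val) (Sum.elim b₀ d))) ↔
      ∀ (t : J₀) (μ : Fin s → ZMod 3) (ν : Fin r → ZMod 3), ν ≠ 0 →
        ¬ ExO (dO (l₀ t) b₀ * bp d μ * bp a ν) := by
    intro a
    simp only [hdO, ← bp_eq_dO, Prod.forall, Subtype.forall]
    refine forall_congr' fun t => forall_congr' fun μ => forall_congr' fun ν =>
      imp_congr_right fun _ => ?_
    rw [mul_comm (bp a ν)]
  have htri : ∀ a : Fin r → 𝓞 K, (∀ t : IX J₀ s r, Tri (dO (fun k => (t.2.2.1 k).val) a *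
      dO (Sum.elim (l₀ t.1) fun i => (t.2.1 i).val) (Sum.elim b₀ d))) ↔
      ∀ (t : J₀) (μ : Fin s → ZMod 3) (ν : Fin r → ZMod 3), ν ≠ 0 →
        Tri (dO (l₀ t) b₀ * bp d μ * bp a ν) := by
    intro a
    simp only [hdO, ← bp_eq_dO, Prod.forall, Subtype.forall]
    refine forall_congr' fun t => forall_congr' fun μ => forall_congr' fun ν =>
      imp_congr_right fun _ => ?_
    rw [mul_comm (bp a ν)]
  have huo : ∀ a : Fin r → 𝓞 K, (∀ t : (Fin s → ZMod 3) × {ν : Fin r → ZMod 3 // ν ≠ 0},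
      ¬ UO (dO (fun k => (t.2.1 k).val) a * dO (Sum.elim (fun _ => 0) fun i => (t.1 i).val)
        (Sum.elim b₀ d))) ↔
      ∀ (μ : Fin s → ZMod 3) (ν : Fin r → ZMod 3), ν ≠ 0 → ¬ UO (bp d μ * bp a ν) := by
    intro a
    simp only [hdO', ← bp_eq_dO, Prod.forall, Subtype.forall]
    refine forall_congr' fun μ => forall_congr' fun ν => imp_congr_right fun _ => ?_
    rw [mul_comm (bp a ν)]
  simp only [hfam, huo, htri] at h2 h3
  rw [Fintype.card_fin] at h1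
  exact ⟨h1, h2, h3⟩

end

end Run7.h707.TF
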