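import Pool.Agent.Q283.T3.Cnt
import Pool.Agent.N883.FF.Hal

/-! Mean values: the sets with few primes at which a cubic character with the symbol of `ω` is not
trivial -/

set_option autoImplicit false

open scoped Classical

namespace Run7.h707.TF

open Finset Filter
open Pool.Agent.Y692.QS (Ei)
open Pool.Agent.Y715.T.Rec (cs)
open Pool.Agent.Y715.T.RecG (Pq)
open Pool.Agent.Y699.E
open Pool.Agent.Y703.CX (eL zz kk)
open Pool.Agent.Y703.XK
open Pool.Agent.Y433.XK (M_le eulerE)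
open Pool.Agent.N883.FF (nq)
open Pool.Agent.N883.FF.HalA (ps ps_ch ps_le ch_log ps_prm)
open Q283.T3 (mf_mono conv_two sum_all hall_aux4)

/-- the weight of a prime -/
noncomputable def wtB (A B : Ei) (t : ZMod 3) (π : Ei) : ℝ :=
  (31 / 32) * ((1 + 2 * (ps A B t π).re) / 3) + 1 / 32

theorem wtB_nonneg {A B : Ei} (hA : PS A) (hB : PS B) (t : ZMod 3) (π : Ei) :
    0 ≤ wtB A B t π := by
  have := re_nonneg ((ps_ch hA hB t).val π)
  unfold wtB
  linarith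

theorem wtB_le {A B : Ei} (hA : PS A) (hB : PS B) (t : ZMod 3) (π : Ei) : wtB A B t π ≤ 1 := by
  have := re_le ((ps_ch hA hB t).val π)
  unfold wtB
  linarith

/-- **the mean value of the weight** -/
theorem hallWB : ∃ K : ℝ, 1 ≤ K ∧ ∀ (A B : Ei) (t : ZMod 3), PS A → PS B → (A ≠ B ∨ t ≠ 0) →
    ∀ T : ℕ, ∑ n ∈ SB T, mf (wtB A B t) n ≤
      K * lg (nrm A * nrm B) * (T * (lg T) ^ (-(1 / 4) : ℝ)) := by
  obtain ⟨C, hC0, hC⟩ := M_le
  set K₀ : ℝ := (96 ^ 2 * 1992) * (64 * (Real.exp (3 / 32 * C) * 3)) with hK₀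
  have hexp : 1 ≤ Real.exp (3 / 32 * C) := Real.one_le_exp (by positivity)
  have hK₀1 : 1 ≤ K₀ := by rw [hK₀]; nlinarith
  refine ⟨21 * K₀, by linarith, fun A B t hA hB hAB T => ?_⟩
  have hl := one_le_lg (nrm A * nrm B)
  have hlT := one_le_lg T
  have hlT0 := lg_pos T
  by_cases hT : T ≤ 1
  · interval_cases T
    · rw [SB_empty rfl, sum_empty]
      have := lg_pos (nrm A * nrm B)
      positivity
    · have h2 : ∑ n ∈ SB 1, mf (wtB A B t) n ≤ 16 := by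
        refine (sum_le_sum fun n _ => mf_le_one (wtB_nonneg hA hB t) (wtB_le hA hB t) n).trans ?_
        rw [sum_const, nsmul_eq_mul, mul_one]
        refine (card_SB_le le_rfl).trans (le_of_eq (by norm_num))
      have h3 : lg 1 = 1 := by unfold lg; simp
      rw [h3, Real.one_rpow]
      push_cast
      nlinarith
  have hT2 : 2 ≤ T := by omega
  have hch := ps_ch hA hB t
  have hN1 : 1 ≤ nrm A * nrm B := Nat.mul_pos (nrm_pos' hA.ne) (nrm_pos' hB.ne)
  have hlog : ∀ Y : ℕ, ‖∑ d ∈ PB Y, ps A B t d / nrm d‖ ≤ 1992 * lg (nrm A * nrm B) := by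
    intro Y
    have := ch_log hch hN1 (c := 972) (by norm_num) (fun v hv => ps_le hA hB hAB hv) Y
    refine this.trans (le_of_eq ?_)
    norm_num
  have hf0 : ∀ π, 0 ≤ 1 + 2 * (ps A B t π).re := fun π => re_nonneg (hch.val π)
  have h3T : 3 ≤ T ^ 3 := by
    have := Nat.pow_le_pow_left hT2 3
    omega
  -- the two factors
  have e1 : ∑ n ∈ PB (T ^ 3), mf (fun π => 3 * wtB A B t π) n / nrm n ≤
      ∑ n ∈ PB (T ^ 3), mf (fun π => (1 + 2 * (ps A B t π).re) + 3 / 32) n / nrm n := by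
    refine sum_le_sum fun n _ => ?_
    refine div_le_div_of_nonneg_right (mf_mono (fun π => ?_) (fun π => ?_) n) (Nat.cast_nonneg _)
    · have := wtB_nonneg hA hB t π
      linarith
    · have := hf0 π
      unfold wtB
      linarith
  have e2 := conv_two hf0 (fun _ => (by norm_num : (0 : ℝ) ≤ 3 / 32)) (T ^ 3)
  have e3 := conv_bound hch hlog (T ^ 3)
  have e4 := sum_all (c := 3 / 32) (by norm_num) (by norm_num) (T ^ 3)
  have e5 := lg_cube T
  have e6 := lg_pos (T ^ 3)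
  have e7 : (32 * lg (T ^ 3)) ^ 2 * (1992 * lg (nrm A * nrm B)) ≤
      (96 ^ 2 * 1992) * lg (nrm A * nrm B) * (lg T) ^ 2 := by
    have : (32 * lg (T ^ 3)) ^ 2 ≤ (96 * lg T) ^ 2 := by
      apply pow_le_pow_left₀ (by positivity)
      linarith
    calc (32 * lg (T ^ 3)) ^ 2 * (1992 * lg (nrm A * nrm B)) ≤
          (96 * lg T) ^ 2 * (1992 * lg (nrm A * nrm B)) := by
            apply mul_le_mul_of_nonneg_right this (by positivity)
      _ = _ := by ring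
  have hlogT : 0 < Real.log ((T ^ 3 : ℕ) : ℝ) := Real.log_pos (by exact_mod_cast (by omega : 1 < T ^ 3))
  have hloglg : Real.log ((T ^ 3 : ℕ) : ℝ) ≤ 3 * lg T := (log_le_lg (by omega)).trans e5
  have e8 : Real.exp (3 / 32 * ∑ π ∈ QB (T ^ 3), (1 : ℝ) / nrm π) ≤
      Real.exp (3 / 32 * C) * 3 * (lg T) ^ (1 / 4 : ℝ) := by
    have g1 := hC (T ^ 3) h3T
    have g2 : Real.exp (3 / 32 * ∑ π ∈ QB (T ^ 3), (1 : ℝ) / nrm π) ≤
        Real.exp (3 / 32 * C + Real.log (Real.log ((T ^ 3 : ℕ) : ℝ)) * (3 / 16)) := by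
      apply Real.exp_le_exp.2
      linarith
    refine g2.trans ?_
    rw [Real.exp_add, Real.exp_mul (Real.log _) (3 / 16), Real.exp_log hlogT, mul_assoc]
    refine mul_le_mul_of_nonneg_left ?_ (Real.exp_pos _).le
    calc (Real.log ((T ^ 3 : ℕ) : ℝ)) ^ (3 / 16 : ℝ) ≤ (3 * lg T) ^ (3 / 16 : ℝ) :=
          Real.rpow_le_rpow hlogT.le hloglg (by norm_num)
      _ ≤ (3 * lg T) ^ (1 / 4 : ℝ) :=
          Real.rpow_le_rpow_of_exponent_le (by linarith) (by norm_num)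
      _ = 3 ^ (1 / 4 : ℝ) * (lg T) ^ (1 / 4 : ℝ) := Real.mul_rpow (by norm_num) hlT0.le
      _ ≤ 3 * (lg T) ^ (1 / 4 : ℝ) := by
          refine mul_le_mul_of_nonneg_right ?_ (by positivity)
          calc (3 : ℝ) ^ (1 / 4 : ℝ) ≤ 3 ^ (1 : ℝ) :=
                Real.rpow_le_rpow_of_exponent_le (by norm_num) (by norm_num)
            _ = 3 := Real.rpow_one _
  have hAA : ∑ n ∈ PB (T ^ 3), mf (fun π => 3 * wtB A B t π) n / nrm n ≤
      (K₀ * lg (nrm A * nrm B)) * (lg T) ^ (9 / 4 : ℝ) := by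
    refine e1.trans (e2.trans ?_)
    have g3 : (0 : ℝ) ≤ ∑ n ∈ PB (T ^ 3), mf (fun _ => 3 / 32) n / nrm n :=
      sum_nonneg fun n _ => div_nonneg (mf_nonneg (fun _ => by norm_num) _) (Nat.cast_nonneg _)
    have g4 : ∑ n ∈ PB (T ^ 3), mf (fun _ => 3 / 32) n / nrm n ≤
        64 * (Real.exp (3 / 32 * C) * 3 * (lg T) ^ (1 / 4 : ℝ)) := e4.trans (by linarith)
    calc _ ≤ ((96 ^ 2 * 1992) * lg (nrm A * nrm B) * (lg T) ^ 2) *
          (64 * (Real.exp (3 / 32 * C) * 3 * (lg T) ^ (1 / 4 : ℝ))) :=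
          mul_le_mul (e3.trans e7) g4 g3 (by positivity)
      _ = K₀ * lg (nrm A * nrm B) * ((lg T) ^ 2 * (lg T) ^ (1 / 4 : ℝ)) := by rw [hK₀]; ring
      _ = _ := by
          congr 1
          rw [← Real.rpow_natCast, ← Real.rpow_add hlT0]
          norm_num
  have hmul : 1 ≤ K₀ * lg (nrm A * nrm B) := one_le_mul_of_one_le_of_one_le hK₀1 hl
  refine (hall_aux4 (wtB_nonneg hA hB t) (wtB_le hA hB t) hT2 hmul hAA).trans ?_
  have h9 : (K₀ * lg (nrm A * nrm B)) ^ (1 / 3 : ℝ) ≤ K₀ * lg (nrm A * nrm B) := by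
    calc (K₀ * lg (nrm A * nrm B)) ^ (1 / 3 : ℝ) ≤ (K₀ * lg (nrm A * nrm B)) ^ (1 : ℝ) :=
          Real.rpow_le_rpow_of_exponent_le hmul (by norm_num)
      _ = _ := Real.rpow_one _
  have h10 : (0 : ℝ) ≤ T * (lg T) ^ (-(1 / 4) : ℝ) := by positivity
  calc 21 * (K₀ * lg (nrm A * nrm B)) ^ (1 / 3 : ℝ) * (T * (lg T) ^ (-(1 / 4) : ℝ)) ≤
        21 * (K₀ * lg (nrm A * nrm B)) * (T * (lg T) ^ (-(1 / 4) : ℝ)) := by gcongr
    _ = _ := by ring

end Run7.h707.TF
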