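import Pool.Agent.Run7.h707.TF.FinC

/-! The hypersurfaces over a field of cube roots, from the functions over `K` -/

set_option autoImplicit false
set_option linter.unusedVariables false
set_option linter.unusedSectionVars false

open scoped Classical

namespace Run7.h707.TF

open Finset Filter NumberField IsDedekindDomain WeierstrassCurve
open Pool.Agent.N883.FG
open Pool.Agent.N883.DQ (Dt)
open Pool.Agent.Y692.QS (Ei w nr)
open Pool.Agent.H921R2.TatePole (nm)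
open Pool.Agent.Y696.CTK (ED Tri)
open Pool.Agent.TH841.NF.D (Sha)
open Run7.h707.TC (FamO ExO IsLFT mem_SS)
open Run7.h707.TE

section
variable {K : Type} [Field K] [NumberField K]

theorem dt_ne {m : ℕ} {x : Fin m → 𝓞 K} (hx : ∀ i, x i ≠ 0) (T : Finset (Fin m)) : Dt x T ≠ 0 := by
  unfold Pool.Agent.N883.DQ.Dt
  exact mul_ne_zero (Finset.prod_ne_zero_iff.2 fun i _ => hx i)
    (Finset.prod_ne_zero_iff.2 fun i _ => hx i)

/-- **The hypersurfaces over the field of the cube roots.** -/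
theorem hyp_G (j : Ei ≃+* 𝓞 K) {c : ℕ} (hc : c ≤ 2) {r : ℕ} {x : Fin (2 * c + 3) → 𝓞 K}
    (hx : ∀ i, x i ≠ 0) {d : Fin r → 𝓞 K} (hd0 : ∀ i, d i ≠ 0)
    (hC : ∀ ν : Fin r → ZMod 3, ν ≠ 0 → ∀ y : 𝓞 K, y ^ 3 ≠ bp d ν)
    (hone : ∀ T : Finset (Fin (2 * c + 3)), T.card = c → ∀ ν : Fin r → ZMod 3,
      OneL (Dt x T * bp d ν))
    (F : Type) [Field F] [NumberField F] [Algebra K F] (θ : Fin r → F)
    (hθ : ∀ i, θ i ^ 3 = algebraMap K F (d i))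
    (hgen : ∀ S : Subfield F, (∀ k : K, algebraMap K F k ∈ S) → (∀ i, θ i ∈ S) → S = ⊤) :
    Module.finrank K F = 3 ^ r ∧
    ∃ L : ℂ → ℂ, IsLFT (fun i => algebraMap (𝓞 K) (𝓞 F) (x i)) L ∧
      ((∀ T : Finset (Fin (2 * c + 3)), T.card = c → ∀ ν : Fin r → ZMod 3,
          Tri (Dt x T * bp d ν)) →
        L (c + 1) ≠ 0 ∧ ∀ T : Finset (Fin (2 * c + 3)), T.card = c →
          Finite (ED (algebraMap K F (Dt x T : 𝓞 K))).toAffine.Point ∧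
          ∀ (n : ℕ) (y : Sha (ED (algebraMap K F (Dt x T : 𝓞 K)))),
            3 ^ n • y = 0 → 3 ^ r • y = 0) := by
  have key : ∀ T : ↥(SS c), Module.finrank K F = 3 ^ r ∧ ∃ L : ℂ → ℂ, Differentiable ℂ L ∧
      (∀ s : ℂ, 3 / 2 < s.re → HasProd (fun v : HeightOneSpectrum (𝓞 F) =>
        lf (algebraMap (𝓞 K) (𝓞 F) (Dt x T.1)) v ((nm v : ℂ) ^ (-s))) (L s)) ∧
      (∀ s : ℂ, 3 / 2 < s.re → L s = (ED (algebraMap K F (Dt x T.1 : 𝓞 K))).LSeries s) ∧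
      ((∀ ν : Fin r → ZMod 3, Tri (Dt x T.1 * bp d ν)) → L 1 ≠ 0 ∧
        Finite (ED (algebraMap K F (Dt x T.1 : 𝓞 K))).toAffine.Point ∧
        ∀ (k : ℕ) (y : Sha (ED (algebraMap K F (Dt x T.1 : 𝓞 K)))), 3 ^ k • y = 0 →
          3 ^ r • y = 0) := fun T =>
    fld_G j (dt_ne hx T.1) hd0 hC (hone T.1 (mem_SS.1 T.2)) F θ hθ hgen
  have hne : (SS c).Nonempty := by
    unfold SS
    rw [powersetCard_nonempty, card_univ, Fintype.card_fin]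
    omega
  obtain ⟨T₀, hT₀⟩ := hne
  refine ⟨(key ⟨T₀, hT₀⟩).1, ?_⟩
  choose hdim L l1 l2 l3 l4 using key
  obtain ⟨LT, hLT⟩ : ∃ LT : Finset (Fin (2 * c + 3)) → ℂ → ℂ, ∀ T : ↥(SS c), LT T = L T := by
    refine ⟨fun T => if h : T ∈ SS c then L ⟨T, h⟩ else 0, fun T => ?_⟩
    exact dif_pos T.2
  have hDt : ∀ T : Finset (Fin (2 * c + 3)), Dt (fun k => algebraMap (𝓞 K) (𝓞 F) (x k)) T =
      algebraMap (𝓞 K) (𝓞 F) (Dt x T) := by
    intro T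
    unfold Pool.Agent.N883.DQ.Dt
    rw [map_mul, map_prod, map_prod]
  have hxF : ∀ k, algebraMap (𝓞 K) (𝓞 F) (x k) ≠ 0 := fun k => alg_ne (hx k)
  refine ⟨_, gen_F hc hxF (L := LT) (fun T hT => ?_) (fun T hT s hs => ?_), fun ht => ⟨?_, ?_⟩⟩
  · rw [hLT ⟨T, hT⟩]
    exact l1 ⟨T, hT⟩
  · rw [hLT ⟨T, hT⟩, hDt]
    exact l2 ⟨T, hT⟩ s hs
  · refine Finset.prod_ne_zero_iff.2 fun T hT => ?_
    rw [add_sub_cancel_left, hLT ⟨T, hT⟩]
    exact (l4 ⟨T, hT⟩ (ht T (mem_SS.1 hT))).1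
  · intro T hT
    exact (l4 ⟨T, mem_SS.2 hT⟩ (ht T hT)).2

end

end Run7.h707.TF
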