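import Pool.Agent.Run7.h707.TF.Box
import Pool.Agent.Run7.h707.TD.Key2

/-! The sum over the boxes for tuples of sets of primes, with fixed primes -/

set_option autoImplicit false
set_option linter.unusedSectionVars false

open scoped Classical

namespace Run7.h707.TF

open Finset Module
open Pool.Agent.Y692.QS (Ei)
open Pool.Agent.Y715.T.Rec (cs)
open Pool.Agent.Y715.T.RecG (Pq)
open Pool.Agent.Y699.E (ez nrm QB mem_QB)
open Pool.Agent.Y703.CX (jj XX)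
open Pool.Agent.Y703.XK (prs HB S_EQ sm la bl S_BIL)
open Pool.Agent.R419.KF (wt wt_one wt_ne SG mem_SG)
open Pool.Agent.N883.FF (nq NdB)
open Pool.Agent.XLK (fcc nrm_one_le ph ky CC mem_CC ph_div ph_mod sm_union sm_disj prod_split
  ph_inj prod_ph le_XX hb_box card_QB_le prs_card sum_inv)
open Run7.h707.TC (TP mem_TP IjT kyT ijT_inj JT colT colT_spec IjK colT_iff sm_fillT la_fillT
  ph_fillT ky_fillT CC_inj Tt mem_Tt fill GT nq_congr card_Tt_le card_JT_le card_col prod_JT)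
open Run7.h707.TD (RV CdV mem_RV key_factsV key_bijV keg_errV)

/-- the property of the labels with respect to all the small primes and the fixed primes -/
def NdG {m : ℕ} (Nc : Finset Ei → Finset Ei → Prop) (P₀ : Finset Ei) (z : ℕ)
    (S : Fin m → Finset Ei) : Prop :=
  ∀ l, Nc ((Tt fun k => sm z (S k)) ∪ P₀) (la z (S l))

/-- the statement for the boxes with the decidability of equality as a variable -/
theorem box_decN {m : ℕ} {P₀ : Finset Ei} {Nc : Finset Ei → Finset Ei → Prop}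
    {G : (Fin m → Finset Ei) → Prop} {M : Fin m → Finset Ei} {R : ℕ} {c δ : ℝ}
    (hB : BXN P₀ Nc G M R c δ)
    (ι : Type) [Fintype ι] [inst : DecidableEq ι] (lo : LinearOrder ι) (col : ι → Fin m)
    (C : ι → Finset Ei) (X : ι → ℕ) (κ : ℝ) (S₀ : Fin m → Finset Ei) (h1 : 0 ≤ κ)
    (h2 : ∀ i, (C i).card ≤ X i) (h3 : HB C X κ) (h4 : ∀ k, ∀ u ∈ S₀ k, Pq u)
    (h5 : ∀ k, M k ⊆ S₀ k) (h6 : ∀ i, ∀ π ∈ C i, Pq π ∧ (∀ k, π ∉ S₀ k) ∧ π ∉ P₀)
    (h7 : ∀ i l, i ≠ l → Disjoint (C i) (C l)) (h8 : ∀ i, ∀ π ∈ C i, ∀ ρ ∈ C i, nq π = nq ρ)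
    (h10 : ∀ k, 4 * ((Tt S₀).card + 1) + R + 1 ≤ (univ.filter fun i => col i = k).card) :
    |(((Fintype.piFinset C).filter fun p =>
      (∀ k, Nc (Tt S₀ ∪ P₀) ((univ.filter fun i => col i = k).image p)) ∧
        G (fill col S₀ p)).card : ℝ) -
      c * (((Fintype.piFinset C).filter fun p =>
        (∀ k, Nc (Tt S₀ ∪ P₀) ((univ.filter fun i => col i = k).image p))).card : ℝ)| ≤
    δ * (((Fintype.piFinset C).filter fun p =>
        (∀ k, Nc (Tt S₀ ∪ P₀) ((univ.filter fun i => col i = k).image p))).card : ℝ) +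
    3 ^ (((Tt S₀).card + P₀.card) * Fintype.card ι + (prs ι).card) * (κ * ∏ j, (X j : ℝ)) := by
  have h := hB ι col C X κ S₀ h1 h2 h3 h4 h5 h6 h7 h8 h10
  have e : inst = fun a b => lo.toDecidableEq a b := Subsingleton.elim _ _
  subst e
  exact h

theorem per_keyN {m : ℕ} {P₀ : Finset Ei} {Nc : Finset Ei → Finset Ei → Prop}
    {G : (Fin m → Finset Ei) → Prop} {M : Fin m → Finset Ei} {R : ℕ} {c δ : ℝ}
    (hB : BXN P₀ Nc G M R c δ)
    (hδ0 : 0 ≤ δ) {C₁ : ℝ}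
    (hb1 : ∀ (P Q : Finset Ei) (A B z : ℕ) (c d : Ei → ℂ) (a : ZMod 3),
      (∀ π ∈ P, Pq π ∧ nrm π ≤ A) → (∀ ρ ∈ Q, Pq ρ ∧ nrm ρ ≤ B) → Disjoint P Q → a ≠ 0 →
      1 ≤ z → z ≤ A → z ≤ B → (∀ π, ‖c π‖ ≤ 1) → (∀ ρ, ‖d ρ‖ ≤ 1) →
      ‖∑ π ∈ P, ∑ ρ ∈ Q, c π * d ρ * ez (a * cs π ρ)‖ ^ 24 * z ≤ C₁ * ((A : ℝ) * B) ^ 24)
    {Y : Fin m → ℕ} {z H K : ℕ} {κ : ℝ} (hM : ∀ k, ∀ q ∈ M k, nrm q ≤ z) (hH : 1 ≤ H)
    (hz : 1 ≤ z) (hκ : 0 ≤ κ) (h1 : C₁ ≤ κ ^ 24 * z) (hm : 1 ≤ m) (hPz : ∀ u ∈ P₀, nrm u ≤ z)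
    (hPK : P₀.card ≤ K) (hK3 : 3 ≤ K) {k' : Fin m → Finset Ei × Finset ℕ}
    (hkey : k' ∈ (RV M Y z H K R).image (kyT z H)) :
    |(((RV M Y z H K R).filter fun S => kyT z H S = k' ∧
        (NdG Nc P₀ z S ∧ G S)).card : ℝ) -
      c * (((RV M Y z H K R).filter fun S => kyT z H S = k' ∧ NdG Nc P₀ z S).card : ℝ)| ≤
    δ * (((RV M Y z H K R).filter fun S => kyT z H S = k').card : ℝ) +
      (3 ^ (5 * (m * K) ^ 2) * κ) *
        ∏ k, ((Y k : ℝ) * (1 / ((∏ p ∈ (k' k).1, nrm p : ℕ) : ℝ))) := by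
  obtain ⟨h₀O, h₀, hJi, hCd, hJf⟩ := key_factsV hM hH hkey
  obtain ⟨c1, c4, c5, c7⟩ := hCd
  have hcJ : Fintype.card ↥(JT k') = (JT k').card := Fintype.card_coe _
  have hCmem : ∀ i : ↥(JT k'), ∀ p ∈ CC z H i, Pq p ∧ z < nrm p ∧ nrm p ≤ XX H (i.1 / 9) := by
    intro i p hp
    obtain ⟨k1, k2, k3⟩ := (mem_CC hH).1 hp
    refine ⟨k1, k2, ?_⟩
    unfold CC at hp
    rw [Finset.mem_filter, mem_QB] at hp
    exact hp.1.1
  have hdis : ∀ i l : ↥(JT k'), i ≠ l → Disjoint (CC z H (i : ℕ)) (CC z H (l : ℕ)) := by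
    intro i l hil
    rw [Finset.disjoint_left]
    intro p hp hp'
    exact hil (Subtype.ext (CC_inj hH hp hp'))
  have hzX : ∀ i : ↥(JT k'), z ≤ XX H (i.1 / 9) := fun i => (hJf _ i (colT_spec k' i)).1
  have hHB : HB (fun i : ↥(JT k') => CC z H i) (fun i : ↥(JT k') => 16 * XX H (i.1 / 9)) κ :=
    hb_box hb1 _ _ hz hκ h1 (fun i => by have := hzX i; omega)
      (fun i p hp => by
        obtain ⟨k1, k2, k3⟩ := hCmem i p hp
        exact ⟨k1, by omega⟩) hdis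
  have hcard : ∀ i : ↥(JT k'), (CC z H (i : ℕ)).card ≤ 16 * XX H (i.1 / 9) := by
    intro i
    refine (Finset.card_filter_le _ _).trans (card_QB_le ?_)
    have := hzX i
    omega
  have hnq : ∀ i : ↥(JT k'), ∀ π ∈ CC z H (i : ℕ), ∀ ρ ∈ CC z H (i : ℕ), nq π = nq ρ := by
    intro i π hπ ρ hρ
    have h5 := ((mem_CC hH).1 hπ).2.2
    have h6 := ((mem_CC hH).1 hρ).2.2
    apply nq_congr
    rw [← ph_mod H π, ← ph_mod H ρ, h5, h6]
  have hbox := box_decN hB ↥(JT k') inferInstance (colT k') (fun i : ↥(JT k') => CC z H i)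
    (fun i : ↥(JT k') => 16 * XX H (i.1 / 9)) κ (fun k => (k' k).1) hκ hcard hHB h₀O c1
    (fun i p hp => by
      obtain ⟨k1, k2, k3⟩ := hCmem i p hp
      refine ⟨k1, fun k h => ?_, fun h => ?_⟩
      · have := h₀ k p h
        omega
      · have := hPz p h
        omega) hdis hnq
    (fun k => by
      have h9 := card_col (k' := k') hJi k
      have h8 := c7 k
      rw [← h9] at h8
      exact h8)
  have hT : ∀ p : ↥(JT k') → Ei, (∀ i : ↥(JT k'), p i ∈ CC z H (i : ℕ)) →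
      (NdG Nc P₀ z (fill (colT k') (fun k => (k' k).1) p) ↔
        (∀ l, Nc ((Tt fun k => (k' k).1) ∪ P₀) ((univ.filter fun i => colT k' i = l).image p))) := by
    intro p hp
    unfold NdG
    have : (fun k => sm z (fill (colT k') (fun k => (k' k).1) p k)) = fun k => (k' k).1 :=
      funext fun k => sm_fillT hH h₀ hp k
    rw [this]
    refine forall_congr' fun l => ?_
    rw [la_fillT hH h₀ hp]
  have e1 : (((Fintype.piFinset fun i : ↥(JT k') => CC z H i).filter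
      fun p => (∀ l, Nc ((Tt fun k => (k' k).1) ∪ P₀) ((univ.filter fun i => colT k' i = l).image p)) ∧
        G (fill (colT k') (fun k => (k' k).1) p)).card) =
      ((RV M Y z H K R).filter fun S => kyT z H S = k' ∧
        (NdG Nc P₀ z S ∧ G S)).card := by
    refine Eq.trans (fcc ?_) ((key_bijV hM hH hkey (fun S => NdG Nc P₀ z S ∧ G S)).trans
      (fcc fun _ _ => Iff.rfl))
    intro p hp
    rw [Fintype.mem_piFinset] at hp
    rw [hT p hp]
  have e2 : (((Fintype.piFinset fun i : ↥(JT k') => CC z H i).filter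
      fun p => ∀ l, Nc ((Tt fun k => (k' k).1) ∪ P₀)
        ((univ.filter fun i => colT k' i = l).image p)).card) =
      ((RV M Y z H K R).filter fun S => kyT z H S = k' ∧ NdG Nc P₀ z S).card := by
    refine Eq.trans (fcc ?_) ((key_bijV hM hH hkey (fun S => NdG Nc P₀ z S)).trans
      (fcc fun _ _ => Iff.rfl))
    intro p hp
    rw [Fintype.mem_piFinset] at hp
    rw [hT p hp]
  rw [← e1, ← e2]
  have e3 : (((Fintype.piFinset fun i : ↥(JT k') => CC z H i).filter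
      fun p => ∀ l, Nc ((Tt fun k => (k' k).1) ∪ P₀)
        ((univ.filter fun i => colT k' i = l).image p)).card : ℝ) ≤
      (((RV M Y z H K R).filter fun S => kyT z H S = k').card : ℝ) := by
    rw [e2]
    have : (RV M Y z H K R).filter (fun S => kyT z H S = k' ∧ NdG Nc P₀ z S) ⊆
        (RV M Y z H K R).filter fun S => kyT z H S = k' := by
      intro S hS
      rw [Finset.mem_filter] at hS ⊢
      exact ⟨hS.1, hS.2.1⟩
    exact_mod_cast Finset.card_le_card this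
  refine hbox.trans ?_
  obtain ⟨n, hn⟩ : ∃ n : ℕ, n = (prs ↥(JT k')).card := ⟨_, rfl⟩
  have hJK : (JT k').card ≤ m * K := card_JT_le k' K fun k => by have := c4 k; omega
  have hSK : (Tt fun k => (k' k).1).card ≤ m * K := card_Tt_le _ K fun k => by
    have := c4 k
    show (k' k).1.card ≤ K
    omega
  have hpr : n ≤ (m * K) * (m * K) := by
    rw [hn]
    refine (prs_card ↥(JT k')).trans ?_
    rw [hcJ]
    exact Nat.mul_le_mul hJK hJK
  rw [← hn]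
  have hN0 : ∀ k, (0 : ℝ) < ((∏ p ∈ (k' k).1, nrm p : ℕ) : ℝ) := by
    intro k
    exact_mod_cast Finset.prod_pos fun p hp => nrm_one_le (h₀O k p hp)
  have hprod : ∏ j : ↥(JT k'), ((16 * XX H (j.1 / 9) : ℕ) : ℝ) ≤
      3 ^ (3 * (m * K)) * ∏ k, ((Y k : ℝ) * (1 / ((∏ p ∈ (k' k).1, nrm p : ℕ) : ℝ))) := by
    have h5 : ∏ j : ↥(JT k'), ((16 * XX H (j.1 / 9) : ℕ) : ℝ) =
        16 ^ (JT k').card * ∏ k, ((∏ i ∈ (k' k).2, XX H (i / 9) : ℕ) : ℝ) := by
      have h6 := prod_JT (k' := k') hJi (fun i => XX H (i / 9))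
      have h7 : ∏ k, ((∏ i ∈ (k' k).2, XX H (i / 9) : ℕ) : ℝ) =
          ((∏ i ∈ JT k', XX H (i / 9) : ℕ) : ℝ) := by
        rw [h6]
        push_cast
        rfl
      rw [h7, ← Finset.prod_coe_sort (JT k') (fun i => XX H (i / 9))]
      push_cast
      rw [Finset.prod_mul_distrib, Finset.prod_const, Finset.card_univ, hcJ]
    have h6 : ∏ k, ((∏ i ∈ (k' k).2, XX H (i / 9) : ℕ) : ℝ) ≤
        ∏ k, ((Y k : ℝ) * (1 / ((∏ p ∈ (k' k).1, nrm p : ℕ) : ℝ))) := by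
      refine prod_le_prod (fun k _ => Nat.cast_nonneg _) fun k _ => ?_
      rw [mul_one_div, le_div_iff₀ (hN0 k), mul_comm]
      exact_mod_cast c5 k
    have h7 : (16 : ℝ) ^ (JT k').card ≤ 3 ^ (3 * (m * K)) := by
      calc (16 : ℝ) ^ (JT k').card ≤ 27 ^ (JT k').card :=
            pow_le_pow_left₀ (by norm_num) (by norm_num) _
        _ = 3 ^ (3 * (JT k').card) := by rw [pow_mul]; norm_num
        _ ≤ 3 ^ (3 * (m * K)) := pow_le_pow_right₀ (by norm_num) (by omega)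
    rw [h5]
    exact mul_le_mul h7 h6 (prod_nonneg fun k _ => Nat.cast_nonneg _) (by positivity)
  have hmK : K ≤ m * K := Nat.le_mul_of_pos_left _ hm
  have hpw : (3 : ℝ) ^ (((Tt fun k => (k' k).1).card + P₀.card) * Fintype.card ↥(JT k') + n) *
      3 ^ (3 * (m * K)) ≤ 3 ^ (5 * (m * K) ^ 2) := by
    rw [← pow_add]
    apply pow_le_pow_right₀ (by norm_num)
    rw [hcJ, add_mul]
    have h5 : (Tt fun k => (k' k).1).card * (JT k').card ≤ (m * K) * (m * K) :=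
      Nat.mul_le_mul hSK hJK
    have h7 : P₀.card * (JT k').card ≤ (m * K) * (m * K) :=
      Nat.mul_le_mul (hPK.trans hmK) hJK
    have h6 : 3 * (m * K) ≤ (m * K) * (m * K) := Nat.mul_le_mul_right _ (hK3.trans hmK)
    rw [sq]
    omega
  refine add_le_add (mul_le_mul_of_nonneg_left e3 hδ0) ?_
  set P : ℝ := ∏ k, ((Y k : ℝ) * (1 / ((∏ p ∈ (k' k).1, nrm p : ℕ) : ℝ))) with hP
  have hP0 : 0 ≤ P := prod_nonneg fun k _ => by
    have := (hN0 k).le
    positivity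
  calc (3 : ℝ) ^ (((Tt fun k => (k' k).1).card + P₀.card) * Fintype.card ↥(JT k') + n) *
      (κ * ∏ j : ↥(JT k'), ((16 * XX H (j.1 / 9) : ℕ) : ℝ)) ≤
      3 ^ (((Tt fun k => (k' k).1).card + P₀.card) * Fintype.card ↥(JT k') + n) *
        (κ * (3 ^ (3 * (m * K)) * P)) := by gcongr
    _ = (3 ^ (((Tt fun k => (k' k).1).card + P₀.card) * Fintype.card ↥(JT k') + n) *
        3 ^ (3 * (m * K))) *
        (κ * P) := by ring
    _ ≤ 3 ^ (5 * (m * K) ^ 2) * (κ * P) := by gcongr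
    _ = _ := by ring

/-- **The sum over the boxes.** -/
theorem t_KEN (hB1 : S_BIL) : ∃ C : ℝ, 1 ≤ C ∧ ∀ {m : ℕ} (_ : 1 ≤ m) (P₀ : Finset Ei)
    (Nc : Finset Ei → Finset Ei → Prop) (G : (Fin m → Finset Ei) → Prop) (M : Fin m → Finset Ei)
    (R : ℕ) (c δ : ℝ), BXN P₀ Nc G M R c δ → 0 ≤ δ →
  ∀ (Q : (Fin m → Finset Ei × Finset ℕ) → Prop) (Y : Fin m → ℕ) (X z H K N : ℕ) (κ : ℝ),
  (∀ k, ∀ q ∈ M k, nrm q ≤ z) → (∀ k, 1 ≤ Y k) → (∀ k, Y k ≤ X) → 1 ≤ H → 1 ≤ z → 0 ≤ κ →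
  C ≤ κ ^ 24 * z → (H : ℝ) * Real.log X < N → (∀ u ∈ P₀, nrm u ≤ z) → P₀.card ≤ K → 3 ≤ K →
  |(((RV M Y z H K R).filter fun S => Q (kyT z H S) ∧ NdG Nc P₀ z S ∧ G S).card : ℝ) -
      c * (((RV M Y z H K R).filter fun S => Q (kyT z H S) ∧ NdG Nc P₀ z S).card : ℝ)| ≤
    δ * (((RV M Y z H K R).filter fun S => Q (kyT z H S)).card : ℝ) +
    3 ^ (5 * (m * K) ^ 2) * κ * ((9 * N + 9 : ℝ) ^ K * (X * (64 * (1 + Real.log X)))) ^ m := by
  obtain ⟨C₁, hC₁, hb1⟩ := hB1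
  refine ⟨C₁, hC₁, ?_⟩
  intro m hm P₀ Nc G M R c δ hB hδ0 Q Y X z H K N κ hM hY1 hYX hH hz hκ h1 hN hPz hPK hK3
  set T := ((RV M Y z H K R).image (kyT z H)).filter fun k' => Q k' with hT
  have hfib : ∀ P : (Fin m → Finset Ei) → Prop,
      (((RV M Y z H K R).filter fun S => Q (kyT z H S) ∧ P S).card : ℝ) =
      ∑ k' ∈ T, (((RV M Y z H K R).filter fun S => kyT z H S = k' ∧ P S).card : ℝ) := by
    intro P
    rw [Finset.card_eq_sum_card_fiberwise (f := kyT z H) (t := T) (by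
      intro S hS
      rw [Finset.mem_coe, Finset.mem_filter] at hS
      rw [Finset.mem_coe, hT, Finset.mem_filter]
      exact ⟨Finset.mem_image_of_mem _ hS.1, hS.2.1⟩)]
    push_cast
    refine Finset.sum_congr rfl fun k' hk' => ?_
    rw [hT, Finset.mem_filter] at hk'
    congr 2
    ext S
    simp only [Finset.mem_filter]
    constructor
    · rintro ⟨⟨a1, a2, a3⟩, a4⟩
      exact ⟨a1, a4, a3⟩
    · rintro ⟨a1, a2, a3⟩
      refine ⟨⟨a1, ?_, a3⟩, a2⟩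
      rw [a2]
      exact hk'.2
  have hall := hfib fun _ => True
  simp only [and_true] at hall
  have q1 : (((RV M Y z H K R).filter fun S => Q (kyT z H S) ∧ NdG Nc P₀ z S ∧
      G S).card : ℝ) =
      ∑ k' ∈ T, (((RV M Y z H K R).filter fun S => kyT z H S = k' ∧
        (NdG Nc P₀ z S ∧ G S)).card : ℝ) :=
    (congrArg _ (fcc fun _ _ => Iff.rfl)).trans
      ((hfib fun S => NdG Nc P₀ z S ∧ G S).trans
      (Finset.sum_congr rfl fun k' _ => congrArg _ (fcc fun _ _ => Iff.rfl)))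
  rw [q1, hfib, Finset.mul_sum, ← Finset.sum_sub_distrib, hall, Finset.mul_sum]
  refine (Finset.abs_sum_le_sum_abs _ _).trans ?_
  refine (Finset.sum_le_sum fun k' hk => per_keyN hB hδ0 hb1 hM hH hz hκ h1 hm hPz hPK hK3
    (mem_filter.1 hk).1).trans ?_
  rw [Finset.sum_add_distrib, ← Finset.mul_sum (a := (3 : ℝ) ^ (5 * (m * K) ^ 2) * κ)]
  refine add_le_add (le_refl _) ?_
  exact mul_le_mul_of_nonneg_left (keg_errV hM hY1 hYX hH hz hN
    fun k' hk' => (mem_filter.1 hk').1) (by positivity)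

end Run7.h707.TF
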