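import Pool.Agent.Run7.h707.TF.Asy
import Pool.Agent.Run7.h707.TD.Law

/-! The law for the tuples of elements, with fixed factors -/

set_option autoImplicit false
set_option linter.unusedVariables false
set_option linter.unusedSectionVars false

open scoped Classical

namespace Run7.h707.TF

open Finset Filter
open NumberField
open Pool.Agent.Y692.QS (Ei w nr)
open Pool.Agent.Y715.T.RecG (Pq)
open Pool.Agent.Y699.E (ez nrm nrm_cast nrm_mul prm mem_ZB ZB prm_ne_zero prm_mul prm_one prm_prod)
open Pool.Agent.Y433.XK (pN pN_pos)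
open Pool.Agent.Y703.XK (c9 S_LOW SS S_EQ S_BIL sm la bl)
open Pool.Agent.Y696.CTK (Tri)
open Pool.Agent.R419.KF (wt wt_one wt_ne el el_ne el_prm el_inj cf_el ex_pair SG mem_SG)
open Pool.Agent.N883.FF (nq ClP w_pow_inj isUnit_w nr_w_mul)
open Pool.Agent.N883.FF.Den3 (CF small nq_mul nq_zero)
open Pool.Agent.XLK (ph fcc ky)
open Q283.T3 (gi cf)
open Q283.T3A (c_bounds)
open Run7.h707.TC (Tt mem_Tt dlt elw UC NEc uc_iff dlt_eq tt_pq eT ee Uu FamU w_red pow_prm TP mem_TP
  kyT IjT KyP YM CT CT_congr GT gt_iff nec_iff norm_key c_val cnt_eq)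
open Run7.h707.TD

section ap
variable {m q : ℕ}

theorem append_elw (i : Fin m → ZMod 3) (ib : Fin q → ZMod 3) (M S : Fin m → Finset Ei)
    (Mb Sb : Fin q → Finset Ei) :
    Fin.append (fun k => elw (i k) (M k) (S k)) (fun j => elw (ib j) (Mb j) (Sb j)) =
      fun k => elw (Fin.append i ib k) (Fin.append M Mb k) (Fin.append S Sb k) := by
  funext k
  induction k using Fin.addCases with
  | left k => simp only [Fin.append_left]
  | right k => simp only [Fin.append_right]

theorem append_ew (p : Fin m → ZMod 3 × Ei) (pb : Fin q → ZMod 3 × Ei) :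
    Fin.append (fun k => ew (p k)) (fun j => ew (pb j)) = fun k => ew (Fin.append p pb k) := by
  funext k
  induction k using Fin.addCases with
  | left k => simp only [Fin.append_left]
  | right k => simp only [Fin.append_right]

theorem append_all {α : Type} {P : α → Prop} {f : Fin m → α} {g : Fin q → α} (hf : ∀ k, P (f k))
    (hg : ∀ j, P (g j)) (k : Fin (m + q)) : P (Fin.append f g k) := by
  induction k using Fin.addCases with
  | left k => rw [Fin.append_left]; exact hf k
  | right k => rw [Fin.append_right]; exact hg k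

theorem append_sub {M S : Fin m → Finset Ei} {Mb Sb : Fin q → Finset Ei} (h : ∀ k, M k ⊆ S k)
    (hb : ∀ j, Mb j ⊆ Sb j) (k : Fin (m + q)) : Fin.append M Mb k ⊆ Fin.append S Sb k := by
  induction k using Fin.addCases with
  | left k => rw [Fin.append_left, Fin.append_left]; exact h k
  | right k => rw [Fin.append_right, Fin.append_right]; exact hb k

theorem la_empty {z : ℕ} {S : Finset Ei} (h : ∀ u ∈ S, nrm u ≤ z) : la z S = ∅ := by
  unfold la
  exact filter_false_of_mem fun u hu hn => hn (h u hu)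

/-- restricting a property of the keys -/
theorem kyw_of_kyp {z₀ : ℕ} {M : Fin m → Finset Ei} {Mb Sb : Fin q → Finset Ei}
    {P : (Fin (m + q) → Finset Ei) → Prop} (h : KyP (Fin.append M Mb) P)
    (hz : ∀ j, ∀ u ∈ Sb j, nrm u ≤ z₀) (hMb : ∀ j, Mb j ⊆ Sb j) (hSb : ∀ j, ∀ u ∈ Sb j, Pq u) :
    KyW z₀ M fun S => P (Fin.append S Sb) := by
  intro z H hz0 hH hMz S S' hS hS' hM hM' hj hj' hk
  have hla : ∀ (T : Fin m → Finset Ei) (k : Fin (m + q)), (∃ k', k = Fin.castAdd q k' ∧
      la z (Fin.append T Sb k) = la z (T k')) ∨ la z (Fin.append T Sb k) = ∅ := by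
    intro T k
    induction k using Fin.addCases with
    | left k => exact Or.inl ⟨k, rfl, by rw [Fin.append_left]⟩
    | right k =>
      right
      rw [Fin.append_right]
      exact la_empty fun u hu => (hz k u hu).trans hz0
  have hI : ∀ T : Fin m → Finset Ei, IjT z H T → IjT z H (Fin.append T Sb) := by
    intro T hT k l π hπ ρ hρ hb
    rcases hla T k with ⟨k', rfl, hk'⟩ | hk'
    · rcases hla T l with ⟨l', rfl, hl'⟩ | hl'
      · rw [hk'] at hπ
        rw [hl'] at hρ
        obtain ⟨h1, h2⟩ := hT k' l' π hπ ρ hρ hb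
        exact ⟨by rw [h1], h2⟩
      · rw [hl'] at hρ
        exact absurd hρ (notMem_empty _)
    · rw [hk'] at hπ
      exact absurd hπ (notMem_empty _)
  refine h z H hH ?_ _ _ (append_all (P := fun s : Finset Ei => ∀ u ∈ s, Pq u) hS hSb)
    (append_all (P := fun s : Finset Ei => ∀ u ∈ s, Pq u) hS' hSb) (append_sub hM hMb)
    (append_sub hM' hMb) (hI S hj) (hI S' hj') ?_
  · exact append_all (P := fun s : Finset Ei => ∀ u ∈ s, nrm u ≤ z) hMz
      fun j u hu => (hz j u (hMb j hu)).trans hz0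
  · funext k
    unfold kyT
    induction k using Fin.addCases with
    | left k =>
      rw [Fin.append_left, Fin.append_left]
      exact congrFun hk k
    | right k => rw [Fin.append_right, Fin.append_right]

/-- a product with trivial exponents is a cube -/
theorem cube_of {n : Fin q → ℕ} {i : Fin q → ZMod 3} {M S : Fin q → Finset Ei}
    (hM : ∀ k, M k ⊆ S k) (hS : ∀ k, ∀ u ∈ S k, Pq u) (h0 : ∀ u, eT n M S u = 0)
    (hi : ∑ k, (n k : ZMod 3) * i k = 0) : ∃ x, dlt n (fun k => elw (i k) (M k) (S k)) = x ^ 3 := by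
  obtain ⟨c, hc, hcp, hd⟩ := dlt_eq n i hM hS
  refine ⟨c, ?_⟩
  rw [hd, hi]
  have hU : Uu (Tt S) (ee M (fun k => (n k : ZMod 3)) S) = ∅ := by
    unfold Uu
    exact filter_false_of_mem fun u _ hu => hu (h0 u)
  have hE : IsEmpty ↥(Uu (Tt S) (ee M (fun k => (n k : ZMod 3)) S)) := by
    rw [hU]
    exact ⟨fun x => notMem_empty _ x.2⟩
  unfold Pool.Agent.N883.FF.pB Pool.Agent.Y703.CT.pD
  rw [Finset.univ_eq_empty, Finset.prod_empty, mul_one, ZMod.val_zero, pow_zero, one_mul]

end ap

/-! ### few tuples give a unit times a cube -/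

theorem uc_inj {m : ℕ} (n : Fin m → ℕ) (k₀ : Fin m) (hn : (n k₀ : ZMod 3) ≠ 0)
    {p q : Fin m → ZMod 3 × Ei} (hp : ∀ k, ClP (p k).2) (hq : ∀ k, ClP (q k).2)
    (hup : UC (dlt n fun k => ew (p k))) (huq : UC (dlt n fun k => ew (q k)))
    (h1 : (p k₀).1 = (q k₀).1) (h2 : ∀ k, k ≠ k₀ → p k = q k) : p = q := by
  have hex : ∀ r : Fin m → ZMod 3 × Ei, (∀ k, ClP (r k).2) → ∃ M S : Fin m → Finset Ei,
      ∀ k, (∀ π ∈ S k, Pq π) ∧ M k ⊆ S k ∧ (r k).2 = el (M k) (S k) := by
    intro r hr
    choose M S hMS using fun k => ex_pair (hr k).1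
      ⟨prm_ne_zero (hr k).1, fun x hx => (hr k).2 x hx⟩
    exact ⟨M, S, hMS⟩
  obtain ⟨M, S, hMS⟩ := hex p hp
  obtain ⟨M', S', hMS'⟩ := hex q hq
  have hz : ∀ r : Fin m → ZMod 3 × Ei, UC (dlt n fun k => ew (r k)) →
      ∀ M S : Fin m → Finset Ei, (∀ k, (∀ π ∈ S k, Pq π) ∧ M k ⊆ S k ∧
      (r k).2 = el (M k) (S k)) → ∀ π, eT n M S π = 0 := by
    intro r hu M S hMS π
    have e : (fun k => ew (r k)) = fun k => elw (r k).1 (M k) (S k) := by
      funext k
      unfold ew elw
      rw [(hMS k).2.2]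
    rw [e, uc_U (fun k => (hMS k).2.1) (fun k => (hMS k).1), not_nonempty_iff_eq_empty] at hu
    by_contra hne
    by_cases hT : π ∈ Tt S
    · have : π ∈ Uu (Tt S) (eT n M S) := mem_filter.2 ⟨hT, hne⟩
      rw [hu] at this
      exact notMem_empty _ this
    · apply hne
      unfold eT ee
      refine Finset.sum_eq_zero fun k _ => ?_
      rw [if_neg (fun h => hT (mem_Tt.2 ⟨k, h⟩)), mul_zero]
  have hsum : ∀ M S : Fin m → Finset Ei, ∀ π, eT n M S π =
      (n k₀ : ZMod 3) * (if π ∈ S k₀ then wt (M k₀) π else 0) +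
        ∑ k ∈ univ.erase k₀, (n k : ZMod 3) * (if π ∈ S k then wt (M k) π else 0) := by
    intro M S π
    unfold eT ee
    rw [← Finset.add_sum_erase univ _ (mem_univ k₀)]
  have h3 : ∀ k, k ≠ k₀ → M k = M' k ∧ S k = S' k := fun k hk => by
    refine el_inj (hMS k).1 (hMS k).2.1 (hMS' k).1 (hMS' k).2.1 ?_
    rw [← (hMS k).2.2, ← (hMS' k).2.2, h2 k hk]
  have h4 : ∀ π, (if π ∈ S k₀ then wt (M k₀) π else 0) =
      (if π ∈ S' k₀ then wt (M' k₀) π else 0) := by
    intro π
    have a1 := hz p hup M S hMS π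
    have a2 := hz q huq M' S' hMS' π
    rw [hsum] at a1 a2
    have a3 : ∑ l ∈ univ.erase k₀, (n l : ZMod 3) * (if π ∈ S l then wt (M l) π else 0) =
        ∑ l ∈ univ.erase k₀, (n l : ZMod 3) * (if π ∈ S' l then wt (M' l) π else 0) :=
      Finset.sum_congr rfl fun l hl => by
        rw [(h3 l (ne_of_mem_erase hl)).1, (h3 l (ne_of_mem_erase hl)).2]
    rw [a3] at a1
    exact mul_left_cancel₀ hn (by linear_combination a1 - a2)
  have h5 : S k₀ = S' k₀ := by
    ext π
    have := h4 π
    constructor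
    · intro h
      by_contra h'
      rw [if_pos h, if_neg h'] at this
      exact wt_ne _ _ this
    · intro h
      by_contra h'
      rw [if_neg h', if_pos h] at this
      exact wt_ne _ _ this.symm
  have h6 : M k₀ = M' k₀ := by
    ext π
    have := h4 π
    constructor
    · intro h
      have hs : π ∈ S k₀ := (hMS k₀).2.1 h
      rw [if_pos hs, if_pos (h5 ▸ hs)] at this
      unfold wt at this
      rw [if_pos h] at this
      by_contra h'
      rw [if_neg h'] at this
      exact absurd this (by decide)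
    · intro h
      have hs : π ∈ S' k₀ := (hMS' k₀).2.1 h
      rw [if_pos hs, if_pos (h5 ▸ hs)] at this
      unfold wt at this
      rw [if_pos h] at this
      by_contra h'
      rw [if_neg h'] at this
      exact absurd this (by decide)
  funext k
  by_cases hk : k = k₀
  · rw [hk]
    refine Prod.ext h1 ?_
    rw [(hMS k₀).2.2, (hMS' k₀).2.2, h5, h6]
  · exact h2 k hk

section
variable {m q Mt : ℕ} (n : Fin Mt → Fin (m + q) → ℕ) (pb : Fin q → ZMod 3 × Ei)

theorem uc_fewF (n : Fin (m + q) → ℕ) (hpb : ∀ j, ClP (pb j).2) (k₀ : Fin m)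
    (hn : (n (Fin.castAdd q k₀) : ZMod 3) ≠ 0) (X : ℕ) :
    ((PX m X).filter fun p => UC (dlt n fun k => ew (Fin.append p pb k))).card ≤
      3 * (3 * (CF X).card) ^ (m - 1) := by
  set F := (PX m X).filter fun p => UC (dlt n fun k => ew (Fin.append p pb k)) with hF
  have hmem : ∀ p ∈ F, ∀ k, (p k).2 ∈ CF X := fun p hp k =>
    (mem_product.1 (Fintype.mem_piFinset.1 (mem_filter.1 hp).1 k)).2
  have hcl : ∀ p ∈ F, ∀ k, ClP (Fin.append p pb k).2 := fun p hp =>
    append_all (P := fun r : ZMod 3 × Ei => ClP r.2) (fun k => (mem_CF'.1 (hmem p hp k)).2) hpb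
  have hinj : Set.InjOn (fun p : Fin m → ZMod 3 × Ei => ((p k₀).1, Function.update p k₀ (0, 1)))
      (F : Set (Fin m → ZMod 3 × Ei)) := by
    intro p hp q' hq h
    have hpF : p ∈ F := hp
    have hqF : q' ∈ F := hq
    have h' : ((p k₀).1, Function.update p k₀ (0, 1)) =
        ((q' k₀).1, Function.update q' k₀ (0, 1)) := h
    have h1 : (p k₀).1 = (q' k₀).1 := (Prod.ext_iff.1 h').1
    have h2 : ∀ k, k ≠ k₀ → p k = q' k := fun k hk => by
      have := congrFun (Prod.ext_iff.1 h').2 k
      simpa [Function.update_of_ne hk] using this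
    have h3 := uc_inj n (Fin.castAdd q k₀) hn (hcl p hpF) (hcl q' hqF) (mem_filter.1 hpF).2
      (mem_filter.1 hqF).2 (by rw [Fin.append_left, Fin.append_left]; exact h1) (by
        intro k hk
        induction k using Fin.addCases with
        | left k =>
          rw [Fin.append_left, Fin.append_left]
          exact h2 k fun e => hk (by rw [e])
        | right k => rw [Fin.append_right, Fin.append_right])
    funext k
    have h4 := congrFun h3 (Fin.castAdd q k)
    rwa [Fin.append_left, Fin.append_left] at h4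
  rw [← card_image_of_injOn hinj]
  have hsub : F.image (fun p : Fin m → ZMod 3 × Ei => ((p k₀).1, Function.update p k₀ (0, 1))) ⊆
      (univ : Finset (ZMod 3)) ×ˢ Fintype.piFinset fun k =>
        if k = k₀ then {((0 : ZMod 3), (1 : Ei))} else (univ : Finset (ZMod 3)) ×ˢ CF X := by
    intro x hx
    rw [mem_image] at hx
    obtain ⟨p, hp, rfl⟩ := hx
    rw [mem_product, Fintype.mem_piFinset]
    refine ⟨mem_univ _, fun k => ?_⟩
    by_cases hk : k = k₀
    · rw [if_pos hk, hk]
      simp
    · rw [if_neg hk]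
      simp only [Function.update_of_ne hk]
      exact Fintype.mem_piFinset.1 (mem_filter.1 hp).1 k
  refine (card_le_card hsub).trans ?_
  rw [card_product, card_univ, ZMod.card, Fintype.card_piFinset]
  refine Nat.mul_le_mul_left _ ?_
  rw [← Finset.mul_prod_erase univ _ (mem_univ k₀), if_pos rfl, card_singleton, one_mul]
  have : ∀ k ∈ univ.erase k₀, (if k = k₀ then {((0 : ZMod 3), (1 : Ei))} else
      (univ : Finset (ZMod 3)) ×ˢ CF X).card = 3 * (CF X).card := fun k hk => by
    rw [if_neg (ne_of_mem_erase hk), card_product, card_univ, ZMod.card]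
  rw [prod_congr rfl this, prod_const, card_erase_of_mem (mem_univ _), card_univ, Fintype.card_fin]

theorem uc_limF (hpb : ∀ j, ClP (pb j).2)
    (hn : ∀ t, ∃ k : Fin m, (n t (Fin.castAdd q k) : ZMod 3) ≠ 0) :
    Tendsto (fun X : ℕ => (((PX m X).filter fun p => ∃ t, UC (dlt (n t) fun k =>
      ew (Fin.append p pb k))).card : ℝ) / (AT m X : ℝ)) atTop (nhds 0) := by
  obtain ⟨c, X₀, hc, hlow⟩ := cf_low
  have hb : ∀ᶠ X : ℕ in atTop,
      (((PX m X).filter fun p => ∃ t, UC (dlt (n t) fun k => ew (Fin.append p pb k))).card : ℝ) /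
      (AT m X : ℝ) ≤ (Mt / c) * (1 / (X : ℝ)) := by
    filter_upwards [eventually_ge_atTop (max X₀ 1)] with X hX
    have hX0 : X₀ ≤ X := (le_max_left _ _).trans hX
    have hX1 : 1 ≤ X := (le_max_right _ _).trans hX
    have hXr : (0 : ℝ) < X := by exact_mod_cast hX1
    have hl := hlow X hX0
    have hF : (0 : ℝ) < ((CF X).card : ℝ) := lt_of_lt_of_le (by positivity) hl
    rcases Nat.eq_zero_or_pos Mt with h0 | h0
    · subst h0
      have : (PX m X).filter (fun p => ∃ t : Fin 0, UC (dlt (n t) fun k =>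
          ew (Fin.append p pb k))) = ∅ := by
        rw [filter_eq_empty_iff]
        rintro p - ⟨t, -⟩
        exact t.elim0
      rw [this]
      simp
    · obtain ⟨k₀, -⟩ := hn ⟨0, h0⟩
      have hm : m - 1 + 1 = m := by have := k₀.2; omega
      have h1 : (((PX m X).filter fun p => ∃ t, UC (dlt (n t) fun k =>
          ew (Fin.append p pb k))).card : ℝ) ≤
          Mt * (3 * (3 * ((CF X).card : ℝ)) ^ (m - 1)) := by
        have h2 : ((PX m X).filter fun p => ∃ t, UC (dlt (n t) fun k =>
            ew (Fin.append p pb k))) ⊆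
            univ.biUnion fun t => (PX m X).filter fun p => UC (dlt (n t) fun k =>
              ew (Fin.append p pb k)) := by
          intro p hp
          obtain ⟨h3, t, ht⟩ := mem_filter.1 hp
          exact mem_biUnion.2 ⟨t, mem_univ _, mem_filter.2 ⟨h3, ht⟩⟩
        calc _ ≤ ∑ t : Fin Mt, (((PX m X).filter fun p =>
              UC (dlt (n t) fun k => ew (Fin.append p pb k))).card : ℝ) := by
              exact_mod_cast (card_le_card h2).trans card_biUnion_le
          _ ≤ ∑ _t : Fin Mt, (3 * (3 * ((CF X).card : ℝ)) ^ (m - 1)) := by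
              refine sum_le_sum fun t _ => ?_
              obtain ⟨k, hk⟩ := hn t
              exact_mod_cast uc_fewF pb (n t) hpb k hk X
          _ = _ := by rw [sum_const, card_univ, Fintype.card_fin, nsmul_eq_mul]
      rw [AT_eq]
      push_cast
      rw [div_le_iff₀ (by positivity)]
      refine h1.trans ?_
      have h3 : (3 * ((CF X).card : ℝ)) ^ m = (3 * ((CF X).card : ℝ)) ^ (m - 1) *
          (3 * ((CF X).card : ℝ)) := by
        conv_lhs => rw [← hm]
        rw [pow_succ]
      rw [h3]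
      have h4 : 1 ≤ ((CF X).card : ℝ) * (1 / (c * X)) := by
        rw [mul_one_div, le_div_iff₀ (by positivity), one_mul]
        exact hl
      calc (Mt : ℝ) * (3 * (3 * ((CF X).card : ℝ)) ^ (m - 1)) =
          (Mt * (3 * (3 * ((CF X).card : ℝ)) ^ (m - 1))) * 1 := by ring
        _ ≤ (Mt * (3 * (3 * ((CF X).card : ℝ)) ^ (m - 1))) * (((CF X).card : ℝ) *
            (1 / (c * X))) := mul_le_mul_of_nonneg_left h4 (by positivity)
        _ = _ := by
          field_simp
  have hlim : Tendsto (fun X : ℕ => ((Mt : ℝ) / c) * (1 / (X : ℝ))) atTop (nhds 0) := by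
    have := (tendsto_one_div_atTop_nhds_zero_nat (𝕜 := ℝ)).const_mul ((Mt : ℝ) / c)
    rwa [mul_zero] at this
  refine tendsto_of_tendsto_of_tendsto_of_le_of_le' tendsto_const_nhds hlim ?_ hb
  exact Eventually.of_forall fun X => by positivity

/-- the proportion of the classes -/
noncomputable def kapF (c : Fin q → ZMod 3 × ZMod 3) : ℝ :=
  ((univ.filter fun u : Fin m → ZMod 3 × ZMod 3 => ∀ t,
    ∑ k, n t (Fin.castAdd q k) • u k + ∑ j, n t (Fin.natAdd m j) • c j ≠ 0).card : ℝ) / 9 ^ m

/-- the number of the tuples without exceptional `δ` -/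
noncomputable def NF (X : ℕ) : ℕ :=
  {a : Fin m → Ei | (∀ k, nr (a k) ≤ X ∧ FamU (a k)) ∧
    ∀ t, NEc (dlt (n t) (Fin.append a fun j => ew (pb j)))}.ncard

theorem NF_lim (hpb : ∀ j, ClP (pb j).2)
    (hn : ∀ t, ∃ k : Fin m, (n t (Fin.castAdd q k) : ZMod 3) ≠ 0) :
    Tendsto (fun X : ℕ => (NF n pb X : ℝ) / (AT m X : ℝ)) atTop
      (nhds (kapF n fun j => cls (pb j))) := by
  obtain ⟨P, hP⟩ : ∃ P : (Fin m → ZMod 3 × ZMod 3) → Prop,
      ∀ u, P u ↔ ∀ t, ∑ k, n t (Fin.castAdd q k) • u k +
        ∑ j, n t (Fin.natAdd m j) • cls (pb j) ≠ 0 := ⟨_, fun _ => Iff.rfl⟩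
  have hsum : ∀ (p : Fin m → ZMod 3 × Ei) (t : Fin Mt),
      ∑ k, n t k • cls (Fin.append p pb k) = ∑ k, n t (Fin.castAdd q k) • cls (p k) +
        ∑ j, n t (Fin.natAdd m j) • cls (pb j) := by
    intro p t
    rw [Fin.sum_univ_add]
    simp only [Fin.append_left, Fin.append_right]
  have h1 : Tendsto (fun X : ℕ => (((PX m X).filter fun p => ∀ t,
      ∑ k, n t k • cls (Fin.append p pb k) ≠ 0).card : ℝ) / (AT m X : ℝ)) atTop
      (nhds (kapF n fun j => cls (pb j))) := by
    have h := cls_lim (m := m) P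
    have e1 : (kapF n fun j => cls (pb j)) = ((univ.filter P).card : ℝ) / 9 ^ m := by
      unfold kapF
      congr 2
      exact fcc fun u _ => (hP u).symm
    rw [e1]
    refine h.congr fun X => ?_
    congr 2
    refine fcc fun p _ => ?_
    rw [hP]
    exact forall_congr' fun t => by rw [hsum]
  have h2 := uc_limF n pb hpb hn
  have h3 := h1.sub h2
  rw [sub_zero] at h3
  have hcnt : ∀ X : ℕ, NF n pb X = ((PX m X).filter fun p => ∀ t,
      NEc (dlt (n t) fun k => ew (Fin.append p pb k))).card := by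
    intro X
    unfold NF
    rw [cnt_ew m X fun a => ∀ t, NEc (dlt (n t) (Fin.append a fun j => ew (pb j)))]
    refine fcc fun p _ => ?_
    refine forall_congr' fun t => ?_
    rw [append_ew]
  refine tendsto_of_tendsto_of_tendsto_of_le_of_le h3 h1 (fun X => ?_) fun X => ?_
  · show _ - _ ≤ _
    rw [← sub_div]
    refine div_le_div_of_nonneg_right ?_ (Nat.cast_nonneg _)
    rw [sub_le_iff_le_add, hcnt]
    have h4 : ((PX m X).filter fun p => ∀ t, ∑ k, n t k • cls (Fin.append p pb k) ≠ 0) ⊆
        ((PX m X).filter fun p => ∀ t, NEc (dlt (n t) fun k => ew (Fin.append p pb k))) ∪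
        ((PX m X).filter fun p => ∃ t, UC (dlt (n t) fun k => ew (Fin.append p pb k))) := by
      intro p hp
      obtain ⟨h5, h6⟩ := mem_filter.1 hp
      have h7 : ∀ k, prm (Fin.append p pb k).2 :=
        append_all (P := fun r : ZMod 3 × Ei => prm r.2)
          (fun k => cf_prm (mem_product.1 (Fintype.mem_piFinset.1 h5 k)).2) fun j => (hpb j).1
      by_cases h8 : ∃ t, UC (dlt (n t) fun k => ew (Fin.append p pb k))
      · exact mem_union_right _ (mem_filter.2 ⟨h5, h8⟩)
      · refine mem_union_left _ (mem_filter.2 ⟨h5, fun t => (nec_cls (n t) h7).2 ⟨?_, h6 t⟩⟩)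
        exact fun h9 => h8 ⟨t, h9⟩
    have h10 := Nat.cast_le (α := ℝ).2 ((card_le_card h4).trans (card_union_le _ _))
    rw [Nat.cast_add] at h10
    exact h10
  · refine div_le_div_of_nonneg_right ?_ (Nat.cast_nonneg _)
    rw [hcnt]
    have h4 : ((PX m X).filter fun p => ∀ t, NEc (dlt (n t) fun k => ew (Fin.append p pb k))) ⊆
        ((PX m X).filter fun p => ∀ t, ∑ k, n t k • cls (Fin.append p pb k) ≠ 0) := by
      intro p hp
      obtain ⟨h5, h6⟩ := mem_filter.1 hp
      have h7 : ∀ k, prm (Fin.append p pb k).2 :=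
        append_all (P := fun r : ZMod 3 × Ei => prm r.2)
          (fun k => cf_prm (mem_product.1 (Fintype.mem_piFinset.1 h5 k)).2) fun j => (hpb j).1
      exact mem_filter.2 ⟨h5, fun t => ((nec_cls (n t) h7).1 (h6 t)).2⟩
    exact Nat.cast_le.2 (card_le_card h4)

/-- **The law for all the tuples, with fixed factors.** -/
theorem lawF {K : Type} [Field K] [NumberField K] (j : Ei ≃+* 𝓞 K) (hpb : ∀ l, ClP (pb l).2)
    (hn : ∀ t, ∃ k : Fin m, (n t (Fin.castAdd q k) : ZMod 3) ≠ 0)
    (hsep : ∀ t t', t ≠ t' → ∀ e : ℕ, (e = 1 ∨ e = 2) →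
      (∀ k : Fin m, (n t (Fin.castAdd q k) : ZMod 3) + e * n t' (Fin.castAdd q k) = 0) →
      ¬ ∃ x, dlt (fun l => n t (Fin.natAdd m l) + e * n t' (Fin.natAdd m l))
        (fun l => ew (pb l)) = x ^ 3) :
    Tendsto (fun X : ℕ => ({a : Fin m → Ei | (∀ k, nr (a k) ≤ X ∧ FamU (a k)) ∧
      (∀ t, NEc (dlt (n t) (Fin.append a fun l => ew (pb l)))) ∧
      ∀ t, Tri (j (dlt (n t) (Fin.append a fun l => ew (pb l))))}.ncard : ℝ) / (AT m X : ℝ))
      atTop (nhds (kapF n (fun l => cls (pb l)) * c9 ^ Mt)) := by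
  have hg : (∏ _t : Fin Mt, gi * cf 0) = c9 ^ Mt := by
    rw [prod_const, card_univ, Fintype.card_fin, c_val]
  have hgb := c_bounds (M := Mt) (fun _ => 0)
  rw [hg] at hgb
  obtain ⟨c, X₀, hc, hlow⟩ := AT_low (m := m)
  -- the sets of the fixed elements
  have hexb : ∃ Mb Sb : Fin q → Finset Ei, ∀ l, (∀ π ∈ Sb l, Pq π) ∧ Mb l ⊆ Sb l ∧
      (pb l).2 = el (Mb l) (Sb l) := by
    choose Mb Sb hMS using fun l => ex_pair (hpb l).1
      ⟨prm_ne_zero (hpb l).1, fun x hx => (hpb l).2 x hx⟩
    exact ⟨Mb, Sb, hMS⟩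
  obtain ⟨Mb, Sb, hMS⟩ := hexb
  have hSb : ∀ l, ∀ u ∈ Sb l, Pq u := fun l => (hMS l).1
  have hMb : ∀ l, Mb l ⊆ Sb l := fun l => (hMS l).2.1
  obtain ⟨ib, hib⟩ : ∃ ib : Fin q → ZMod 3, ib = fun l => (pb l).1 := ⟨_, rfl⟩
  have hb : (fun l => ew (pb l)) = fun l => elw (ib l) (Mb l) (Sb l) := by
    funext l
    unfold ew elw
    rw [(hMS l).2.2, hib]
  -- the errors
  have hlim : Tendsto (fun X : ℕ => ({a : Fin m → Ei | (∀ k, nr (a k) ≤ X ∧ FamU (a k)) ∧
      (∀ t, NEc (dlt (n t) (Fin.append a fun l => ew (pb l)))) ∧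
      ∀ t, Tri (j (dlt (n t) (Fin.append a fun l => ew (pb l))))}.ncard : ℝ) / (AT m X : ℝ) -
      c9 ^ Mt * ((NF n pb X : ℝ) / (AT m X : ℝ))) atTop (nhds 0) := by
    rcases Nat.eq_zero_or_pos Mt with h0 | h0
    · subst h0
      have : ∀ X : ℕ, ({a : Fin m → Ei | (∀ k, nr (a k) ≤ X ∧ FamU (a k)) ∧
          (∀ t, NEc (dlt (n t) (Fin.append a fun l => ew (pb l)))) ∧
          ∀ t, Tri (j (dlt (n t) (Fin.append a fun l => ew (pb l))))}.ncard : ℝ) =
          NF n pb X := by
        intro X
        unfold NF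
        congr 2
        ext a
        simp
      simp only [this, pow_zero, one_mul, sub_self]
      exact tendsto_const_nhds
    · have hm1 : 1 ≤ m := by
        obtain ⟨k, -⟩ := hn ⟨0, h0⟩
        have := k.2
        omega
      -- the leading indices
      have hex : ∀ t, ∃ l : Fin m, (n t (Fin.castAdd q l) : ZMod 3) ≠ 0 ∧
          ∀ k, k < l → (n t (Fin.castAdd q k) : ZMod 3) = 0 := by
        intro t
        have hne : (univ.filter fun k : Fin m => (n t (Fin.castAdd q k) : ZMod 3) ≠ 0).Nonempty := by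
          obtain ⟨k, hk⟩ := hn t
          exact ⟨k, mem_filter.2 ⟨mem_univ _, hk⟩⟩
        refine ⟨(univ.filter fun k : Fin m => (n t (Fin.castAdd q k) : ZMod 3) ≠ 0).min' hne,
          (mem_filter.1 (min'_mem _ hne)).2, fun k hk => ?_⟩
        by_contra h
        exact absurd hk (not_lt.2 (min'_le _ k (mem_filter.2 ⟨mem_univ _, h⟩)))
      choose ld hld hld0 using hex
      have hsep' : ∀ i : Fin m → ZMod 3, ∀ t t', t ≠ t' → ld t = ld t' →
          (∃ k, (n t (Fin.castAdd q k) : ZMod 3) * (n t (Fin.castAdd q (ld t)) : ZMod 3) ≠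
            (n t' (Fin.castAdd q k) : ZMod 3) * (n t' (Fin.castAdd q (ld t')) : ZMod 3)) ∨
          (∃ u ∈ Tt Sb, ee Mb (fun l => (n t (Fin.natAdd m l) : ZMod 3)) Sb u *
              (n t (Fin.castAdd q (ld t)) : ZMod 3) ≠
            ee Mb (fun l => (n t' (Fin.natAdd m l) : ZMod 3)) Sb u *
              (n t' (Fin.castAdd q (ld t')) : ZMod 3)) ∨
          (∑ k, (n t k : ZMod 3) * Fin.append i ib k) * (n t (Fin.castAdd q (ld t)) : ZMod 3) ≠
            (∑ k, (n t' k : ZMod 3) * Fin.append i ib k) *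
              (n t' (Fin.castAdd q (ld t')) : ZMod 3) := by
        intro i t t' htt hl
        by_contra hall
        rw [not_or, not_or] at hall
        obtain ⟨hk, hu, hy⟩ := hall
        push Not at hk hu hy
        have ha := hld t
        have hb' := hld t'
        obtain ⟨x, hx⟩ : ∃ x : ZMod 3, x = (n t (Fin.castAdd q (ld t)) : ZMod 3) := ⟨_, rfl⟩
        obtain ⟨x', hx'⟩ : ∃ x : ZMod 3, x = (n t' (Fin.castAdd q (ld t')) : ZMod 3) := ⟨_, rfl⟩
        rw [← hx] at ha hk hu hy
        rw [← hx'] at hb' hk hu hy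
        have hx2 : x * x = 1 := by
          have : ∀ x : ZMod 3, x ≠ 0 → x * x = 1 := by decide
          exact this x ha
        -- the sign
        obtain ⟨e, he, hex⟩ : ∃ e : ℕ, (e = 1 ∨ e = 2) ∧ (e : ZMod 3) = -(x * x') := by
          have : ∀ x x' : ZMod 3, x ≠ 0 → x' ≠ 0 → -(x * x') = 1 ∨ -(x * x') = 2 := by decide
          rcases this x x' ha hb' with h | h
          · exact ⟨1, Or.inl rfl, by rw [h]; norm_num⟩
          · exact ⟨2, Or.inr rfl, by rw [h]; norm_num⟩
        have hlin : ∀ A B : ZMod 3, A * x = B * x' → A + e * B = 0 := by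
          intro A B h
          rw [hex]
          linear_combination (-A) * hx2 + x * h
        refine hsep t t' htt e he (fun k => hlin _ _ (hk k)) ?_
        rw [hb]
        refine cube_of hMb hSb ?_ ?_
        · intro u
          by_cases huT : u ∈ Tt Sb
          · have h1 := hlin _ _ (hu u huT)
            unfold eT
            rw [← h1]
            unfold ee
            rw [mul_sum, ← sum_add_distrib]
            refine sum_congr rfl fun l _ => ?_
            push_cast
            ring
          · unfold eT ee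
            refine Finset.sum_eq_zero fun k _ => ?_
            rw [if_neg (fun h => huT (mem_Tt.2 ⟨k, h⟩)), mul_zero]
        · have h1 := hlin _ _ hy
          have h2 : ∑ k : Fin m, (n t (Fin.castAdd q k) : ZMod 3) * i k +
              e * ∑ k : Fin m, (n t' (Fin.castAdd q k) : ZMod 3) * i k = 0 := by
            rw [mul_sum, ← sum_add_distrib]
            refine sum_eq_zero fun k _ => ?_
            have h3 := hlin _ _ (hk k)
            linear_combination (i k) * h3
          rw [Fin.sum_univ_add, Fin.sum_univ_add] at h1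
          simp only [Fin.append_left, Fin.append_right] at h1
          have h3 : ∑ l, ((n t (Fin.natAdd m l) + e * n t' (Fin.natAdd m l) : ℕ) : ZMod 3) * ib l =
              ∑ l, (n t (Fin.natAdd m l) : ZMod 3) * ib l +
                e * ∑ l, (n t' (Fin.natAdd m l) : ZMod 3) * ib l := by
            rw [mul_sum, ← sum_add_distrib]
            refine sum_congr rfl fun l _ => ?_
            push_cast
            ring
          rw [h3]
          linear_combination h1 - h2
      rw [Metric.tendsto_nhds]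
      intro ε hε
      obtain ⟨z₀, hz₀⟩ : ∃ z₀ : ℕ, ∀ l, ∀ u ∈ Sb l, nrm u ≤ z₀ :=
        ⟨univ.sup fun l => (Sb l).sup nrm, fun l u hu => (Finset.le_sup (f := nrm) hu).trans
          (Finset.le_sup (f := fun l => (Sb l).sup nrm) (mem_univ l))⟩
      have herr : ∀ i : Fin m → ZMod 3, ∀ᶠ X : ℕ in atTop,
          |(CT (fun M S => (∀ t, NEc (dlt (n t) fun k => elw (Fin.append i ib k)
            (Fin.append M Mb k) (Fin.append S Sb k))) ∧
            GT (Fin.append M Mb) (fun t k => (n t k : ZMod 3))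
              (fun t => ∑ k, (n t k : ZMod 3) * Fin.append i ib k)
              (fun _ => 0) (Fin.append S Sb)) X : ℝ) -
            c9 ^ Mt * (CT (fun M S => ∀ t, NEc (dlt (n t) fun k => elw (Fin.append i ib k)
            (Fin.append M Mb k) (Fin.append S Sb k))) X : ℝ)| ≤
          (c * ε / (2 * 3 ^ m)) * (X : ℝ) ^ m := by
        intro i
        have h := errN Pool.Agent.Y363.XK.t_BIL hm1 (Tt Sb)
          (fun M S => GT (Fin.append M Mb) (fun t k => (n t k : ZMod 3))
              (fun t => ∑ k, (n t k : ZMod 3) * Fin.append i ib k)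
              (fun _ => 0) (Fin.append S Sb)) (c9 ^ Mt) hgb
          (fun M hMq η hη => by
            obtain ⟨R, hR⟩ := t_BXF Pool.Agent.Y710.XK.t_EQ (fun t k => (n t k : ZMod 3)) ld hld
              hld0 Mb Sb hMb hSb (fun t => ∑ k, (n t k : ZMod 3) * Fin.append i ib k) (hsep' i)
              (fun _ => 0) η hη
            have h1 := hR M
            rw [hg] at h1
            exact ⟨R + 4 * (Tt Sb).card, NdS R, h1, badF m R (Tt Sb) (tt_pq hSb)⟩)
          z₀ (fun M S => ∀ t, NEc (dlt (n t) fun k => elw (Fin.append i ib k)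
            (Fin.append M Mb k) (Fin.append S Sb k)))
          (fun M => kyw_of_kyp (P := fun S => ∀ t, NEc (dlt (n t) fun k =>
            elw (Fin.append i ib k) (Fin.append M Mb k) (S k)))
            (kyp_nec' n (Fin.append i ib) (Fin.append M Mb)) hz₀ hMb hSb)
          (c * ε / (2 * 3 ^ m)) (by positivity)
        exact h
      filter_upwards [eventually_all.2 herr, eventually_ge_atTop (max X₀ 1)] with X hX hX0
      have hlo := hlow X ((le_max_left _ _).trans hX0)
      have hX1 : (0 : ℝ) < X := by exact_mod_cast (le_max_right _ _).trans hX0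
      have hN : (0 : ℝ) < AT m X := lt_of_lt_of_le (by positivity) hlo
      have e1 : {a : Fin m → Ei | (∀ k, nr (a k) ≤ X ∧ FamU (a k)) ∧
          (∀ t, NEc (dlt (n t) (Fin.append a fun l => ew (pb l)))) ∧
          ∀ t, Tri (j (dlt (n t) (Fin.append a fun l => ew (pb l))))}.ncard =
          ∑ i : Fin m → ZMod 3,
            CT (fun M S => (∀ t, NEc (dlt (n t) fun k => elw (Fin.append i ib k)
            (Fin.append M Mb k) (Fin.append S Sb k))) ∧
            GT (Fin.append M Mb) (fun t k => (n t k : ZMod 3))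
              (fun t => ∑ k, (n t k : ZMod 3) * Fin.append i ib k)
              (fun _ => 0) (Fin.append S Sb)) X := by
        rw [cnt_eq m X fun a => (∀ t, NEc (dlt (n t) (Fin.append a fun l => ew (pb l)))) ∧
          ∀ t, Tri (j (dlt (n t) (Fin.append a fun l => ew (pb l))))]
        refine Finset.sum_congr rfl fun i _ => ?_
        refine CT_congr fun M S hS => ?_
        rw [mem_TP] at hS
        rw [hb, append_elw]
        refine and_congr_right fun hne => ?_
        exact (gt_iff j n (Fin.append i ib) (append_sub (fun k => (hS k).2.2) hMb)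
          (append_all (P := fun s : Finset Ei => ∀ u ∈ s, Pq u) (fun k => (hS k).1) hSb) hne).symm
      have e2 : NF n pb X = ∑ i : Fin m → ZMod 3,
          CT (fun M S => ∀ t, NEc (dlt (n t) fun k => elw (Fin.append i ib k)
            (Fin.append M Mb k) (Fin.append S Sb k))) X := by
        unfold NF
        rw [cnt_eq m X fun a => ∀ t, NEc (dlt (n t) (Fin.append a fun l => ew (pb l)))]
        refine Finset.sum_congr rfl fun i _ => ?_
        refine CT_congr fun M S hS => ?_
        rw [hb, append_elw]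
      rw [Real.dist_eq, sub_zero]
      have e3 : ({a : Fin m → Ei | (∀ k, nr (a k) ≤ X ∧ FamU (a k)) ∧
          (∀ t, NEc (dlt (n t) (Fin.append a fun l => ew (pb l)))) ∧
          ∀ t, Tri (j (dlt (n t) (Fin.append a fun l => ew (pb l))))}.ncard : ℝ) /
            (AT m X : ℝ) - c9 ^ Mt * ((NF n pb X : ℝ) / (AT m X : ℝ)) =
          (({a : Fin m → Ei | (∀ k, nr (a k) ≤ X ∧ FamU (a k)) ∧
          (∀ t, NEc (dlt (n t) (Fin.append a fun l => ew (pb l)))) ∧
          ∀ t, Tri (j (dlt (n t) (Fin.append a fun l => ew (pb l))))}.ncard : ℝ) -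
            c9 ^ Mt * (NF n pb X : ℝ)) / (AT m X : ℝ) := by
        field_simp
      rw [e3, abs_div, abs_of_pos hN, div_lt_iff₀ hN, e1, e2]
      push_cast
      rw [Finset.mul_sum, ← Finset.sum_sub_distrib]
      refine lt_of_le_of_lt ((Finset.abs_sum_le_sum_abs _ _).trans
        (Finset.sum_le_sum fun i _ => hX i)) ?_
      rw [Finset.sum_const, Finset.card_univ, Fintype.card_fun, ZMod.card, Fintype.card_fin,
        nsmul_eq_mul]
      push_cast
      have e4 : (3 : ℝ) ^ m * (c * ε / (2 * 3 ^ m) * (X : ℝ) ^ m) =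
          ε / 2 * (c * (X : ℝ) ^ m) := by
        field_simp
      rw [e4]
      calc ε / 2 * (c * (X : ℝ) ^ m) ≤ ε / 2 * (AT m X : ℝ) := by gcongr
        _ < ε * (AT m X : ℝ) := by
          apply mul_lt_mul_of_pos_right _ hN
          linarith
  have h1 := hlim.add ((NF_lim n pb hpb hn).const_mul (c9 ^ Mt))
  rw [zero_add, mul_comm (c9 ^ Mt)] at h1
  refine h1.congr fun X => ?_
  ring

end

end Run7.h707.TF
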