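import Pool.Agent.Run7.h707.TF.Rel

/-! The law with fixed factors and with related monomials -/

set_option autoImplicit false
set_option linter.unusedVariables false
set_option linter.unusedSectionVars false

open scoped Classical

namespace Run7.h707.TF

open Finset Filter NumberField
open Pool.Agent.Y692.QS (Ei w nr)
open Pool.Agent.Y703.XK (c9)
open Pool.Agent.Y696.CTK (Tri)
open Pool.Agent.XLK (fcc)
open Pool.Agent.N883.FF (nq ClP w_pow_inj isUnit_w nr_w_mul)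
open Run7.h707.TC (dlt UC NEc FamU FamO ExO famO_iff exO_iff)
open Run7.h707.TD
open Run7.h707.TE (dO UO eqI eqI_apply ncard_eqI dO_eqI AllO uO_iff fin_all dO_ne dO_elim)

section
variable {K : Type} [Field K] [NumberField K] {I J B J' : Type} [Fintype I] [Fintype J] [Fintype B]
  [Fintype J']

theorem ex_pb (j : Ei ≃+* 𝓞 K) {b : B → 𝓞 K} (hb : ∀ i, FamO (b i)) {q : ℕ} (eB : B ≃ Fin q) :
    ∃ pb : Fin q → ZMod 3 × Ei, (∀ i, ClP (pb i).2) ∧ ∀ i, j (ew (pb i)) = b (eB.symm i) := by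
  have hb' : ∀ i : Fin q, ∃ p : ZMod 3 × Ei, ClP p.2 ∧ j (ew p) = b (eB.symm i) := by
    intro i
    obtain ⟨z, hz⟩ := j.surjective (b (eB.symm i))
    have h1 : FamU z := (famO_iff j z).1 (by rw [hz]; exact hb _)
    obtain ⟨p, hp, hpz⟩ := (famU_ew (X := (nr z).toNat)).1 ⟨Int.self_le_toNat _, h1⟩
    exact ⟨p, (mem_CF'.1 (mem_product.1 hp).2).2, by rw [hpz, hz]⟩
  choose pb hpb hpj using hb'
  exact ⟨pb, hpb, hpj⟩

theorem allO_eqI (j : Ei ≃+* 𝓞 K) (hj : ∀ z : Ei, Algebra.norm ℤ (j z) = nr z) {m : ℕ}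
    (eI : I ≃ Fin m) (X : ℕ) (b : Fin m → Ei) :
    AllO X (eqI j eI b) ↔ ∀ k, nr (b k) ≤ X ∧ FamU (b k) := by
  simp only [AllO, eqI_apply, hj, famO_iff]
  constructor
  · intro h k
    have := h (eI.symm k)
    rwa [Equiv.apply_symm_apply] at this
  · intro h k
    exact h (eI k)

theorem ncard_allO (j : Ei ≃+* 𝓞 K) (hj : ∀ z : Ei, Algebra.norm ℤ (j z) = nr z) {m : ℕ}
    (eI : I ≃ Fin m) (X : ℕ) : {a : I → 𝓞 K | AllO X a}.ncard = AT m X := by
  rw [ncard_eqI j eI]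
  unfold AT
  congr 1
  ext b
  exact allO_eqI j hj eI X b

theorem fin_allO (j : Ei ≃+* 𝓞 K) (hj : ∀ z : Ei, Algebra.norm ℤ (j z) = nr z) (X : ℕ) :
    {a : I → 𝓞 K | AllO X a}.Finite := by
  have h := (fin_all (Fintype.card I) X).image (eqI j (Fintype.equivFin I))
  refine h.subset fun a ha => ?_
  obtain ⟨b, rfl⟩ := (eqI j (Fintype.equivFin I)).surjective a
  exact ⟨b, (allO_eqI j hj _ X b).1 ha, rfl⟩

/-- few tuples have a product that is a unit times a cube -/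
theorem few_uoO (j : Ei ≃+* 𝓞 K) (hj : ∀ z : Ei, Algebra.norm ℤ (j z) = nr z) (n : J → I → ℕ)
    (l : J → B → ℕ) {b : B → 𝓞 K} (hb : ∀ i, FamO (b i)) (hn : ∀ t, ∃ k, (n t k : ZMod 3) ≠ 0) :
    Tendsto (fun X : ℕ => ({a : I → 𝓞 K | AllO X a ∧ ∃ t, UO (dO (n t) a * dO (l t) b)}.ncard : ℝ) /
      ({a : I → 𝓞 K | AllO X a}.ncard : ℝ)) atTop (nhds 0) := by
  set eI := Fintype.equivFin I with heI
  set eJ := Fintype.equivFin J with heJ
  set eB := Fintype.equivFin B with heB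
  set m := Fintype.card I with hm
  set q := Fintype.card B with hq
  obtain ⟨pb, hpb, hpj⟩ := ex_pb j hb eB
  obtain ⟨N, hN⟩ : ∃ N : Fin (Fintype.card J) → Fin (m + q) → ℕ,
    N = fun t => Fin.append (fun k => n (eJ.symm t) (eI.symm k))
      (fun i => l (eJ.symm t) (eB.symm i)) := ⟨_, rfl⟩
  have hNl : ∀ t k, N t (Fin.castAdd q k) = n (eJ.symm t) (eI.symm k) := fun t k => by
    rw [hN]; exact Fin.append_left _ _ _
  have h1 : ∀ t, ∃ k : Fin m, (N t (Fin.castAdd q k) : ZMod 3) ≠ 0 := fun t => by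
    obtain ⟨k, hk⟩ := hn (eJ.symm t)
    exact ⟨eI k, by rw [hNl]; simpa using hk⟩
  have hfix : ∀ t : J, j (dlt (fun i => l t (eB.symm i)) fun i => ew (pb i)) = dO (l t) b := by
    intro t
    unfold Run7.h707.TE.dO dlt
    rw [map_prod, ← Equiv.prod_comp eB.symm]
    refine prod_congr rfl fun i _ => ?_
    rw [map_pow, hpj]
  have hd : ∀ (t : J) (a : Fin m → Ei), dO (n t) (eqI j eI a) * dO (l t) b =
      j (dlt (N (eJ t)) (Fin.append a fun i => ew (pb i))) := by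
    intro t a
    rw [hN, dlt_append, map_mul, dO_eqI]
    simp only [Equiv.symm_apply_apply]
    rw [hfix]
  have hU : ∀ a : Fin m → Ei, (∃ t, UO (dO (n t) (eqI j eI a) * dO (l t) b)) ↔
      ∃ t, UC (dlt (N t) (Fin.append a fun i => ew (pb i))) := by
    intro a
    simp only [hd, uO_iff]
    constructor
    · rintro ⟨t, h⟩
      exact ⟨_, h⟩
    · rintro ⟨t, h⟩
      exact ⟨eJ.symm t, by simpa using h⟩
  refine (uc_limF N pb hpb h1).congr fun X => ?_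
  rw [ncard_allO j hj eI, ncard_eqI j eI]
  congr 2
  have h2 := cnt_ew m X fun a => ∃ t, UC (dlt (N t) (Fin.append a fun i => ew (pb i)))
  have h3 : {b_1 : Fin m → Ei | AllO X (eqI j eI b_1) ∧
      ∃ t, UO (dO (n t) (eqI j eI b_1) * dO (l t) b)} =
      {a : Fin m → Ei | (∀ k, nr (a k) ≤ X ∧ FamU (a k)) ∧
        ∃ t, UC (dlt (N t) (Fin.append a fun i => ew (pb i)))} := by
    ext a
    exact and_congr (allO_eqI j hj eI X a) (hU a)
  rw [h3, h2]
  refine fcc fun p _ => ?_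
  refine exists_congr fun t => ?_
  rw [append_ew]

/-- removing them does not change the limit -/
theorem lim_uoO (j : Ei ≃+* 𝓞 K) (hj : ∀ z : Ei, Algebra.norm ℤ (j z) = nr z) (n : J → I → ℕ)
    (l : J → B → ℕ) {b : B → 𝓞 K} (hb : ∀ i, FamO (b i)) (hn : ∀ t, ∃ k, (n t k : ZMod 3) ≠ 0)
    (P : (I → 𝓞 K) → Prop) {L : ℝ}
    (h : Tendsto (fun X : ℕ => ({a : I → 𝓞 K | AllO X a ∧ P a}.ncard : ℝ) /
      ({a : I → 𝓞 K | AllO X a}.ncard : ℝ)) atTop (nhds L)) :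
    Tendsto (fun X : ℕ => ({a : I → 𝓞 K | AllO X a ∧ P a ∧
      ∀ t, ¬ UO (dO (n t) a * dO (l t) b)}.ncard : ℝ) /
      ({a : I → 𝓞 K | AllO X a}.ncard : ℝ)) atTop (nhds L) := by
  have h3 := h.sub (few_uoO j hj n l hb hn)
  rw [sub_zero] at h3
  refine tendsto_of_tendsto_of_tendsto_of_le_of_le h3 h (fun X => ?_) fun X => ?_
  · show _ - _ ≤ _
    rw [← sub_div]
    refine div_le_div_of_nonneg_right ?_ (Nat.cast_nonneg _)
    rw [sub_le_iff_le_add]
    have h4 : {a : I → 𝓞 K | AllO X a ∧ P a} ⊆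
        {a : I → 𝓞 K | AllO X a ∧ P a ∧ ∀ t, ¬ UO (dO (n t) a * dO (l t) b)} ∪
        {a : I → 𝓞 K | AllO X a ∧ ∃ t, UO (dO (n t) a * dO (l t) b)} := by
      rintro a ⟨h5, h6⟩
      by_cases h8 : ∃ t, UO (dO (n t) a * dO (l t) b)
      · exact Or.inr ⟨h5, h8⟩
      · exact Or.inl ⟨h5, h6, fun t h9 => h8 ⟨t, h9⟩⟩
    have hf1 : {a : I → 𝓞 K | AllO X a ∧ P a ∧ ∀ t, ¬ UO (dO (n t) a * dO (l t) b)}.Finite :=
      (fin_allO j hj X).subset fun a ha => ha.1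
    have hf2 : {a : I → 𝓞 K | AllO X a ∧ ∃ t, UO (dO (n t) a * dO (l t) b)}.Finite :=
      (fin_allO j hj X).subset fun a ha => ha.1
    have h10 := (Set.ncard_le_ncard h4 (hf1.union hf2)).trans (Set.ncard_union_le _ _)
    have h11 := Nat.cast_le (α := ℝ).2 h10
    rw [Nat.cast_add] at h11
    exact h11
  · refine div_le_div_of_nonneg_right ?_ (Nat.cast_nonneg _)
    have hf : {a : I → 𝓞 K | AllO X a ∧ P a}.Finite := (fin_allO j hj X).subset fun a ha => ha.1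
    exact Nat.cast_le.2 (Set.ncard_le_ncard (fun a ha => ⟨ha.1, ha.2.1⟩) hf)

/-- related monomials: the product or the product with the square is a cube -/
def Rl (n : J → I → ℕ) (l : J → B → ℕ) (b : B → 𝓞 K) (t t' : J) : Prop :=
  ∃ e : ℕ, (e = 1 ∨ e = 2) ∧ (∀ k, (n t k : ZMod 3) + e * n t' k = 0) ∧
    ∃ x : 𝓞 K, dO (l t) b * dO (l t') b ^ e = x ^ 3

theorem rl_refl (n : J → I → ℕ) (l : J → B → ℕ) (b : B → 𝓞 K) (t : J) : Rl n l b t t :=
  ⟨2, Or.inr rfl, fun k => by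
    have : ∀ x : ZMod 3, x + (2 : ℕ) * x = 0 := by decide
    exact this _, dO (l t) b, by ring⟩

theorem cube_exp (n n' : I → ℕ) (e : ℕ) (h : ∀ k, (n k : ZMod 3) + e * n' k = 0) (a : I → 𝓞 K) :
    ∃ x : 𝓞 K, dO n a * dO n' a ^ e = x ^ 3 := by
  have h1 : ∀ k, 3 ∣ n k + e * n' k := fun k => by
    have := h k
    rw [← ZMod.natCast_eq_zero_iff]
    push_cast
    exact this
  choose m hm using h1
  refine ⟨∏ k, a k ^ m k, ?_⟩
  unfold Run7.h707.TE.dO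
  rw [← prod_pow, ← prod_mul_distrib, ← prod_pow]
  refine prod_congr rfl fun k _ => ?_
  rw [← pow_mul, ← pow_add, mul_comm (n' k) e, hm, mul_comm 3, pow_mul]

theorem fam_elim {a : I → 𝓞 K} {b : B → 𝓞 K} (ha : ∀ k, FamO (a k)) (hb : ∀ i, FamO (b i)) :
    ∀ i, FamO ((Sum.elim a b : I ⊕ B → 𝓞 K) i) := by
  rintro (i | i)
  · exact ha i
  · exact hb i

theorem dO_sum (n : I → ℕ) (l : B → ℕ) (a : I → 𝓞 K) (b : B → 𝓞 K) :
    dO (Sum.elim n l) (Sum.elim a b) = dO n a * dO l b := by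
  unfold Run7.h707.TE.dO
  rw [Fintype.prod_sum_type]
  rfl

/-- the properties of related monomials -/
theorem rl_iff (j : Ei ≃+* 𝓞 K) (hj : ∀ z : Ei, Algebra.norm ℤ (j z) = nr z) (n : J → I → ℕ)
    (l : J → B → ℕ) {b : B → 𝓞 K} (hb : ∀ i, FamO (b i)) {t t' : J} (h : Rl n l b t t')
    {a : I → 𝓞 K} (ha : ∀ k, FamO (a k)) :
    (ExO (dO (n t) a * dO (l t) b) ↔ ExO (dO (n t') a * dO (l t') b)) ∧
    (¬ ExO (dO (n t) a * dO (l t) b) →
      (Tri (dO (n t) a * dO (l t) b) ↔ Tri (dO (n t') a * dO (l t') b))) := by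
  obtain ⟨e, he, hk, x, hx⟩ := h
  obtain ⟨y, hy⟩ := cube_exp (n t) (n t') e hk a
  have h1 : (dO (n t) a * dO (l t) b) * (dO (n t') a * dO (l t') b) ^ e = (y * x) ^ 3 := by
    rw [mul_pow y x, ← hy, ← hx]
    ring
  choose ca hca using fun k => isCl_ex j hj (ha k)
  choose cb hcb using fun k => isCl_ex j hj (hb k)
  have hcl : ∀ t, IsCl (j w) (dO (n t) a * dO (l t) b) (∑ i, n t i • ca i + ∑ i, l t i • cb i) :=
    fun t => isCl_mul (w3 j) (isCl_dO (w3 j) (n t) hca) (isCl_dO (w3 j) (l t) hcb)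
  have hne : ∀ t, dO (n t) a * dO (l t) b ≠ 0 := fun t =>
    mul_ne_zero (dO_ne ha _) (dO_ne hb _)
  have h2 := rel_ex j hj (hne t) (hne t') he h1 (hcl t) (hcl t')
  refine ⟨h2, fun h3 => ?_⟩
  have h4 : ¬ ExO (dO (n t') a * dO (l t') b) := fun h5 => h3 (h2.2 h5)
  rw [← dO_sum] at h1 h3 ⊢
  rw [← dO_sum] at h1 h4 ⊢
  exact rel_tri j hj _ _ (fam_elim ha hb) he h1 h3 h4

/-- **The law with related monomials**: `R` is a system of representatives. -/
theorem lawD (j : Ei ≃+* 𝓞 K) (hj : ∀ z : Ei, Algebra.norm ℤ (j z) = nr z) (n : J → I → ℕ)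
    (l : J → B → ℕ) {b : B → 𝓞 K} (hb : ∀ i, FamO (b i)) (hn : ∀ t, ∃ k, (n t k : ZMod 3) ≠ 0)
    (R : Finset J) (hR : ∀ t ∈ R, ∀ t' ∈ R, t ≠ t' → ¬ Rl n l b t t')
    (hR' : ∀ t, ∃ t' ∈ R, Rl n l b t t')
    (n' : J' → I → ℕ) (l' : J' → B → ℕ) (hn' : ∀ t, ∃ k, (n' t k : ZMod 3) ≠ 0)
    (c : J → ZMod 3 × ZMod 3) (hc : ∀ t, IsCl (j w) (dO (l t) b) (c t)) :
    (∃ (c : ℝ) (X₀ : ℕ), 0 < c ∧ ∀ X : ℕ, X₀ ≤ X → c * (X : ℝ) ^ Fintype.card I ≤
      ({a : I → 𝓞 K | AllO X a}.ncard : ℝ)) ∧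
    Tendsto (fun X : ℕ => ({a : I → 𝓞 K | AllO X a ∧ (∀ t, ¬ ExO (dO (n t) a * dO (l t) b)) ∧
      ∀ t, ¬ UO (dO (n' t) a * dO (l' t) b)}.ncard : ℝ)
      / ({a : I → 𝓞 K | AllO X a}.ncard : ℝ)) atTop (nhds (kapJ n c)) ∧
    Tendsto (fun X : ℕ => ({a : I → 𝓞 K | AllO X a ∧ ((∀ t, ¬ ExO (dO (n t) a * dO (l t) b)) ∧
      ∀ t, ¬ UO (dO (n' t) a * dO (l' t) b)) ∧ ∀ t, Tri (dO (n t) a * dO (l t) b)}.ncard : ℝ) /
      ({a : I → 𝓞 K | AllO X a}.ncard : ℝ)) atTop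
      (nhds (kapJ n c * c9 ^ R.card)) := by
  obtain ⟨h1, h2, h3⟩ := lawFI (J := ↥R) j hj (fun t => n t) (fun t => l t) hb (fun t => hn t)
    (fun t t' htt e he hk hx => hR t t.2 t' t'.2 (fun h => htt (Subtype.ext h))
      ⟨e, he, hk, hx⟩) (fun t => c t) (fun t => hc t)
  have hk : kapJ (fun t : ↥R => n t) (fun t => c t) = kapJ n c := by
    unfold kapJ
    congr 3
    ext u
    simp only [Set.mem_ofPred_eq, Subtype.forall]
    refine ⟨fun h t => ?_, fun h t _ => h t⟩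
    obtain ⟨t', ht', e, he, hk, x, hx⟩ := hR' t
    have h4 := h t' ht'
    have h5 := rel_cls j hj hx (hc t) (hc t')
    have h6 : (∑ k, n t k • u k + c t) + e • (∑ k, n t' k • u k + c t') = 0 := by
      have h7 : ∑ k, n t k • u k + e • ∑ k, n t' k • u k = 0 := by
        rw [smul_sum, ← sum_add_distrib]
        refine sum_eq_zero fun k _ => ?_
        have h8 := hk k
        rw [smul_smul, ← add_smul]
        have h9 : ((n t k + e * n t' k : ℕ) : ZMod 3) = 0 := by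
          push_cast
          exact h8
        refine Prod.ext ?_ ?_
        · rw [Prod.smul_fst, nsmul_eq_mul, h9, zero_mul, Prod.fst_zero]
        · rw [Prod.smul_snd, nsmul_eq_mul, h9, zero_mul, Prod.snd_zero]
      rw [smul_add]
      calc _ = (∑ k, n t k • u k + e • ∑ k, n t' k • u k) + (c t + e • c t') := by abel
        _ = 0 := by rw [h7, h5, add_zero]
    rw [Ne, cl_iff he h6]
    exact h4
  have hcard : Fintype.card ↥R = R.card := Fintype.card_coe R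
  rw [hk] at h2 h3
  rw [hcard] at h3
  -- the two families are the same
  have hE : ∀ (X : ℕ) (a : I → 𝓞 K), AllO X a → ((∀ t : ↥R, ¬ ExO (dO (n t) a * dO (l t) b)) ↔
      ∀ t, ¬ ExO (dO (n t) a * dO (l t) b)) := by
    intro X a ha
    refine ⟨fun h t => ?_, fun h t => h t⟩
    obtain ⟨t', ht', hr⟩ := hR' t
    rw [(rl_iff j hj n l hb hr fun k => (ha k).2).1]
    exact h ⟨t', ht'⟩
  have hT : ∀ (X : ℕ) (a : I → 𝓞 K), AllO X a → (∀ t, ¬ ExO (dO (n t) a * dO (l t) b)) →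
      ((∀ t : ↥R, Tri (dO (n t) a * dO (l t) b)) ↔ ∀ t, Tri (dO (n t) a * dO (l t) b)) := by
    intro X a ha hE
    refine ⟨fun h t => ?_, fun h t => h t⟩
    obtain ⟨t', ht', hr⟩ := hR' t
    rw [(rl_iff j hj n l hb hr fun k => (ha k).2).2 (hE t)]
    exact h ⟨t', ht'⟩
  refine ⟨h1, ?_, ?_⟩
  · refine lim_uoO j hj n' l' hb hn' (fun a => ∀ t, ¬ ExO (dO (n t) a * dO (l t) b)) ?_
    refine h2.congr fun X => ?_
    congr 3
    ext a
    exact and_congr_right fun ha => hE X a ha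
  · have h4 := lim_uoO j hj n' l' hb hn' (fun a => (∀ t, ¬ ExO (dO (n t) a * dO (l t) b)) ∧
      ∀ t, Tri (dO (n t) a * dO (l t) b)) (L := kapJ n c * c9 ^ R.card) (h3.congr fun X => by
        congr 3
        ext a
        refine and_congr_right fun ha => ?_
        constructor
        · rintro ⟨k1, k2⟩
          have k3 := (hE X a ha).1 k1
          exact ⟨k3, (hT X a ha k3).1 k2⟩
        · rintro ⟨k1, k2⟩
          exact ⟨(hE X a ha).2 k1, (hT X a ha k1).2 k2⟩)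
    refine h4.congr fun X => ?_
    congr 3
    ext a
    refine and_congr_right fun ha => ?_
    tauto

end

end Run7.h707.TF
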