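import Pool.Agent.Run7.h707.TF.LawS

/-! The law for monomials in elements some of which are fixed and some free -/

set_option autoImplicit false
set_option linter.unusedVariables false
set_option linter.unusedSectionVars false

open scoped Classical

namespace Run7.h707.TF

open Finset Filter NumberField
open Pool.Agent.Y692.QS (Ei w nr)
open Pool.Agent.Y703.XK (c9)
open Pool.Agent.Y696.CTK (Tri)
open Run7.h707.TC (FamO ExO)
open Run7.h707.TE

section
variable {K : Type} [Field K] [NumberField K] {B J J' : Type} [Fintype B] [Fintype J] [Fintype J']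
  (S : Finset B)

/-- the elements: free for the indices in `S`, fixed for the others -/
noncomputable def mx (b : B → 𝓞 K) (a : ↥S → 𝓞 K) (i : B) : 𝓞 K :=
  if h : i ∈ S then a ⟨i, h⟩ else b i

theorem dO_mx (e : B → ℕ) (b : B → 𝓞 K) (a : ↥S → 𝓞 K) :
    dO e (mx S b a) = dO (fun i : ↥S => e i) a * dO (fun i => if i ∈ S then 0 else e i) b := by
  unfold Run7.h707.TE.dO
  rw [← Finset.prod_mul_prod_compl S]
  congr 1
  · rw [← Finset.prod_coe_sort S]
    refine Finset.prod_congr rfl fun i _ => ?_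
    unfold mx
    rw [dif_pos i.2]
  · rw [← Finset.prod_mul_prod_compl S]
    rw [Finset.prod_eq_one (s := S) (fun i hi => by
      show b i ^ (if i ∈ S then 0 else e i) = 1
      rw [if_pos hi, pow_zero]), one_mul]
    refine Finset.prod_congr rfl fun i hi => ?_
    rw [mem_compl] at hi
    show mx S b a i ^ e i = b i ^ (if i ∈ S then 0 else e i)
    unfold mx
    rw [dif_neg hi, if_neg hi]

theorem mx_fam {b : B → 𝓞 K} (hb : ∀ i, FamO (b i)) {a : ↥S → 𝓞 K} (ha : ∀ i, FamO (a i)) (i : B) :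
    FamO (mx S b a i) := by
  unfold mx
  split_ifs with h
  · exact ha _
  · exact hb _

/-- related monomials: the product of one with the other or with its square is identically a cube -/
def RelM (e : J → B → ℕ) (b : B → 𝓞 K) (t t' : J) : Prop :=
  ∃ f : ℕ, (f = 1 ∨ f = 2) ∧ ∀ a : ↥S → 𝓞 K, ∃ x : 𝓞 K,
    dO (e t) (mx S b a) * dO (e t') (mx S b a) ^ f = x ^ 3

/-- the proportion of the classes -/
noncomputable def kapM (e : J → B → ℕ) (b : B → 𝓞 K) : ℝ :=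
  ({u : ↥S → 𝓞 K | (∀ k, u k ∈ reps K) ∧ ∀ t, ¬ Nm1 (dO (e t) (mx S b u))}.ncard : ℝ) / 9 ^ S.card

variable {S}

theorem relM_refl {e : J → B → ℕ} {b : B → 𝓞 K} (t : J) : RelM S e b t t :=
  ⟨2, Or.inr rfl, fun a => ⟨dO (e t) (mx S b a), by ring⟩⟩

theorem relM_symm {e : J → B → ℕ} {b : B → 𝓞 K} (t t' : J) (h : RelM S e b t t') :
    RelM S e b t' t := by
  obtain ⟨f, hf, h⟩ := h
  refine ⟨f, hf, fun a => ?_⟩
  obtain ⟨x, hx⟩ := h a
  by_cases hy : dO (e t') (mx S b a) = 0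
  · exact ⟨0, by rw [hy, zero_mul, zero_pow three_ne_zero]⟩
  · exact rel_symm hy hf hx

theorem relM_iff (j : Ei ≃+* 𝓞 K) (hj : ∀ z : Ei, Algebra.norm ℤ (j z) = nr z)
    {b : B → 𝓞 K} (hb : ∀ i, b i ≠ 0) {e : J → B → ℕ} (t t' : J) :
    Rl (fun (t : J) (i : ↥S) => e t i) (fun t i => if i ∈ S then 0 else e t i) b t t' ↔
      RelM S e b t t' := by
  constructor
  · rintro ⟨f, hf, hk, x, hx⟩
    refine ⟨f, hf, fun a => ?_⟩
    obtain ⟨y, hy⟩ := cube_exp _ _ f hk a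
    refine ⟨y * x, ?_⟩
    rw [dO_mx, dO_mx, mul_pow y x, ← hy, ← hx]
    ring
  · rintro ⟨f, hf, h⟩
    have h1 : ∀ n : ↥S → ℕ, dO n (fun _ : ↥S => (1 : 𝓞 K)) = 1 := fun n => by
      unfold Run7.h707.TE.dO
      simp
    obtain ⟨x, hx⟩ := h fun _ => 1
    rw [dO_mx, dO_mx, h1, h1, one_mul, one_mul] at hx
    refine ⟨f, hf, fun k => ?_, x, hx⟩
    obtain ⟨y, hy⟩ := h (Function.update (fun _ => 1) k 2)
    have h2 : ∀ n : ↥S → ℕ, dO n (Function.update (fun _ : ↥S => (1 : 𝓞 K)) k 2) = 2 ^ n k := by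
      intro n
      unfold Run7.h707.TE.dO
      rw [Fintype.prod_eq_single k (fun i hi => by
        rw [Function.update_of_ne hi, one_pow]), Function.update_self]
    have hx0 : x ≠ 0 := by
      rintro rfl
      rw [zero_pow three_ne_zero] at hx
      have h3 : ∀ l : B → ℕ, dO l b ≠ 0 := fun l =>
        Finset.prod_ne_zero_iff.2 fun i _ => pow_ne_zero _ (hb i)
      exact mul_ne_zero (h3 _) (pow_ne_zero _ (h3 _)) hx
    have h4 := two_cube j hj (n := e t k + f * e t' k) (x := y) hx0 (by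
      rw [← hy, ← hx, dO_mx, dO_mx, h2, h2, pow_add, mul_comm f, pow_mul]
      ring)
    have h5 := (ZMod.natCast_eq_zero_iff _ 3).2 h4
    push_cast at h5
    exact h5

/-- **The law for monomials in fixed and free elements.** -/
theorem law_M (j : Ei ≃+* 𝓞 K) (hj : ∀ z : Ei, Algebra.norm ℤ (j z) = nr z)
    {b : B → 𝓞 K} (hb : ∀ i, FamO (b i)) (e : J → B → ℕ)
    (he : ∀ t, ∃ i ∈ S, (e t i : ZMod 3) ≠ 0) (e' : J' → B → ℕ)
    (he' : ∀ t, ∃ i ∈ S, (e' t i : ZMod 3) ≠ 0) (R : Finset J)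
    (hR : ∀ t ∈ R, ∀ t' ∈ R, t ≠ t' → ¬ RelM S e b t t')
    (hR' : ∀ t, ∃ t' ∈ R, RelM S e b t t') :
    (∃ (c : ℝ) (X₀ : ℕ), 0 < c ∧ ∀ X : ℕ, X₀ ≤ X → c * (X : ℝ) ^ S.card ≤
      ({a : ↥S → 𝓞 K | AllO X a}.ncard : ℝ)) ∧
    Tendsto (fun X : ℕ => ({a : ↥S → 𝓞 K | AllO X a ∧ (∀ t, ¬ ExO (dO (e t) (mx S b a))) ∧
      ∀ t, ¬ UO (dO (e' t) (mx S b a))}.ncard : ℝ)
      / ({a : ↥S → 𝓞 K | AllO X a}.ncard : ℝ)) atTop (nhds (kapM S e b)) ∧
    Tendsto (fun X : ℕ => ({a : ↥S → 𝓞 K | AllO X a ∧ ((∀ t, ¬ ExO (dO (e t) (mx S b a))) ∧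
      ∀ t, ¬ UO (dO (e' t) (mx S b a))) ∧ ∀ t, Tri (dO (e t) (mx S b a))}.ncard : ℝ)
      / ({a : ↥S → 𝓞 K | AllO X a}.ncard : ℝ)) atTop (nhds (kapM S e b * c9 ^ R.card)) := by
  choose cb hcb using fun i => isCl_ex j hj (hb i)
  have hcl : ∀ t : J, IsCl (j w) (dO (fun i => if i ∈ S then 0 else e t i) b)
      (∑ i, (if i ∈ S then 0 else e t i) • cb i) := fun t => isCl_dO (w3 j) _ hcb
  have hb0 : ∀ i, b i ≠ 0 := fun i => ne_of_famO (hb i)
  obtain ⟨h1, h2, h3⟩ := lawD (J := J) (J' := J') j hj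
    (fun t (i : ↥S) => e t i) (fun t i => if i ∈ S then 0 else e t i) (b := b) hb
    (fun t => by
      obtain ⟨i, hi, h⟩ := he t
      exact ⟨⟨i, hi⟩, h⟩) R
    (fun t ht t' ht' hne => by rw [relM_iff j hj hb0]; exact hR t ht t' ht' hne)
    (fun t => by
      obtain ⟨t', ht', h⟩ := hR' t
      exact ⟨t', ht', (relM_iff j hj hb0 t t').2 h⟩)
    (fun t (i : ↥S) => e' t i) (fun t i => if i ∈ S then 0 else e' t i) (fun t => by
      obtain ⟨i, hi, h⟩ := he' t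
      exact ⟨⟨i, hi⟩, h⟩) _ hcl
  rw [kapJ_reps j hj _ _ _ hcl, Fintype.card_coe] at h2 h3
  simp only [← dO_mx] at h2 h3
  rw [Fintype.card_coe] at h1
  exact ⟨h1, h2, h3⟩

/-- the proportion is positive as soon as there is one tuple -/
theorem kapM_pos (j : Ei ≃+* 𝓞 K) (hj : ∀ z : Ei, Algebra.norm ℤ (j z) = nr z)
    {b : B → 𝓞 K} (hb : ∀ i, FamO (b i)) {e : J → B → ℕ}
    {a : ↥S → 𝓞 K} (ha : ∀ i, FamO (a i)) (h : ∀ t, ¬ ExO (dO (e t) (mx S b a))) :
    0 < kapM S e b := by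
  choose ca hca using fun i => isCl_ex j hj (ha i)
  choose cb hcb using fun i => isCl_ex j hj (hb i)
  unfold kapM
  refine div_pos ?_ (by positivity)
  rw [Nat.cast_pos]
  have hfin : {u : ↥S → 𝓞 K | (∀ k, u k ∈ reps K) ∧ ∀ t, ¬ Nm1 (dO (e t) (mx S b u))}.Finite := by
    have h1 : (Set.range fun (c : ↥S → ZMod 3 × ZMod 3) (k : ↥S) => rp j (c k)).Finite :=
      Set.finite_range _
    refine h1.subset fun u hu => ?_
    have h2 : ∀ k, ∃ c, rp j c = u k := fun k => by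
      have := hu.1 k
      rw [← rp_range j] at this
      exact this
    choose c hc using h2
    exact ⟨c, funext hc⟩
  rw [Set.ncard_pos hfin]
  refine ⟨fun k => rp j (ca k), fun k => ?_, fun t hp => ?_⟩
  · rw [← rp_range j]
    exact ⟨_, rfl⟩
  · apply h t
    have h3 : IsCl (j w) (dO (e t) (mx S b fun k => rp j (ca k)))
        (∑ i : ↥S, (e t i) • ca i + ∑ i, (if i ∈ S then 0 else e t i) • cb i) := by
      rw [dO_mx]
      exact isCl_mul (w3 j) (isCl_dO (w3 j) _ fun k => rp_cl j hj _) (isCl_dO (w3 j) _ hcb)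
    have h4 : IsCl (j w) (dO (e t) (mx S b a))
        (∑ i : ↥S, (e t i) • ca i + ∑ i, (if i ∈ S then 0 else e t i) • cb i) := by
      rw [dO_mx]
      exact isCl_mul (w3 j) (isCl_dO (w3 j) _ hca) (isCl_dO (w3 j) _ hcb)
    unfold Nm1 at hp
    rw [← isCl_zero (ω := j w)] at hp
    rw [exO_cl j hj h4]
    exact Or.inr (isCl_unique j hj h3 hp)

end

end Run7.h707.TF
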