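import Pool.Agent.Run7.h707.TF.HypG

/-! Hypersurfaces with some free and some fixed coefficients over a fixed field of cube roots -/

set_option autoImplicit false
set_option linter.unusedVariables false
set_option linter.unusedSectionVars false

open scoped Classical

namespace Run7.h707.TF

open Finset Filter NumberField IsDedekindDomain WeierstrassCurve
open Pool.Agent.N883.FG
open Pool.Agent.N883.DQ (Dt)
open Pool.Agent.Y692.QS (Ei w nr)
open Pool.Agent.Y703.XK (c9)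
open Pool.Agent.H921R2.TatePole (nm)
open Pool.Agent.Y696.CTK (ED Tri)
open Pool.Agent.TH841.NF.D (Sha)
open Run7.h707.TC (FamO ExO IsLFT mem_SS nT nT_ne)
open Run7.h707.TE

section
variable {K : Type} [Field K] [NumberField K] {m r : ℕ} (S : Finset (Fin m))

/-- the coefficients: free for the indices in `S`, fixed for the others -/
noncomputable def mix (b : Fin m → 𝓞 K) (a : ↥S → 𝓞 K) (i : Fin m) : 𝓞 K :=
  if h : i ∈ S then a ⟨i, h⟩ else b i

/-- the exponents `1`, `2` -/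
def eT (T : Finset (Fin m)) (i : Fin m) : ℕ := if i ∈ T then 2 else 1

theorem dt_dO (x : Fin m → 𝓞 K) (T : Finset (Fin m)) : Dt x T = ∏ i, x i ^ eT T i := by
  unfold Pool.Agent.N883.DQ.Dt eT
  have h1 : ∏ i ∈ T, x i = ∏ i, if i ∈ T then x i else 1 := by
    rw [Finset.prod_ite_mem, Finset.univ_inter]
  rw [h1, ← Finset.prod_mul_distrib]
  refine Finset.prod_congr rfl fun k _ => ?_
  split_ifs
  · rw [pow_two]
  · rw [pow_one, mul_one]

theorem dt_mix (b : Fin m → 𝓞 K) (a : ↥S → 𝓞 K) (T : Finset (Fin m)) :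
    Dt (mix S b a) T = dO (fun i : ↥S => eT T i) a *
      dO (fun i => if i ∈ S then 0 else eT T i) b := by
  rw [dt_dO]
  unfold Run7.h707.TE.dO
  rw [← Finset.prod_mul_prod_compl S]
  congr 1
  · rw [← Finset.prod_coe_sort S]
    refine Finset.prod_congr rfl fun i _ => ?_
    unfold mix
    rw [dif_pos i.2]
  · rw [← Finset.prod_mul_prod_compl S]
    rw [Finset.prod_eq_one (s := S) (fun i hi => by
      show b i ^ (if i ∈ S then 0 else eT T i) = 1
      rw [if_pos hi, pow_zero]), one_mul]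
    refine Finset.prod_congr rfl fun i hi => ?_
    rw [mem_compl] at hi
    show mix S b a i ^ eT T i = b i ^ (if i ∈ S then 0 else eT T i)
    unfold mix
    rw [dif_neg hi, if_neg hi]

/-- the product of the fixed elements does not depend on the entries in `S` -/
theorem dO_fix (b b' : Fin m → 𝓞 K) (h : ∀ i, i ∉ S → b i = b' i) (T : Finset (Fin m)) :
    dO (fun i => if i ∈ S then 0 else eT T i) b = dO (fun i => if i ∈ S then 0 else eT T i) b' := by
  unfold Run7.h707.TE.dO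
  refine Finset.prod_congr rfl fun i _ => ?_
  show b i ^ (if i ∈ S then 0 else eT T i) = b' i ^ (if i ∈ S then 0 else eT T i)
  by_cases hi : i ∈ S
  · rw [if_pos hi, pow_zero, pow_zero]
  · rw [h i hi]

variable (J₀ : Finset (Finset (Fin m)))

/-- the twist as a function of the free coefficients -/
noncomputable def tw (b : Fin m → 𝓞 K) (d : Fin r → 𝓞 K) (p : ↥J₀ × (Fin r → ZMod 3))
    (a : ↥S → 𝓞 K) : 𝓞 K := Dt (mix S b a) p.1 * bp d p.2

/-- related indices: the product of one twist with the other or with its square is identically a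
cube -/
def RelS (b : Fin m → 𝓞 K) (d : Fin r → 𝓞 K) (p p' : ↥J₀ × (Fin r → ZMod 3)) : Prop :=
  ∃ e : ℕ, (e = 1 ∨ e = 2) ∧ ∀ a : ↥S → 𝓞 K, ∃ x : 𝓞 K,
    tw S J₀ b d p a * tw S J₀ b d p' a ^ e = x ^ 3

/-- the proportion of the classes -/
noncomputable def kapS (b : Fin m → 𝓞 K) (d : Fin r → 𝓞 K) : ℝ :=
  ({u : ↥S → 𝓞 K | (∀ k, u k ∈ reps K) ∧ ∀ p, ¬ Nm1 (tw S J₀ b d p u)}.ncard : ℝ) / 9 ^ S.card

/-- a power of two that is a cube -/
theorem two_cube (j : Ei ≃+* 𝓞 K) (hj : ∀ z : Ei, Algebra.norm ℤ (j z) = nr z) {n : ℕ}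
    {x y : 𝓞 K} (hy : y ≠ 0) (h : (2 : 𝓞 K) ^ n * y ^ 3 = x ^ 3) : 3 ∣ n := by
  obtain ⟨u, hu⟩ := ex_cube hy h.symm
  have h1 := congrArg (Algebra.norm ℤ) hu
  rw [map_pow, map_pow] at h1
  have h2 : Algebra.norm ℤ (2 : 𝓞 K) = 4 := by
    have e : (2 : 𝓞 K) = j 2 := by rw [map_ofNat]
    rw [e, hj]
    decide
  rw [h2] at h1
  obtain ⟨N, hN⟩ : ∃ N : ℤ, N = Algebra.norm ℤ u := ⟨_, rfl⟩
  rw [← hN] at h1
  have hN0 : N ≠ 0 := by
    rintro rfl
    rw [zero_pow three_ne_zero] at h1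
    exact pow_ne_zero n (by norm_num : (4 : ℤ) ≠ 0) h1.symm
  have h3 := congrArg (padicValInt 2) h1
  have hp : Fact (Nat.Prime 2) := ⟨Nat.prime_two⟩
  have h4 : padicValInt 2 (N ^ 3) = 3 * padicValInt 2 N := by
    have : N ^ 3 = N * (N * N) := by ring
    rw [this, padicValInt.mul hN0 (mul_ne_zero hN0 hN0), padicValInt.mul hN0 hN0]
    ring
  have h5 : padicValInt 2 ((4 : ℤ) ^ n) = 2 * n := by
    have : ((4 : ℤ) ^ n) = ((2 ^ (2 * n) : ℕ) : ℤ) := by
      rw [pow_mul]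
      norm_num
    rw [this, padicValInt.of_nat, padicValNat.prime_pow]
  rw [h4, h5] at h3
  omega

variable {S J₀}

theorem relS_iff (j : Ei ≃+* 𝓞 K) (hj : ∀ z : Ei, Algebra.norm ℤ (j z) = nr z)
    {b : Fin m → 𝓞 K} (hb : ∀ i, b i ≠ 0) {d : Fin r → 𝓞 K} (hd : ∀ i, d i ≠ 0)
    (p p' : ↥J₀ × (Fin r → ZMod 3)) :
    Rl (fun (p : ↥J₀ × (Fin r → ZMod 3)) (i : ↥S) => eT p.1.1 i)
      (fun p => Sum.elim (fun i => if i ∈ S then 0 else eT p.1.1 i) fun i => (p.2 i).val)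
      (Sum.elim b d) p p' ↔ RelS S J₀ b d p p' := by
  have htw : ∀ (p : ↥J₀ × (Fin r → ZMod 3)) (a : ↥S → 𝓞 K), tw S J₀ b d p a =
      dO (fun i : ↥S => eT p.1.1 i) a * dO (Sum.elim (fun i => if i ∈ S then 0 else eT p.1.1 i)
        fun i => (p.2 i).val) (Sum.elim b d) := by
    intro p a
    unfold tw
    rw [dt_mix, dO_elim, mul_assoc]
  constructor
  · rintro ⟨e, he, hk, x, hx⟩
    refine ⟨e, he, fun a => ?_⟩
    obtain ⟨y, hy⟩ := cube_exp _ _ e hk a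
    refine ⟨y * x, ?_⟩
    rw [htw, htw, mul_pow y x, ← hy, ← hx]
    ring
  · rintro ⟨e, he, h⟩
    have h1 : ∀ n : ↥S → ℕ, dO n (fun _ : ↥S => (1 : 𝓞 K)) = 1 := fun n => by
      unfold Run7.h707.TE.dO
      simp
    obtain ⟨x, hx⟩ := h fun _ => 1
    rw [htw, htw, h1, h1, one_mul, one_mul] at hx
    refine ⟨e, he, fun k => ?_, x, hx⟩
    obtain ⟨y, hy⟩ := h (Function.update (fun _ => 1) k 2)
    have h2 : ∀ n : ↥S → ℕ, dO n (Function.update (fun _ : ↥S => (1 : 𝓞 K)) k 2) = 2 ^ n k := by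
      intro n
      unfold Run7.h707.TE.dO
      rw [Fintype.prod_eq_single k (fun i hi => by
        rw [Function.update_of_ne hi, one_pow]), Function.update_self]
    have hx0 : x ≠ 0 := by
      rintro rfl
      rw [zero_pow three_ne_zero] at hx
      have h3 : ∀ l : Fin m ⊕ Fin r → ℕ, dO l (Sum.elim b d) ≠ 0 := fun l =>
        Finset.prod_ne_zero_iff.2 fun i _ => pow_ne_zero _ (by
          rcases i with i | i
          · exact hb i
          · exact hd i)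
      exact mul_ne_zero (h3 _) (pow_ne_zero _ (h3 _)) hx
    have h4 := two_cube j hj (n := eT p.1.1 k + e * eT p'.1.1 k) (x := y) hx0 (by
      rw [← hy, ← hx, htw, htw, h2, h2, pow_add, mul_comm e, pow_mul]
      ring)
    have h5 := (ZMod.natCast_eq_zero_iff _ 3).2 h4
    push_cast at h5
    exact h5

theorem tw_eq (b : Fin m → 𝓞 K) (d : Fin r → 𝓞 K) (p : ↥J₀ × (Fin r → ZMod 3)) (a : ↥S → 𝓞 K) :
    tw S J₀ b d p a = dO (fun i : ↥S => eT p.1.1 i) a *
      dO (Sum.elim (fun i => if i ∈ S then 0 else eT p.1.1 i) fun i => (p.2 i).val)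
        (Sum.elim b d) := by
  unfold tw
  rw [dt_mix, dO_elim, mul_assoc]

theorem eT_ne (T : Finset (Fin m)) (i : Fin m) : (eT T i : ZMod 3) ≠ 0 := by
  unfold eT
  split_ifs <;> decide

/-- **The law for the hypersurfaces with some fixed coefficients over a fixed field.** -/
theorem law_S (j : Ei ≃+* 𝓞 K) (hj : ∀ z : Ei, Algebra.norm ℤ (j z) = nr z) (hS : S.Nonempty)
    {b : Fin m → 𝓞 K} (hb : ∀ i, FamO (b i)) {d : Fin r → 𝓞 K} (hd : ∀ i, FamO (d i))
    (R : Finset (↥J₀ × (Fin r → ZMod 3)))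
    (hR : ∀ p ∈ R, ∀ p' ∈ R, p ≠ p' → ¬ RelS S J₀ b d p p')
    (hR' : ∀ p, ∃ p' ∈ R, RelS S J₀ b d p p') :
    (∃ (c : ℝ) (X₀ : ℕ), 0 < c ∧ ∀ X : ℕ, X₀ ≤ X → c * (X : ℝ) ^ S.card ≤
      ({a : ↥S → 𝓞 K | AllO X a}.ncard : ℝ)) ∧
    Tendsto (fun X : ℕ => ({a : ↥S → 𝓞 K | AllO X a ∧ ∀ p, ¬ ExO (tw S J₀ b d p a)}.ncard : ℝ)
      / ({a : ↥S → 𝓞 K | AllO X a}.ncard : ℝ)) atTop (nhds (kapS S J₀ b d)) ∧
    Tendsto (fun X : ℕ => ({a : ↥S → 𝓞 K | AllO X a ∧ (∀ p, ¬ ExO (tw S J₀ b d p a)) ∧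
      ∀ p, Tri (tw S J₀ b d p a)}.ncard : ℝ) / ({a : ↥S → 𝓞 K | AllO X a}.ncard : ℝ)) atTop
      (nhds (kapS S J₀ b d * c9 ^ R.card)) := by
  choose cb hcb using fun i => isCl_ex j hj (fam_elim hb hd i)
  have hcl : ∀ p : ↥J₀ × (Fin r → ZMod 3), IsCl (j w)
      (dO (Sum.elim (fun i => if i ∈ S then 0 else eT p.1.1 i) fun i => (p.2 i).val)
        (Sum.elim b d)) (∑ i, (Sum.elim (fun i => if i ∈ S then 0 else eT p.1.1 i)
          fun i => (p.2 i).val : Fin m ⊕ Fin r → ℕ) i • cb i) := fun p =>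
    isCl_dO (w3 j) _ hcb
  have hb0 : ∀ i, b i ≠ 0 := fun i => ne_of_famO (hb i)
  have hd0 : ∀ i, d i ≠ 0 := fun i => ne_of_famO (hd i)
  obtain ⟨i₀, hi₀⟩ := hS
  obtain ⟨h1, h2, h3⟩ := lawD (J := ↥J₀ × (Fin r → ZMod 3)) (J' := Empty) j hj
    (fun p (i : ↥S) => eT p.1.1 i)
    (fun p => Sum.elim (fun i => if i ∈ S then 0 else eT p.1.1 i) fun i => (p.2 i).val)
    (b := Sum.elim b d) (fam_elim hb hd) (fun p => ⟨⟨i₀, hi₀⟩, eT_ne _ _⟩) R
    (fun p hp p' hp' hne => by rw [relS_iff j hj hb0 hd0]; exact hR p hp p' hp' hne)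
    (fun p => by
      obtain ⟨p', hp', h⟩ := hR' p
      exact ⟨p', hp', (relS_iff j hj hb0 hd0 p p').2 h⟩)
    (fun t => t.elim) (fun t => t.elim) (fun t => t.elim) _ hcl
  rw [kapJ_reps j hj _ _ _ hcl, Fintype.card_coe] at h2 h3
  simp only [← tw_eq, IsEmpty.forall_iff, and_true] at h2 h3
  rw [Fintype.card_coe] at h1
  exact ⟨h1, h2, h3⟩

/-- the proportion is positive as soon as there is one tuple -/
theorem kapS_pos (j : Ei ≃+* 𝓞 K) (hj : ∀ z : Ei, Algebra.norm ℤ (j z) = nr z)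
    {b : Fin m → 𝓞 K} (hb : ∀ i, FamO (b i)) {d : Fin r → 𝓞 K} (hd : ∀ i, FamO (d i))
    {a : ↥S → 𝓞 K} (ha : ∀ i, FamO (a i)) (h : ∀ p, ¬ ExO (tw S J₀ b d p a)) :
    0 < kapS S J₀ b d := by
  choose ca hca using fun i => isCl_ex j hj (ha i)
  choose cb hcb using fun i => isCl_ex j hj (fam_elim hb hd i)
  unfold kapS
  refine div_pos ?_ (by positivity)
  rw [Nat.cast_pos]
  have hfin : {u : ↥S → 𝓞 K | (∀ k, u k ∈ reps K) ∧ ∀ p, ¬ Nm1 (tw S J₀ b d p u)}.Finite := by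
    have h1 : (Set.range fun (c : ↥S → ZMod 3 × ZMod 3) (k : ↥S) => rp j (c k)).Finite :=
      Set.finite_range _
    refine h1.subset fun u hu => ?_
    have h2 : ∀ k, ∃ c, rp j c = u k := fun k => by
      have := hu.1 k
      rw [← rp_range j] at this
      exact this
    choose c hc using h2
    exact ⟨c, funext hc⟩
  rw [Set.ncard_pos hfin]
  refine ⟨fun k => rp j (ca k), fun k => ?_, fun p hp => ?_⟩
  · rw [← rp_range j]
    exact ⟨_, rfl⟩
  · apply h p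
    have h3 : IsCl (j w) (tw S J₀ b d p fun k => rp j (ca k))
        (∑ i : ↥S, (eT p.1.1 i) • ca i + ∑ i, (Sum.elim (fun i => if i ∈ S then 0 else eT p.1.1 i)
          fun i => (p.2 i).val : Fin m ⊕ Fin r → ℕ) i • cb i) := by
      rw [tw_eq]
      exact isCl_mul (w3 j) (isCl_dO (w3 j) _ fun k => rp_cl j hj _) (isCl_dO (w3 j) _ hcb)
    have h4 : IsCl (j w) (tw S J₀ b d p a)
        (∑ i : ↥S, (eT p.1.1 i) • ca i + ∑ i, (Sum.elim (fun i => if i ∈ S then 0 else eT p.1.1 i)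
          fun i => (p.2 i).val : Fin m ⊕ Fin r → ℕ) i • cb i) := by
      rw [tw_eq]
      exact isCl_mul (w3 j) (isCl_dO (w3 j) _ hca) (isCl_dO (w3 j) _ hcb)
    unfold Nm1 at hp
    rw [← isCl_zero (ω := j w)] at hp
    rw [exO_cl j hj h4]
    exact Or.inr (isCl_unique j hj h3 hp)

end

end Run7.h707.TF
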